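import Pool.Agent.Work.MP_be705b_al.GDefs

set_option autoImplicit false
set_option linter.unusedSectionVars false

/-!
# MP_be705b_al: forms in three variables, definitions

`Pol K = K[x, y, z]`, `H K d` the forms of degree `d`, `cubics K` the cubics without `x y z`, `N K` the span of the squares
of the variables.  `cf a b c f` is the coefficient of `x ^ a * y ^ b * z ^ c`.  `lin a` is the linear form with coefficient
vector `a`, `sq a` the diagonal quadric, `cr p` the quadric `p 0 * y z + p 1 * x z + p 2 * x y`; the cross part of a quadric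
`κ` is `hat κ` (so `κ = sq _ + cr (hat κ)`).  `KK l = {κ ∈ H 2 | l * κ ∈ cubics}`, `FF a b = KK a ⊓ KK b`.
-/

namespace Pool.Agent.BR

open MvPolynomial Submodule

abbrev Pol (K : Type*) [Field K] := MvPolynomial (Fin 3) K

/-- forms of degree `d` -/
abbrev H (K : Type*) [Field K] (d : ℕ) : Submodule K (Pol K) := homogeneousSubmodule (Fin 3) K d

/-- exponent of `x ^ a * y ^ b * z ^ c` -/
noncomputable def ex (a b c : ℕ) : Fin 3 →₀ ℕ :=
  Finsupp.single 0 a + Finsupp.single 1 b + Finsupp.single 2 c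

variable {K : Type*} [Field K]

/-- coefficient of `x ^ a * y ^ b * z ^ c` -/
noncomputable def cf (a b c : ℕ) : Pol K →ₗ[K] K := lcoeff K (ex a b c)

/-- linear form with the coefficients `a` -/
noncomputable def lin (a : Fin 3 → K) : Pol K := C (a 0) * X 0 + C (a 1) * X 1 + C (a 2) * X 2

/-- diagonal quadric -/
noncomputable def sq (a : Fin 3 → K) : Pol K := C (a 0) * X 0 ^ 2 + C (a 1) * X 1 ^ 2 + C (a 2) * X 2 ^ 2

/-- quadric without squares: `p 0 * y z + p 1 * x z + p 2 * x y` -/
noncomputable def cr (p : Fin 3 → K) : Pol K :=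
  C (p 0) * (X 1 * X 2) + C (p 1) * (X 0 * X 2) + C (p 2) * (X 0 * X 1)

/-- the cross part of a quadric: coefficients of `y z`, `x z`, `x y` -/
noncomputable def hat (κ : Pol K) : Fin 3 → K := ![cf 0 1 1 κ, cf 1 0 1 κ, cf 1 1 0 κ]

/-- the coefficients of the squares -/
noncomputable def dg (κ : Pol K) : Fin 3 → K := ![cf 2 0 0 κ, cf 0 2 0 κ, cf 0 0 2 κ]

/-- the coefficients of a linear form -/
noncomputable def lc (l : Pol K) : Fin 3 → K := ![cf 1 0 0 l, cf 0 1 0 l, cf 0 0 1 l]

/-- `a 0 * b 0 + a 1 * b 1 + a 2 * b 2` -/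
def dot (a b : Fin 3 → K) : K := a 0 * b 0 + a 1 * b 1 + a 2 * b 2

/-- the coefficient of `x y z` in `lin a * lin b * lin c` -/
def TT (a b c : Fin 3 → K) : K :=
  a 0 * (b 1 * c 2 + b 2 * c 1) + a 1 * (b 0 * c 2 + b 2 * c 0) + a 2 * (b 0 * c 1 + b 1 * c 0)

variable (K) in
/-- span of the squares of the variables -/
noncomputable def N : Submodule K (Pol K) := span K {X 0 ^ 2, X 1 ^ 2, X 2 ^ 2}

/-- quadrics `κ` such that `l * κ` has no `x y z` -/
noncomputable def KK (l : Pol K) : Submodule K (Pol K) :=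
  H K 2 ⊓ LinearMap.ker ((cf 1 1 1).comp (LinearMap.mulLeft K l))

/-- quadrics `κ` such that `l * κ` and `l' * κ` have no `x y z` -/
noncomputable def FF (l l' : Pol K) : Submodule K (Pol K) := KK l ⊓ KK l'

/-- the set of all `f * u`, `u ∈ U` -/
noncomputable def mulS (f : Pol K) (U : Submodule K (Pol K)) : Submodule K (Pol K) :=
  U.map (LinearMap.mulLeft K f)

/-- forms of degree `d` which vanish at `p` -/
noncomputable def IP (p : Fin 3 → K) (d : ℕ) : Submodule K (Pol K) :=
  H K d ⊓ LinearMap.ker (aeval p : Pol K →ₐ[K] K).toLinearMap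

end Pool.Agent.BR
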