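import Pool.Agent.Work.MP_be705b_al.Fl

set_option autoImplicit false

/-!
# MP_be705b_al: linear changes of coordinates of the ideal of the pinched Veronese ring

* `monos`: the nine monomials of degree three without `x y z`.
* `pvIdeal K`: the ideal of the pinched Veronese ring, the kernel of `K[t_0, ..., t_8] → K[x, y, z]`, `t_i ↦ monos i`.
* `change A`: the linear substitution `X j ↦ ∑ i, A i j * X i`.
* `map_change`: for invertible `g`, the ideal `(pvIdeal K).map (change g)` is the kernel of `aeval t` for linearly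
  independent `t i ∈ cubics K`.
-/

namespace Pool.Agent.BR

open MvPolynomial

/-- The nine monomials of degree three in `x, y, z` without `x y z`, in the order
`x^3, y^3, z^3, x^2 y, x y^2, y^2 z, y z^2, x^2 z, x z^2`. -/
noncomputable def monos (K : Type*) [Field K] : Fin 9 → MvPolynomial (Fin 3) K :=
  ![X 0 ^ 3, X 1 ^ 3, X 2 ^ 3, X 0 ^ 2 * X 1, X 0 * X 1 ^ 2, X 1 ^ 2 * X 2, X 1 * X 2 ^ 2,
    X 0 ^ 2 * X 2, X 0 * X 2 ^ 2]

/-- The ideal of the pinched Veronese ring: the kernel of the algebra homomorphism
`K[t_0, ..., t_8] → K[x, y, z]` which sends `t_i` to the monomial `monos K i`. -/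
noncomputable def pvIdeal (K : Type*) [Field K] : Ideal (MvPolynomial (Fin 9) K) :=
  RingHom.ker (aeval (monos K) : MvPolynomial (Fin 9) K →ₐ[K] MvPolynomial (Fin 3) K)

/-- The linear substitution with matrix `A`: the algebra homomorphism with `X j ↦ ∑ i, A i j * X i`. -/
noncomputable def change {K : Type*} [Field K] (A : Matrix (Fin 9) (Fin 9) K) :
    MvPolynomial (Fin 9) K →ₐ[K] MvPolynomial (Fin 9) K :=
  aeval fun j => ∑ i, C (A i j) * X i

variable {K : Type*} [Field K]

theorem change_X (A : Matrix (Fin 9) (Fin 9) K) (j : Fin 9) :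
    change A (X j) = ∑ i, C (A i j) * X i := by
  rw [change, aeval_X]

theorem change_C (A : Matrix (Fin 9) (Fin 9) K) (c : K) : change A (C c) = C c := by
  rw [change]
  exact aeval_C _ c

theorem change_comp (A B : Matrix (Fin 9) (Fin 9) K) (f : MvPolynomial (Fin 9) K) :
    change A (change B f) = change (A * B) f := by
  have h : (change A).comp (change B) = change (A * B) := by
    apply algHom_ext
    intro j
    rw [AlgHom.comp_apply, change_X, change_X, map_sum]
    simp only [map_mul, change_C, change_X, Matrix.mul_apply, map_sum, Finset.mul_sum, Finset.sum_mul]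
    rw [Finset.sum_comm]
    refine Finset.sum_congr rfl fun i _ => Finset.sum_congr rfl fun k _ => ?_
    ring
  exact DFunLike.congr_fun h f

theorem change_one (f : MvPolynomial (Fin 9) K) : change (1 : Matrix (Fin 9) (Fin 9) K) f = f := by
  have h : change (1 : Matrix (Fin 9) (Fin 9) K) = AlgHom.id K _ := by
    apply algHom_ext
    intro j
    rw [change_X, AlgHom.id_apply, Finset.sum_eq_single j]
    · simp
    · intro i _ hij
      rw [Matrix.one_apply_ne hij, map_zero, zero_mul]
    · intro h
      exact absurd (Finset.mem_univ j) h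
  rw [h, AlgHom.id_apply]

theorem monos_li : LinearIndependent K (monos K) := by
  have hinj : Function.Injective (![(3, 0, 0), (0, 3, 0), (0, 0, 3), (2, 1, 0), (1, 2, 0), (0, 2, 1),
      (0, 1, 2), (2, 0, 1), (1, 0, 2)] : Fin 9 → ℕ × ℕ × ℕ) := by decide
  have h := (mono_li (K := K)).comp _ hinj
  have e : monos K = (fun p : ℕ × ℕ × ℕ => (X 0 ^ p.1 * X 1 ^ p.2.1 * X 2 ^ p.2.2 : Pol K)) ∘
      (![(3, 0, 0), (0, 3, 0), (0, 0, 3), (2, 1, 0), (1, 2, 0), (0, 2, 1),
      (0, 1, 2), (2, 0, 1), (1, 0, 2)] : Fin 9 → ℕ × ℕ × ℕ) := by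
    funext i
    fin_cases i <;> simp [monos]
  rw [e]
  exact h

theorem monos_mem (i : Fin 9) : monos K i ∈ cubics K := by
  have key : ∀ a b c : ℕ, a + b + c = 3 → (a = 0 ∨ b = 0 ∨ c = 0) →
      ∀ f : Pol K, f = X 0 ^ a * X 1 ^ b * X 2 ^ c → f ∈ cubics K := by
    rintro a b c h1 h2 f rfl
    exact mono_mem_cubics h1 h2
  fin_cases i
  · exact key 3 0 0 (by norm_num) (by norm_num) _ (by simp [monos])
  · exact key 0 3 0 (by norm_num) (by norm_num) _ (by simp [monos])
  · exact key 0 0 3 (by norm_num) (by norm_num) _ (by simp [monos])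
  · exact key 2 1 0 (by norm_num) (by norm_num) _ (by simp [monos])
  · exact key 1 2 0 (by norm_num) (by norm_num) _ (by simp [monos])
  · exact key 0 2 1 (by norm_num) (by norm_num) _ (by simp [monos])
  · exact key 0 1 2 (by norm_num) (by norm_num) _ (by simp [monos])
  · exact key 2 0 1 (by norm_num) (by norm_num) _ (by simp [monos])
  · exact key 1 0 2 (by norm_num) (by norm_num) _ (by simp [monos])

/-- the new linear forms -/
noncomputable def newForms (A : Matrix (Fin 9) (Fin 9) K) : Fin 9 → Pol K :=
  fun j => ∑ i, A i j • monos K i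

theorem newForms_mem (A : Matrix (Fin 9) (Fin 9) K) (j : Fin 9) : newForms A j ∈ cubics K :=
  Submodule.sum_mem _ fun i _ => Submodule.smul_mem _ _ (monos_mem i)

theorem newForms_li {A B : Matrix (Fin 9) (Fin 9) K} (h : B * A = 1) :
    LinearIndependent K (newForms A) := by
  rw [Fintype.linearIndependent_iff]
  intro c hc
  have h1 : ∑ i, (∑ j, A i j * c j) • monos K i = 0 := by
    rw [← hc]
    simp only [newForms, Finset.smul_sum, Finset.sum_smul]
    rw [Finset.sum_comm]
    refine Finset.sum_congr rfl fun i _ => Finset.sum_congr rfl fun k _ => ?_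
    rw [smul_smul, mul_comm]
  have h2 := Fintype.linearIndependent_iff.1 (monos_li (K := K)) _ h1
  have h3 : A.mulVec c = 0 := by
    funext i
    exact h2 i
  have h4 : c = 0 := by
    have h5 : B.mulVec (A.mulVec c) = 0 := by rw [h3, Matrix.mulVec_zero]
    rwa [Matrix.mulVec_mulVec, h, Matrix.one_mulVec] at h5
  intro i
  rw [h4]
  rfl

theorem map_change {A B : Matrix (Fin 9) (Fin 9) K} (hAB : A * B = 1) (hBA : B * A = 1) :
    (pvIdeal K).map (change B) = RingHom.ker (aeval (R := K) (newForms A)) := by
  have e : ∀ f : MvPolynomial (Fin 9) K,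
      aeval (newForms A) f = aeval (monos K) (change A f) := by
    intro f
    have h : (aeval (newForms A) : MvPolynomial (Fin 9) K →ₐ[K] Pol K) =
        (aeval (monos K) : MvPolynomial (Fin 9) K →ₐ[K] Pol K).comp (change A) := by
      apply algHom_ext
      intro j
      rw [aeval_X, AlgHom.comp_apply, change_X, map_sum, newForms]
      refine Finset.sum_congr rfl fun i _ => ?_
      rw [map_mul, aeval_X, aeval_C, Algebra.smul_def]
    exact DFunLike.congr_fun h f
  apply le_antisymm
  · rw [Ideal.map_le_iff_le_comap]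
    intro f hf
    rw [Ideal.mem_comap, RingHom.mem_ker]
    have h1 : aeval (newForms A) (change B f) = 0 := by
      rw [e, change_comp, hAB, change_one]
      exact hf
    exact h1
  · intro f hf
    have h1 : aeval (monos K) (change A f) = 0 := by
      rw [← e]
      exact hf
    have h2 : change A f ∈ pvIdeal K := h1
    have h3 : change B (change A f) ∈ (pvIdeal K).map (change B) := Ideal.mem_map_of_mem _ h2
    rwa [change_comp, hBA, change_one] at h3

end Pool.Agent.BR
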