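import Pool.Agent.Work.MP_be705b_al.Flag

set_option autoImplicit false
set_option linter.unusedSectionVars false
set_option linter.unusedVariables false

/-!
# MP_be705b_al: counting cliques
-/

namespace Pool.Agent.BR

open Submodule Module

variable (K : Type*) {P : Type*} [Field K] [CommRing P] [IsDomain P] [Algebra K P] {n : ℕ}

/-- the symmetric edge relation -/
def Adj (t : Fin n → P) (i j : Fin n) : Prop := if i ≤ j then Gr K t i j else Gr K t j i

open Classical in
/-- the neighbours of `v` in `S` (`v` itself belongs to it iff `v` is a loop) -/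
noncomputable def nb (t : Fin n → P) (v : Fin n) (S : Finset (Fin n)) : Finset (Fin n) :=
  S.filter fun u => Adj K t v u

variable {K} {t : Fin n → P}

theorem adj_of_le {i j : Fin n} (h : i ≤ j) : Adj K t i j ↔ Gr K t i j := by
  rw [Adj, if_pos h]

theorem adj_symm {i j : Fin n} (h : Adj K t i j) : Adj K t j i := by
  rcases lt_trichotomy i j with h1 | h1 | h1
  · rw [adj_of_le h1.le] at h
    rw [Adj, if_neg (not_le.2 h1)]
    exact h
  · subst h1
    exact h
  · rw [adj_of_le h1.le]
    rw [Adj, if_neg (not_le.2 h1)] at h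
    exact h

theorem adj_comm {i j : Fin n} : Adj K t i j ↔ Adj K t j i := ⟨adj_symm, adj_symm⟩

theorem mem_nb {u v : Fin n} {S : Finset (Fin n)} : u ∈ nb K t v S ↔ u ∈ S ∧ Adj K t v u := by
  simp [nb]

theorem nb_mono (v : Fin n) {S S' : Finset (Fin n)} (h : S ⊆ S') : nb K t v S ⊆ nb K t v S' := by
  intro u hu
  rw [mem_nb] at hu ⊢
  exact ⟨h hu.1, hu.2⟩

theorem cl_zero (S : Finset (Fin n)) : cl K t 0 S = 1 := by
  simp [cl]

open Classical in
theorem cl_succ (d : ℕ) (S : Finset (Fin n)) :
    cl K t (d + 1) S = ∑ v ∈ S, cl K t d (S.filter fun u => v ≤ u ∧ Gr K t v u) := by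
  rw [cl]

theorem cl_one (S : Finset (Fin n)) : cl K t 1 S = S.card := by
  rw [cl_succ]
  simp [cl_zero]

theorem cl_empty (d : ℕ) : cl K t (d + 1) ∅ = 0 := by
  rw [cl_succ]
  simp

theorem cl_mono (d : ℕ) {S S' : Finset (Fin n)} (h : S ⊆ S') : cl K t d S ≤ cl K t d S' := by
  classical
  induction d generalizing S S' with
  | zero => rw [cl_zero, cl_zero]
  | succ d ih =>
    rw [cl_succ, cl_succ]
    refine (Finset.sum_le_sum fun v _ => ih (Finset.filter_subset_filter _ h)).trans ?_
    exact Finset.sum_le_sum_of_subset h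

/-- splitting at the smallest element -/
theorem cl_min (d : ℕ) {S : Finset (Fin n)} {j : Fin n} (hj : j ∈ S) (hmin : ∀ i ∈ S, j ≤ i) :
    cl K t (d + 1) S = cl K t d (nb K t j S) + cl K t (d + 1) (S.erase j) := by
  classical
  rw [cl_succ, cl_succ, ← Finset.add_sum_erase S _ hj]
  congr 1
  · congr 1
    ext u
    rw [Finset.mem_filter, mem_nb]
    constructor
    · rintro ⟨h1, h2, h3⟩
      exact ⟨h1, (adj_of_le h2).2 h3⟩
    · rintro ⟨h1, h2⟩
      exact ⟨h1, hmin u h1, (adj_of_le (hmin u h1)).1 h2⟩
  · refine Finset.sum_congr rfl fun v hv => ?_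
    congr 1
    ext u
    simp only [Finset.mem_filter, Finset.mem_erase]
    constructor
    · rintro ⟨h1, h2, h3⟩
      refine ⟨⟨?_, h1⟩, h2, h3⟩
      rintro rfl
      obtain ⟨h4, h5⟩ := Finset.mem_erase.1 hv
      exact h4 (le_antisymm h2 (hmin v h5))
    · rintro ⟨⟨_, h1⟩, h2, h3⟩
      exact ⟨h1, h2, h3⟩

/-- splitting at an arbitrary element -/
theorem cl_erase (d : ℕ) {S : Finset (Fin n)} {v : Fin n} (hv : v ∈ S) :
    cl K t (d + 1) S = cl K t d (nb K t v S) + cl K t (d + 1) (S.erase v) := by
  classical
  induction d generalizing S with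
  | zero =>
    rw [cl_zero, cl_one, cl_one, Finset.card_erase_of_mem hv]
    have := Finset.card_pos.2 ⟨v, hv⟩
    omega
  | succ d ih =>
    -- induction on the size of `S`, removing the smallest element
    induction hS : S.card generalizing S with
    | zero =>
      rw [Finset.card_eq_zero] at hS
      rw [hS] at hv
      simp at hv
    | succ m ihm =>
      obtain ⟨j, hj, hmin⟩ := Finset.exists_min_image S id ⟨v, hv⟩
      simp only [id] at hmin
      by_cases hjv : j = v
      · subst hjv
        exact cl_min _ hj hmin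
      · have hvj : v ∈ S.erase j := Finset.mem_erase.2 ⟨Ne.symm hjv, hv⟩
        have hjv' : j ∈ S.erase v := Finset.mem_erase.2 ⟨hjv, hj⟩
        have e1 := cl_min (K := K) (t := t) (d + 1) hj hmin
        have e2 := cl_min (K := K) (t := t) (d + 1) hjv' fun i hi => hmin i (Finset.mem_of_mem_erase hi)
        have e3 := ihm hvj (by rw [Finset.card_erase_of_mem hj, hS]; rfl)
        have e4 : nb K t j (S.erase v) = (nb K t j S).erase v := by
          ext u
          simp only [mem_nb, Finset.mem_erase]
          tauto
        have e5 : nb K t v (S.erase j) = (nb K t v S).erase j := by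
          ext u
          simp only [mem_nb, Finset.mem_erase]
          tauto
        have e6 : (S.erase v).erase j = (S.erase j).erase v := Finset.erase_right_comm
        rw [e1, e3, e2, e4, e5, e6]
        by_cases ha : Adj K t j v
        · have hv1 : v ∈ nb K t j S := mem_nb.2 ⟨hv, ha⟩
          have hj1 : j ∈ nb K t v S := mem_nb.2 ⟨hj, adj_symm ha⟩
          have f1 := ih hv1
          have f2 := cl_min (K := K) (t := t) d hj1 fun i hi => hmin i (mem_nb.1 hi).1
          have f3 : nb K t v (nb K t j S) = nb K t j (nb K t v S) := by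
            ext u
            simp only [mem_nb]
            tauto
          rw [f3] at f1
          omega
        · have hv1 : v ∉ nb K t j S := fun h => ha (mem_nb.1 h).2
          have hj1 : j ∉ nb K t v S := fun h => ha (adj_symm (mem_nb.1 h).2)
          rw [Finset.erase_eq_of_notMem hv1, Finset.erase_eq_of_notMem hj1]
          omega

end Pool.Agent.BR
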