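import Pool.Agent.Work.MP_be705b_al.Fl

set_option autoImplicit false
set_option linter.unusedSectionVars false
set_option linter.unusedVariables false

/-!
# MP_be705b_al: a nilpotent element is no loop

`LL.g2_cube` : if `u ^ 3 ∈ U * W ^ 2` and the initial variable `i` of `u` is in `out U`, then `i` is no loop.
-/

namespace Pool.Agent.BR

open Submodule Module

variable {K : Type*} {P : Type*} [Field K] [CommRing P] [IsDomain P] [Algebra K P] {n : ℕ}
  {t : Fin n → P}

theorem LL.g2_cube (hli : LinearIndependent K t) {U : Submodule K P} (h : LL K t U)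
    (hU : U ≤ Wt K t) {u : P} {i : Fin n} (hi : IsIn K t u i)
    (h1 : i ∈ out K t U) (huu : u * u * u ∈ U * Wt K t ^ 2) : ¬ Adj K t i i := by
  suffices H : ∀ (m : ℕ) (U : Submodule K P), (out K t U).card = m → LL K t U → U ≤ Wt K t →
      i ∈ out K t U → u * u * u ∈ U * Wt K t ^ 2 → ¬ Adj K t i i from H _ U rfl h hU h1 huu
  clear huu h1 hU h U
  intro m
  induction m with
  | zero =>
    intro U hm _ _ h1
    rw [Finset.card_eq_zero] at hm
    rw [hm] at h1
    simp at h1
  | succ m ih =>
    intro U hm h hU h1 huu hadj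
    obtain ⟨j, hj, hmin⟩ := Finset.exists_min_image (out K t U) id (Finset.card_pos.1 (by omega))
    simp only [id] at hmin
    have hV := V_le_of_min hmin
    have hjU := t_notMem_of_out hj
    by_cases hij : i = j
    · subst hij
      obtain ⟨c, v, hv, rfl⟩ := mem_V_succ.1 hi.1
      have hc : c ≠ 0 := by
        rintro rfl
        apply hi.2
        rwa [zero_smul, zero_add]
      have hW : c • t i + v ∈ Wt K t := V_le_W _ hi.1
      set w := c • t i + v with hw
      have hww : w * w ∈ Wt K t ^ 2 := by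
        rw [pow_two]
        exact mul_mem_mul hW hW
      have e1 : w * w * t i ∈ U * Wt K t ^ 2 := by
        have e2 : v * (w * w) ∈ U * Wt K t ^ 2 := mul_mem_mul (hV hv) hww
        have e3 := smul_mem _ c⁻¹ (sub_mem huu e2)
        have e4 : c⁻¹ • (w * w * w - v * (w * w)) = w * w * t i := by
          have e5 : w * w * w - v * (w * w) = c • (w * w * t i) := by
            nth_rewrite 3 [hw]
            rw [mul_add, mul_smul_comm, mul_comm (w * w) v, add_sub_cancel_right]
          rw [e5, smul_smul, inv_mul_cancel₀ hc, one_smul]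
        rwa [e4] at e3
      have e2 := h.mem_of_mul hli hU hV hjU 1 (a := w * w) hww e1
      rw [pow_one] at e2
      have hU' : U ⊔ A K t i ≤ Wt K t := sup_le hU (A_le_W i)
      have h' := h.sup_A hli hU hV hjU
      have h3 : i ∈ out K t (U ⊔ A K t i) := by
        rw [h.out_sup_A hli hU hV hjU]
        exact mem_nb.2 ⟨h1, hadj⟩
      exact h'.g2 hli hU' hi hi h3 h3 e2 hadj
    · refine ih (U ⊔ span K {t j}) ?_ (h.sup_t hli hU hV) (W_sup_le hU j) ?_ ?_ hadj
      · rw [out_sup_t hli hV, Finset.card_erase_of_mem hj, hm]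
        rfl
      · rw [out_sup_t hli hV]
        exact Finset.mem_erase.2 ⟨hij, h1⟩
      · have hle : U * Wt K t ^ 2 ≤ (U ⊔ span K {t j}) * Wt K t ^ 2 := mul_le_mul_left le_sup_left _
        exact hle huu

variable {K : Type*} [Field K] {t : Fin 9 → Pol K}

/-- a nilpotent element is no loop -/
theorem Fl.g2_cube (h : Fl t) {U : Submodule K (Pol K)} (hU : U ≤ cubics K) (hL : LL K t U)
    {u : Pol K} {i : Fin 9} (hi : IsIn K t u i) (h1 : i ∈ out K t U)
    (huu : u * u * u ∈ U * H K 6) : ¬ Adj K t i i :=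
  hL.g2_cube h.li (by rw [h.sp]; exact hU) hi h1 (by rw [h.pow2]; exact huu)

/-- exactness: removing the smallest variable `t j` outside of `U` -/
theorem Fl.exact (h : Fl t) {U : Submodule K (Pol K)} (hU : U ≤ cubics K) (hL : LL K t U) {j : Fin 9}
    (hV : V K t j ≤ U) (hj : t j ∉ U) (d : ℕ) :
    cl K t (d + 1) (out K t U) = cl K t d (out K t (U ⊔ A K t j)) +
      cl K t (d + 1) (out K t (U ⊔ V K t ((j : ℕ) + 1))) := by
  have h1 : U ⊔ V K t ((j : ℕ) + 1) = U ⊔ span K {t j} := by
    rw [V_succ, ← sup_assoc, sup_eq_left.2 hV]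
  rw [h1, out_sup_t h.li hV, h.outSupA hU hL hV hj]
  exact cl_erase d (mem_out_of hV hj)

end Pool.Agent.BR
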