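import Pool.Agent.Work.MP_be705b_al.Cl

set_option autoImplicit false
set_option linter.unusedSectionVars false
set_option linter.unusedVariables false

/-!
# MP_be705b_al: dimension counts

`g3` : for every `U ≤ W`: `dim W ^ (d+1) ≤ dim (U * W ^ d) + cl (d+1) (out U)`.
-/

namespace Pool.Agent.BR

open Submodule Module

variable {K : Type*} {P : Type*} [Field K] [CommRing P] [IsDomain P] [Algebra K P] {n : ℕ}
  {t : Fin n → P}

theorem fg_W : (Wt K t).FG := by
  show (V K t n).FG
  rw [V_top]
  exact fg_span (Set.finite_range t)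

theorem fg_pow (d : ℕ) : (Wt K t ^ d).FG := fg_W.pow d

instance fin_pow (d : ℕ) : Module.Finite K ↥(Wt K t ^ d) := Module.Finite.iff_fg.2 (fg_pow d)

theorem fin_of_le {X : Submodule K P} {d : ℕ} (h : X ≤ Wt K t ^ d) : Module.Finite K ↥X :=
  Submodule.finiteDimensional_of_le h

theorem mul_le_pow {U : Submodule K P} (hU : U ≤ Wt K t) (d : ℕ) :
    U * Wt K t ^ d ≤ Wt K t ^ (d + 1) := by
  rw [pow_succ']
  exact mul_le_mul_left hU _

theorem span_mul_eq (w : P) (X : Submodule K P) :
    span K {w} * X = X.map (LinearMap.mulRight K w) := by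
  apply le_antisymm
  · rw [mul_le]
    intro m hm x hx
    obtain ⟨c, rfl⟩ := mem_span_singleton.1 hm
    refine ⟨c • x, smul_mem _ _ hx, ?_⟩
    simp [mul_comm]
  · rintro _ ⟨x, hx, rfl⟩
    rw [LinearMap.mulRight_apply, mul_comm x w]
    exact mul_mem_mul (mem_span_singleton_self w) hx

theorem mulRight_inj {w : P} (hw : w ≠ 0) : Function.Injective (LinearMap.mulRight K w) := by
  intro a b hab
  simp only [LinearMap.mulRight_apply] at hab
  exact mul_right_cancel₀ hw hab

theorem col_le {U : Submodule K P} {w : P} {d : ℕ} : col K t U w d ≤ Wt K t ^ d := inf_le_left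

/-- the exact sequence `0 → R/(U:w)(-1) → R/(U) → R/(U,w) → 0` in numbers -/
theorem dim_step {U : Submodule K P} (hU : U ≤ Wt K t) {w : P} (hw : w ≠ 0) (hwW : w ∈ Wt K t) (d : ℕ) :
    finrank K ↥((U ⊔ span K {w}) * Wt K t ^ d) + finrank K ↥(col K t U w d) =
      finrank K ↥(U * Wt K t ^ d) + finrank K ↥(Wt K t ^ d) := by
  have h1 : (U ⊔ span K {w}) * Wt K t ^ d =
      U * Wt K t ^ d ⊔ (Wt K t ^ d).map (LinearMap.mulRight K w) := by
    rw [Submodule.sup_mul, span_mul_eq]
  have h2 : U * Wt K t ^ d ⊓ (Wt K t ^ d).map (LinearMap.mulRight K w) =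
      (col K t U w d).map (LinearMap.mulRight K w) := by
    ext x
    simp only [mem_inf, mem_map, LinearMap.mulRight_apply, mem_col]
    constructor
    · rintro ⟨hx, a, ha, rfl⟩
      exact ⟨a, ⟨ha, hx⟩, rfl⟩
    · rintro ⟨a, ⟨ha, hx⟩, rfl⟩
      exact ⟨hx, a, ha, rfl⟩
  have h3 : finrank K ↥((Wt K t ^ d).map (LinearMap.mulRight K w)) = finrank K ↥(Wt K t ^ d) :=
    (LinearEquiv.finrank_eq (equivMapOfInjective _ (mulRight_inj hw) _)).symm
  have h4 : finrank K ↥((col K t U w d).map (LinearMap.mulRight K w)) = finrank K ↥(col K t U w d) :=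
    (LinearEquiv.finrank_eq (equivMapOfInjective _ (mulRight_inj hw) _)).symm
  have : Module.Finite K ↥(U * Wt K t ^ d) := fin_of_le (mul_le_pow hU d)
  have : Module.Finite K ↥((Wt K t ^ d).map (LinearMap.mulRight K w)) :=
    Module.Finite.iff_fg.2 ((fg_pow d).map _)
  have h5 := finrank_sup_add_finrank_inf_eq (U * Wt K t ^ d) ((Wt K t ^ d).map (LinearMap.mulRight K w))
  rw [h2, h3, h4, ← h1] at h5
  exact h5

theorem col_zero {U : Submodule K P} {w : P} (hw : w ∉ U) : finrank K ↥(col K t U w 0) = 0 := by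
  have h1 : col K t U w 0 = ⊥ := by
    rw [eq_bot_iff]
    intro a ha
    obtain ⟨h1, h2⟩ := mem_col.1 ha
    rw [pow_zero] at h1 h2
    rw [mul_one] at h2
    obtain ⟨c, rfl⟩ := mem_one.1 h1
    rw [mem_bot]
    by_contra hc
    have hc' : c ≠ 0 := by
      rintro rfl
      exact hc (map_zero _)
    apply hw
    have h3 := smul_mem U c⁻¹ h2
    rwa [← Algebra.smul_def, smul_smul, inv_mul_cancel₀ hc', one_smul] at h3
  rw [h1]
  exact finrank_bot K P

theorem sup_A_mul_le {U : Submodule K P} (hU : U ≤ Wt K t) {j : Fin n} (hV : V K t j ≤ U) (d : ℕ) :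
    (U ⊔ A K t j) * Wt K t ^ d ≤ col K t U (t j) (d + 1) := by
  rw [Submodule.sup_mul]
  refine sup_le ?_ ?_
  · intro x hx
    refine mem_col.2 ⟨mul_le_pow hU d hx, ?_⟩
    rw [pow_succ, ← mul_assoc]
    exact mul_mem_mul hx (t_mem_W j)
  · rw [mul_le]
    intro a ha b hb
    obtain ⟨h1, h2⟩ := mem_A.1 ha
    refine mem_col.2 ⟨?_, ?_⟩
    · rw [pow_succ']
      exact mul_mem_mul h1 hb
    · have h3 : a * b * t j = (a * t j) * b := by ring
      rw [h3, pow_succ', ← mul_assoc]
      exact mul_mem_mul (mul_le_mul_left hV _ h2) hb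

theorem t_ne_zero (hli : LinearIndependent K t) (j : Fin n) : t j ≠ 0 := hli.ne_zero j

/-- if `j` is the smallest element of `out U` then `V j ≤ U` -/
theorem V_le_of_min {U : Submodule K P} {j : Fin n} (hmin : ∀ i ∈ out K t U, j ≤ i) : V K t j ≤ U := by
  refine V_le_of_inn fun i hi => ?_
  by_contra h
  exact absurd (hmin i (notMem_inn.1 h)) (not_le.2 hi)

theorem t_notMem_of_out {U : Submodule K P} {j : Fin n} (hj : j ∈ out K t U) : t j ∉ U := by
  intro h
  have := mem_out.1 hj 0 (zero_mem _)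
  rw [add_zero] at this
  exact this h

theorem out_min_of {U : Submodule K P} {j : Fin n} (hV : V K t j ≤ U) (i : Fin n) (hi : i ∈ out K t U) :
    j ≤ i := by
  by_contra h
  exact notMem_inn.2 hi (mem_inn_of_le hV (not_le.1 h))

theorem mem_out_of {U : Submodule K P} {j : Fin n} (hV : V K t j ≤ U) (hj : t j ∉ U) :
    j ∈ out K t U := by
  rw [← notMem_inn]
  intro h
  exact hj (t_mem_of_inn hV h)

theorem sup_t_eq {U : Submodule K P} {j : Fin n} (hV : V K t j ≤ U) :
    U ⊔ span K {t j} = U ⊔ V K t ((j : ℕ) + 1) := by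
  rw [V_succ, ← sup_assoc, sup_eq_left.2 hV]

theorem out_sup_t (hli : LinearIndependent K t) {U : Submodule K P} {j : Fin n} (hV : V K t j ≤ U) :
    out K t (U ⊔ span K {t j}) = (out K t U).erase j := by
  ext i
  rw [sup_t_eq hV, ← notMem_inn, inn_sup_V hli, Finset.mem_erase, ← notMem_inn]
  constructor
  · intro h
    push Not at h
    refine ⟨?_, h.1⟩
    rintro rfl
    omega
  · rintro ⟨h1, h2⟩ h
    rcases h with h | h
    · exact h2 h
    · refine h2 (mem_inn_of_le hV ?_)
      have := Fin.val_ne_of_ne h1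
      omega

theorem W_sup_le {U : Submodule K P} (hU : U ≤ Wt K t) (j : Fin n) : U ⊔ span K {t j} ≤ Wt K t :=
  sup_le hU ((span_singleton_le_iff_mem _ _).2 (t_mem_W j))

/-- the complement of `inn U ∪ inn (A j)` -/
theorem nb_out {U : Submodule K P} {j : Fin n} (hV : V K t j ≤ U) (i : Fin n) :
    i ∈ nb K t j (out K t U) ↔ i ∈ out K t U ∧ i ∈ out K t (A K t j) := by
  rw [mem_nb]
  constructor
  · rintro ⟨h1, h2⟩
    refine ⟨h1, ?_⟩
    rw [adj_of_le (out_min_of hV i h1), Gr, notMem_inn] at h2
    exact h2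
  · rintro ⟨h1, h2⟩
    refine ⟨h1, ?_⟩
    rw [adj_of_le (out_min_of hV i h1), Gr, notMem_inn]
    exact h2

theorem out_sup_A_subset {U : Submodule K P} {j : Fin n} (hV : V K t j ≤ U) :
    out K t (U ⊔ A K t j) ⊆ nb K t j (out K t U) := by
  intro i hi
  rw [nb_out hV]
  exact ⟨out_mono le_sup_left hi, out_mono le_sup_right hi⟩

/-- degree one -/
theorem dim_one (hli : LinearIndependent K t) {U : Submodule K P} (hU : U ≤ Wt K t) :
    finrank K ↥U + (out K t U).card = finrank K ↥(Wt K t) := by
  induction hS : (out K t U).card generalizing U with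
  | zero =>
    rw [Finset.card_eq_zero] at hS
    rw [le_antisymm hU (W_le_of_inn hS), add_zero]
  | succ m ih =>
    obtain ⟨j, hj, hmin⟩ := Finset.exists_min_image (out K t U) id
      (Finset.card_pos.1 (by omega))
    simp only [id] at hmin
    have hV := V_le_of_min hmin
    have hjU := t_notMem_of_out hj
    have h1 := dim_step hU (t_ne_zero hli j) (t_mem_W (K := K) j) 0
    rw [col_zero hjU, pow_zero, mul_one, mul_one] at h1
    have h2 := ih (W_sup_le hU j) (by rw [out_sup_t hli hV, Finset.card_erase_of_mem hj, hS]; rfl)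
    have h3 : finrank K ↥(1 : Submodule K P) = 1 := by
      rw [one_eq_span]
      exact finrank_span_singleton one_ne_zero
    omega

/-- the lower bound for the ideal generated by `U`; no hypothesis on `t` -/
theorem g3 (hli : LinearIndependent K t) (d : ℕ) {U : Submodule K P} (hU : U ≤ Wt K t) :
    finrank K ↥(Wt K t ^ (d + 1)) ≤ finrank K ↥(U * Wt K t ^ d) + cl K t (d + 1) (out K t U) := by
  induction d generalizing U with
  | zero =>
    rw [zero_add, pow_one, pow_zero, mul_one, cl_one]
    exact (dim_one hli hU).ge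
  | succ d ih =>
    induction hS : (out K t U).card generalizing U with
    | zero =>
      rw [Finset.card_eq_zero] at hS
      rw [le_antisymm hU (W_le_of_inn hS), ← pow_succ']
      exact Nat.le_add_right _ _
    | succ m ihm =>
      obtain ⟨j, hj, hmin⟩ := Finset.exists_min_image (out K t U) id
        (Finset.card_pos.1 (by omega))
      simp only [id] at hmin
      have hV := V_le_of_min hmin
      have h1 := dim_step hU (t_ne_zero hli j) (t_mem_W (K := K) j) (d + 1)
      have h2 := ihm (W_sup_le hU j) (by rw [out_sup_t hli hV, Finset.card_erase_of_mem hj, hS]; rfl)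
      have h3 := ih (U := U ⊔ A K t j) (sup_le hU (A_le_W j))
      have : Module.Finite K ↥(col K t U (t j) (d + 1)) := fin_of_le col_le
      have h4 := finrank_mono (sup_A_mul_le hU hV d)
      have h5 := cl_mono (K := K) (t := t) (d + 1) (out_sup_A_subset hV)
      have h6 := cl_min (K := K) (t := t) (d + 1) hj hmin
      rw [out_sup_t hli hV] at h2
      omega

end Pool.Agent.BR
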