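import Pool.Agent.Work.MP_be705b_al.Forms3

set_option autoImplicit false
set_option linter.unusedSectionVars false
set_option linter.unusedVariables false

/-!
# MP_be705b_al: factorisation of forms
-/

namespace Pool.Agent.BR

open MvPolynomial Submodule Module

variable {K : Type*} [Field K]

/-- scaling of the variables by a new variable -/
private noncomputable def scl (K : Type*) [Field K] : Pol K →ₐ[K] Polynomial (Pol K) :=
  aeval (fun i => Polynomial.C (X i) * Polynomial.X)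

private theorem scl_monomial (d : Fin 3 →₀ ℕ) (c : K) :
    scl K (monomial d c) = Polynomial.C (monomial d c) * Polynomial.X ^ d.degree := by
  rw [scl, aeval_monomial, Finsupp.prod]
  simp_rw [mul_pow, Finset.prod_mul_distrib]
  rw [Finset.prod_pow_eq_pow_sum]
  have h1 : (monomial d c : Pol K) = C c * ∏ i ∈ d.support, X i ^ (d i) := by
    rw [monomial_eq, Finsupp.prod]
  rw [h1]
  simp only [map_mul, map_prod, map_pow]
  rw [← mul_assoc]
  rfl

private theorem scl_coeff (p : Pol K) (j : ℕ) : (scl K p).coeff j = homogeneousComponent j p := by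
  induction p using MvPolynomial.induction_on' with
  | monomial d c =>
    rw [scl_monomial, Polynomial.coeff_C_mul, Polynomial.coeff_X_pow]
    by_cases h : j = d.degree
    · rw [if_pos h, mul_one, homogeneousComponent_eq_self]
      rw [h]
      exact isHomogeneous_monomial c rfl
    · rw [if_neg h, mul_zero]
      symm
      rw [homogeneousComponent_of_mem (m := j) (n := d.degree) (isHomogeneous_monomial c rfl), if_neg h]
  | add p q hp hq => rw [map_add, Polynomial.coeff_add, hp, hq, map_add]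

private theorem scl_of_isHomogeneous {p : Pol K} {k : ℕ} (h : p.IsHomogeneous k) :
    scl K p = Polynomial.C p * Polynomial.X ^ k := by
  ext1 j
  rw [scl_coeff, Polynomial.coeff_C_mul, Polynomial.coeff_X_pow, homogeneousComponent_of_mem h]
  split_ifs <;> simp

private theorem scl_ne {p : Pol K} (h : p ≠ 0) : scl K p ≠ 0 := by
  intro h0
  apply h
  rw [← sum_homogeneousComponent p]
  apply Finset.sum_eq_zero
  intro j _
  rw [← scl_coeff, h0, Polynomial.coeff_zero]

private theorem isHomogeneous_of_scl {p : Pol K} {a : ℕ} (h : ∀ j, j ≠ a → (scl K p).coeff j = 0) :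
    p.IsHomogeneous a := by
  have h1 : p = homogeneousComponent a p := by
    conv_lhs => rw [← sum_homogeneousComponent p]
    by_cases ha : a < p.totalDegree + 1
    · rw [Finset.sum_eq_single a]
      · intro b _ hb
        rw [← scl_coeff, h b hb]
      · intro h'
        exact absurd (Finset.mem_range.mpr ha) h'
    · rw [homogeneousComponent_eq_zero a p (by omega)]
      apply Finset.sum_eq_zero
      intro b hb
      rw [← scl_coeff, h b]
      have := Finset.mem_range.mp hb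
      omega
  rw [h1]
  exact homogeneousComponent_isHomogeneous a p

/-- the factors of a form are forms -/
theorem homog_of_mul {p q : Pol K} {k : ℕ} (h : p * q ∈ H K k) (h0 : p * q ≠ 0) :
    ∃ a b, a + b = k ∧ p ∈ H K a ∧ q ∈ H K b := by
  have hp : p ≠ 0 := left_ne_zero_of_mul h0
  have hq : q ≠ 0 := right_ne_zero_of_mul h0
  have h1 := scl_of_isHomogeneous h
  rw [map_mul] at h1
  have hd := congrArg Polynomial.natDegree h1
  have ht := congrArg Polynomial.natTrailingDegree h1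
  rw [Polynomial.natDegree_mul (scl_ne hp) (scl_ne hq), Polynomial.natDegree_C_mul_X_pow _ _ h0] at hd
  rw [Polynomial.natTrailingDegree_mul (scl_ne hp) (scl_ne hq), Polynomial.C_mul_X_pow_eq_monomial,
    Polynomial.natTrailingDegree_monomial h0] at ht
  have h2 := Polynomial.natTrailingDegree_le_natDegree (scl K p)
  have h3 := Polynomial.natTrailingDegree_le_natDegree (scl K q)
  refine ⟨(scl K p).natDegree, (scl K q).natDegree, hd, ?_, ?_⟩
  · apply isHomogeneous_of_scl
    intro j hj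
    rcases Nat.lt_or_ge j (scl K p).natDegree with h4 | h4
    · exact Polynomial.coeff_eq_zero_of_lt_natTrailingDegree (by omega)
    · exact Polynomial.coeff_eq_zero_of_natDegree_lt (by omega)
  · apply isHomogeneous_of_scl
    intro j hj
    rcases Nat.lt_or_ge j (scl K q).natDegree with h4 | h4
    · exact Polynomial.coeff_eq_zero_of_lt_natTrailingDegree (by omega)
    · exact Polynomial.coeff_eq_zero_of_natDegree_lt (by omega)

theorem deg_inj {f : Pol K} {a b : ℕ} (ha : f ∈ H K a) (hb : f ∈ H K b) (h0 : f ≠ 0) : a = b :=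
  IsHomogeneous.inj_right ha hb h0

/-- the quotient of two forms is a form -/
theorem quot_mem {f g : Pol K} {a b : ℕ} (hf : f ∈ H K a) (h0 : f ≠ 0) (h : f * g ∈ H K (a + b)) :
    g ∈ H K b := by
  by_cases hg : g = 0
  · rw [hg]
    exact zero_mem _
  · obtain ⟨a', b', hab, h1, h2⟩ := homog_of_mul h (mul_ne_zero h0 hg)
    have h3 := deg_inj hf h1 h0
    have h4 : b' = b := by omega
    rwa [h4] at h2

theorem exists_quot {f g : Pol K} {a b : ℕ} (hf : f ∈ H K a) (h0 : f ≠ 0) (hg : g ∈ H K (a + b))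
    (hd : f ∣ g) : ∃ h ∈ H K b, g = f * h := by
  obtain ⟨h, rfl⟩ := hd
  exact ⟨h, quot_mem hf h0 hg, rfl⟩

theorem mem_mulS_of_dvd {f g : Pol K} {a b : ℕ} (hf : f ∈ H K a) (h0 : f ≠ 0) (hg : g ∈ H K (a + b))
    (hd : f ∣ g) : g ∈ mulS f (H K b) := by
  obtain ⟨h, hh, rfl⟩ := exists_quot hf h0 hg hd
  exact mul_mem_mulS hh

/-- no proper multiple has smaller degree -/
theorem eq_zero_of_dvd {f g : Pol K} {a b : ℕ} (hf : f ∈ H K a) (hg : g ∈ H K b) (hd : f ∣ g)
    (hab : b < a) : g = 0 := by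
  by_contra h0
  obtain ⟨h, rfl⟩ := hd
  obtain ⟨a', b', hab', h1, h2⟩ := homog_of_mul hg h0
  have h3 := deg_inj hf h1 (left_ne_zero_of_mul h0)
  omega

theorem mem_H0 {f : Pol K} : f ∈ H K 0 ↔ ∃ c : K, f = C c := by
  constructor
  · intro h
    have h1 : f.totalDegree = 0 := by
      have := IsHomogeneous.totalDegree_le h
      omega
    exact ⟨f.coeff 0, (totalDegree_eq_zero_iff_eq_C).1 h1⟩
  · rintro ⟨c, rfl⟩
    exact isHomogeneous_C _ c

theorem isUnit_of_H0 {f : Pol K} (h : f ∈ H K 0) (h0 : f ≠ 0) : IsUnit f := by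
  obtain ⟨c, rfl⟩ := mem_H0.1 h
  have hc : c ≠ 0 := by
    rintro rfl
    exact h0 (map_zero _)
  exact (IsUnit.mk0 c hc).map C

theorem mem_H0_of_isUnit {f : Pol K} (h : IsUnit f) : f ∈ H K 0 := by
  obtain ⟨g, hg⟩ := h.exists_right_inv
  have h1 : f * g ∈ H K 0 := by
    rw [hg]
    exact isHomogeneous_one _ _
  obtain ⟨a, b, hab, h2, _⟩ := homog_of_mul h1 (by rw [hg]; exact one_ne_zero)
  have : a = 0 := by omega
  rwa [this] at h2

theorem not_isUnit {f : Pol K} {a : ℕ} (hf : f ∈ H K (a + 1)) (h0 : f ≠ 0) : ¬ IsUnit f := by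
  intro h
  have := deg_inj hf (mem_H0_of_isUnit h) h0
  omega

/-- nonzero linear forms are irreducible -/
theorem irreducible_lin {l : Pol K} (hl : l ∈ H K 1) (h0 : l ≠ 0) : Irreducible l := by
  rw [irreducible_iff]
  refine ⟨not_isUnit hl h0, ?_⟩
  intro a b hab
  subst hab
  obtain ⟨i, j, hij, h1, h2⟩ := homog_of_mul hl h0
  have : (i = 0 ∧ j = 1) ∨ (i = 1 ∧ j = 0) := by omega
  rcases this with ⟨rfl, rfl⟩ | ⟨rfl, rfl⟩
  · exact Or.inl (isUnit_of_H0 h1 (left_ne_zero_of_mul h0))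
  · exact Or.inr (isUnit_of_H0 h2 (right_ne_zero_of_mul h0))

theorem prime_lin {l : Pol K} (hl : l ∈ H K 1) (h0 : l ≠ 0) : Prime l :=
  (irreducible_lin hl h0).prime

/-- syzygies of two coprime elements -/
theorem rel_syz {a b u v : Pol K} (hab : IsRelPrime a b) (hb : b ≠ 0) (h : a * u = b * v) :
    ∃ s, u = b * s ∧ v = a * s := by
  have h1 : b ∣ a * u := ⟨v, h⟩
  have h2 : b ∣ u := hab.symm.dvd_of_dvd_mul_left h1
  obtain ⟨s, rfl⟩ := h2
  refine ⟨s, rfl, ?_⟩
  apply mul_left_cancel₀ hb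
  rw [← h]
  ring

theorem dvd_of_rel {a b u : Pol K} (hab : IsRelPrime a b) (h : a ∣ b * u) : a ∣ u :=
  hab.dvd_of_dvd_mul_left h

/-- a linear form which does not divide `f` is coprime to `f` -/
theorem relPrime_lin {l f : Pol K} (hl : l ∈ H K 1) (h0 : l ≠ 0) (h : ¬ l ∣ f) : IsRelPrime l f :=
  (irreducible_lin hl h0).isRelPrime_iff_not_dvd.2 h

theorem dvd_lin {l l' : Pol K} (hl : l ∈ H K 1) (hl' : l' ∈ H K 1) (h0 : l ≠ 0) (h : l ∣ l') :
    ∃ c : K, l' = C c * l := by
  obtain ⟨g, hg, rfl⟩ := exists_quot (a := 1) (b := 0) hl h0 hl' h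
  obtain ⟨c, rfl⟩ := mem_H0.1 hg
  exact ⟨c, mul_comm _ _⟩

theorem not_dvd_lin {l l' : Pol K} (hl : l ∈ H K 1) (hl' : l' ∈ H K 1)
    (h : LinearIndependent K ![l, l']) : ¬ l ∣ l' := by
  intro hd
  have h0 : l ≠ 0 := h.ne_zero 0
  obtain ⟨c, hc⟩ := dvd_lin hl hl' h0 hd
  rw [LinearIndependent.pair_iff] at h
  have := (h c (-1) (by rw [hc, smul_eq_C_mul, neg_smul, one_smul]; ring)).2
  exact one_ne_zero (neg_eq_zero.1 this)

theorem relPrime_lin_lin {l l' : Pol K} (hl : l ∈ H K 1) (hl' : l' ∈ H K 1)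
    (h : LinearIndependent K ![l, l']) : IsRelPrime l l' :=
  relPrime_lin hl (h.ne_zero 0) (not_dvd_lin hl hl' h)

/-- `gcd` of two forms -/
theorem exists_gcd {f g : Pol K} {a b : ℕ} (hf : f ∈ H K a) (hg : g ∈ H K b) (hf0 : f ≠ 0)
    (hg0 : g ≠ 0) : ∃ (k : ℕ) (d f' g' : Pol K), k ≤ a ∧ k ≤ b ∧ d ∈ H K k ∧ d ≠ 0 ∧
      f' ∈ H K (a - k) ∧ g' ∈ H K (b - k) ∧ f = d * f' ∧ g = d * g' ∧ IsRelPrime f' g' := by
  obtain ⟨f', g', d, hrel, h1, h2⟩ := UniqueFactorizationMonoid.exists_reduced_factors f hf0 g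
  have e1 : f = d * f' := h1.symm
  have e2 : g = d * g' := h2.symm
  have hd0 : d ≠ 0 := by
    rintro rfl
    rw [zero_mul] at e1
    exact hf0 e1
  rw [e1] at hf hf0
  rw [e2] at hg hg0
  obtain ⟨i, j, hij, h3, h4⟩ := homog_of_mul hf hf0
  obtain ⟨i', j', hij', h5, h6⟩ := homog_of_mul hg hg0
  have hii : i = i' := deg_inj h3 h5 hd0
  subst hii
  refine ⟨i, d, f', g', by omega, by omega, h3, hd0, ?_, ?_, e1, e2, hrel⟩
  · have : a - i = j := by omega
    rwa [this]
  · have : b - i = j' := by omega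
    rwa [this]

/-! ### evaluation at a point -/

theorem exists_eval_ne {p : Fin 3 → K} (hp : p ≠ 0) (d : ℕ) : ∃ f ∈ H K d, eval p f ≠ 0 := by
  obtain ⟨i, hi⟩ : ∃ i, p i ≠ 0 := by
    by_contra hcon
    push Not at hcon
    exact hp (funext hcon)
  refine ⟨X i ^ d, isHomogeneous_X_pow _ _, ?_⟩
  rw [map_pow, eval_X]
  exact pow_ne_zero _ hi

theorem IP_le (p : Fin 3 → K) (d : ℕ) : IP p d ≤ H K d := inf_le_left

theorem finrank_IP {p : Fin 3 → K} (hp : p ≠ 0) (d : ℕ) :
    finrank K ↥(IP p d) + 1 = finrank K ↥(H K d) := by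
  set φ : ↥(H K d) →ₗ[K] K := (aeval p : Pol K →ₐ[K] K).toLinearMap.domRestrict (H K d) with hφ
  have h1 : finrank K ↥(LinearMap.range φ) + finrank K ↥(LinearMap.ker φ) = finrank K ↥(H K d) :=
    LinearMap.finrank_range_add_finrank_ker φ
  have h2 : LinearMap.range φ = ⊤ := by
    obtain ⟨f, hf, hfp⟩ := exists_eval_ne hp d
    rw [eq_top_iff]
    intro c _
    refine ⟨(c / eval p f) • ⟨f, hf⟩, ?_⟩
    rw [map_smul, hφ, LinearMap.domRestrict_apply, AlgHom.toLinearMap_apply, aeval_eq_eval]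
    show (c / eval p f) • eval p f = c
    rw [smul_eq_mul, div_mul_cancel₀ _ hfp]
  rw [h2, finrank_top, finrank_self] at h1
  have h3 : finrank K ↥(LinearMap.ker φ) = finrank K ↥(IP p d) := by
    have h4 : IP p d = (LinearMap.ker φ).map (H K d).subtype := by
      ext f
      rw [mem_IP]
      constructor
      · rintro ⟨hf, hfp⟩
        refine ⟨⟨f, hf⟩, ?_, rfl⟩
        rw [SetLike.mem_coe, LinearMap.mem_ker, hφ, LinearMap.domRestrict_apply, AlgHom.toLinearMap_apply,
          aeval_eq_eval]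
        exact hfp
      · rintro ⟨g, hg, rfl⟩
        rw [SetLike.mem_coe, LinearMap.mem_ker, hφ, LinearMap.domRestrict_apply, AlgHom.toLinearMap_apply,
          aeval_eq_eval] at hg
        exact ⟨g.2, hg⟩
    rw [h4]
    exact LinearEquiv.finrank_eq (equivMapOfInjective _ (H K d).injective_subtype _)
  omega

theorem eval_lin (p u : Fin 3 → K) : eval p (lin u) = dot u p := by
  simp [lin, dot]

theorem IP_mul_le (p : Fin 3 → K) (a b : ℕ) : IP p a * H K b ≤ IP p (a + b) := by
  rw [mul_le]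
  intro f hf g hg
  obtain ⟨h1, h2⟩ := mem_IP.1 hf
  exact mem_IP.2 ⟨mul_mem_H h1 hg, by rw [map_mul, h2, zero_mul]⟩

end Pool.Agent.BR
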