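import Pool.Agent.Work.MP_be705b_al.Factor

set_option autoImplicit false
set_option linter.unusedSectionVars false
set_option linter.unusedVariables false

/-!
# MP_be705b_al: coordinates of the pinched Veronese ring in `LL`, transport under automorphisms
-/

namespace Pool.Agent.BR

open MvPolynomial Submodule Module

section transport

variable {K : Type*} {P : Type*} [Field K] [CommRing P] [IsDomain P] [Algebra K P] {n : ℕ}
  {t : Fin n → P} {φ : P →ₐ[K] P}

theorem V_map (j : ℕ) : V K (φ ∘ t) j = (V K t j).map φ.toLinearMap := by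
  rw [V, V, Submodule.map_span, Set.image_comp]
  rfl

theorem A_map (hφ : Function.Injective φ) (j : Fin n) : A K (φ ∘ t) j = (A K t j).map φ.toLinearMap := by
  have hinj : Function.Injective φ.toLinearMap := hφ
  ext w
  have hW : Wt K (φ ∘ t) = (Wt K t).map φ.toLinearMap := V_map n
  rw [mem_A, mem_map, hW, V_map, ← Submodule.map_mul]
  constructor
  · rintro ⟨h1, h2⟩
    obtain ⟨u, hu, rfl⟩ := mem_map.1 h1
    obtain ⟨v, hv, hvu⟩ := mem_map.1 h2
    refine ⟨u, mem_A.2 ⟨hu, ?_⟩, rfl⟩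
    have h3 : v = u * t j := by
      apply hφ
      rw [map_mul]
      exact hvu
    rwa [← h3]
  · rintro ⟨u, hu, rfl⟩
    obtain ⟨h1, h2⟩ := mem_A.1 hu
    refine ⟨mem_map.2 ⟨u, h1, rfl⟩, mem_map.2 ⟨u * t j, h2, ?_⟩⟩
    exact map_mul φ u (t j)

theorem inn_map (hφ : Function.Injective φ) (U : Submodule K P) :
    inn K (φ ∘ t) (U.map φ.toLinearMap) = inn K t U := by
  ext i
  rw [mem_inn, mem_inn, V_map]
  constructor
  · rintro ⟨v, hv, hu⟩
    obtain ⟨v', hv', rfl⟩ := mem_map.1 hv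
    obtain ⟨u, hu', he⟩ := mem_map.1 hu
    refine ⟨v', hv', ?_⟩
    have : u = t i + v' := by
      apply hφ
      rw [map_add]
      exact he
    rwa [← this]
  · rintro ⟨v, hv, hu⟩
    exact ⟨φ v, mem_map.2 ⟨v, hv, rfl⟩, mem_map.2 ⟨_, hu, map_add φ _ _⟩⟩

theorem Gr_map (hφ : Function.Injective φ) (i j : Fin n) : Gr K (φ ∘ t) i j ↔ Gr K t i j := by
  rw [Gr, Gr, A_map hφ, inn_map hφ]

theorem cl_map (hφ : Function.Injective φ) (d : ℕ) (S : Finset (Fin n)) :
    cl K (φ ∘ t) d S = cl K t d S := by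
  classical
  induction d generalizing S with
  | zero => rw [cl_zero, cl_zero]
  | succ d ih =>
    rw [cl_succ, cl_succ]
    refine Finset.sum_congr rfl fun v _ => ?_
    rw [ih]
    congr 1
    ext u
    simp only [Finset.mem_filter, Gr_map hφ]

theorem LL_map (hφ : Function.Injective φ) {U : Submodule K P} (h : LL K t U) :
    LL K (φ ∘ t) (U.map φ.toLinearMap) := by
  have hinj : Function.Injective φ.toLinearMap := hφ
  intro d
  have e1 : out K (φ ∘ t) (U.map φ.toLinearMap) = out K t U := by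
    rw [out, out, inn_map hφ]
  have e2 : ∀ X : Submodule K P, finrank K ↥(X.map φ.toLinearMap) = finrank K ↥X := fun X =>
    (LinearEquiv.finrank_eq (equivMapOfInjective _ hinj X)).symm
  show finrank K ↥(U.map φ.toLinearMap * V K (φ ∘ t) n ^ d) +
    cl K (φ ∘ t) (d + 1) (out K (φ ∘ t) (U.map φ.toLinearMap)) ≤ finrank K ↥(V K (φ ∘ t) n ^ (d + 1))
  rw [e1, V_map, ← Submodule.map_pow, ← Submodule.map_pow, ← Submodule.map_mul, e2, e2, cl_map hφ]
  exact h d

end transport

variable {K : Type*} [Field K]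

/-- coordinates of the pinched Veronese ring with `⊥ ∈ LL` -/
structure Fl (t : Fin 9 → Pol K) : Prop where
  li : LinearIndependent K t
  sp : Wt K t = cubics K
  ll : LL K t (⊥ : Submodule K (Pol K))

theorem fl_of_quadraticGB {t : Fin 9 → Pol K} (hli : LinearIndependent K t) (ht : ∀ i, t i ∈ cubics K)
    (hQ : QuadraticGB (RingHom.ker (aeval (R := K) t))) : Fl t := by
  refine ⟨hli, ?_, LL_bot hli hQ⟩
  have h1 : Wt K t ≤ cubics K := by
    show V K t 9 ≤ _
    rw [V_top, span_le]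
    rintro _ ⟨i, rfl⟩
    exact ht i
  have : Module.Finite K ↥(cubics K) := by
    have := finrank_cubics (K := K)
    exact Module.finite_of_finrank_pos (by omega)
  refine Submodule.eq_of_le_of_finrank_le h1 ?_
  have h2 : finrank K ↥(Wt K t) = 9 := by
    show finrank K ↥(V K t 9) = 9
    rw [V_top, finrank_span_eq_card hli, Fintype.card_fin]
  rw [finrank_cubics, h2]

theorem Fl.map {t : Fin 9 → Pol K} (h : Fl t) {φ : Pol K →ₐ[K] Pol K} (hφ : Function.Injective φ)
    (hc : ∀ w ∈ cubics K, φ w ∈ cubics K) : Fl (φ ∘ t) := by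
  have hinj : Function.Injective φ.toLinearMap := hφ
  have hli : LinearIndependent K (φ ∘ t) := by
    exact h.li.map' φ.toLinearMap (LinearMap.ker_eq_bot.2 hinj)
  refine ⟨hli, ?_, ?_⟩
  · have h1 : Wt K (φ ∘ t) ≤ cubics K := by
      show V K (φ ∘ t) 9 ≤ _
      rw [V_top, span_le]
      rintro _ ⟨i, rfl⟩
      refine hc _ ?_
      rw [← h.sp]
      exact t_mem_W i
    have : Module.Finite K ↥(cubics K) := by
      have := finrank_cubics (K := K)
      exact Module.finite_of_finrank_pos (by omega)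
    refine Submodule.eq_of_le_of_finrank_le h1 ?_
    have h2 : finrank K ↥(Wt K (φ ∘ t)) = 9 := by
      show finrank K ↥(V K (φ ∘ t) 9) = 9
      rw [V_top, finrank_span_eq_card hli, Fintype.card_fin]
    rw [finrank_cubics, h2]
  · have h1 := LL_map hφ h.ll
    rwa [Submodule.map_bot] at h1

namespace Fl

variable {t : Fin 9 → Pol K} (h : Fl t)

include h

theorem mem (i : Fin 9) : t i ∈ cubics K := by
  rw [← h.sp]
  exact t_mem_W i

theorem mem_H (i : Fin 9) : t i ∈ H K 3 := cubics_le (h.mem i)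

theorem ne (i : Fin 9) : t i ≠ 0 := h.li.ne_zero i

theorem pow_one' : Wt K t ^ 1 = cubics K := by rw [pow_one, h.sp]

theorem pow (d : ℕ) : Wt K t ^ (d + 2) = H K (3 * (d + 2)) := by rw [h.sp, cubics_pow]

theorem pow2 : Wt K t ^ 2 = H K 6 := h.pow 0

theorem pow3 : Wt K t ^ 3 = H K 9 := h.pow 1

theorem pow4 : Wt K t ^ 4 = H K 12 := h.pow 2

theorem V_le (j : ℕ) : V K t j ≤ cubics K := by
  rw [← h.sp]
  exact V_le_W j

theorem mem_A {j : Fin 9} {w : Pol K} :
    w ∈ A K t j ↔ w ∈ cubics K ∧ w * t j ∈ V K t j * cubics K := by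
  rw [Pool.Agent.BR.mem_A, h.sp]

/-- condition (a) in degree two -/
theorem colA2 (j : Fin 9) {a : Pol K} (ha : a ∈ H K 6) (hat : a * t j ∈ V K t j * H K 6) :
    a ∈ A K t j * cubics K := by
  have h1 := colA h.li h.ll j 1 (a := a) (by rw [h.pow2]; exact ha) (by rw [h.pow2]; exact hat)
  rwa [h.pow_one'] at h1

/-- condition (a) in degree three -/
theorem colA3 (j : Fin 9) {a : Pol K} (ha : a ∈ H K 9) (hat : a * t j ∈ V K t j * H K 9) :
    a ∈ A K t j * H K 6 := by
  have h1 := colA h.li h.ll j 2 (a := a) (by rw [h.pow3]; exact ha) (by rw [h.pow3]; exact hat)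
  rwa [h.pow2] at h1

/-- codimensions and cliques for members of `LL` -/
theorem cl1 {U : Submodule K (Pol K)} (hU : U ≤ cubics K) (hL : LL K t U) :
    finrank K ↥U + (out K t U).card = 9 := by
  have h1 := hL.eq h.li (by rw [h.sp]; exact hU) 0
  rw [zero_add, pow_one, pow_zero, mul_one, cl_one, h.sp, finrank_cubics] at h1
  exact h1.symm

theorem cl2 {U : Submodule K (Pol K)} (hU : U ≤ cubics K) (hL : LL K t U) :
    finrank K ↥(U * cubics K) + cl K t 2 (out K t U) = 28 := by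
  have h1 := hL.eq h.li (by rw [h.sp]; exact hU) 1
  rw [h.pow2, h.pow_one', finrank_H6] at h1
  exact h1.symm

theorem cl3 {U : Submodule K (Pol K)} (hU : U ≤ cubics K) (hL : LL K t U) :
    finrank K ↥(U * H K 6) + cl K t 3 (out K t U) = 55 := by
  have h1 := hL.eq h.li (by rw [h.sp]; exact hU) 2
  rw [h.pow3, h.pow2, finrank_H9] at h1
  exact h1.symm

theorem cl4 {U : Submodule K (Pol K)} (hU : U ≤ cubics K) (hL : LL K t U) :
    finrank K ↥(U * H K 9) + cl K t 4 (out K t U) = 91 := by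
  have h1 := hL.eq h.li (by rw [h.sp]; exact hU) 3
  rw [h.pow4, h.pow3, finrank_H12] at h1
  exact h1.symm

theorem A_le (j : Fin 9) : A K t j ≤ cubics K := by
  rw [← h.sp]
  exact A_le_W j

theorem llV (j : ℕ) : LL K t (V K t j) := LL.ofV h.li h.ll j

theorem llA (j : Fin 9) : LL K t (A K t j) := LL.ofA h.li h.ll j

theorem llSupV {U : Submodule K (Pol K)} (hU : U ≤ cubics K) (hL : LL K t U) (k : ℕ) :
    LL K t (U ⊔ V K t k) := hL.sup_V h.li (by rw [h.sp]; exact hU) k

theorem llSupA {U : Submodule K (Pol K)} (hU : U ≤ cubics K) (hL : LL K t U) {j : Fin 9}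
    (hV : V K t j ≤ U) (hj : t j ∉ U) : LL K t (U ⊔ A K t j) :=
  hL.sup_A h.li (by rw [h.sp]; exact hU) hV hj

theorem outSupA {U : Submodule K (Pol K)} (hU : U ≤ cubics K) (hL : LL K t U) {j : Fin 9}
    (hV : V K t j ≤ U) (hj : t j ∉ U) : out K t (U ⊔ A K t j) = nb K t j (out K t U) :=
  hL.out_sup_A h.li (by rw [h.sp]; exact hU) hV hj

theorem outA (j : Fin 9) : out K t (A K t j) = nb K t j (out K t (V K t j)) :=
  out_A_eq h.li h.ll j

/-- `(U : t j)` in degree one -/
theorem col1 {U : Submodule K (Pol K)} (hU : U ≤ cubics K) (hL : LL K t U) {j : Fin 9}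
    (hV : V K t j ≤ U) (hj : t j ∉ U) {a : Pol K} (ha : a ∈ cubics K)
    (hat : a * t j ∈ U * cubics K) : a ∈ U ⊔ A K t j := by
  have h1 := hL.mem_of_mul h.li (by rw [h.sp]; exact hU) hV hj 0 (a := a)
    (by rw [zero_add, h.pow_one']; exact ha) (by rw [zero_add, h.pow_one']; exact hat)
  rwa [pow_zero, mul_one] at h1

/-- `(U : t j)` in degree two -/
theorem col2 {U : Submodule K (Pol K)} (hU : U ≤ cubics K) (hL : LL K t U) {j : Fin 9}
    (hV : V K t j ≤ U) (hj : t j ∉ U) {a : Pol K} (ha : a ∈ H K 6)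
    (hat : a * t j ∈ U * H K 6) : a ∈ (U ⊔ A K t j) * cubics K := by
  have h1 := hL.mem_of_mul h.li (by rw [h.sp]; exact hU) hV hj 1 (a := a)
    (by rw [h.pow2]; exact ha) (by rw [h.pow2]; exact hat)
  rwa [h.pow_one'] at h1

/-- `(U + A j) * t j` in degree two -/
theorem mul1 {U : Submodule K (Pol K)} (hU : U ≤ cubics K) {j : Fin 9} (hV : V K t j ≤ U)
    {a : Pol K} (ha : a ∈ U ⊔ A K t j) : a * t j ∈ U * cubics K := by
  have h1 := LL.mul_mem (K := K) (t := t) h.li (U := U) (by rw [h.sp]; exact hU) hV 0 (a := a)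
    (by rwa [pow_zero, mul_one])
  rwa [zero_add, h.pow_one'] at h1

theorem loop_iff (j : Fin 9) : Adj K t j j ↔ t j ∉ A K t j := Pool.Agent.BR.loop_iff j

/-- a loop is a nonzerodivisor modulo `U + A j`, degree one -/
theorem nzd1 {U : Submodule K (Pol K)} (hU : U ≤ cubics K) (hL : LL K t U) {j : Fin 9}
    (hV : V K t j ≤ U) (hj : t j ∉ U) (hloop : Adj K t j j) {a : Pol K} (ha : a ∈ cubics K)
    (hat : a * t j ∈ (U ⊔ A K t j) * cubics K) : a ∈ U ⊔ A K t j := by
  have h1 := hL.nzd h.li (by rw [h.sp]; exact hU) hV hj hloop 0 (a := a)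
    (by rw [zero_add, h.pow_one']; exact ha) (by rw [zero_add, h.pow_one']; exact hat)
  rwa [pow_zero, mul_one] at h1

/-- a loop is a nonzerodivisor modulo `U + A j`, degree two -/
theorem nzd2 {U : Submodule K (Pol K)} (hU : U ≤ cubics K) (hL : LL K t U) {j : Fin 9}
    (hV : V K t j ≤ U) (hj : t j ∉ U) (hloop : Adj K t j j) {a : Pol K} (ha : a ∈ H K 6)
    (hat : a * t j ∈ (U ⊔ A K t j) * H K 6) : a ∈ (U ⊔ A K t j) * cubics K := by
  have h1 := hL.nzd h.li (by rw [h.sp]; exact hU) hV hj hloop 1 (a := a)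
    (by rw [h.pow2]; exact ha) (by rw [h.pow2]; exact hat)
  rwa [h.pow_one'] at h1

/-- a loop: `a * t j * t j ∈ U R` implies `a * t j ∈ U R`, `a` of degree one -/
theorem nil1 {U : Submodule K (Pol K)} (hU : U ≤ cubics K) (hL : LL K t U) {j : Fin 9}
    (hV : V K t j ≤ U) (hj : t j ∉ U) (hloop : Adj K t j j) {a : Pol K} (ha : a ∈ cubics K)
    (hat : a * t j * t j ∈ U * H K 6) : a * t j ∈ U * cubics K := by
  have h1 := hL.nzd' h.li (by rw [h.sp]; exact hU) hV hj hloop 0 (a := a)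
    (by rw [zero_add, h.pow_one']; exact ha) (by rw [zero_add, h.pow2]; exact hat)
  rwa [zero_add, h.pow_one'] at h1

/-- a loop: `a * t j * t j ∈ U R` implies `a * t j ∈ U R`, `a` of degree two -/
theorem nil2 {U : Submodule K (Pol K)} (hU : U ≤ cubics K) (hL : LL K t U) {j : Fin 9}
    (hV : V K t j ≤ U) (hj : t j ∉ U) (hloop : Adj K t j j) {a : Pol K} (ha : a ∈ H K 6)
    (hat : a * t j * t j ∈ U * H K 9) : a * t j ∈ U * H K 6 := by
  have h1 := hL.nzd' h.li (by rw [h.sp]; exact hU) hV hj hloop 1 (a := a)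
    (by rw [h.pow2]; exact ha) (by rw [h.pow3]; exact hat)
  rwa [h.pow2] at h1

/-- (G2) -/
theorem g2 {U : Submodule K (Pol K)} (hU : U ≤ cubics K) (hL : LL K t U) {u u' : Pol K}
    {i i' : Fin 9} (hi : IsIn K t u i) (hi' : IsIn K t u' i') (h1 : i ∈ out K t U)
    (h2 : i' ∈ out K t U) (huu : u * u' ∈ U * cubics K) : ¬ Adj K t i i' :=
  hL.g2 h.li (by rw [h.sp]; exact hU) hi hi' h1 h2 (by rw [h.sp]; exact huu)

/-- (G3), degree two -/
theorem g3_2 {U : Submodule K (Pol K)} (hU : U ≤ cubics K) :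
    28 ≤ finrank K ↥(U * cubics K) + cl K t 2 (out K t U) := by
  have h1 := g3 h.li 1 (U := U) (by rw [h.sp]; exact hU)
  rwa [h.pow2, h.pow_one', finrank_H6] at h1

/-- (G3), degree three -/
theorem g3_3 {U : Submodule K (Pol K)} (hU : U ≤ cubics K) :
    55 ≤ finrank K ↥(U * H K 6) + cl K t 3 (out K t U) := by
  have h1 := g3 h.li 2 (U := U) (by rw [h.sp]; exact hU)
  rwa [h.pow3, h.pow2, finrank_H9] at h1

end Fl

end Pool.Agent.BR
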