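import Mathlib

set_option autoImplicit false
set_option linter.unusedSectionVars false
set_option linter.unusedVariables false

/-!
# MP_be705b_al: flags of linear forms, initial variables, colon spaces

`P` is a commutative domain over the field `K`, `t : Fin n → P` are linearly independent, `W = V n` is their
span (the space of linear forms of the algebra `K[W]`), `V j` is the span of the first `j` of them
(`t 0` is the smallest variable).

* `inn U` : the initial variables of the subspace `U ≤ W`: `i ∈ inn U` iff `t i + v ∈ U` for some `v ∈ V i`.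
* `col U w d` : `(U : w)` in degree `d`, the set of all `a ∈ W ^ d` with `a * w ∈ U * W ^ d`.
* `A j = (V j : t j)` in degree one.
* `Gr i j` (used for `i ≤ j`): `j ∉ inn (A i)`; these are the edges (`T i * T j` is a standard monomial).
* `cl d S`: number of cliques (with repetition) with `d` members in `S`.
* `LL U` : `dim (W ^ (d+1) / U * W ^ d) = cl (d+1) (univ \ inn U)` for all `d`.
-/

namespace Pool.Agent.BR

open Submodule Module

variable (K : Type*) {P : Type*} [Field K] [CommRing P] [IsDomain P] [Algebra K P] {n : ℕ}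

/-- the span of the first `j` coordinates -/
def V (t : Fin n → P) (j : ℕ) : Submodule K P := span K (t '' {i | (i : ℕ) < j})

/-- all linear forms -/
abbrev Wt (t : Fin n → P) : Submodule K P := V K t n

/-- the colon space `(U : w)` in degree `d` -/
def col (t : Fin n → P) (U : Submodule K P) (w : P) (d : ℕ) : Submodule K P :=
  Wt K t ^ d ⊓ (U * Wt K t ^ d).comap (LinearMap.mulRight K w)

/-- `A j = (V j : t j)` in degree one -/
def A (t : Fin n → P) (j : Fin n) : Submodule K P :=
  Wt K t ⊓ (V K t j * Wt K t).comap (LinearMap.mulRight K (t j))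

open Classical in
/-- the initial variables of `U` -/
noncomputable def inn (t : Fin n → P) (U : Submodule K P) : Finset (Fin n) :=
  Finset.univ.filter fun i => ∃ v ∈ V K t i, t i + v ∈ U

/-- the edge relation, used for `i ≤ j` -/
def Gr (t : Fin n → P) (i j : Fin n) : Prop := j ∉ inn K t (A K t i)

open Classical in
/-- cliques with repetition -/
noncomputable def cl (t : Fin n → P) : ℕ → Finset (Fin n) → ℕ
  | 0, _ => 1
  | d + 1, S => ∑ v ∈ S, cl t d (S.filter fun u => v ≤ u ∧ Gr K t v u)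

/-- the complement of the initial variables -/
noncomputable def out (t : Fin n → P) (U : Submodule K P) : Finset (Fin n) := (inn K t U)ᶜ

/-- `in((U)) = J + in(U)`, in numbers -/
def LL (t : Fin n → P) (U : Submodule K P) : Prop :=
  ∀ d : ℕ, finrank K ↥(U * Wt K t ^ d) + cl K t (d + 1) (out K t U) ≤ finrank K ↥(Wt K t ^ (d + 1))

variable {K} {t : Fin n → P}

theorem V_zero : V K t 0 = ⊥ := by
  simp [V]

theorem V_mono {i j : ℕ} (h : i ≤ j) : V K t i ≤ V K t j :=
  span_mono (Set.image_mono fun _ hk => lt_of_lt_of_le hk h)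

theorem t_mem {i : Fin n} {j : ℕ} (h : (i : ℕ) < j) : t i ∈ V K t j :=
  subset_span ⟨i, h, rfl⟩

theorem V_succ (j : Fin n) : V K t ((j : ℕ) + 1) = V K t j ⊔ span K {t j} := by
  rw [V, V, ← span_union]
  congr 1
  ext x
  simp only [Set.mem_image, Set.mem_setOf_eq, Set.union_singleton, Set.mem_insert_iff]
  constructor
  · rintro ⟨i, hi, rfl⟩
    rcases Nat.lt_succ_iff_lt_or_eq.1 hi with h | h
    · exact Or.inr ⟨i, h, rfl⟩
    · left
      rw [Fin.ext h]
  · rintro (rfl | ⟨i, hi, rfl⟩)
    · exact ⟨j, Nat.lt_succ_self _, rfl⟩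
    · exact ⟨i, Nat.lt_succ_of_lt hi, rfl⟩

theorem V_top : V K t n = span K (Set.range t) := by
  rw [V]
  congr 1
  ext x
  simp

theorem V_le_W (j : ℕ) : V K t j ≤ Wt K t := by
  rw [V]
  refine span_le.2 ?_
  rintro _ ⟨i, _, rfl⟩
  exact t_mem i.2

theorem t_mem_W (i : Fin n) : t i ∈ Wt K t := t_mem i.2

theorem t_notMem (hli : LinearIndependent K t) (i : Fin n) : t i ∉ V K t i := by
  have h := hli.notMem_span_image (s := {k : Fin n | (k : ℕ) < i}) (x := i) (by simp)
  exact h

theorem mem_V_succ {j : Fin n} {u : P} :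
    u ∈ V K t ((j : ℕ) + 1) ↔ ∃ c : K, ∃ v ∈ V K t j, u = c • t j + v := by
  rw [V_succ, mem_sup]
  constructor
  · rintro ⟨v, hv, w, hw, rfl⟩
    obtain ⟨c, rfl⟩ := mem_span_singleton.1 hw
    exact ⟨c, v, hv, add_comm _ _⟩
  · rintro ⟨c, v, hv, rfl⟩
    exact ⟨v, hv, c • t j, mem_span_singleton.2 ⟨c, rfl⟩, add_comm _ _⟩

theorem mem_inn {U : Submodule K P} {i : Fin n} : i ∈ inn K t U ↔ ∃ v ∈ V K t i, t i + v ∈ U := by
  simp [inn]

theorem mem_out {U : Submodule K P} {i : Fin n} : i ∈ out K t U ↔ ∀ v ∈ V K t i, t i + v ∉ U := by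
  simp [out, inn]

theorem notMem_out {U : Submodule K P} {i : Fin n} : i ∉ out K t U ↔ i ∈ inn K t U := by
  simp [out]

theorem notMem_inn {U : Submodule K P} {i : Fin n} : i ∉ inn K t U ↔ i ∈ out K t U := by
  simp [out]

/-- the initial variable of an element which is in `V (i+1)` and not in `V i` -/
theorem mem_inn_of {U : Submodule K P} {i : Fin n} {u : P} (hu : u ∈ U) (h1 : u ∈ V K t ((i : ℕ) + 1))
    (h2 : u ∉ V K t i) : i ∈ inn K t U := by
  obtain ⟨c, v, hv, rfl⟩ := mem_V_succ.1 h1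
  have hc : c ≠ 0 := by
    rintro rfl
    apply h2
    rwa [zero_smul, zero_add]
  rw [mem_inn]
  refine ⟨c⁻¹ • v, smul_mem _ _ hv, ?_⟩
  have h3 := smul_mem U c⁻¹ hu
  rwa [smul_add, smul_smul, inv_mul_cancel₀ hc, one_smul] at h3

theorem inn_mono {U U' : Submodule K P} (h : U ≤ U') : inn K t U ⊆ inn K t U' := by
  intro i hi
  obtain ⟨v, hv, hu⟩ := mem_inn.1 hi
  exact mem_inn.2 ⟨v, hv, h hu⟩

theorem out_mono {U U' : Submodule K P} (h : U ≤ U') : out K t U' ⊆ out K t U :=
  Finset.compl_subset_compl.2 (inn_mono h)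

theorem mem_inn_of_le {U : Submodule K P} {j : ℕ} (h : V K t j ≤ U) {i : Fin n} (hi : (i : ℕ) < j) :
    i ∈ inn K t U :=
  mem_inn.2 ⟨0, zero_mem _, by rw [add_zero]; exact h (t_mem hi)⟩

theorem t_mem_of_inn {U : Submodule K P} {i : Fin n} (h : V K t i ≤ U) (hi : i ∈ inn K t U) :
    t i ∈ U := by
  obtain ⟨v, hv, hu⟩ := mem_inn.1 hi
  have h1 := sub_mem hu (h hv)
  rwa [add_sub_cancel_right] at h1

theorem inn_of_t_mem {U : Submodule K P} {i : Fin n} (hi : t i ∈ U) : i ∈ inn K t U :=
  mem_inn.2 ⟨0, zero_mem _, by rwa [add_zero]⟩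

theorem V_le_of_inn {U : Submodule K P} {j : ℕ} (h : ∀ i : Fin n, (i : ℕ) < j → i ∈ inn K t U) :
    V K t j ≤ U := by
  have h1 : ∀ k : ℕ, k ≤ j → V K t k ≤ U := by
    intro k
    induction k with
    | zero =>
      intro _
      rw [V_zero]
      exact bot_le
    | succ k ih =>
      intro hk
      have ih' := ih (Nat.le_of_succ_le hk)
      by_cases hkn : k < n
      · have h2 := V_succ (K := K) (t := t) ⟨k, hkn⟩
        simp only at h2
        rw [h2]
        refine sup_le ih' ?_
        rw [span_singleton_le_iff_mem]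
        exact t_mem_of_inn ih' (h ⟨k, hkn⟩ hk)
      · refine le_trans ?_ ih'
        rw [V]
        refine span_le.2 ?_
        rintro _ ⟨i, _, rfl⟩
        exact t_mem (lt_of_lt_of_le i.2 (not_lt.1 hkn))
  exact h1 j le_rfl

theorem W_le_of_inn {U : Submodule K P} (h : out K t U = ∅) : Wt K t ≤ U := by
  refine V_le_of_inn fun i _ => ?_
  rw [← notMem_out, h]
  simp

theorem inn_sup_V {U : Submodule K P} (hli : LinearIndependent K t) (k : ℕ) (i : Fin n) :
    i ∈ inn K t (U ⊔ V K t k) ↔ i ∈ inn K t U ∨ (i : ℕ) < k := by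
  constructor
  · intro hi
    by_cases hik : (i : ℕ) < k
    · exact Or.inr hik
    · left
      obtain ⟨v, hv, hu⟩ := mem_inn.1 hi
      obtain ⟨u, hu1, w, hw, he⟩ := mem_sup.1 hu
      refine mem_inn.2 ⟨v - w, sub_mem hv (V_mono (not_lt.1 hik) hw), ?_⟩
      have h1 : t i + (v - w) = u := by
        rw [← add_sub_assoc, ← he, add_sub_cancel_right]
      rwa [h1]
  · rintro (hi | hi)
    · exact inn_mono le_sup_left hi
    · exact mem_inn_of_le le_sup_right hi

theorem inn_V (hli : LinearIndependent K t) (k : ℕ) (i : Fin n) :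
    i ∈ inn K t (V K t k) ↔ (i : ℕ) < k := by
  constructor
  · intro hi
    by_contra hik
    obtain ⟨v, hv, hu⟩ := mem_inn.1 hi
    have h1 := sub_mem (V_mono (not_lt.1 hik) hu) hv
    rw [add_sub_cancel_right] at h1
    exact t_notMem hli i h1
  · intro hi
    exact mem_inn_of_le le_rfl hi

theorem inn_bot (hli : LinearIndependent K t) : inn K t (⊥ : Submodule K P) = ∅ := by
  ext i
  have h := inn_V (K := K) hli 0 i
  rw [V_zero] at h
  simp [h]

theorem A_le_W (j : Fin n) : A K t j ≤ Wt K t := inf_le_left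

theorem mem_A {j : Fin n} {w : P} : w ∈ A K t j ↔ w ∈ Wt K t ∧ w * t j ∈ V K t j * Wt K t := by
  simp [A]

theorem V_le_A (j : Fin n) : V K t j ≤ A K t j := by
  intro v hv
  exact mem_A.2 ⟨V_le_W _ hv, mul_mem_mul hv (t_mem_W j)⟩

theorem mem_col {U : Submodule K P} {w a : P} {d : ℕ} :
    a ∈ col K t U w d ↔ a ∈ Wt K t ^ d ∧ a * w ∈ U * Wt K t ^ d := by
  simp [col]

end Pool.Agent.BR
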