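import Pool.Agent.Work.MP_be705b_al.CDefs

set_option autoImplicit false
set_option linter.unusedSectionVars false
set_option linter.unusedVariables false

/-!
# MP_be705b_al: forms in three variables, basic facts
-/

namespace Pool.Agent.BR

open MvPolynomial Submodule Module

variable {K : Type*} [Field K]

theorem ex_apply0 (a b c : ℕ) : ex a b c 0 = a := by simp [ex]
theorem ex_apply1 (a b c : ℕ) : ex a b c 1 = b := by simp [ex]
theorem ex_apply2 (a b c : ℕ) : ex a b c 2 = c := by simp [ex]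

theorem ex_eta (m : Fin 3 →₀ ℕ) : ex (m 0) (m 1) (m 2) = m := by
  ext i
  fin_cases i
  · exact ex_apply0 _ _ _
  · exact ex_apply1 _ _ _
  · exact ex_apply2 _ _ _

theorem ex_inj {a b c a' b' c' : ℕ} : ex a b c = ex a' b' c' ↔ a = a' ∧ b = b' ∧ c = c' := by
  constructor
  · intro h
    refine ⟨?_, ?_, ?_⟩
    · rw [← ex_apply0 a b c, h, ex_apply0]
    · rw [← ex_apply1 a b c, h, ex_apply1]
    · rw [← ex_apply2 a b c, h, ex_apply2]
  · rintro ⟨rfl, rfl, rfl⟩
    rfl

theorem ex_degree (a b c : ℕ) : (ex a b c).degree = a + b + c := by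
  simp [ex, Finsupp.degree_single]

theorem ex_add (a b c a' b' c' : ℕ) : ex a b c + ex a' b' c' = ex (a + a') (b + b') (c + c') := by
  ext i
  fin_cases i
  · simp [ex]
  · simp [ex]
  · simp [ex]

theorem cf_apply (a b c : ℕ) (f : Pol K) : cf a b c f = coeff (ex a b c) f := rfl

/-- `x ^ a * y ^ b * z ^ c` -/
theorem mono_eq (a b c : ℕ) : (X 0 ^ a * X 1 ^ b * X 2 ^ c : Pol K) = monomial (ex a b c) 1 := by
  rw [ex, X_pow_eq_monomial, X_pow_eq_monomial, X_pow_eq_monomial, monomial_mul, monomial_mul]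
  simp

theorem mono_mem (a b c : ℕ) : (X 0 ^ a * X 1 ^ b * X 2 ^ c : Pol K) ∈ H K (a + b + c) := by
  rw [mono_eq, mem_homogeneousSubmodule]
  exact isHomogeneous_monomial _ (ex_degree a b c)

theorem mono_mem' {a b c d : ℕ} (h : a + b + c = d) :
    (X 0 ^ a * X 1 ^ b * X 2 ^ c : Pol K) ∈ H K d := h ▸ mono_mem a b c

theorem cf_mono (a b c a' b' c' : ℕ) : cf a b c (X 0 ^ a' * X 1 ^ b' * X 2 ^ c' : Pol K) =
    if a = a' ∧ b = b' ∧ c = c' then 1 else 0 := by
  rw [cf_apply, mono_eq, coeff_monomial]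
  by_cases h : a = a' ∧ b = b' ∧ c = c'
  · rw [if_pos h, if_pos]
    obtain ⟨rfl, rfl, rfl⟩ := h
    rfl
  · rw [if_neg h, if_neg]
    intro h'
    obtain ⟨h1, h2, h3⟩ := ex_inj.1 h'
    exact h ⟨h1.symm, h2.symm, h3.symm⟩

theorem mem_H {d : ℕ} {f : Pol K} : f ∈ H K d ↔ f.IsHomogeneous d := Iff.rfl

theorem cf_eq_zero {d : ℕ} {f : Pol K} (hf : f ∈ H K d) {a b c : ℕ} (h : a + b + c ≠ d) :
    cf a b c f = 0 := by
  rw [cf_apply]
  exact hf.coeff_eq_zero (by rwa [ex_degree])

theorem cf_ext {f g : Pol K} (h : ∀ a b c, cf a b c f = cf a b c g) : f = g := by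
  ext m
  have := h (m 0) (m 1) (m 2)
  rwa [cf_apply, cf_apply, ex_eta] at this

theorem H_ext {d : ℕ} {f g : Pol K} (hf : f ∈ H K d) (hg : g ∈ H K d)
    (h : ∀ a b c, a + b + c = d → cf a b c f = cf a b c g) : f = g := by
  refine cf_ext fun a b c => ?_
  by_cases hd : a + b + c = d
  · exact h a b c hd
  · rw [cf_eq_zero hf hd, cf_eq_zero hg hd]

/-- a polynomial is the sum of its terms -/
theorem mem_span_mono {f : Pol K} {S : Submodule K (Pol K)}
    (h : ∀ a b c, cf a b c f ≠ 0 → (X 0 ^ a * X 1 ^ b * X 2 ^ c : Pol K) ∈ S) : f ∈ S := by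
  rw [f.as_sum]
  refine sum_mem fun m hm => ?_
  have h1 : (monomial m (coeff m f) : Pol K) = coeff m f • (X 0 ^ m 0 * X 1 ^ m 1 * X 2 ^ m 2) := by
    rw [mono_eq, ex_eta, smul_monomial, smul_eq_mul, mul_one]
  rw [h1]
  refine smul_mem _ _ (h _ _ _ ?_)
  rw [cf_apply, ex_eta]
  exact mem_support_iff.1 hm

theorem H_le {d : ℕ} {S : Submodule K (Pol K)}
    (h : ∀ a b c, a + b + c = d → (X 0 ^ a * X 1 ^ b * X 2 ^ c : Pol K) ∈ S) : H K d ≤ S := by
  intro f hf
  refine mem_span_mono fun a b c hc => h a b c ?_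
  by_contra hd
  exact hc (cf_eq_zero hf hd)

theorem H_mul_le (a b : ℕ) : H K a * H K b ≤ H K (a + b) := by
  rw [mul_le]
  intro f hf g hg
  exact IsHomogeneous.mul hf hg

theorem mul_mem_H {a b : ℕ} {f g : Pol K} (hf : f ∈ H K a) (hg : g ∈ H K b) : f * g ∈ H K (a + b) :=
  IsHomogeneous.mul hf hg

/-- splitting an exponent of degree `a + b` -/
theorem exists_split {a b i j k : ℕ} (h : i + j + k = a + b) :
    ∃ i' j' k', i' ≤ i ∧ j' ≤ j ∧ k' ≤ k ∧ i' + j' + k' = a := by
  refine ⟨min i a, min j (a - min i a), a - min i a - min j (a - min i a), ?_, ?_, ?_, ?_⟩ <;> omega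

theorem mono_split {i j k i' j' k' : ℕ} (hi : i' ≤ i) (hj : j' ≤ j) (hk : k' ≤ k) :
    (X 0 ^ i * X 1 ^ j * X 2 ^ k : Pol K) =
      (X 0 ^ i' * X 1 ^ j' * X 2 ^ k') * (X 0 ^ (i - i') * X 1 ^ (j - j') * X 2 ^ (k - k')) := by
  conv_lhs => rw [← Nat.add_sub_cancel' hi, ← Nat.add_sub_cancel' hj, ← Nat.add_sub_cancel' hk]
  ring

theorem H_mul (a b : ℕ) : H K a * H K b = H K (a + b) := by
  refine le_antisymm (H_mul_le a b) (H_le fun i j k h => ?_)
  obtain ⟨i', j', k', h1, h2, h3, h4⟩ := exists_split h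
  rw [mono_split h1 h2 h3]
  refine mul_mem_mul ?_ ?_
  · exact mono_mem' h4
  · have h5 : i - i' + (j - j') + (k - k') = b := by omega
    rw [← h5]
    exact mono_mem _ _ _

/-! ### cubics -/

theorem cubics_le : cubics K ≤ H K 3 := by
  rw [cubics, span_le]
  rintro _ ⟨e, he, _, rfl⟩
  exact isHomogeneous_monomial _ he

theorem mem_cubics {f : Pol K} : f ∈ cubics K ↔ f ∈ H K 3 ∧ cf 1 1 1 f = 0 := by
  constructor
  · intro hf
    refine ⟨cubics_le hf, ?_⟩
    have h1 : cubics K ≤ LinearMap.ker (cf (K := K) 1 1 1) := by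
      rw [cubics, span_le]
      rintro _ ⟨e, he, ⟨i, hi⟩, rfl⟩
      rw [SetLike.mem_coe, LinearMap.mem_ker, cf_apply, coeff_monomial, if_neg]
      rintro rfl
      fin_cases i
      · exact absurd hi (by simp [ex])
      · exact absurd hi (by simp [ex])
      · exact absurd hi (by simp [ex])
    exact h1 hf
  · rintro ⟨h1, h2⟩
    refine mem_span_mono fun a b c hc => ?_
    rw [mono_eq]
    refine subset_span ⟨ex a b c, ?_, ?_, rfl⟩
    · rw [ex_degree]
      by_contra hd
      exact hc (cf_eq_zero h1 hd)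
    · by_contra hcon
      push Not at hcon
      have e0 := hcon 0
      have e1 := hcon 1
      have e2 := hcon 2
      rw [ex_apply0] at e0
      rw [ex_apply1] at e1
      rw [ex_apply2] at e2
      have hd : a + b + c = 3 := by
        by_contra hd
        exact hc (cf_eq_zero h1 hd)
      have : a = 1 ∧ b = 1 ∧ c = 1 := by omega
      obtain ⟨rfl, rfl, rfl⟩ := this
      exact hc h2

theorem mono_mem_cubics {a b c : ℕ} (h : a + b + c = 3) (h' : a = 0 ∨ b = 0 ∨ c = 0) :
    (X 0 ^ a * X 1 ^ b * X 2 ^ c : Pol K) ∈ cubics K := by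
  rw [mem_cubics]
  refine ⟨mono_mem' h, ?_⟩
  rw [cf_mono, if_neg]
  omega

/-- an exponent of degree at least four is the sum of an exponent of a cubic without `x y z` and another one -/
theorem exists_cubic {i j k : ℕ} (h : 4 ≤ i + j + k) :
    ∃ i' j' k', i' ≤ i ∧ j' ≤ j ∧ k' ≤ k ∧ i' + j' + k' = 3 ∧ (i' = 0 ∨ j' = 0 ∨ k' = 0) := by
  by_cases h1 : 2 ≤ i
  · by_cases h2 : 1 ≤ j
    · exact ⟨2, 1, 0, h1, h2, by omega, by omega, by omega⟩
    · by_cases h3 : 1 ≤ k
      · exact ⟨2, 0, 1, h1, by omega, h3, by omega, by omega⟩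
      · exact ⟨3, 0, 0, by omega, by omega, by omega, by omega, by omega⟩
  · by_cases h2 : 2 ≤ j
    · by_cases h3 : 1 ≤ k
      · exact ⟨0, 2, 1, by omega, h2, h3, by omega, by omega⟩
      · by_cases h4 : 1 ≤ i
        · exact ⟨1, 2, 0, h4, h2, by omega, by omega, by omega⟩
        · exact ⟨0, 3, 0, by omega, by omega, by omega, by omega, by omega⟩
    · by_cases h3 : 1 ≤ j
      · exact ⟨0, 1, 2, by omega, h3, by omega, by omega, by omega⟩
      · by_cases h4 : 1 ≤ i
        · exact ⟨1, 0, 2, h4, by omega, by omega, by omega, by omega⟩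
        · exact ⟨0, 0, 3, by omega, by omega, by omega, by omega, by omega⟩

theorem cubics_mul_H (d : ℕ) : cubics K * H K (d + 1) = H K (d + 4) := by
  apply le_antisymm
  · refine (mul_le_mul_left cubics_le _).trans ?_
    rw [H_mul, show 3 + (d + 1) = d + 4 by ring]
  · refine H_le fun i j k h => ?_
    obtain ⟨i', j', k', h1, h2, h3, h4, h5⟩ := exists_cubic (i := i) (j := j) (k := k) (by omega)
    rw [mono_split h1 h2 h3]
    refine mul_mem_mul (mono_mem_cubics h4 h5) ?_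
    exact mono_mem' (by omega)

/-- an exponent of degree six is the sum of two exponents of cubics without `x y z` -/
theorem exists_two_cubics {i j k : ℕ} (h : i + j + k = 6) :
    ∃ i' j' k', i' ≤ i ∧ j' ≤ j ∧ k' ≤ k ∧ i' + j' + k' = 3 ∧ (i' = 0 ∨ j' = 0 ∨ k' = 0) ∧
      (i - i' = 0 ∨ j - j' = 0 ∨ k - k' = 0) := by
  have hi : i ≤ 6 := by omega
  have hj : j ≤ 6 := by omega
  have hk : k = 6 - i - j := by omega
  subst hk
  interval_cases i <;> interval_cases j <;> first
    | (exfalso; omega)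
    | exact ⟨0, 0, 3, by omega, by omega, by omega, by omega, by omega, by omega⟩
    | exact ⟨0, 1, 2, by omega, by omega, by omega, by omega, by omega, by omega⟩
    | exact ⟨0, 2, 1, by omega, by omega, by omega, by omega, by omega, by omega⟩
    | exact ⟨0, 3, 0, by omega, by omega, by omega, by omega, by omega, by omega⟩
    | exact ⟨1, 0, 2, by omega, by omega, by omega, by omega, by omega, by omega⟩
    | exact ⟨1, 2, 0, by omega, by omega, by omega, by omega, by omega, by omega⟩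
    | exact ⟨2, 1, 0, by omega, by omega, by omega, by omega, by omega, by omega⟩
    | exact ⟨2, 0, 1, by omega, by omega, by omega, by omega, by omega, by omega⟩
    | exact ⟨3, 0, 0, by omega, by omega, by omega, by omega, by omega, by omega⟩

theorem cubics_mul_cubics : cubics K * cubics K = H K 6 := by
  apply le_antisymm
  · refine (mul_le_mul' cubics_le cubics_le).trans ?_
    rw [H_mul]
  · refine H_le fun i j k h => ?_
    obtain ⟨i', j', k', h1, h2, h3, h4, h5, h6⟩ := exists_two_cubics h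
    rw [mono_split h1 h2 h3]
    exact mul_mem_mul (mono_mem_cubics h4 h5) (mono_mem_cubics (by omega) h6)

theorem cubics_pow (d : ℕ) : cubics K ^ (d + 2) = H K (3 * (d + 2)) := by
  induction d with
  | zero => rw [zero_add, pow_two, cubics_mul_cubics]
  | succ d ih =>
    rw [show d + 1 + 2 = (d + 2) + 1 by ring, pow_succ', ih, show 3 * (d + 2) = (3 * d + 5) + 1 by ring,
      cubics_mul_H, show 3 * (d + 2 + 1) = 3 * d + 5 + 4 by ring]

theorem H_mul_cubics (d : ℕ) : H K (d + 1) * cubics K = H K (d + 4) := by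
  rw [mul_comm, cubics_mul_H]

/-! ### dimensions -/

/-- exponents of degree `d` in three variables -/
def exf (d : ℕ) : Finset (ℕ × ℕ × ℕ) :=
  ((Finset.range (d + 1)) ×ˢ (Finset.range (d + 1)) ×ˢ (Finset.range (d + 1))).filter
    fun p => p.1 + p.2.1 + p.2.2 = d

theorem mem_exf {d : ℕ} {p : ℕ × ℕ × ℕ} : p ∈ exf d ↔ p.1 + p.2.1 + p.2.2 = d := by
  rw [exf, Finset.mem_filter, Finset.mem_product, Finset.mem_product, Finset.mem_range,
    Finset.mem_range, Finset.mem_range]
  constructor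
  · exact fun h => h.2
  · intro h
    exact ⟨⟨by omega, by omega, by omega⟩, h⟩

theorem mono_li : LinearIndependent K
    (fun p : ℕ × ℕ × ℕ => (X 0 ^ p.1 * X 1 ^ p.2.1 * X 2 ^ p.2.2 : Pol K)) := by
  have h1 := (basisMonomials (Fin 3) K).linearIndependent
  have h2 : Function.Injective (fun p : ℕ × ℕ × ℕ => ex p.1 p.2.1 p.2.2) := by
    intro p q h
    obtain ⟨h1, h2, h3⟩ := ex_inj.1 h
    exact Prod.ext h1 (Prod.ext h2 h3)
  have h3 := h1.comp _ h2
  have h4 : (fun p : ℕ × ℕ × ℕ => (X 0 ^ p.1 * X 1 ^ p.2.1 * X 2 ^ p.2.2 : Pol K)) =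
      (basisMonomials (Fin 3) K) ∘ (fun p : ℕ × ℕ × ℕ => ex p.1 p.2.1 p.2.2) := by
    ext1 p
    rw [mono_eq]
    simp
  rw [h4]
  exact h3

theorem finrank_span_mono (E : Finset (ℕ × ℕ × ℕ)) : finrank K
    ↥(span K ((fun p : ℕ × ℕ × ℕ => (X 0 ^ p.1 * X 1 ^ p.2.1 * X 2 ^ p.2.2 : Pol K)) '' E)) = E.card := by
  have h1 := (mono_li (K := K)).comp (fun p : E => p.1) Subtype.val_injective
  have h2 := finrank_span_eq_card h1
  rw [Fintype.card_coe] at h2
  have h3 : ((fun p : ℕ × ℕ × ℕ => (X 0 ^ p.1 * X 1 ^ p.2.1 * X 2 ^ p.2.2 : Pol K)) '' E) =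
      Set.range ((fun p : ℕ × ℕ × ℕ => (X 0 ^ p.1 * X 1 ^ p.2.1 * X 2 ^ p.2.2 : Pol K)) ∘
        (fun p : E => p.1)) := by
    ext f
    constructor
    · rintro ⟨p, hp, rfl⟩
      exact ⟨⟨p, hp⟩, rfl⟩
    · rintro ⟨p, rfl⟩
      exact ⟨p.1, p.2, rfl⟩
  rw [h3, h2]

theorem H_eq_span (d : ℕ) : H K d = span K ((fun p : ℕ × ℕ × ℕ =>
    (X 0 ^ p.1 * X 1 ^ p.2.1 * X 2 ^ p.2.2 : Pol K)) '' (exf d)) := by
  apply le_antisymm
  · exact H_le fun a b c h => subset_span ⟨(a, b, c), mem_exf.2 h, rfl⟩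
  · rw [span_le]
    rintro _ ⟨p, hp, rfl⟩
    exact mono_mem' (mem_exf.1 hp)

theorem finrank_H' (d : ℕ) : finrank K ↥(H K d) = (exf d).card := by
  rw [H_eq_span, finrank_span_mono]

instance fin_H (d : ℕ) : Module.Finite K ↥(H K d) := by
  rw [H_eq_span]
  exact Module.Finite.span_of_finite K ((exf d).finite_toSet.image _)

theorem finrank_H1 : finrank K ↥(H K 1) = 3 := by rw [finrank_H']; decide
theorem finrank_H2 : finrank K ↥(H K 2) = 6 := by rw [finrank_H']; decide
theorem finrank_H3 : finrank K ↥(H K 3) = 10 := by rw [finrank_H']; decide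
theorem finrank_H4 : finrank K ↥(H K 4) = 15 := by rw [finrank_H']; decide +kernel
theorem finrank_H5 : finrank K ↥(H K 5) = 21 := by rw [finrank_H']; decide +kernel
theorem finrank_H6 : finrank K ↥(H K 6) = 28 := by rw [finrank_H']; decide +kernel
theorem finrank_H8 : finrank K ↥(H K 8) = 45 := by rw [finrank_H']; decide +kernel
theorem finrank_H9 : finrank K ↥(H K 9) = 55 := by rw [finrank_H']; decide +kernel
theorem finrank_H12 : finrank K ↥(H K 12) = 91 := by rw [finrank_H']; decide +kernel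

theorem cubics_eq_span : cubics K = span K ((fun p : ℕ × ℕ × ℕ =>
    (X 0 ^ p.1 * X 1 ^ p.2.1 * X 2 ^ p.2.2 : Pol K)) '' ((exf 3).erase (1, 1, 1))) := by
  apply le_antisymm
  · intro f hf
    obtain ⟨h1, h2⟩ := mem_cubics.1 hf
    refine mem_span_mono fun a b c hc => subset_span ⟨(a, b, c), ?_, rfl⟩
    rw [Finset.mem_coe, Finset.mem_erase, mem_exf]
    refine ⟨?_, ?_⟩
    · intro h
      simp only [Prod.mk.injEq] at h
      obtain ⟨rfl, rfl, rfl⟩ := h
      exact hc h2
    · by_contra hd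
      exact hc (cf_eq_zero h1 hd)
  · rw [span_le]
    rintro _ ⟨p, hp, rfl⟩
    rw [Finset.mem_coe, Finset.mem_erase, mem_exf] at hp
    obtain ⟨h1, h2⟩ := hp
    refine mono_mem_cubics h2 ?_
    by_contra hcon
    push Not at hcon
    apply h1
    obtain ⟨a, b, c⟩ := p
    simp only at hcon h2
    have : a = 1 ∧ b = 1 ∧ c = 1 := by omega
    obtain ⟨rfl, rfl, rfl⟩ := this
    rfl

theorem finrank_cubics : finrank K ↥(cubics K) = 9 := by
  rw [cubics_eq_span, finrank_span_mono]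
  decide

end Pool.Agent.BR
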