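import Pool.Agent.Work.MP_be705b_al.Forms

set_option autoImplicit false
set_option linter.unusedSectionVars false
set_option linter.unusedVariables false

/-!
# MP_be705b_al: linear forms, quadrics, contraction, `mulS`
-/

namespace Pool.Agent.BR

open MvPolynomial Submodule Module

variable {K : Type*} [Field K]

/-! ### coefficients of products -/

theorem cf_C_mul (a b c : ℕ) (k : K) (f : Pol K) : cf a b c (C k * f) = k * cf a b c f := by
  rw [cf_apply, cf_apply, coeff_C_mul]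

theorem cf_smul (a b c : ℕ) (k : K) (f : Pol K) : cf a b c (k • f) = k * cf a b c f := by
  rw [map_smul, smul_eq_mul]

theorem cf_X0 (a b c : ℕ) (f : Pol K) : cf (a + 1) b c (X 0 * f) = cf a b c f := by
  rw [cf_apply, cf_apply]
  have h : ex (a + 1) b c = Finsupp.single 0 1 + ex a b c := by
    ext i
    fin_cases i <;> simp [ex, add_comm]
  rw [h, coeff_X_mul]

theorem cf_X1 (a b c : ℕ) (f : Pol K) : cf a (b + 1) c (X 1 * f) = cf a b c f := by
  rw [cf_apply, cf_apply]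
  have h : ex a (b + 1) c = Finsupp.single 1 1 + ex a b c := by
    ext i
    fin_cases i <;> simp [ex, add_comm]
  rw [h, coeff_X_mul]

theorem cf_X2 (a b c : ℕ) (f : Pol K) : cf a b (c + 1) (X 2 * f) = cf a b c f := by
  rw [cf_apply, cf_apply]
  have h : ex a b (c + 1) = Finsupp.single 2 1 + ex a b c := by
    ext i
    fin_cases i <;> simp [ex, add_comm]
  rw [h, coeff_X_mul]

theorem cf_X0_zero (b c : ℕ) (f : Pol K) : cf 0 b c (X 0 * f) = 0 := by
  rw [cf_apply, coeff_X_mul', if_neg]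
  rw [Finsupp.mem_support_iff, ex_apply0]
  simp

theorem cf_X1_zero (a c : ℕ) (f : Pol K) : cf a 0 c (X 1 * f) = 0 := by
  rw [cf_apply, coeff_X_mul', if_neg]
  rw [Finsupp.mem_support_iff, ex_apply1]
  simp

theorem cf_X2_zero (a b : ℕ) (f : Pol K) : cf a b 0 (X 2 * f) = 0 := by
  rw [cf_apply, coeff_X_mul', if_neg]
  rw [Finsupp.mem_support_iff, ex_apply2]
  simp

theorem lin_mul (u : Fin 3 → K) (f : Pol K) :
    lin u * f = C (u 0) * (X 0 * f) + C (u 1) * (X 1 * f) + C (u 2) * (X 2 * f) := by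
  rw [lin]
  ring

theorem sq_mul (u : Fin 3 → K) (f : Pol K) :
    sq u * f = C (u 0) * (X 0 * (X 0 * f)) + C (u 1) * (X 1 * (X 1 * f)) + C (u 2) * (X 2 * (X 2 * f)) := by
  rw [sq]
  ring

theorem cr_mul (u : Fin 3 → K) (f : Pol K) :
    cr u * f = C (u 0) * (X 1 * (X 2 * f)) + C (u 1) * (X 0 * (X 2 * f)) + C (u 2) * (X 0 * (X 1 * f)) := by
  rw [cr]
  ring

/-! ### linear forms -/

theorem lin_mem (u : Fin 3 → K) : lin u ∈ H K 1 := by
  rw [lin]
  refine add_mem (add_mem ?_ ?_) ?_ <;>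
  · rw [mem_homogeneousSubmodule]
    exact (isHomogeneous_X K _).C_mul _

theorem cf_lin (u : Fin 3 → K) : cf 1 0 0 (lin u) = u 0 ∧ cf 0 1 0 (lin u) = u 1 ∧ cf 0 0 1 (lin u) = u 2 := by
  have h : lin u = lin u * (X 0 ^ 0 * X 1 ^ 0 * X 2 ^ 0) := by simp
  rw [h, lin_mul]
  simp only [map_add, cf_C_mul]
  refine ⟨?_, ?_, ?_⟩
  · rw [cf_X0 0 0 0, cf_X1_zero, cf_X2_zero, cf_mono]
    simp
  · rw [cf_X0_zero, cf_X1 0 0 0, cf_X2_zero, cf_mono]
    simp
  · rw [cf_X0_zero, cf_X1_zero, cf_X2 0 0 0, cf_mono]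
    simp

theorem lc_lin (u : Fin 3 → K) : lc (lin u) = u := by
  obtain ⟨h0, h1, h2⟩ := cf_lin u
  ext i
  fin_cases i
  · exact h0
  · exact h1
  · exact h2

theorem lin_lc {l : Pol K} (hl : l ∈ H K 1) : lin (lc l) = l := by
  refine H_ext (lin_mem _) hl fun a b c h => ?_
  obtain ⟨h0, h1, h2⟩ := cf_lin (lc l)
  have : (a = 1 ∧ b = 0 ∧ c = 0) ∨ (a = 0 ∧ b = 1 ∧ c = 0) ∨ (a = 0 ∧ b = 0 ∧ c = 1) := by omega
  rcases this with ⟨rfl, rfl, rfl⟩ | ⟨rfl, rfl, rfl⟩ | ⟨rfl, rfl, rfl⟩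
  · rw [h0]; rfl
  · rw [h1]; rfl
  · rw [h2]; rfl

theorem lin_inj {u v : Fin 3 → K} (h : lin u = lin v) : u = v := by
  rw [← lc_lin u, h, lc_lin]

theorem lin_eq_zero {u : Fin 3 → K} : lin u = 0 ↔ u = 0 := by
  constructor
  · intro h
    apply lin_inj
    rw [h]
    simp [lin]
  · rintro rfl
    simp [lin]

theorem lin_add (u v : Fin 3 → K) : lin (u + v) = lin u + lin v := by
  simp only [lin, Pi.add_apply, map_add]
  ring

theorem lin_smul (k : K) (u : Fin 3 → K) : lin (k • u) = C k * lin u := by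
  simp only [lin, Pi.smul_apply, smul_eq_mul, map_mul]
  ring

/-! ### quadrics -/

theorem sq_mem (u : Fin 3 → K) : sq u ∈ H K 2 := by
  rw [sq]
  refine add_mem (add_mem ?_ ?_) ?_ <;>
  · rw [mem_homogeneousSubmodule]
    exact (isHomogeneous_X_pow _ 2).C_mul _

theorem cr_mem (u : Fin 3 → K) : cr u ∈ H K 2 := by
  rw [cr]
  refine add_mem (add_mem ?_ ?_) ?_ <;>
  · rw [mem_homogeneousSubmodule]
    exact ((isHomogeneous_X K _).mul (isHomogeneous_X K _)).C_mul _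

theorem cf_sq (u : Fin 3 → K) : dg (sq u) = u ∧ hat (sq u) = 0 := by
  have h : sq u = sq u * (X 0 ^ 0 * X 1 ^ 0 * X 2 ^ 0) := by simp
  rw [h, sq_mul]
  constructor
  · ext i
    fin_cases i
    · show cf 2 0 0 _ = _
      simp only [map_add, cf_C_mul]
      rw [cf_X0 1 0 0, cf_X0 0 0 0, cf_X1_zero, cf_X2_zero, cf_mono]
      simp
    · show cf 0 2 0 _ = _
      simp only [map_add, cf_C_mul]
      rw [cf_X0_zero, cf_X1 0 1 0, cf_X1 0 0 0, cf_X2_zero, cf_mono]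
      simp
    · show cf 0 0 2 _ = _
      simp only [map_add, cf_C_mul]
      rw [cf_X0_zero, cf_X1_zero, cf_X2 0 0 1, cf_X2 0 0 0, cf_mono]
      simp
  · ext i
    fin_cases i
    · show cf 0 1 1 _ = _
      simp only [map_add, cf_C_mul]
      rw [cf_X0_zero, cf_X1 0 0 1, cf_X1_zero, cf_X2 0 1 0, cf_X2_zero]
      simp
    · show cf 1 0 1 _ = _
      simp only [map_add, cf_C_mul]
      rw [cf_X0 0 0 1, cf_X0_zero, cf_X1_zero, cf_X2 1 0 0, cf_X2_zero]
      simp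
    · show cf 1 1 0 _ = _
      simp only [map_add, cf_C_mul]
      rw [cf_X0 0 1 0, cf_X0_zero, cf_X1 1 0 0, cf_X1_zero, cf_X2_zero]
      simp

theorem cf_cr (u : Fin 3 → K) : dg (cr u) = 0 ∧ hat (cr u) = u := by
  have h : cr u = cr u * (X 0 ^ 0 * X 1 ^ 0 * X 2 ^ 0) := by simp
  rw [h, cr_mul]
  constructor
  · ext i
    fin_cases i
    · show cf 2 0 0 _ = _
      simp only [map_add, cf_C_mul]
      rw [cf_X1_zero, cf_X0 1 0 0, cf_X2_zero, cf_X0 1 0 0, cf_X1_zero]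
      simp
    · show cf 0 2 0 _ = _
      simp only [map_add, cf_C_mul]
      rw [cf_X1 0 1 0, cf_X2_zero, cf_X0_zero, cf_X0_zero]
      simp
    · show cf 0 0 2 _ = _
      simp only [map_add, cf_C_mul]
      rw [cf_X1_zero, cf_X0_zero, cf_X0_zero]
      simp
  · ext i
    fin_cases i
    · show cf 0 1 1 _ = _
      simp only [map_add, cf_C_mul]
      rw [cf_X1 0 0 1, cf_X2 0 0 0, cf_X0_zero, cf_X0_zero, cf_mono]
      simp
    · show cf 1 0 1 _ = _
      simp only [map_add, cf_C_mul]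
      rw [cf_X1_zero, cf_X0 0 0 1, cf_X2 0 0 0, cf_X0 0 0 1, cf_X1_zero, cf_mono]
      simp
    · show cf 1 1 0 _ = _
      simp only [map_add, cf_C_mul]
      rw [cf_X1 1 0 0, cf_X2_zero, cf_X0 0 1 0, cf_X2_zero, cf_X0 0 1 0, cf_X1 0 0 0, cf_mono]
      simp

theorem hat_add (f g : Pol K) : hat (f + g) = hat f + hat g := by
  ext i
  fin_cases i
  · exact map_add _ _ _
  · exact map_add _ _ _
  · exact map_add _ _ _

theorem hat_sub (f g : Pol K) : hat (f - g) = hat f - hat g := by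
  ext i
  fin_cases i
  · exact map_sub _ _ _
  · exact map_sub _ _ _
  · exact map_sub _ _ _

theorem hat_smul (k : K) (f : Pol K) : hat (k • f) = k • hat f := by
  ext i
  fin_cases i
  · exact map_smul _ _ _
  · exact map_smul _ _ _
  · exact map_smul _ _ _

theorem dg_add (f g : Pol K) : dg (f + g) = dg f + dg g := by
  ext i
  fin_cases i
  · exact map_add _ _ _
  · exact map_add _ _ _
  · exact map_add _ _ _

theorem quad_ext {f g : Pol K} (hf : f ∈ H K 2) (hg : g ∈ H K 2) (h1 : dg f = dg g)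
    (h2 : hat f = hat g) : f = g := by
  refine H_ext hf hg fun a b c h => ?_
  have : (a = 2 ∧ b = 0 ∧ c = 0) ∨ (a = 0 ∧ b = 2 ∧ c = 0) ∨ (a = 0 ∧ b = 0 ∧ c = 2) ∨
      (a = 0 ∧ b = 1 ∧ c = 1) ∨ (a = 1 ∧ b = 0 ∧ c = 1) ∨ (a = 1 ∧ b = 1 ∧ c = 0) := by omega
  rcases this with ⟨rfl, rfl, rfl⟩ | ⟨rfl, rfl, rfl⟩ | ⟨rfl, rfl, rfl⟩ | ⟨rfl, rfl, rfl⟩ |
    ⟨rfl, rfl, rfl⟩ | ⟨rfl, rfl, rfl⟩
  · exact congrFun h1 0
  · exact congrFun h1 1
  · exact congrFun h1 2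
  · exact congrFun h2 0
  · exact congrFun h2 1
  · exact congrFun h2 2

theorem sq_add_cr {κ : Pol K} (h : κ ∈ H K 2) : sq (dg κ) + cr (hat κ) = κ := by
  refine quad_ext (add_mem (sq_mem _) (cr_mem _)) h ?_ ?_
  · rw [dg_add, (cf_sq _).1, (cf_cr _).1, add_zero]
  · rw [hat_add, (cf_sq _).2, (cf_cr _).2, zero_add]

theorem sq_mem_N (u : Fin 3 → K) : sq u ∈ N K := by
  rw [sq, N]
  refine add_mem (add_mem ?_ ?_) ?_ <;>
  · rw [← smul_eq_C_mul]
    exact smul_mem _ _ (subset_span (by simp))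

theorem N_le : N K ≤ H K 2 := by
  rw [N, span_le]
  rintro _ (rfl | rfl | rfl) <;> exact isHomogeneous_X_pow _ 2

theorem mem_N {κ : Pol K} : κ ∈ N K ↔ κ ∈ H K 2 ∧ hat κ = 0 := by
  constructor
  · intro h
    refine ⟨N_le h, ?_⟩
    have h1 : N K ≤ LinearMap.ker (cf (K := K) 0 1 1) ⊓ LinearMap.ker (cf (K := K) 1 0 1) ⊓
        LinearMap.ker (cf (K := K) 1 1 0) := by
      rw [N, span_le]
      have e0 : (X 0 ^ 2 : Pol K) = X 0 ^ 2 * X 1 ^ 0 * X 2 ^ 0 := by ring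
      have e1 : (X 1 ^ 2 : Pol K) = X 0 ^ 0 * X 1 ^ 2 * X 2 ^ 0 := by ring
      have e2 : (X 2 ^ 2 : Pol K) = X 0 ^ 0 * X 1 ^ 0 * X 2 ^ 2 := by ring
      rintro _ (rfl | rfl | rfl)
      · rw [e0]
        refine ⟨⟨?_, ?_⟩, ?_⟩ <;> (rw [SetLike.mem_coe, LinearMap.mem_ker, cf_mono, if_neg]; omega)
      · rw [e1]
        refine ⟨⟨?_, ?_⟩, ?_⟩ <;> (rw [SetLike.mem_coe, LinearMap.mem_ker, cf_mono, if_neg]; omega)
      · rw [e2]
        refine ⟨⟨?_, ?_⟩, ?_⟩ <;> (rw [SetLike.mem_coe, LinearMap.mem_ker, cf_mono, if_neg]; omega)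
    obtain ⟨⟨h2, h3⟩, h4⟩ := h1 h
    ext i
    fin_cases i
    · exact h2
    · exact h3
    · exact h4
  · rintro ⟨h1, h2⟩
    rw [← sq_add_cr h1, h2]
    have h3 : cr (0 : Fin 3 → K) = 0 := by simp [cr]
    rw [h3, add_zero]
    exact sq_mem_N _

theorem hat_of_N {κ : Pol K} (h : κ ∈ N K) : hat κ = 0 := (mem_N.1 h).2

/-! ### the pairing -/

theorem cf111_lin_mul (u : Fin 3 → K) (κ : Pol K) : cf 1 1 1 (lin u * κ) = dot u (hat κ) := by
  rw [lin_mul]
  simp only [map_add, cf_C_mul]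
  rw [cf_X0 0 1 1, cf_X1 1 0 1, cf_X2 1 1 0]
  rfl

theorem hat_lin_mul (u v : Fin 3 → K) : hat (lin u * lin v) =
    ![u 1 * v 2 + u 2 * v 1, u 0 * v 2 + u 2 * v 0, u 0 * v 1 + u 1 * v 0] := by
  obtain ⟨h0, h1, h2⟩ := cf_lin v
  ext i
  fin_cases i
  · show cf 0 1 1 _ = _
    rw [lin_mul]
    simp only [map_add, cf_C_mul]
    rw [cf_X0_zero, cf_X1 0 0 1, cf_X2 0 1 0, h1, h2]
    simp
  · show cf 1 0 1 _ = _
    rw [lin_mul]
    simp only [map_add, cf_C_mul]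
    rw [cf_X0 0 0 1, cf_X1_zero, cf_X2 1 0 0, h0, h2]
    simp
  · show cf 1 1 0 _ = _
    rw [lin_mul]
    simp only [map_add, cf_C_mul]
    rw [cf_X0 0 1 0, cf_X1 1 0 0, cf_X2_zero, h0, h1]
    simp

theorem cf111_lin3 (u v w : Fin 3 → K) : cf 1 1 1 (lin u * (lin v * lin w)) = TT u v w := by
  rw [cf111_lin_mul, hat_lin_mul]
  simp [dot, TT]

theorem mem_KK {l κ : Pol K} (hl : l ∈ H K 1) : κ ∈ KK l ↔ κ ∈ H K 2 ∧ dot (lc l) (hat κ) = 0 := by
  rw [KK, mem_inf, LinearMap.mem_ker, LinearMap.comp_apply, LinearMap.mulLeft_apply]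
  conv_lhs => rw [← lin_lc hl]
  rw [cf111_lin_mul]

theorem mem_KK' {l κ : Pol K} (hl : l ∈ H K 1) : κ ∈ KK l ↔ κ ∈ H K 2 ∧ l * κ ∈ cubics K := by
  rw [KK, mem_inf, LinearMap.mem_ker, LinearMap.comp_apply, LinearMap.mulLeft_apply, mem_cubics]
  constructor
  · rintro ⟨h1, h2⟩
    exact ⟨h1, by have := mul_mem_H hl h1; rwa [show 1 + 2 = 3 by norm_num] at this, h2⟩
  · rintro ⟨h1, _, h2⟩
    exact ⟨h1, h2⟩

theorem N_le_KK {l : Pol K} (hl : l ∈ H K 1) : N K ≤ KK l := by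
  intro κ hκ
  rw [mem_KK hl, hat_of_N hκ]
  exact ⟨N_le hκ, by simp [dot]⟩

theorem KK_le (l : Pol K) : KK l ≤ H K 2 := inf_le_left

theorem mul_KK_mem {l κ : Pol K} (hl : l ∈ H K 1) (hκ : κ ∈ KK l) : l * κ ∈ cubics K :=
  ((mem_KK' hl).1 hκ).2

theorem N_mul_H1 : N K * H K 1 = cubics K := by
  apply le_antisymm
  · rw [mul_le]
    intro m hm n hn
    rw [mul_comm]
    exact mul_KK_mem hn (N_le_KK hn hm)
  · intro f hf
    obtain ⟨h1, h2⟩ := mem_cubics.1 hf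
    refine mem_span_mono fun a b c hc => ?_
    have hd : a + b + c = 3 := by
      by_contra hd
      exact hc (cf_eq_zero h1 hd)
    have hne : ¬ (a = 1 ∧ b = 1 ∧ c = 1) := by
      rintro ⟨rfl, rfl, rfl⟩
      exact hc h2
    have h3 : 2 ≤ a ∨ 2 ≤ b ∨ 2 ≤ c := by omega
    rcases h3 with h | h | h
    · rw [mono_split (i' := 2) (j' := 0) (k' := 0) h (Nat.zero_le _) (Nat.zero_le _)]
      refine mul_mem_mul ?_ (mono_mem' (by omega))
      exact subset_span (by left; ring)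
    · rw [mono_split (i' := 0) (j' := 2) (k' := 0) (Nat.zero_le _) h (Nat.zero_le _)]
      refine mul_mem_mul ?_ (mono_mem' (by omega))
      exact subset_span (by right; left; ring)
    · rw [mono_split (i' := 0) (j' := 0) (k' := 2) (Nat.zero_le _) (Nat.zero_le _) h]
      refine mul_mem_mul ?_ (mono_mem' (by omega))
      exact subset_span (by right; right; show _ = _; ring)

/-! ### `mulS` -/

theorem mem_mulS {f g : Pol K} {U : Submodule K (Pol K)} : g ∈ mulS f U ↔ ∃ u ∈ U, f * u = g := by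
  simp [mulS]

theorem mul_mem_mulS {f u : Pol K} {U : Submodule K (Pol K)} (hu : u ∈ U) : f * u ∈ mulS f U :=
  mem_mulS.2 ⟨u, hu, rfl⟩

theorem mul_mem_mulS_iff {f u : Pol K} (hf : f ≠ 0) {U : Submodule K (Pol K)} :
    f * u ∈ mulS f U ↔ u ∈ U := by
  constructor
  · intro h
    obtain ⟨v, hv, hvu⟩ := mem_mulS.1 h
    rwa [← mul_left_cancel₀ hf hvu]
  · exact mul_mem_mulS

theorem mulS_mul (f : Pol K) (U U' : Submodule K (Pol K)) : mulS f U * U' = mulS f (U * U') := by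
  apply le_antisymm
  · rw [mul_le]
    intro m hm n hn
    obtain ⟨u, hu, rfl⟩ := mem_mulS.1 hm
    rw [mul_assoc]
    exact mul_mem_mulS (mul_mem_mul hu hn)
  · intro g hg
    obtain ⟨u, hu, rfl⟩ := mem_mulS.1 hg
    refine Submodule.mul_induction_on hu ?_ ?_
    · intro m hm n hn
      rw [← mul_assoc]
      exact mul_mem_mul (mul_mem_mulS hm) hn
    · intro x y hx hy
      rw [mul_add]
      exact add_mem hx hy

theorem mulS_mono {f : Pol K} {U U' : Submodule K (Pol K)} (h : U ≤ U') : mulS f U ≤ mulS f U' :=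
  map_mono h

theorem mulS_le_iff {f : Pol K} (hf : f ≠ 0) {U U' : Submodule K (Pol K)} :
    mulS f U ≤ mulS f U' ↔ U ≤ U' := by
  constructor
  · intro h u hu
    exact (mul_mem_mulS_iff hf).1 (h (mul_mem_mulS hu))
  · exact mulS_mono

theorem mulS_inj {f : Pol K} (hf : f ≠ 0) {U U' : Submodule K (Pol K)} (h : mulS f U = mulS f U') :
    U = U' :=
  le_antisymm ((mulS_le_iff hf).1 h.le) ((mulS_le_iff hf).1 h.ge)

theorem mulS_sup (f : Pol K) (U U' : Submodule K (Pol K)) : mulS f (U ⊔ U') = mulS f U ⊔ mulS f U' :=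
  Submodule.map_sup _ _ _

theorem mulS_mulS (f g : Pol K) (U : Submodule K (Pol K)) : mulS f (mulS g U) = mulS (f * g) U := by
  ext h
  constructor
  · intro hh
    obtain ⟨u, hu, rfl⟩ := mem_mulS.1 hh
    obtain ⟨v, hv, rfl⟩ := mem_mulS.1 hu
    rw [← mul_assoc]
    exact mul_mem_mulS hv
  · intro hh
    obtain ⟨u, hu, rfl⟩ := mem_mulS.1 hh
    rw [mul_assoc]
    exact mul_mem_mulS (mul_mem_mulS hu)

theorem finrank_mulS {f : Pol K} (hf : f ≠ 0) (U : Submodule K (Pol K)) :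
    finrank K ↥(mulS f U) = finrank K ↥U :=
  (LinearEquiv.finrank_eq (equivMapOfInjective (LinearMap.mulLeft K f)
    (fun a b h => mul_left_cancel₀ hf h) U)).symm

theorem mulS_H_le {d e : ℕ} {f : Pol K} (hf : f ∈ H K d) : mulS f (H K e) ≤ H K (d + e) := by
  intro g hg
  obtain ⟨u, hu, rfl⟩ := mem_mulS.1 hg
  exact mul_mem_H hf hu

theorem mem_IP {p : Fin 3 → K} {d : ℕ} {f : Pol K} : f ∈ IP p d ↔ f ∈ H K d ∧ eval p f = 0 := by
  rw [IP, mem_inf, LinearMap.mem_ker, AlgHom.toLinearMap_apply, aeval_eq_eval]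

end Pool.Agent.BR
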