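import Pool.Agent.Work.MP_be705b_al.Dim

set_option autoImplicit false
set_option linter.unusedSectionVars false
set_option linter.unusedVariables false

/-!
# MP_be705b_al: the family `LL`

For `U ∈ LL`, `V j ≤ U`, `t j ∉ U`:
* `LL.sup_t` : `U + t j ∈ LL`;  `LL.sup_V` : `U + V k ∈ LL`
* `LL.col_eq` : `(U : t j) = (U + A j)` in all degrees
* `LL.sup_A` : `U + A j ∈ LL`
* `LL.out_sup_A` : `out (U + A j) = nb j (out U)`
* `LL.eq` : the numbers of cliques in `out U` are the codimensions of `U * W ^ d`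
* `LL.nzd` : a loop is a nonzerodivisor modulo `U + A j`
* `LL.g2` : `u * u' ∈ U * W` implies that the initial variables of `u`, `u'` are not adjacent
-/

namespace Pool.Agent.BR

open Submodule Module

variable {K : Type*} {P : Type*} [Field K] [CommRing P] [IsDomain P] [Algebra K P] {n : ℕ}
  {t : Fin n → P}

theorem LL.eq (hli : LinearIndependent K t) {U : Submodule K P} (h : LL K t U) (hU : U ≤ Wt K t)
    (d : ℕ) : finrank K ↥(Wt K t ^ (d + 1)) = finrank K ↥(U * Wt K t ^ d) + cl K t (d + 1) (out K t U) :=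
  le_antisymm (g3 hli d hU) (h d)

/-- all consequences of one step -/
theorem LL.step (hli : LinearIndependent K t) {U : Submodule K P} (h : LL K t U) (hU : U ≤ Wt K t)
    {j : Fin n} (hV : V K t j ≤ U) (hj : t j ∉ U) (d : ℕ) :
    finrank K ↥((U ⊔ span K {t j}) * Wt K t ^ d) + cl K t (d + 1) (out K t (U ⊔ span K {t j})) ≤
      finrank K ↥(Wt K t ^ (d + 1)) ∧
    finrank K ↥(col K t U (t j) (d + 1)) ≤ finrank K ↥((U ⊔ A K t j) * Wt K t ^ d) ∧
    finrank K ↥((U ⊔ A K t j) * Wt K t ^ d) + cl K t (d + 1) (nb K t j (out K t U)) ≤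
      finrank K ↥(Wt K t ^ (d + 1)) ∧
    cl K t (d + 1) (nb K t j (out K t U)) ≤ cl K t (d + 1) (out K t (U ⊔ A K t j)) := by
  have hjo := mem_out_of hV hj
  have hmin := out_min_of (K := K) (t := t) hV
  have a0 := dim_step hU (t_ne_zero hli j) (t_mem_W (K := K) j) 0
  have a1 := dim_step hU (t_ne_zero hli j) (t_mem_W (K := K) j) d
  have a2 := dim_step hU (t_ne_zero hli j) (t_mem_W (K := K) j) (d + 1)
  have b1 := h d
  have b2 := h (d + 1)
  have c1 := g3 hli d (W_sup_le hU j)
  have c2 := g3 hli (d + 1) (W_sup_le hU j)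
  have c3 := g3 hli d (sup_le hU (A_le_W (K := K) (t := t) j))
  have : Module.Finite K ↥(col K t U (t j) (d + 1)) := fin_of_le col_le
  have e1 := finrank_mono (sup_A_mul_le hU hV d)
  have e2 := cl_mono (K := K) (t := t) (d + 1) (out_sup_A_subset hV)
  have f1 := cl_min (K := K) (t := t) d hjo hmin
  have f2 := cl_min (K := K) (t := t) (d + 1) hjo hmin
  rw [out_sup_t hli hV] at c1 c2 ⊢
  refine ⟨?_, by omega, by omega, by omega⟩
  -- the first statement, degree d
  cases d with
  | zero =>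
    have h0 := dim_one hli (W_sup_le hU j)
    rw [out_sup_t hli hV] at h0
    rw [zero_add, pow_one, pow_zero, mul_one, cl_one]
    exact h0.le
  | succ e =>
    have : Module.Finite K ↥(col K t U (t j) (e + 1)) := fin_of_le col_le
    have c4 := g3 hli e (sup_le hU (A_le_W (K := K) (t := t) j))
    have e3 := finrank_mono (sup_A_mul_le hU hV e)
    have e4 := cl_mono (K := K) (t := t) (e + 1) (out_sup_A_subset hV)
    omega

theorem LL.sup_t (hli : LinearIndependent K t) {U : Submodule K P} (h : LL K t U) (hU : U ≤ Wt K t)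
    {j : Fin n} (hV : V K t j ≤ U) : LL K t (U ⊔ span K {t j}) := by
  by_cases hj : t j ∈ U
  · rwa [sup_eq_left.2 ((span_singleton_le_iff_mem _ _).2 hj)]
  · intro d
    exact (h.step hli hU hV hj d).1

theorem LL.col_eq (hli : LinearIndependent K t) {U : Submodule K P} (h : LL K t U) (hU : U ≤ Wt K t)
    {j : Fin n} (hV : V K t j ≤ U) (hj : t j ∉ U) (d : ℕ) :
    col K t U (t j) (d + 1) = (U ⊔ A K t j) * Wt K t ^ d := by
  have : Module.Finite K ↥(col K t U (t j) (d + 1)) := fin_of_le col_le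
  exact (Submodule.eq_of_le_of_finrank_le (sup_A_mul_le hU hV d) (h.step hli hU hV hj d).2.1).symm

theorem LL.out_sup_A (hli : LinearIndependent K t) {U : Submodule K P} (h : LL K t U)
    (hU : U ≤ Wt K t) {j : Fin n} (hV : V K t j ≤ U) (hj : t j ∉ U) :
    out K t (U ⊔ A K t j) = nb K t j (out K t U) := by
  have h1 := (h.step hli hU hV hj 0).2.2.2
  rw [zero_add, cl_one, cl_one] at h1
  exact Finset.eq_of_subset_of_card_le (out_sup_A_subset hV) h1

theorem LL.sup_A (hli : LinearIndependent K t) {U : Submodule K P} (h : LL K t U)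
    (hU : U ≤ Wt K t) {j : Fin n} (hV : V K t j ≤ U) (hj : t j ∉ U) : LL K t (U ⊔ A K t j) := by
  intro d
  rw [h.out_sup_A hli hU hV hj]
  exact (h.step hli hU hV hj d).2.2.1

theorem LL.sup_V (hli : LinearIndependent K t) {U : Submodule K P} (h : LL K t U) (hU : U ≤ Wt K t)
    (k : ℕ) : LL K t (U ⊔ V K t k) := by
  induction k with
  | zero => rwa [V_zero, sup_bot_eq]
  | succ k ih =>
    by_cases hkn : k < n
    · have h1 := ih.sup_t hli (sup_le hU (V_le_W k)) (j := ⟨k, hkn⟩) le_sup_right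
      have h2 := V_succ (K := K) (t := t) ⟨k, hkn⟩
      simp only at h2
      rwa [h2, ← sup_assoc]
    · have h1 : V K t (k + 1) = V K t k := by
        apply le_antisymm
        · exact (V_le_W _).trans (V_mono (not_lt.1 hkn))
        · exact V_mono (Nat.le_succ k)
      rwa [h1]

theorem LL.ofV (hli : LinearIndependent K t) (h : LL K t (⊥ : Submodule K P)) (k : ℕ) :
    LL K t (V K t k) := by
  have h1 := h.sup_V hli bot_le k
  rwa [bot_sup_eq] at h1

theorem LL.ofA (hli : LinearIndependent K t) (h : LL K t (⊥ : Submodule K P)) (j : Fin n) :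
    LL K t (A K t j) := by
  have h1 := (h.ofV hli j).sup_A hli (V_le_W _) (j := j) le_rfl (t_notMem hli j)
  rwa [sup_eq_right.2 (V_le_A j)] at h1

theorem out_A_eq (hli : LinearIndependent K t) (h : LL K t (⊥ : Submodule K P)) (j : Fin n) :
    out K t (A K t j) = nb K t j (out K t (V K t j)) := by
  have h1 := (h.ofV hli j).out_sup_A hli (V_le_W _) (j := j) le_rfl (t_notMem hli j)
  rwa [sup_eq_right.2 (V_le_A j)] at h1

/-- condition (a) -/
theorem colA (hli : LinearIndependent K t) (h : LL K t (⊥ : Submodule K P)) (j : Fin n) (d : ℕ)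
    {a : P} (ha : a ∈ Wt K t ^ (d + 1)) (hat : a * t j ∈ V K t j * Wt K t ^ (d + 1)) :
    a ∈ A K t j * Wt K t ^ d := by
  have h1 := (h.ofV hli j).col_eq hli (V_le_W _) (j := j) le_rfl (t_notMem hli j) d
  rw [sup_eq_right.2 (V_le_A j)] at h1
  rw [← h1]
  exact mem_col.2 ⟨ha, hat⟩

theorem LL.mem_of_mul (hli : LinearIndependent K t) {U : Submodule K P} (h : LL K t U)
    (hU : U ≤ Wt K t) {j : Fin n} (hV : V K t j ≤ U) (hj : t j ∉ U) (d : ℕ) {a : P}
    (ha : a ∈ Wt K t ^ (d + 1)) (hat : a * t j ∈ U * Wt K t ^ (d + 1)) :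
    a ∈ (U ⊔ A K t j) * Wt K t ^ d := by
  rw [← h.col_eq hli hU hV hj d]
  exact mem_col.2 ⟨ha, hat⟩

theorem LL.mul_mem (hli : LinearIndependent K t) {U : Submodule K P}
    (hU : U ≤ Wt K t) {j : Fin n} (hV : V K t j ≤ U) (d : ℕ) {a : P}
    (ha : a ∈ (U ⊔ A K t j) * Wt K t ^ d) : a * t j ∈ U * Wt K t ^ (d + 1) :=
  (mem_col.1 (sup_A_mul_le hU hV d ha)).2

/-- `t j` is a loop iff it is not in `A j` -/
theorem loop_iff (j : Fin n) : Adj K t j j ↔ t j ∉ A K t j := by
  rw [adj_of_le le_rfl, Gr]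
  constructor
  · intro h1 h2
    exact h1 (inn_of_t_mem h2)
  · intro h1 h2
    exact h1 (t_mem_of_inn (V_le_A j) h2)

/-- a loop is a nonzerodivisor modulo `U + A j` -/
theorem LL.nzd (hli : LinearIndependent K t) {U : Submodule K P} (h : LL K t U)
    (hU : U ≤ Wt K t) {j : Fin n} (hV : V K t j ≤ U) (hj : t j ∉ U)
    (hloop : Adj K t j j) (d : ℕ) {a : P} (ha : a ∈ Wt K t ^ (d + 1))
    (hat : a * t j ∈ (U ⊔ A K t j) * Wt K t ^ (d + 1)) :
    a ∈ (U ⊔ A K t j) * Wt K t ^ d := by
  have hU' : U ⊔ A K t j ≤ Wt K t := sup_le hU (A_le_W j)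
  have h' := h.sup_A hli hU hV hj
  have hj' : t j ∉ U ⊔ A K t j := by
    apply t_notMem_of_out
    rw [h.out_sup_A hli hU hV hj]
    exact mem_nb.2 ⟨mem_out_of hV hj, hloop⟩
  have h1 := h'.mem_of_mul hli hU' (hV.trans le_sup_left) hj' d ha hat
  rwa [sup_assoc, sup_idem] at h1

/-- a loop: `t j ^ 2 * a ∈ U R` implies `t j * a ∈ U R` -/
theorem LL.nzd' (hli : LinearIndependent K t) {U : Submodule K P} (h : LL K t U)
    (hU : U ≤ Wt K t) {j : Fin n} (hV : V K t j ≤ U) (hj : t j ∉ U)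
    (hloop : Adj K t j j) (d : ℕ) {a : P} (ha : a ∈ Wt K t ^ (d + 1))
    (hat : a * t j * t j ∈ U * Wt K t ^ (d + 2)) :
    a * t j ∈ U * Wt K t ^ (d + 1) := by
  have h1 : a * t j ∈ Wt K t ^ (d + 2) := by
    rw [pow_succ]
    exact mul_mem_mul ha (t_mem_W j)
  have h2 := h.mem_of_mul hli hU hV hj (d + 1) h1 hat
  exact LL.mul_mem hli hU hV d (h.nzd hli hU hV hj hloop d ha h2)

/-- `i` is the initial variable of `u` -/
def IsIn (K : Type*) {P : Type*} [Field K] [CommRing P] [Algebra K P] {n : ℕ} (t : Fin n → P)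
    (u : P) (i : Fin n) : Prop :=
  u ∈ V K t ((i : ℕ) + 1) ∧ u ∉ V K t i

theorem IsIn.mem_inn {U : Submodule K P} {u : P} {i : Fin n} (h : IsIn K t u i) (hu : u ∈ U) :
    i ∈ inn K t U :=
  mem_inn_of hu h.1 h.2

theorem exists_isIn {u : P} (hu : u ∈ Wt K t) (h0 : u ≠ 0) : ∃ i, IsIn K t u i := by
  classical
  have h1 : ∃ k : ℕ, u ∈ V K t k := ⟨n, hu⟩
  have h2 := Nat.find_spec h1
  have h3 : Nat.find h1 ≠ 0 := by
    intro h
    rw [h, V_zero, mem_bot] at h2
    exact h0 h2
  obtain ⟨k, hk⟩ := Nat.exists_eq_succ_of_ne_zero h3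
  have h4 : k < n := by
    have : Nat.find h1 ≤ n := Nat.find_min' h1 hu
    omega
  refine ⟨⟨k, h4⟩, ?_, ?_⟩
  · rw [hk] at h2
    exact h2
  · refine Nat.find_min h1 ?_
    show k < Nat.find h1
    omega

/-- condition (G2) -/
theorem LL.g2 (hli : LinearIndependent K t) {U : Submodule K P} (h : LL K t U)
    (hU : U ≤ Wt K t) {u u' : P} {i i' : Fin n} (hi : IsIn K t u i) (hi' : IsIn K t u' i')
    (h1 : i ∈ out K t U) (h2 : i' ∈ out K t U) (huu : u * u' ∈ U * Wt K t) : ¬ Adj K t i i' := by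
  -- assume `i ≤ i'`
  suffices H : ∀ (m : ℕ) (U : Submodule K P), (out K t U).card = m → LL K t U → U ≤ Wt K t →
      ∀ (u u' : P) (i i' : Fin n), IsIn K t u i → IsIn K t u' i' → i ∈ out K t U → i' ∈ out K t U →
      u * u' ∈ U * Wt K t → i ≤ i' → ¬ Adj K t i i' by
    rcases le_total i i' with h3 | h3
    · exact H _ U rfl h hU u u' i i' hi hi' h1 h2 huu h3
    · intro h4
      rw [mul_comm u u'] at huu
      exact H _ U rfl h hU u' u i' i hi' hi h2 h1 huu h3 (adj_symm h4)
  clear huu h1 h2 hi hi' hU h U u u' i i'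
  intro m
  induction m with
  | zero =>
    intro U hm _ _ u u' i i' _ _ h1
    rw [Finset.card_eq_zero] at hm
    rw [hm] at h1
    simp at h1
  | succ m ih =>
    intro U hm h hU u u' i i' hi hi' h1 h2 huu hii hadj
    obtain ⟨j, hj, hmin⟩ := Finset.exists_min_image (out K t U) id (Finset.card_pos.1 (by omega))
    simp only [id] at hmin
    have hV := V_le_of_min hmin
    have hjU := t_notMem_of_out hj
    by_cases hij : i = j
    · subst hij
      obtain ⟨c, v, hv, rfl⟩ := mem_V_succ.1 hi.1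
      have hc : c ≠ 0 := by
        rintro rfl
        apply hi.2
        rwa [zero_smul, zero_add]
      have hu'W : u' ∈ Wt K t := V_le_W _ hi'.1
      have e1 : u' * t i ∈ U * Wt K t := by
        have e2 : v * u' ∈ U * Wt K t := mul_mem_mul (hV hv) hu'W
        have e3 := smul_mem _ c⁻¹ (sub_mem huu e2)
        have e4 : c⁻¹ • ((c • t i + v) * u' - v * u') = u' * t i := by
          rw [add_mul, add_sub_cancel_right, smul_mul_assoc, smul_smul, inv_mul_cancel₀ hc, one_smul,
            mul_comm]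
        rwa [e4] at e3
      have e2 := h.mem_of_mul hli hU hV hjU 0 (a := u') (by rwa [zero_add, pow_one])
        (by rwa [zero_add, pow_one])
      rw [pow_zero, mul_one] at e2
      have e3 := hi'.mem_inn e2
      have e4 : i' ∉ out K t (U ⊔ A K t i) := notMem_out.2 e3
      rw [h.out_sup_A hli hU hV hjU] at e4
      exact e4 (mem_nb.2 ⟨h2, hadj⟩)
    · have hji : j ≠ i' := by
        rintro rfl
        exact hij (le_antisymm hii (hmin i h1))
      refine ih (U ⊔ span K {t j}) ?_ (h.sup_t hli hU hV) (W_sup_le hU j) u u' i i' hi hi' ?_ ?_ ?_ hii hadj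
      · rw [out_sup_t hli hV, Finset.card_erase_of_mem hj, hm]
        rfl
      · rw [out_sup_t hli hV]
        exact Finset.mem_erase.2 ⟨hij, h1⟩
      · rw [out_sup_t hli hV]
        exact Finset.mem_erase.2 ⟨Ne.symm hji, h2⟩
      · have hle : U * Wt K t ≤ (U ⊔ span K {t j}) * Wt K t := mul_le_mul_left le_sup_left _
        exact hle huu

end Pool.Agent.BR
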