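import Pool.Agent.Work.MP_be705b_al.GDefs
import Pool.Agent.Work.MP_be705b_al.Step

set_option autoImplicit false
set_option linter.unusedSectionVars false
set_option linter.unusedVariables false

/-!
# MP_be705b_al: a quadratic Gröbner basis for a reverse lexicographic order gives `⊥ ∈ LL`
-/

namespace Pool.Agent.BR

open Submodule Module MvPolynomial

variable {K : Type*} {P : Type*} [Field K] [CommRing P] [IsDomain P] [Algebra K P] {n : ℕ}
  {t : Fin n → P}

theorem exists_lead {F : MvPolynomial (Fin n) K} {d : ℕ} (hF : F.IsHomogeneous d) (h0 : F ≠ 0) :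
    ∃ m, IsLead F m := by
  obtain ⟨m, hm, hmin⟩ := Finset.exists_min_image F.support (fun m => toLex m)
    (MvPolynomial.support_nonempty.2 h0)
  refine ⟨m, hm, fun m' hm' hne => Or.inr ⟨?_, ?_⟩⟩
  · have e1 : m'.degree = d := by
      rw [Finsupp.degree_eq_weight_one]
      exact hF (mem_support_iff.1 hm')
    have e2 : m.degree = d := by
      rw [Finsupp.degree_eq_weight_one]
      exact hF (mem_support_iff.1 hm)
    rw [e1, e2]
  · have h1 : toLex m < toLex m' := by
      refine lt_of_le_of_ne (hmin m' hm') fun h => hne ?_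
      exact (toLex.injective h).symm
    obtain ⟨i, hi, hlt⟩ := Finsupp.Lex.lt_iff.1 h1
    exact ⟨i, fun j hj => (hi j hj).symm, hlt⟩

/-- exponents of degree two -/
theorem deg_two {m : Fin n →₀ ℕ} (h : m.degree = 2) :
    ∃ a b : Fin n, a ≤ b ∧ m = Finsupp.single a 1 + Finsupp.single b 1 := by
  obtain ⟨g, hg, hg1⟩ := Finsupp.exists_le_degree_eq m 1 (by omega)
  obtain ⟨f, rfl⟩ := le_iff_exists_add.1 hg
  have hf : f.degree = 1 := by
    rw [map_add, hg1] at h
    omega
  have e1 : g ∈ Set.range (fun a : Fin n ↦ (Finsupp.single a 1 : Fin n →₀ ℕ)) := by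
    rw [Finsupp.range_single_one]
    exact hg1
  have e2 : f ∈ Set.range (fun a : Fin n ↦ (Finsupp.single a 1 : Fin n →₀ ℕ)) := by
    rw [Finsupp.range_single_one]
    exact hf
  obtain ⟨a, rfl⟩ := e1
  obtain ⟨b, rfl⟩ := e2
  rcases le_total a b with h1 | h1
  · exact ⟨a, b, h1, rfl⟩
  · exact ⟨b, a, h1, add_comm _ _⟩

theorem rev_two {a b i j : Fin n} (hab : a ≤ b) (hij : i ≤ j)
    (h : RevLt (Finsupp.single a 1 + Finsupp.single b 1) (Finsupp.single i 1 + Finsupp.single j 1)) :
    a < i ∨ (a = i ∧ b < j) := by
  rcases h with h | ⟨-, l, hl, hlt⟩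
  · simp only [map_add, Finsupp.degree_single] at h
    omega
  · simp only [Finsupp.coe_add, Pi.add_apply, Finsupp.single_apply] at hl hlt
    by_contra hcon
    push Not at hcon
    obtain ⟨h1, h2⟩ := hcon
    rcases lt_or_eq_of_le h1 with h3 | h3
    · -- `i < a`
      have e1 : a ≠ i := h3.ne'
      have e2 : b ≠ i := (lt_of_lt_of_le h3 hab).ne'
      rcases lt_trichotomy l i with h4 | h4 | h4
      · have e3 : a ≠ l := (h4.trans h3).ne'
        have e4 : b ≠ l := (h4.trans (lt_of_lt_of_le h3 hab)).ne'
        simp [e3, e4] at hlt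
      · subst h4
        simp [e1, e2] at hlt
      · have := hl i h4
        simp only [if_neg e1, if_neg e2, if_true] at this
        omega
    · subst h3
      have h4 := h2 rfl
      rcases lt_trichotomy l i with h5 | h5 | h5
      · have e3 : i ≠ l := h5.ne'
        have e4 : b ≠ l := (lt_of_lt_of_le h5 hab).ne'
        simp [e3, e4] at hlt
      · subst h5
        by_cases hb : b = l
        · subst hb
          have : j = b := le_antisymm h4 hij
          simp [this] at hlt
        · simp [hb] at hlt
      · have e3 : i ≠ l := h5.ne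
        by_cases hb : b = l
        · subst hb
          by_cases hj : j = b
          · simp [e3, hj] at hlt
          · have h6 : j < b := lt_of_le_of_ne h4 hj
            have h7 := hl j h6
            have e4 : b ≠ j := h6.ne'
            simp [e4] at h7
        · simp [e3, hb] at hlt

/-- a quadric of the kernel with leading monomial `T i * T j` shows `j ∈ inn (A i)` -/
theorem mem_inn_of_quadric (hli : LinearIndependent K t) {g : MvPolynomial (Fin n) K}
    (hg : aeval t g = 0) (hh : g.IsHomogeneous 2) {i j : Fin n} (hij : i ≤ j)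
    (hl : IsLead g (Finsupp.single i 1 + Finsupp.single j 1)) : j ∈ inn K t (A K t i) := by
  classical
  set m2 : Fin n →₀ ℕ := Finsupp.single i 1 + Finsupp.single j 1 with hm2
  set X : Submodule K P := V K t i * Wt K t ⊔ (V K t j).map (LinearMap.mulRight K (t i)) with hX
  have hmon : ∀ (a b : Fin n) (c : K), aeval t (monomial (Finsupp.single a 1 + Finsupp.single b 1) c) =
      c • (t a * t b) := by
    intro a b c
    rw [aeval_monomial, Finsupp.prod_add_index', Finsupp.prod_single_index, Finsupp.prod_single_index,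
      Algebra.smul_def]
    · simp
    · simp
    · simp
    · simp
    · intro _ _ _
      rw [pow_add]
  have hrest : ∀ m ∈ g.support.erase m2, aeval t (monomial m (g.coeff m)) ∈ X := by
    intro m hm
    obtain ⟨hne, hms⟩ := Finset.mem_erase.1 hm
    have hdeg : m.degree = 2 := by
      rw [Finsupp.degree_eq_weight_one]
      exact hh (mem_support_iff.1 hms)
    obtain ⟨a, b, hab, rfl⟩ := deg_two hdeg
    rw [hmon]
    refine smul_mem _ _ ?_
    rcases rev_two hab hij (hl.2 _ hms hne) with h | ⟨rfl, h⟩
    · exact mem_sup_left (mul_mem_mul (t_mem h) (t_mem_W b))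
    · refine mem_sup_right ⟨t b, t_mem h, ?_⟩
      rw [LinearMap.mulRight_apply, mul_comm]
  have hsum : aeval t g = aeval t (monomial m2 (g.coeff m2)) +
      ∑ m ∈ g.support.erase m2, aeval t (monomial m (g.coeff m)) := by
    conv_lhs => rw [g.as_sum]
    rw [map_sum, ← Finset.add_sum_erase _ _ hl.1]
  have hx : ∑ m ∈ g.support.erase m2, aeval t (monomial m (g.coeff m)) ∈ X := sum_mem hrest
  rw [hg] at hsum
  rw [hmon] at hsum
  have hc : g.coeff m2 ≠ 0 := mem_support_iff.1 hl.1
  obtain ⟨y, hy, z, hz, hyz⟩ := mem_sup.1 hx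
  obtain ⟨v, hv, rfl⟩ := hz
  rw [LinearMap.mulRight_apply] at hyz
  refine mem_inn_of (u := g.coeff m2 • t j + v) ?_ ?_ ?_
  · rw [mem_A]
    refine ⟨add_mem (smul_mem _ _ (t_mem_W j)) (V_le_W _ hv), ?_⟩
    have e1 : (g.coeff m2 • t j + v) * t i = -y := by
      rw [← hyz] at hsum
      rw [add_mul, smul_mul_assoc, mul_comm (t j) (t i)]
      linear_combination -hsum
    rw [e1]
    exact neg_mem hy
  · exact mem_V_succ.2 ⟨_, v, hv, rfl⟩
  · intro h
    have h1 := smul_mem _ (g.coeff m2)⁻¹ (sub_mem h hv)
    rw [add_sub_cancel_right, smul_smul, inv_mul_cancel₀ hc, one_smul] at h1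
    exact t_notMem hli j h1

variable (K) in
open Classical in
/-- the exponents of the cliques with `d` members in `S` -/
noncomputable def exps (t : Fin n → P) : ℕ → Finset (Fin n) → Finset (Fin n →₀ ℕ)
  | 0, _ => {0}
  | d + 1, S => S.biUnion fun v => (exps t d (S.filter fun u => v ≤ u ∧ Gr K t v u)).image
      fun m => Finsupp.single v 1 + m

theorem mem_exps_succ {d : ℕ} {S : Finset (Fin n)} {m : Fin n →₀ ℕ} :
    m ∈ exps K t (d + 1) S ↔ ∃ v ∈ S, ∃ m' ∈ exps K t d
      (by classical exact S.filter fun u => v ≤ u ∧ Gr K t v u), Finsupp.single v 1 + m' = m := by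
  classical
  rw [exps, Finset.mem_biUnion]
  refine exists_congr fun v => and_congr_right fun _ => ?_
  rw [Finset.mem_image]

theorem exps_supp {d : ℕ} {S : Finset (Fin n)} {m : Fin n →₀ ℕ} (hm : m ∈ exps K t d S) :
    ∀ i, m i ≠ 0 → i ∈ S := by
  classical
  induction d generalizing S m with
  | zero =>
    intro i hi
    rw [exps, Finset.mem_singleton] at hm
    rw [hm] at hi
    simp at hi
  | succ d ih =>
    intro i hi
    obtain ⟨v, hv, m', hm', rfl⟩ := mem_exps_succ.1 hm
    by_cases hiv : v = i
    · rwa [← hiv]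
    · have h1 : m' i ≠ 0 := by
        simpa [Finsupp.single_apply, hiv] using hi
      exact (Finset.mem_filter.1 (ih hm' i h1)).1

theorem exps_degree {d : ℕ} {S : Finset (Fin n)} {m : Fin n →₀ ℕ} (hm : m ∈ exps K t d S) :
    m.degree = d := by
  classical
  induction d generalizing S m with
  | zero =>
    rw [exps, Finset.mem_singleton] at hm
    rw [hm]
    simp
  | succ d ih =>
    obtain ⟨v, hv, m', hm', rfl⟩ := mem_exps_succ.1 hm
    rw [map_add, Finsupp.degree_single, ih hm', add_comm]

theorem card_exps (d : ℕ) (S : Finset (Fin n)) : (exps K t d S).card = cl K t d S := by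
  classical
  induction d generalizing S with
  | zero => rw [exps, cl_zero, Finset.card_singleton]
  | succ d ih =>
    rw [exps, cl_succ, Finset.card_biUnion]
    · refine Finset.sum_congr rfl fun v _ => ?_
      rw [Finset.card_image_of_injective _ (add_right_injective _), ih]
    · intro v _ v' _ hvv
      rw [Function.onFun, Finset.disjoint_left]
      intro m hm hm'
      obtain ⟨a, ha, rfl⟩ := Finset.mem_image.1 hm
      obtain ⟨b, hb, hab⟩ := Finset.mem_image.1 hm'
      rcases lt_or_gt_of_ne hvv with h | h
      · have h1 := DFunLike.congr_fun hab v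
        simp only [Finsupp.coe_add, Pi.add_apply, Finsupp.single_apply, if_neg h.ne', if_true] at h1
        have h2 : b v ≠ 0 := by omega
        exact absurd (Finset.mem_filter.1 (exps_supp hb v h2)).2.1 (not_le.2 h)
      · have h1 := DFunLike.congr_fun hab v'
        simp only [Finsupp.coe_add, Pi.add_apply, Finsupp.single_apply, if_neg h.ne', if_true] at h1
        have h2 : a v' ≠ 0 := by omega
        exact absurd (Finset.mem_filter.1 (exps_supp ha v' h2)).2.1 (not_le.2 h)

theorem exps_edge {d : ℕ} {S : Finset (Fin n)} {m : Fin n →₀ ℕ} (hm : m ∈ exps K t d S)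
    {i j : Fin n} (hij : i ≤ j) (hle : Finsupp.single i 1 + Finsupp.single j 1 ≤ m) : Gr K t i j := by
  classical
  induction d generalizing S m with
  | zero =>
    rw [exps, Finset.mem_singleton] at hm
    subst hm
    have := hle i
    simp at this
  | succ d ih =>
    obtain ⟨v, hv, m', hm', rfl⟩ := mem_exps_succ.1 hm
    have hge : ∀ k, m' k ≠ 0 → v ≤ k ∧ Gr K t v k := fun k hk =>
      (Finset.mem_filter.1 (exps_supp hm' k hk)).2
    by_cases hiv : i = v
    · subst hiv
      have h1 := hle j
      simp only [Finsupp.coe_add, Pi.add_apply, Finsupp.single_apply, if_true] at h1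
      have h2 : m' j ≠ 0 := by
        split_ifs at h1 <;> omega
      exact (hge j h2).2
    · have h1 := hle i
      simp only [Finsupp.coe_add, Pi.add_apply, Finsupp.single_apply, if_true,
        if_neg (Ne.symm hiv)] at h1
      have h2 : m' i ≠ 0 := by omega
      have h3 : v < i := lt_of_le_of_ne (hge i h2).1 (Ne.symm hiv)
      refine ih hm' ?_
      intro k
      have h4 := hle k
      simp only [Finsupp.coe_add, Pi.add_apply, Finsupp.single_apply] at h4 ⊢
      by_cases hkv : v = k
      · subst hkv
        rw [if_neg h3.ne', if_neg (lt_of_lt_of_le h3 hij).ne']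
        omega
      · rwa [if_neg hkv, zero_add] at h4

theorem exps_mem {d : ℕ} {S : Finset (Fin n)} {m : Fin n →₀ ℕ} (hm : m ∈ exps K t d S) :
    aeval t (monomial m (1 : K)) ∈ Wt K t ^ d := by
  classical
  induction d generalizing S m with
  | zero =>
    rw [exps, Finset.mem_singleton] at hm
    subst hm
    rw [pow_zero, monomial_zero', C_1, map_one]
    exact one_le.1 le_rfl
  | succ d ih =>
    obtain ⟨v, hv, m', hm', rfl⟩ := mem_exps_succ.1 hm
    have h1 : (monomial (Finsupp.single v 1 + m') (1 : K)) = X v * monomial m' 1 := by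
      rw [X, monomial_mul, one_mul]
    rw [h1, map_mul, aeval_X, pow_succ']
    exact mul_mem_mul (t_mem_W v) (ih hm')

/-- the monomials of the cliques are linearly independent -/
theorem exps_li (hli : LinearIndependent K t) (hQ : QuadraticGB (RingHom.ker (aeval (R := K) t))) (d : ℕ) :
    LinearIndependent K (fun m : exps K t d Finset.univ => aeval t (monomial m.1 (1 : K))) := by
  classical
  rw [Fintype.linearIndependent_iff]
  intro c hc
  set F : MvPolynomial (Fin n) K := ∑ m : exps K t d Finset.univ, monomial m.1 (c m) with hF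
  have hcoeff : ∀ m : exps K t d Finset.univ, F.coeff m.1 = c m := by
    intro m
    rw [hF, coeff_sum, Finset.sum_eq_single m]
    · rw [coeff_monomial, if_pos rfl]
    · intro m' _ hne
      rw [coeff_monomial, if_neg]
      intro h
      exact hne (Subtype.ext h)
    · intro h
      exact absurd (Finset.mem_univ _) h
  have hker : F ∈ RingHom.ker (aeval (R := K) t) := by
    rw [RingHom.mem_ker, hF, map_sum, ← hc]
    refine Finset.sum_congr rfl fun m _ => ?_
    have h1 : (monomial m.1 (c m) : MvPolynomial (Fin n) K) = c m • monomial m.1 1 := by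
      rw [smul_monomial, smul_eq_mul, mul_one]
    rw [h1]
    exact map_smul _ _ _
  have hhom : F.IsHomogeneous d := by
    rw [hF]
    refine IsHomogeneous.sum _ _ _ fun m _ => ?_
    exact isHomogeneous_monomial _ (exps_degree m.2)
  have hsup : ∀ m ∈ F.support, m ∈ exps K t d Finset.univ := by
    intro m hm
    by_contra hcon
    apply mem_support_iff.1 hm
    rw [hF, coeff_sum]
    refine Finset.sum_eq_zero fun m' _ => ?_
    rw [coeff_monomial, if_neg]
    rintro rfl
    exact hcon m'.2
  by_cases h0 : F = 0
  · intro m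
    rw [← hcoeff m, h0, coeff_zero]
  · exfalso
    obtain ⟨m, hm⟩ := exists_lead hhom h0
    obtain ⟨g, hg, hg2, m2, hm2, hle⟩ := hQ F hker m hm
    have hdeg : m2.degree = 2 := by
      rw [Finsupp.degree_eq_weight_one]
      exact hg2 (mem_support_iff.1 hm2.1)
    obtain ⟨i, j, hij, rfl⟩ := deg_two hdeg
    have h1 := mem_inn_of_quadric hli ((RingHom.mem_ker).1 hg) hg2 hij hm2
    exact exps_edge (hsup m hm.1) hij hle h1

/-- a quadratic Gröbner basis gives `⊥ ∈ LL` -/
theorem LL_bot (hli : LinearIndependent K t) (hQ : QuadraticGB (RingHom.ker (aeval (R := K) t))) :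
    LL K t (⊥ : Submodule K P) := by
  classical
  intro d
  have h1 : out K t (⊥ : Submodule K P) = Finset.univ := by
    rw [out, inn_bot hli, Finset.compl_empty]
  rw [h1, Submodule.bot_mul, finrank_bot, zero_add, ← card_exps]
  have h2 := exps_li hli hQ (d + 1)
  have h3 := finrank_span_eq_card h2
  rw [Fintype.card_coe] at h3
  rw [← h3]
  refine finrank_mono (span_le.2 ?_)
  rintro _ ⟨m, rfl⟩
  exact exps_mem m.2

end Pool.Agent.BR
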