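import Pool.Agent.Work.MP_be705b_al.Forms2
import Pool.Agent.Work.MP_be705b_al.GB

set_option autoImplicit false
set_option linter.unusedSectionVars false
set_option linter.unusedVariables false

/-!
# MP_be705b_al: contraction, factorisation of forms, coordinates
-/

namespace Pool.Agent.BR

open MvPolynomial Submodule Module

variable {K : Type*} [Field K]

/-! ### contraction -/

/-- the coefficient of `x ^ 3 * y * z` in `κ * w` -/
theorem cf311_mul {κ w : Pol K} (hκ : κ ∈ H K 2) (hw : w ∈ cubics K) : cf 3 1 1 (κ * w) =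
    hat κ 0 * cf 3 0 0 w + hat κ 1 * cf 2 1 0 w + hat κ 2 * cf 2 0 1 w := by
  have h1 := (mem_cubics.1 hw).2
  have h2 := (mem_cubics.1 hw).1
  conv_lhs => rw [← sq_add_cr hκ, add_mul, sq_mul, cr_mul]
  simp only [map_add, cf_C_mul]
  rw [cf_X0 2 1 1, cf_X0 1 1 1, cf_X1 3 0 1, cf_X1_zero, cf_X2 3 1 0, cf_X2_zero, cf_X1 3 0 1,
    cf_X2 3 0 0, cf_X0 2 1 1, cf_X2 2 1 0, cf_X0 2 1 1, cf_X1 2 0 1, h1]
  ring

/-- the coefficient of `x * y ^ 3 * z` in `κ * w` -/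
theorem cf131_mul {κ w : Pol K} (hκ : κ ∈ H K 2) (hw : w ∈ cubics K) : cf 1 3 1 (κ * w) =
    hat κ 0 * cf 1 2 0 w + hat κ 1 * cf 0 3 0 w + hat κ 2 * cf 0 2 1 w := by
  have h1 := (mem_cubics.1 hw).2
  conv_lhs => rw [← sq_add_cr hκ, add_mul, sq_mul, cr_mul]
  simp only [map_add, cf_C_mul]
  rw [cf_X0 0 3 1, cf_X0_zero, cf_X1 1 2 1, cf_X1 1 1 1, cf_X2 1 3 0, cf_X2_zero, cf_X1 1 2 1,
    cf_X2 1 2 0, cf_X0 0 3 1, cf_X2 0 3 0, cf_X0 0 3 1, cf_X1 0 2 1, h1]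
  ring

/-- the coefficient of `x * y * z ^ 3` in `κ * w` -/
theorem cf113_mul {κ w : Pol K} (hκ : κ ∈ H K 2) (hw : w ∈ cubics K) : cf 1 1 3 (κ * w) =
    hat κ 0 * cf 1 0 2 w + hat κ 1 * cf 0 1 2 w + hat κ 2 * cf 0 0 3 w := by
  have h1 := (mem_cubics.1 hw).2
  conv_lhs => rw [← sq_add_cr hκ, add_mul, sq_mul, cr_mul]
  simp only [map_add, cf_C_mul]
  rw [cf_X0 0 1 3, cf_X0_zero, cf_X1 1 0 3, cf_X1_zero, cf_X2 1 1 2, cf_X2 1 1 1, cf_X1 1 0 3,
    cf_X2 1 0 2, cf_X0 0 1 3, cf_X2 0 1 2, cf_X0 0 1 3, cf_X1 0 0 3, h1]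
  ring

/-- `N * W` consists of the forms of degree five without `x ^ 3 y z`, `x y ^ 3 z`, `x y z ^ 3` -/
theorem mem_NW {f : Pol K} : f ∈ N K * cubics K ↔
    f ∈ H K 5 ∧ cf 3 1 1 f = 0 ∧ cf 1 3 1 f = 0 ∧ cf 1 1 3 f = 0 := by
  constructor
  · intro h
    refine Submodule.mul_induction_on h ?_ ?_
    · intro κ hκ w hw
      have h1 := hat_of_N hκ
      have h2 := N_le hκ
      rw [cf311_mul h2 hw, cf131_mul h2 hw, cf113_mul h2 hw, h1]
      refine ⟨mul_mem_H h2 (cubics_le hw), ?_, ?_, ?_⟩ <;> simp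
    · rintro f g ⟨h1, h2, h3, h4⟩ ⟨g1, g2, g3, g4⟩
      refine ⟨add_mem h1 g1, ?_, ?_, ?_⟩
      · rw [map_add, h2, g2, add_zero]
      · rw [map_add, h3, g3, add_zero]
      · rw [map_add, h4, g4, add_zero]
  · rintro ⟨h1, h2, h3, h4⟩
    refine mem_span_mono fun a b c hc => ?_
    have hd : a + b + c = 5 := by
      by_contra hd
      exact hc (cf_eq_zero h1 hd)
    have n1 : ¬ (a = 3 ∧ b = 1 ∧ c = 1) := by
      rintro ⟨rfl, rfl, rfl⟩
      exact hc h2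
    have n2 : ¬ (a = 1 ∧ b = 3 ∧ c = 1) := by
      rintro ⟨rfl, rfl, rfl⟩
      exact hc h3
    have n3 : ¬ (a = 1 ∧ b = 1 ∧ c = 3) := by
      rintro ⟨rfl, rfl, rfl⟩
      exact hc h4
    have e0 : (X 0 ^ 2 : Pol K) ∈ N K := subset_span (by left; rfl)
    have e1 : (X 1 ^ 2 : Pol K) ∈ N K := subset_span (by right; left; rfl)
    have e2 : (X 2 ^ 2 : Pol K) ∈ N K := subset_span (by right; right; rfl)
    have key : (2 ≤ a ∧ ¬ (a - 2 = 1 ∧ b = 1 ∧ c = 1)) ∨ (2 ≤ b ∧ ¬ (a = 1 ∧ b - 2 = 1 ∧ c = 1)) ∨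
        (2 ≤ c ∧ ¬ (a = 1 ∧ b = 1 ∧ c - 2 = 1)) := by omega
    rcases key with ⟨h, h'⟩ | ⟨h, h'⟩ | ⟨h, h'⟩
    · rw [mono_split (i' := 2) (j' := 0) (k' := 0) h (Nat.zero_le _) (Nat.zero_le _)]
      refine mul_mem_mul (by simpa using e0) ?_
      rw [mem_cubics]
      refine ⟨mono_mem' (by omega), ?_⟩
      rw [cf_mono, if_neg]
      omega
    · rw [mono_split (i' := 0) (j' := 2) (k' := 0) (Nat.zero_le _) h (Nat.zero_le _)]
      refine mul_mem_mul (by simpa using e1) ?_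
      rw [mem_cubics]
      refine ⟨mono_mem' (by omega), ?_⟩
      rw [cf_mono, if_neg]
      omega
    · rw [mono_split (i' := 0) (j' := 0) (k' := 2) (Nat.zero_le _) (Nat.zero_le _) h]
      refine mul_mem_mul (by simpa using e2) ?_
      rw [mem_cubics]
      refine ⟨mono_mem' (by omega), ?_⟩
      rw [cf_mono, if_neg]
      omega

/-- the cubics `∑ a i * x i ^ 2 * x j`, `p j ≠ 0`, reduce the missing forms of degree five -/
theorem mul_cubics_eq {E : Submodule K (Pol K)} (hN : N K ≤ E) (hE : E ≤ H K 2) {κ : Pol K}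
    (hκ : κ ∈ E) (h0 : κ ∉ N K) : E * cubics K = H K 5 := by
  apply le_antisymm
  · refine (mul_le_mul' hE cubics_le).trans ?_
    rw [H_mul]
  · have hκ2 : κ ∈ H K 2 := hE hκ
    have hh : hat κ ≠ 0 := fun h => h0 (mem_N.2 ⟨hκ2, h⟩)
    have hNW : N K * cubics K ≤ E * cubics K := mul_le_mul_left hN _
    obtain ⟨j, hj⟩ : ∃ j, hat κ j ≠ 0 := by
      by_contra hcon
      push Not at hcon
      exact hh (funext hcon)
    -- three cubics `x i ^ 2 * x j`
    obtain ⟨c, hc, w0, w1, w2, m0, m1, m2, a0, a1, a2, b0, b1, b2, c0, c1, c2⟩ :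
        ∃ c : K, c ≠ 0 ∧ ∃ w0 w1 w2 : Pol K, w0 ∈ cubics K ∧ w1 ∈ cubics K ∧ w2 ∈ cubics K ∧
          cf 3 1 1 (κ * w0) = c ∧ cf 1 3 1 (κ * w0) = 0 ∧ cf 1 1 3 (κ * w0) = 0 ∧
          cf 3 1 1 (κ * w1) = 0 ∧ cf 1 3 1 (κ * w1) = c ∧ cf 1 1 3 (κ * w1) = 0 ∧
          cf 3 1 1 (κ * w2) = 0 ∧ cf 1 3 1 (κ * w2) = 0 ∧ cf 1 1 3 (κ * w2) = c := by
      have cases : hat κ 0 ≠ 0 ∨ hat κ 1 ≠ 0 ∨ hat κ 2 ≠ 0 := by
        fin_cases j
        · exact Or.inl hj
        · exact Or.inr (Or.inl hj)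
        · exact Or.inr (Or.inr hj)
      have mm : ∀ a b c : ℕ, a + b + c = 3 → (a = 0 ∨ b = 0 ∨ c = 0) →
          (X 0 ^ a * X 1 ^ b * X 2 ^ c : Pol K) ∈ cubics K := fun a b c h h' => mono_mem_cubics h h'
      rcases cases with h | h | h
      · refine ⟨hat κ 0, h, X 0 ^ 3 * X 1 ^ 0 * X 2 ^ 0, X 0 ^ 1 * X 1 ^ 2 * X 2 ^ 0,
          X 0 ^ 1 * X 1 ^ 0 * X 2 ^ 2, mm _ _ _ (by norm_num) (by omega), mm _ _ _ (by norm_num) (by omega),
          mm _ _ _ (by norm_num) (by omega), ?_, ?_, ?_, ?_, ?_, ?_, ?_, ?_, ?_⟩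
        · rw [cf311_mul hκ2 (mm _ _ _ (by norm_num) (by omega))]; simp only [cf_mono]; norm_num
        · rw [cf131_mul hκ2 (mm _ _ _ (by norm_num) (by omega))]; simp only [cf_mono]; norm_num
        · rw [cf113_mul hκ2 (mm _ _ _ (by norm_num) (by omega))]; simp only [cf_mono]; norm_num
        · rw [cf311_mul hκ2 (mm _ _ _ (by norm_num) (by omega))]; simp only [cf_mono]; norm_num
        · rw [cf131_mul hκ2 (mm _ _ _ (by norm_num) (by omega))]; simp only [cf_mono]; norm_num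
        · rw [cf113_mul hκ2 (mm _ _ _ (by norm_num) (by omega))]; simp only [cf_mono]; norm_num
        · rw [cf311_mul hκ2 (mm _ _ _ (by norm_num) (by omega))]; simp only [cf_mono]; norm_num
        · rw [cf131_mul hκ2 (mm _ _ _ (by norm_num) (by omega))]; simp only [cf_mono]; norm_num
        · rw [cf113_mul hκ2 (mm _ _ _ (by norm_num) (by omega))]; simp only [cf_mono]; norm_num
      · refine ⟨hat κ 1, h, X 0 ^ 2 * X 1 ^ 1 * X 2 ^ 0, X 0 ^ 0 * X 1 ^ 3 * X 2 ^ 0,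
          X 0 ^ 0 * X 1 ^ 1 * X 2 ^ 2, mm _ _ _ (by norm_num) (by omega), mm _ _ _ (by norm_num) (by omega),
          mm _ _ _ (by norm_num) (by omega), ?_, ?_, ?_, ?_, ?_, ?_, ?_, ?_, ?_⟩
        · rw [cf311_mul hκ2 (mm _ _ _ (by norm_num) (by omega))]; simp only [cf_mono]; norm_num
        · rw [cf131_mul hκ2 (mm _ _ _ (by norm_num) (by omega))]; simp only [cf_mono]; norm_num
        · rw [cf113_mul hκ2 (mm _ _ _ (by norm_num) (by omega))]; simp only [cf_mono]; norm_num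
        · rw [cf311_mul hκ2 (mm _ _ _ (by norm_num) (by omega))]; simp only [cf_mono]; norm_num
        · rw [cf131_mul hκ2 (mm _ _ _ (by norm_num) (by omega))]; simp only [cf_mono]; norm_num
        · rw [cf113_mul hκ2 (mm _ _ _ (by norm_num) (by omega))]; simp only [cf_mono]; norm_num
        · rw [cf311_mul hκ2 (mm _ _ _ (by norm_num) (by omega))]; simp only [cf_mono]; norm_num
        · rw [cf131_mul hκ2 (mm _ _ _ (by norm_num) (by omega))]; simp only [cf_mono]; norm_num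
        · rw [cf113_mul hκ2 (mm _ _ _ (by norm_num) (by omega))]; simp only [cf_mono]; norm_num
      · refine ⟨hat κ 2, h, X 0 ^ 2 * X 1 ^ 0 * X 2 ^ 1, X 0 ^ 0 * X 1 ^ 2 * X 2 ^ 1,
          X 0 ^ 0 * X 1 ^ 0 * X 2 ^ 3, mm _ _ _ (by norm_num) (by omega), mm _ _ _ (by norm_num) (by omega),
          mm _ _ _ (by norm_num) (by omega), ?_, ?_, ?_, ?_, ?_, ?_, ?_, ?_, ?_⟩
        · rw [cf311_mul hκ2 (mm _ _ _ (by norm_num) (by omega))]; simp only [cf_mono]; norm_num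
        · rw [cf131_mul hκ2 (mm _ _ _ (by norm_num) (by omega))]; simp only [cf_mono]; norm_num
        · rw [cf113_mul hκ2 (mm _ _ _ (by norm_num) (by omega))]; simp only [cf_mono]; norm_num
        · rw [cf311_mul hκ2 (mm _ _ _ (by norm_num) (by omega))]; simp only [cf_mono]; norm_num
        · rw [cf131_mul hκ2 (mm _ _ _ (by norm_num) (by omega))]; simp only [cf_mono]; norm_num
        · rw [cf113_mul hκ2 (mm _ _ _ (by norm_num) (by omega))]; simp only [cf_mono]; norm_num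
        · rw [cf311_mul hκ2 (mm _ _ _ (by norm_num) (by omega))]; simp only [cf_mono]; norm_num
        · rw [cf131_mul hκ2 (mm _ _ _ (by norm_num) (by omega))]; simp only [cf_mono]; norm_num
        · rw [cf113_mul hκ2 (mm _ _ _ (by norm_num) (by omega))]; simp only [cf_mono]; norm_num
    intro f hf
    have h1 : f - ((cf 3 1 1 f / c) • (κ * w0) + (cf 1 3 1 f / c) • (κ * w1) +
        (cf 1 1 3 f / c) • (κ * w2)) ∈ N K * cubics K := by
      rw [mem_NW]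
      have hκw : ∀ w ∈ cubics K, κ * w ∈ H K 5 := fun w hw => mul_mem_H hκ2 (cubics_le hw)
      refine ⟨sub_mem hf (add_mem (add_mem (smul_mem _ _ (hκw _ m0)) (smul_mem _ _ (hκw _ m1)))
        (smul_mem _ _ (hκw _ m2))), ?_, ?_, ?_⟩
      · simp only [map_sub, map_add, cf_smul, a0, b0, c0]
        field_simp
        ring
      · simp only [map_sub, map_add, cf_smul, a1, b1, c1]
        field_simp
        ring
      · simp only [map_sub, map_add, cf_smul, a2, b2, c2]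
        field_simp
        ring
    have h2 := add_mem (hNW h1) (add_mem (add_mem (smul_mem _ (cf 3 1 1 f / c) (mul_mem_mul hκ m0))
      (smul_mem _ (cf 1 3 1 f / c) (mul_mem_mul hκ m1))) (smul_mem _ (cf 1 1 3 f / c) (mul_mem_mul hκ m2)))
    rwa [sub_add_cancel] at h2

end Pool.Agent.BR
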