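import Mathlib

set_option autoImplicit false

/-!
# MP_be705b_al: the pinched Veronese ring and quadratic Gröbner bases for reverse lexicographic orders
-/

namespace Pool.Agent.BR

open MvPolynomial

/-- The degree reverse lexicographic order on exponents of monomials in the variables
`T 0, ..., T (n-1)`, where `T 0` is the smallest variable: `m` is smaller than `m'` if it has smaller degree,
or the same degree and a larger exponent at the smallest variable at which they differ. -/
def RevLt {n : ℕ} (m m' : Fin n →₀ ℕ) : Prop :=
  m.degree < m'.degree ∨ (m.degree = m'.degree ∧ ∃ i, (∀ j, j < i → m j = m' j) ∧ m' i < m i)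

/-- `m` is the exponent of the leading monomial of `F`. -/
def IsLead {K : Type*} [Field K] {n : ℕ} (F : MvPolynomial (Fin n) K) (m : Fin n →₀ ℕ) : Prop :=
  m ∈ F.support ∧ ∀ m' ∈ F.support, m' ≠ m → RevLt m' m

/-- The ideal `I` has a Gröbner basis of quadrics for the degree reverse lexicographic order: every
leading monomial of an element of `I` is a multiple of the leading monomial of a homogeneous
element of degree two of `I`. -/
def QuadraticGB {K : Type*} [Field K] {n : ℕ} (I : Ideal (MvPolynomial (Fin n) K)) : Prop :=
  ∀ F ∈ I, ∀ m, IsLead F m → ∃ g ∈ I, g.IsHomogeneous 2 ∧ ∃ m2, IsLead g m2 ∧ m2 ≤ m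

/-- The nine dimensional space of the linear forms of the pinched Veronese ring, spanned by the monomials
`x ^ a * y ^ b * z ^ c` with `a + b + c = 3` and `a * b * c = 0`. -/
noncomputable def cubics (K : Type*) [Field K] : Submodule K (MvPolynomial (Fin 3) K) :=
  Submodule.span K {p | ∃ e : Fin 3 →₀ ℕ, e.degree = 3 ∧ (∃ i, e i = 0) ∧ p = monomial e 1}

end Pool.Agent.BR
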