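import Pool.Agent.Work.MP_be705b_al.Cl

set_option autoImplicit false
set_option linter.unusedSectionVars false
set_option linter.unusedVariables false

/-!
# MP_be705b_al: graphs on few named vertices, reduction to Boolean matrices

`clB A d l` = number of cliques (with repetition) with `d` members in the list `l` for a Boolean matrix `A`.
`cl_refl` : `cl K t d {φ i | i ∈ l} = clB A d l`.  `adjB t x y : Bool` = adjacency.
`cl3_bits`, `cl4_bits`, `cl5_bits`, `cl6_bits`: the clique numbers of `{a, b, c, ..}` as `clB (sym_ ..) d [0, 1, ..]`, where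
`sym3`, `sym4`, `sym5`, `sym6` build the symmetric matrix from its upper triangle (row by row).
After `rw [cl4_bits ..] at ..`, `generalize adjB K t a b = x at *` etc. the goal can be closed by `revert ..; decide`.
-/

namespace Pool.Agent.BR

/-- auxiliary -/
def clAux {m : ℕ} (A : Fin m → Fin m → Bool) (f : List (Fin m) → ℕ) : List (Fin m) → ℕ
  | [] => 0
  | v :: l => f ((v :: l).filter (A v)) + clAux A f l

/-- number of cliques with repetition -/
def clB {m : ℕ} (A : Fin m → Fin m → Bool) : ℕ → List (Fin m) → ℕ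
  | 0 => fun _ => 1
  | d + 1 => clAux A (clB A d)

variable {K : Type*} {P : Type*} [Field K] [CommRing P] [IsDomain P] [Algebra K P] {n : ℕ}
  {t : Fin n → P}

theorem cl_refl {m : ℕ} {φ : Fin m → Fin n} (hφ : Function.Injective φ) {A : Fin m → Fin m → Bool}
    (hA : ∀ i j, A i j = true ↔ Adj K t (φ i) (φ j)) (d : ℕ) (l : List (Fin m)) (hl : l.Nodup) :
    cl K t d (l.map φ).toFinset = clB A d l := by
  induction d generalizing l with
  | zero => rw [cl_zero]; rfl
  | succ d ihd =>
    induction l with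
    | nil => 
      simp only [List.map_nil, List.toFinset_nil]
      rw [cl_empty]; rfl
    | cons v l ih =>
      have hv : v ∉ l := (List.nodup_cons.1 hl).1
      have hl' : l.Nodup := (List.nodup_cons.1 hl).2
      have h1 : φ v ∈ ((v :: l).map φ).toFinset := by simp
      rw [cl_erase d h1]
      have h2 : nb K t (φ v) ((v :: l).map φ).toFinset = (((v :: l).filter (A v)).map φ).toFinset := by
        ext x
        rw [mem_nb]
        simp only [List.mem_toFinset, List.mem_map, List.mem_filter]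
        constructor
        · rintro ⟨⟨y, hy, rfl⟩, h⟩
          exact ⟨y, ⟨hy, (hA _ _).2 h⟩, rfl⟩
        · rintro ⟨y, ⟨hy, h⟩, rfl⟩
          exact ⟨⟨y, hy, rfl⟩, (hA _ _).1 h⟩
      have h3 : (((v :: l).map φ).toFinset).erase (φ v) = (l.map φ).toFinset := by
        ext x
        simp only [Finset.mem_erase, List.mem_toFinset, List.mem_map, List.mem_cons]
        constructor
        · rintro ⟨h, y, rfl | hy, rfl⟩
          · exact absurd rfl h
          · exact ⟨y, hy, rfl⟩
        · rintro ⟨y, hy, rfl⟩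
          refine ⟨fun h => hv ?_, y, Or.inr hy, rfl⟩
          rwa [← hφ h]
      rw [h2, h3, ihd _ (hl.filter _), ih hl']
      rfl

open Classical in
variable (K t) in
/-- adjacency as a Boolean -/
noncomputable def adjB (x y : Fin n) : Bool := decide (Adj K t x y)

theorem adjB_true {x y : Fin n} : adjB K t x y = true ↔ Adj K t x y := by simp [adjB]

theorem adjB_false {x y : Fin n} : adjB K t x y = false ↔ ¬ Adj K t x y := by simp [adjB]

theorem adjB_symm (x y : Fin n) : adjB K t x y = adjB K t y x := by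
  unfold adjB
  exact decide_eq_decide.2 adj_comm

/-- symmetric matrices from the upper triangle -/
def sym2 (a b c : Bool) : Fin 2 → Fin 2 → Bool := ![![a, b], ![b, c]]

def sym3 (a b c d e f : Bool) : Fin 3 → Fin 3 → Bool := ![![a, b, c], ![b, d, e], ![c, e, f]]

def sym4 (a b c d e f g h i j : Bool) : Fin 4 → Fin 4 → Bool :=
  ![![a, b, c, d], ![b, e, f, g], ![c, f, h, i], ![d, g, i, j]]

def sym5 (a b c d e f g h i j k l m n o : Bool) : Fin 5 → Fin 5 → Bool :=
  ![![a, b, c, d, e], ![b, f, g, h, i], ![c, g, j, k, l], ![d, h, k, m, n], ![e, i, l, n, o]]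

def sym6 (a b c d e f g h i j k l m n o p q r s u v : Bool) : Fin 6 → Fin 6 → Bool :=
  ![![a, b, c, d, e, f], ![b, g, h, i, j, k], ![c, h, l, m, n, o], ![d, i, m, p, q, r],
    ![e, j, n, q, s, u], ![f, k, o, r, u, v]]

theorem cl2_bits {a b : Fin n} (h1 : a ≠ b) (d : ℕ) :
    cl K t d {a, b} = clB (sym2 (adjB K t a a) (adjB K t a b) (adjB K t b b)) d [0, 1] := by
  have hφ : Function.Injective ![a, b] := by
    intro i j; fin_cases i <;> fin_cases j <;> simp [h1, h1.symm]
  rw [← cl_refl (K := K) (t := t) hφ (A := sym2 (adjB K t a a) (adjB K t a b) (adjB K t b b)) ?_ d [0, 1]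
    (by decide)]
  · simp
  · intro i j
    fin_cases i <;> fin_cases j <;> simp [sym2, adjB, adj_comm]

theorem cl3_bits {a b c : Fin n} (h1 : a ≠ b) (h2 : a ≠ c) (h3 : b ≠ c) (d : ℕ) :
    cl K t d {a, b, c} = clB (sym3 (adjB K t a a) (adjB K t a b) (adjB K t a c) (adjB K t b b)
      (adjB K t b c) (adjB K t c c)) d [0, 1, 2] := by
  have hφ : Function.Injective ![a, b, c] := by
    intro i j; fin_cases i <;> fin_cases j <;> simp [h1, h1.symm, h2, h2.symm, h3, h3.symm]
  rw [← cl_refl (K := K) (t := t) hφ (A := sym3 (adjB K t a a) (adjB K t a b) (adjB K t a c) (adjB K t b b)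
      (adjB K t b c) (adjB K t c c)) ?_ d [0, 1, 2] (by decide)]
  · simp
  · intro i j
    fin_cases i <;> fin_cases j <;> simp [sym3, adjB, adj_comm]

theorem cl4_bits {a b c d : Fin n} (h1 : a ≠ b) (h2 : a ≠ c) (h3 : a ≠ d) (h4 : b ≠ c) (h5 : b ≠ d)
    (h6 : c ≠ d) (k : ℕ) :
    cl K t k {a, b, c, d} = clB (sym4 (adjB K t a a) (adjB K t a b) (adjB K t a c) (adjB K t a d)
      (adjB K t b b) (adjB K t b c) (adjB K t b d) (adjB K t c c) (adjB K t c d) (adjB K t d d))
      k [0, 1, 2, 3] := by
  have hφ : Function.Injective ![a, b, c, d] := by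
    intro i j
    fin_cases i <;> fin_cases j <;>
      simp [h1, h1.symm, h2, h2.symm, h3, h3.symm, h4, h4.symm, h5, h5.symm, h6, h6.symm]
  rw [← cl_refl (K := K) (t := t) hφ (A := sym4 (adjB K t a a) (adjB K t a b) (adjB K t a c) (adjB K t a d)
      (adjB K t b b) (adjB K t b c) (adjB K t b d) (adjB K t c c) (adjB K t c d) (adjB K t d d))
      ?_ k [0, 1, 2, 3] (by decide)]
  · simp
  · intro i j
    fin_cases i <;> fin_cases j <;> simp [sym4, adjB, adj_comm]

theorem cl5_bits {a b c d e : Fin n} (h1 : a ≠ b) (h2 : a ≠ c) (h3 : a ≠ d) (h4 : a ≠ e) (h5 : b ≠ c)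
    (h6 : b ≠ d) (h7 : b ≠ e) (h8 : c ≠ d) (h9 : c ≠ e) (h10 : d ≠ e) (k : ℕ) :
    cl K t k {a, b, c, d, e} = clB (sym5 (adjB K t a a) (adjB K t a b) (adjB K t a c) (adjB K t a d)
      (adjB K t a e) (adjB K t b b) (adjB K t b c) (adjB K t b d) (adjB K t b e) (adjB K t c c)
      (adjB K t c d) (adjB K t c e) (adjB K t d d) (adjB K t d e) (adjB K t e e)) k [0, 1, 2, 3, 4] := by
  have hφ : Function.Injective ![a, b, c, d, e] := by
    intro i j
    fin_cases i <;> fin_cases j <;>
      simp [h1, h1.symm, h2, h2.symm, h3, h3.symm, h4, h4.symm, h5, h5.symm, h6, h6.symm, h7, h7.symm,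
        h8, h8.symm, h9, h9.symm, h10, h10.symm]
  rw [← cl_refl (K := K) (t := t) hφ (A := sym5 (adjB K t a a) (adjB K t a b) (adjB K t a c) (adjB K t a d)
      (adjB K t a e) (adjB K t b b) (adjB K t b c) (adjB K t b d) (adjB K t b e) (adjB K t c c)
      (adjB K t c d) (adjB K t c e) (adjB K t d d) (adjB K t d e) (adjB K t e e))
      ?_ k [0, 1, 2, 3, 4] (by decide)]
  · simp
  · intro i j
    fin_cases i <;> fin_cases j <;> simp [sym5, adjB, adj_comm]

/-- test: in four vertices with 5 edges, 5 triangles, 5 quadrangles there are no two adjacent loops -/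
theorem no_adjacent_loops {a b c d : Fin n} (h1 : a ≠ b) (h2 : a ≠ c) (h3 : a ≠ d) (h4 : b ≠ c)
    (h5 : b ≠ d) (h6 : c ≠ d) (e2 : cl K t 2 {a, b, c, d} = 5) (e3 : cl K t 3 {a, b, c, d} = 5)
    (e4 : cl K t 4 {a, b, c, d} = 5) (ha : Adj K t a a) (hb : Adj K t b b) : ¬ Adj K t a b := by
  rw [cl4_bits h1 h2 h3 h4 h5 h6] at e2 e3 e4
  rw [← adjB_false]
  rw [← adjB_true] at ha hb
  rw [ha, hb] at e2 e3 e4
  generalize adjB K t a b = x1 at *
  generalize adjB K t a c = x2 at *
  generalize adjB K t a d = x3 at *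
  generalize adjB K t b c = x4 at *
  generalize adjB K t b d = x5 at *
  generalize adjB K t c c = x6 at *
  generalize adjB K t c d = x7 at *
  generalize adjB K t d d = x8 at *
  clear ha hb
  revert x1 x2 x3 x4 x5 x6 x7 x8
  decide

end Pool.Agent.BR
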