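import Pool.Agent.Work.MP_be705b_al.V2

set_option autoImplicit false
set_option linter.unusedSectionVars false
set_option linter.unusedVariables false

/-!
# MP_be705b_al: normal forms of type II

* `P1`: `a`, `b`, `m` are in the span of `X 0`, `X 1`.
* `P2`: the characteristic is not two, `m = X 0 + X 1`, and `a`, `b` are in the span of `X 2` and `X 0 - X 1`.
-/

namespace Pool.Agent.BR

open MvPolynomial Submodule Module

variable {K : Type*} [Field K]

/-- linear substitution -/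
noncomputable def ph (M : Fin 3 → Fin 3 → K) : Pol K →ₐ[K] Pol K := aeval fun i => lin (M i)

/-- a row vector times a matrix -/
def rm (u : Fin 3 → K) (M : Fin 3 → Fin 3 → K) : Fin 3 → K := fun k => u 0 * M 0 k + u 1 * M 1 k + u 2 * M 2 k

theorem ph_X (M : Fin 3 → Fin 3 → K) (i : Fin 3) : ph M (X i) = lin (M i) := by
  rw [ph, aeval_X]

theorem ph_lin (M : Fin 3 → Fin 3 → K) (u : Fin 3 → K) : ph M (lin u) = lin (rm u M) := by
  have h : ∀ c : K, ph M (C c) = C c := fun c => by rw [ph, ← algebraMap_eq, AlgHom.commutes]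
  rw [lin, map_add, map_add, map_mul, map_mul, map_mul, h, h, h, ph_X, ph_X, ph_X]
  simp only [lin, rm, map_add, map_mul]
  ring

theorem ph_mem_H1 (M : Fin 3 → Fin 3 → K) {l : Pol K} (hl : l ∈ H K 1) : ph M l ∈ H K 1 := by
  rw [← lin_lc hl, ph_lin]
  exact lin_mem _

theorem lc_ph (M : Fin 3 → Fin 3 → K) {l : Pol K} (hl : l ∈ H K 1) : lc (ph M l) = rm (lc l) M := by
  conv_lhs => rw [← lin_lc hl, ph_lin, lc_lin]

theorem lin_single (i : Fin 3) : (lin (Pi.single i 1) : Pol K) = X i := by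
  fin_cases i <;> simp [lin]

theorem ph_inj {M P : Fin 3 → Fin 3 → K} (h : ∀ i, rm (M i) P = Pi.single i 1) :
    Function.Injective (ph M) := by
  have h1 : (ph P).comp (ph M) = AlgHom.id K (Pol K) := by
    refine algHom_ext fun i => ?_
    rw [AlgHom.comp_apply, ph_X, ph_lin, h, lin_single]
    rfl
  intro x y hxy
  have h2 := congrArg (ph P) hxy
  rw [← AlgHom.comp_apply, ← AlgHom.comp_apply, h1] at h2
  exact h2

theorem ph_cubics {M : Fin 3 → Fin 3 → K} (h : ∀ i j, TT (M i) (M i) (M j) = 0) :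
    ∀ w ∈ cubics K, ph M w ∈ cubics K := by
  have h1 : ∀ i j, lin (M i) ^ 2 * lin (M j) ∈ cubics K := by
    intro i j
    rw [mem_cubics]
    constructor
    · have := mul_mem_H (mul_mem_H (lin_mem (M i)) (lin_mem (M i))) (lin_mem (M j))
      rwa [← pow_two] at this
    · have e : lin (M i) ^ 2 * lin (M j) = lin (M i) * (lin (M i) * lin (M j)) := by ring
      rw [e, cf111_lin3, h]
  have hC : ∀ c : K, ph M (C c) = C c := fun c => by rw [ph, ← algebraMap_eq, AlgHom.commutes]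
  have h3 : ∀ i j, ph M (X i ^ 2 * X j) ∈ cubics K := by
    intro i j
    rw [map_mul, map_pow, ph_X, ph_X]
    exact h1 i j
  have h4 : ∀ i (v : Fin 3 → K), ph M (X i ^ 2 * lin v) ∈ cubics K := by
    intro i v
    have e : ph M (X i ^ 2 * lin v) = v 0 • ph M (X i ^ 2 * X 0) + v 1 • ph M (X i ^ 2 * X 1) +
        v 2 • ph M (X i ^ 2 * X 2) := by
      rw [lin]
      simp only [map_mul, map_add, hC, smul_eq_C_mul]
      ring
    rw [e]
    exact add_mem (add_mem (smul_mem _ _ (h3 i 0)) (smul_mem _ _ (h3 i 1))) (smul_mem _ _ (h3 i 2))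
  intro w hw
  rw [← N_mul_H1] at hw
  refine Submodule.mul_induction_on hw (fun q hq l hl => ?_) (fun x y hx hy => ?_)
  · have e0 : q = sq (dg q) := by
      have h5 := sq_add_cr (N_le hq)
      rw [hat_of_N hq] at h5
      have h6 : cr (0 : Fin 3 → K) = 0 := by simp [cr]
      rw [h6, add_zero] at h5
      exact h5.symm
    have e : ph M (q * l) = dg q 0 • ph M (X 0 ^ 2 * lin (lc l)) + dg q 1 • ph M (X 1 ^ 2 * lin (lc l)) +
        dg q 2 • ph M (X 2 ^ 2 * lin (lc l)) := by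
      conv_lhs => rw [e0, ← lin_lc hl, sq]
      simp only [map_mul, map_add, hC, smul_eq_C_mul]
      ring
    rw [e]
    exact add_mem (add_mem (smul_mem _ _ (h4 0 _)) (smul_mem _ _ (h4 1 _))) (smul_mem _ _ (h4 2 _))
  · rw [map_add]
    exact add_mem hx hy

theorem T2.map {t : Fin 9 → Pol K} {a b m : Pol K} (h : T2 t a b m) {M P : Fin 3 → Fin 3 → K}
    (hM : ∀ i, rm (M i) P = Pi.single i 1) (hT : ∀ i j, TT (M i) (M i) (M j) = 0) :
    T2 (ph M ∘ t) (ph M a) (ph M b) (ph M m) where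
  fl := h.fl.map (ph_inj hM) (ph_cubics hT)
  ha := ph_mem_H1 M h.ha
  hb := ph_mem_H1 M h.hb
  hm := ph_mem_H1 M h.hm
  m0 := by
    intro h0
    exact h.m0 (ph_inj hM (by rw [h0, map_zero]))
  li := by
    have h1 := h.li.map' (ph M).toLinearMap (LinearMap.ker_eq_bot.2 (ph_inj hM))
    have e : ((ph M).toLinearMap ∘ ![a, b]) = ![ph M a, ph M b] := by
      ext i
      fin_cases i <;> rfl
    rwa [e] at h1
  t0 := by
    show ph M (t 0) = _
    rw [h.t0, map_mul, map_mul]
  t1 := by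
    show ph M (t 1) = _
    rw [h.t1, map_mul, map_mul]
  t2 := by
    rw [← map_mul, ← map_mul]
    exact ph_cubics hT _ h.t2

/-! ### scaling the coordinates -/

theorem V_scale {t : Fin 9 → Pol K} {c : Fin 9 → K} (hc : ∀ i, c i ≠ 0) (j : ℕ) :
    V K (fun i => c i • t i) j = V K t j := by
  apply le_antisymm
  · rw [V, span_le]
    rintro _ ⟨i, hi, rfl⟩
    exact smul_mem _ _ (subset_span ⟨i, hi, rfl⟩)
  · rw [V, span_le]
    rintro _ ⟨i, hi, rfl⟩
    have h1 : c i • t i ∈ V K (fun i => c i • t i) j := subset_span ⟨i, hi, rfl⟩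
    have h2 := smul_mem _ (c i)⁻¹ h1
    rw [smul_smul, inv_mul_cancel₀ (hc i), one_smul] at h2
    exact h2

theorem A_scale {t : Fin 9 → Pol K} {c : Fin 9 → K} (hc : ∀ i, c i ≠ 0) (j : Fin 9) :
    A K (fun i => c i • t i) j = A K t j := by
  have hW : Wt K (fun i => c i • t i) = Wt K t := V_scale hc 9
  ext w
  rw [mem_A, mem_A, hW, V_scale hc, mul_smul_comm]
  constructor
  · rintro ⟨h1, h2⟩
    have h3 := smul_mem _ (c j)⁻¹ h2
    rw [smul_smul, inv_mul_cancel₀ (hc j), one_smul] at h3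
    exact ⟨h1, h3⟩
  · rintro ⟨h1, h2⟩
    exact ⟨h1, smul_mem _ _ h2⟩

theorem inn_scale {t : Fin 9 → Pol K} {c : Fin 9 → K} (hc : ∀ i, c i ≠ 0) (U : Submodule K (Pol K)) :
    inn K (fun i => c i • t i) U = inn K t U := by
  ext i
  rw [mem_inn, mem_inn, V_scale hc]
  constructor
  · rintro ⟨v, hv, hu⟩
    refine ⟨(c i)⁻¹ • v, smul_mem _ _ hv, ?_⟩
    have h3 := smul_mem U (c i)⁻¹ hu
    rw [smul_add, smul_smul, inv_mul_cancel₀ (hc i), one_smul] at h3
    exact h3
  · rintro ⟨v, hv, hu⟩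
    refine ⟨c i • v, smul_mem _ _ hv, ?_⟩
    have h3 := smul_mem U (c i) hu
    rw [smul_add] at h3
    exact h3

theorem cl_scale {t : Fin 9 → Pol K} {c : Fin 9 → K} (hc : ∀ i, c i ≠ 0) (d : ℕ) (S : Finset (Fin 9)) :
    cl K (fun i => c i • t i) d S = cl K t d S := by
  classical
  induction d generalizing S with
  | zero => rw [cl_zero, cl_zero]
  | succ d ih =>
    rw [cl_succ, cl_succ]
    refine Finset.sum_congr rfl fun v _ => ?_
    rw [ih]
    congr 1
    ext u
    simp only [Finset.mem_filter, Gr, A_scale hc, inn_scale hc]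

theorem Fl.scale {t : Fin 9 → Pol K} (h : Fl t) {c : Fin 9 → K} (hc : ∀ i, c i ≠ 0) :
    Fl (fun i => c i • t i) := by
  have hW : Wt K (fun i => c i • t i) = Wt K t := V_scale hc 9
  refine ⟨?_, by rw [hW]; exact h.sp, ?_⟩
  · exact h.li.units_smul fun i => Units.mk0 (c i) (hc i)
  · intro d
    have h1 := h.ll d
    rw [out, inn_scale hc, cl_scale hc, hW]
    exact h1

/-- type II after scaling `a` -/
theorem T2.scale {t : Fin 9 → Pol K} {a b m : Pol K} (h : T2 t a b m) {c : K} (hc : c ≠ 0) :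
    ∃ t' : Fin 9 → Pol K, T2 t' (c • a) b m := by
  let d : Fin 9 → K := fun i => if i = 0 then c * c else c
  have hd : ∀ i, d i ≠ 0 := by
    intro i
    simp only [d]
    split_ifs
    · exact mul_ne_zero hc hc
    · exact hc
  refine ⟨fun i => d i • t i, h.fl.scale hd, smul_mem _ _ h.ha, h.hb, h.hm, h.m0, ?_, ?_, ?_, h.t2⟩
  · have h1 := h.li
    rw [LinearIndependent.pair_iff] at h1 ⊢
    intro x y hxy
    rw [smul_smul] at hxy
    obtain ⟨h2, h3⟩ := h1 _ _ hxy
    exact ⟨(mul_eq_zero.1 h2).resolve_right hc, h3⟩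
  · show (c * c) • t 0 = _
    rw [h.t0]
    simp only [smul_eq_C_mul, map_mul]
    ring
  · show (if (1 : Fin 9) = 0 then c * c else c) • t 1 = _
    rw [if_neg (by decide), h.t1]
    simp only [smul_eq_C_mul]
    ring

/-- first normal form -/
structure P1 (t : Fin 9 → Pol K) (a b m : Pol K) : Prop extends T2 t a b m where
  a2 : lc a 2 = 0
  b2 : lc b 2 = 0
  m2 : lc m 2 = 0

/-- second normal form -/
structure P2 (t : Fin 9 → Pol K) (a b m : Pol K) : Prop extends T2 t a b m where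
  two : (2 : K) ≠ 0
  meq : m = X 0 + X 1
  an : a = X 2 ∨ ∃ al : K, a = X 0 - X 1 + C al * X 2
  b01 : lc b 0 + lc b 1 = 0

/-- the three conditions -/
theorem T2.tt {t : Fin 9 → Pol K} {a b m : Pol K} (h : T2 t a b m) :
    TT (lc a) (lc a) (lc m) = 0 ∧ TT (lc a) (lc b) (lc m) = 0 ∧ TT (lc b) (lc b) (lc m) = 0 := by
  have h0 := h.fl.mem 0
  have h1 := h.fl.mem 1
  have h2 := h.t2
  rw [h.t0, ← lin_lc h.ha, ← lin_lc h.hm, mul_assoc] at h0
  rw [h.t1, ← lin_lc h.ha, ← lin_lc h.hb, ← lin_lc h.hm, mul_assoc] at h1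
  rw [← lin_lc h.hb, ← lin_lc h.hm, mul_assoc] at h2
  exact ⟨by rw [← cf111_lin3]; exact (mem_cubics.1 h0).2, by rw [← cf111_lin3]; exact (mem_cubics.1 h1).2,
    by rw [← cf111_lin3]; exact (mem_cubics.1 h2).2⟩

theorem T2.lc_m {t : Fin 9 → Pol K} {a b m : Pol K} (h : T2 t a b m) : lc m ≠ 0 := by
  intro h0
  apply h.m0
  rw [← lin_lc h.hm, h0, lin_eq_zero]

/-- a vanishing coordinate -/
theorem norm_zero {u v μ : Fin 3 → K} (hli : LinearIndependent K ![u, v]) (h0 : TT u u μ = 0)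
    (h1 : TT u v μ = 0) (h2 : TT v v μ = 0) : 2 * μ 0 * μ 1 * μ 2 = 0 := by
  -- the vectors `B u`, `B v`
  let B : (Fin 3 → K) → Fin 3 → K := fun w => ![w 1 * μ 2 + w 2 * μ 1, w 0 * μ 2 + w 2 * μ 0, w 0 * μ 1 + w 1 * μ 0]
  have hB : ∀ x w, dot x (B w) = TT x w μ := by
    intro x w
    simp [dot, B, TT]
  have hs : ∀ x w, TT x w μ = TT w x μ := by
    intro x w
    simp only [TT]
    ring
  obtain ⟨c1, hc1⟩ := eq_smul_cross (w := B u) hli (by rw [hB, h0]) (by rw [hB, hs, h1])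
  obtain ⟨c2, hc2⟩ := eq_smul_cross (w := B v) hli (by rw [hB, h1]) (by rw [hB, h2])
  have key : ∀ w : Fin 3 → K, w ≠ 0 → B w = 0 → 2 * μ 0 * μ 1 * μ 2 = 0 := by
    intro w hw hBw
    obtain ⟨i, hi⟩ : ∃ i, w i ≠ 0 := by
      by_contra hcon
      push Not at hcon
      exact hw (funext hcon)
    have e0 := congrFun hBw 0
    have e1 := congrFun hBw 1
    have e2 := congrFun hBw 2
    simp only [B, Pi.zero_apply, Matrix.cons_val_zero, Matrix.cons_val_one, Matrix.cons_val] at e0 e1 e2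
    have h3 : 2 * μ 0 * μ 1 * μ 2 * w i = 0 := by
      fin_cases i <;> simp only [Fin.mk_zero, Fin.mk_one, Fin.reduceFinMk]
      · linear_combination (-(μ 0) * μ 0) * e0 + (μ 0 * μ 1) * e1 + (μ 0 * μ 2) * e2
      · linear_combination (-(μ 1) * μ 1) * e1 + (μ 0 * μ 1) * e0 + (μ 1 * μ 2) * e2
      · linear_combination (-(μ 2) * μ 2) * e2 + (μ 0 * μ 2) * e0 + (μ 1 * μ 2) * e1
    exact (mul_eq_zero.1 h3).resolve_right hi
  by_cases hc : c1 = 0
  · exact key u (hli.ne_zero 0) (by rw [hc1, hc, zero_smul])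
  · refine key (c2 • u + (-c1) • v) ?_ ?_
    · intro h3
      rw [LinearIndependent.pair_iff] at hli
      exact hc (neg_eq_zero.1 (hli _ _ h3).2)
    · have e : B (c2 • u + (-c1) • v) = c2 • B u + (-c1) • B v := by
        ext k
        fin_cases k <;> simp [B] <;> ring
      rw [e, hc1, hc2, smul_smul, smul_smul, ← add_smul]
      have : c2 * c1 + -c1 * c2 = 0 := by ring
      rw [this, zero_smul]

/-- transposition of `0` and `2` -/
def s02 : Fin 3 → Fin 3 → K := ![![0, 0, 1], ![0, 1, 0], ![1, 0, 0]]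

/-- transposition of `1` and `2` -/
def s12 : Fin 3 → Fin 3 → K := ![![1, 0, 0], ![0, 0, 1], ![0, 1, 0]]

theorem rm_s02 (u : Fin 3 → K) : rm u s02 = ![u 2, u 1, u 0] := by
  ext k
  fin_cases k <;> simp [rm, s02]

theorem rm_s12 (u : Fin 3 → K) : rm u s12 = ![u 0, u 2, u 1] := by
  ext k
  fin_cases k <;> simp [rm, s12]

theorem s02_inv (i : Fin 3) : rm (s02 i : Fin 3 → K) s02 = Pi.single i 1 := by
  rw [rm_s02]
  ext k
  fin_cases i <;> fin_cases k <;> simp [s02]

theorem s12_inv (i : Fin 3) : rm (s12 i : Fin 3 → K) s12 = Pi.single i 1 := by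
  rw [rm_s12]
  ext k
  fin_cases i <;> fin_cases k <;> simp [s12]

theorem s02_TT (i j : Fin 3) : TT (s02 i : Fin 3 → K) (s02 i) (s02 j) = 0 := by
  fin_cases i <;> fin_cases j <;> simp [s02, TT]

theorem s12_TT (i j : Fin 3) : TT (s12 i : Fin 3 → K) (s12 i) (s12 j) = 0 := by
  fin_cases i <;> fin_cases j <;> simp [s12, TT]

/-- the second normal form from the plane -/
theorem T2.toP2 {t : Fin 9 → Pol K} {a b m : Pol K} (h : T2 t a b m) (h2 : (2 : K) ≠ 0)
    (hm : m = X 0 + X 1) (ha : lc a 0 + lc a 1 = 0) (hb : lc b 0 + lc b 1 = 0) :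
    ∃ (t' : Fin 9 → Pol K) (a' b' m' : Pol K), P2 t' a' b' m' := by
  have ha1 : lc a 1 = -lc a 0 := by linear_combination ha
  have he := lin_lc h.ha
  rw [lin, ha1] at he
  by_cases h0 : lc a 0 = 0
  · have h3 : lc a 2 ≠ 0 := by
      intro h3
      apply h.a0
      rw [← he, h0, h3]
      simp
    obtain ⟨t', ht'⟩ := h.scale (inv_ne_zero h3)
    refine ⟨t', _, _, _, { ht' with two := h2, meq := hm, an := Or.inl ?_, b01 := hb }⟩
    rw [h0] at he
    simp only [neg_zero, map_zero, zero_mul, zero_add] at he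
    have h4 : (C (lc a 2)⁻¹ * C (lc a 2) : Pol K) = 1 := by
      rw [← map_mul, inv_mul_cancel₀ h3, map_one]
    have h5 : (lc a 2)⁻¹ • a = C (lc a 2)⁻¹ * (C (lc a 2) * X 2) :=
      (congrArg (fun x => (lc a 2)⁻¹ • x) he.symm).trans (smul_eq_C_mul _ _)
    rw [h5, ← mul_assoc, h4, one_mul]
  · obtain ⟨t', ht'⟩ := h.scale (inv_ne_zero h0)
    refine ⟨t', _, _, _, { ht' with two := h2, meq := hm, an := Or.inr ⟨(lc a 0)⁻¹ * lc a 2, ?_⟩, b01 := hb }⟩
    have h3 : (C (lc a 0)⁻¹ * C (lc a 0) : Pol K) = 1 := by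
      rw [← map_mul, inv_mul_cancel₀ h0, map_one]
    have h4 : (lc a 0)⁻¹ • a = C (lc a 0)⁻¹ * (C (lc a 0) * X 0 + C (-lc a 0) * X 1 + C (lc a 2) * X 2) :=
      (congrArg (fun x => (lc a 0)⁻¹ • x) he.symm).trans (smul_eq_C_mul _ _)
    rw [h4, map_neg, map_mul]
    linear_combination (X 0 - X 1) * h3

/-- normalisation of a vanishing coordinate -/
theorem T2.toP1 {t : Fin 9 → Pol K} {a b m : Pol K} (h : T2 t a b m) {k : Fin 3} (ha : lc a k = 0)
    (hb : lc b k = 0) (hm : lc m k = 0) : ∃ (t' : Fin 9 → Pol K) (a' b' m' : Pol K), P1 t' a' b' m' := by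
  fin_cases k
  · refine ⟨_, _, _, _, { h.map s02_inv s02_TT with a2 := ?_, b2 := ?_, m2 := ?_ }⟩
    · rw [lc_ph _ h.ha, rm_s02]; exact ha
    · rw [lc_ph _ h.hb, rm_s02]; exact hb
    · rw [lc_ph _ h.hm, rm_s02]; exact hm
  · refine ⟨_, _, _, _, { h.map s12_inv s12_TT with a2 := ?_, b2 := ?_, m2 := ?_ }⟩
    · rw [lc_ph _ h.ha, rm_s12]; exact ha
    · rw [lc_ph _ h.hb, rm_s12]; exact hb
    · rw [lc_ph _ h.hm, rm_s12]; exact hm
  · exact ⟨_, _, _, _, { h with a2 := ha, b2 := hb, m2 := hm }⟩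

/-- the case of `m` without `X 2` -/
theorem norm_m2 {t : Fin 9 → Pol K} {a b m : Pol K} (h : T2 t a b m) (h2 : (2 : K) ≠ 0)
    (hm : lc m 2 = 0) : (∃ (t' : Fin 9 → Pol K) (a' b' m' : Pol K), P1 t' a' b' m') ∨
      ∃ (t' : Fin 9 → Pol K) (a' b' m' : Pol K), P2 t' a' b' m' := by
  obtain ⟨e0, e1, e2⟩ := h.tt
  simp only [TT, hm] at e0 e1 e2
  have f0 : lc a 2 * (lc a 0 * lc m 1 + lc a 1 * lc m 0) = 0 := by
    have : (2 : K) * (lc a 2 * (lc a 0 * lc m 1 + lc a 1 * lc m 0)) = 0 := by linear_combination e0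
    exact (mul_eq_zero.1 this).resolve_left h2
  have f2 : lc b 2 * (lc b 0 * lc m 1 + lc b 1 * lc m 0) = 0 := by
    have : (2 : K) * (lc b 2 * (lc b 0 * lc m 1 + lc b 1 * lc m 0)) = 0 := by linear_combination e2
    exact (mul_eq_zero.1 this).resolve_left h2
  have f1 : lc b 2 * (lc a 0 * lc m 1 + lc a 1 * lc m 0) + lc a 2 * (lc b 0 * lc m 1 + lc b 1 * lc m 0) = 0 := by
    linear_combination e1
  by_cases hab : lc a 2 = 0 ∧ lc b 2 = 0
  · left
    exact h.toP1 hab.1 hab.2 hm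
  · have hf : lc a 0 * lc m 1 + lc a 1 * lc m 0 = 0 ∧ lc b 0 * lc m 1 + lc b 1 * lc m 0 = 0 := by
      by_cases ha : lc a 2 = 0
      · have hb : lc b 2 ≠ 0 := fun hb => hab ⟨ha, hb⟩
        rw [ha, zero_mul, add_zero] at f1
        exact ⟨(mul_eq_zero.1 f1).resolve_left hb, (mul_eq_zero.1 f2).resolve_left hb⟩
      · have f3 := (mul_eq_zero.1 f0).resolve_left ha
        rw [f3, mul_zero, zero_add] at f1
        exact ⟨f3, (mul_eq_zero.1 f1).resolve_left ha⟩
    have hm0 := h.lc_m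
    by_cases h0 : lc m 0 = 0
    · left
      have h1 : lc m 1 ≠ 0 := by
        intro h1
        apply hm0
        ext k
        fin_cases k
        · exact h0
        · exact h1
        · exact hm
      rw [h0, mul_zero, add_zero, mul_zero, add_zero] at hf
      exact h.toP1 (k := 0) ((mul_eq_zero.1 hf.1).resolve_right h1) ((mul_eq_zero.1 hf.2).resolve_right h1) h0
    · by_cases h1 : lc m 1 = 0
      · left
        rw [h1, mul_zero, zero_add, mul_zero, zero_add] at hf
        exact h.toP1 (k := 1) ((mul_eq_zero.1 hf.1).resolve_right h0) ((mul_eq_zero.1 hf.2).resolve_right h0) h1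
      · right
        let M : Fin 3 → Fin 3 → K := ![![(lc m 0)⁻¹, 0, 0], ![0, (lc m 1)⁻¹, 0], ![0, 0, 1]]
        let P : Fin 3 → Fin 3 → K := ![![lc m 0, 0, 0], ![0, lc m 1, 0], ![0, 0, 1]]
        have hr : ∀ u : Fin 3 → K, rm u M = ![u 0 * (lc m 0)⁻¹, u 1 * (lc m 1)⁻¹, u 2] := by
          intro u
          ext k
          fin_cases k <;> simp [rm, M]
        have hM : ∀ i, rm (M i) P = Pi.single i 1 := by
          intro i
          ext k
          fin_cases i <;> fin_cases k <;> simp [rm, M, P, h0, h1]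
        have hT : ∀ i j, TT (M i) (M i) (M j) = 0 := by
          intro i j
          fin_cases i <;> fin_cases j <;> simp [M, TT]
        refine (h.map hM hT).toP2 h2 ?_ ?_ ?_
        · rw [← lin_lc (ph_mem_H1 M h.hm), lc_ph _ h.hm, hr, hm]
          simp [lin, h0, h1]
        · rw [lc_ph _ h.ha, hr]
          show lc a 0 * (lc m 0)⁻¹ + lc a 1 * (lc m 1)⁻¹ = 0
          field_simp
          linear_combination hf.1
        · rw [lc_ph _ h.hb, hr]
          show lc b 0 * (lc m 0)⁻¹ + lc b 1 * (lc m 1)⁻¹ = 0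
          field_simp
          linear_combination hf.2

/-- the inverse of the matrix with rows `u`, `v`, `w` -/
theorem cramer (u v w : Fin 3 → K) (i k : Fin 3) :
    cross v w i * u k + cross w u i * v k + cross u v i * w k =
      (Pi.single i 1 : Fin 3 → K) k * dot w (cross u v) := by
  fin_cases i <;> fin_cases k <;> simp [cross, dot] <;> ring

theorem exists_M {u v μ : Fin 3 → K} (hli : LinearIndependent K ![u, v]) (h2 : (2 : K) = 0)
    (e1 : TT u v μ = 0) : ∃ M P : Fin 3 → Fin 3 → K, (∀ i, rm (M i) P = Pi.single i 1) ∧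
      rm u M 2 = 0 ∧ rm v M 2 = 0 ∧ rm μ M 2 = 0 := by
  obtain ⟨i, hi⟩ : ∃ i, cross u v i ≠ 0 := by
    by_contra hcon
    push Not at hcon
    exact cross_ne hli (funext hcon)
  have hD : dot (Pi.single i 1) (cross u v) ≠ 0 := by
    have : dot (Pi.single i 1) (cross u v) = cross u v i := by
      simp only [dot]
      fin_cases i <;> simp
    rw [this]
    exact hi
  generalize (Pi.single i 1 : Fin 3 → K) = w at hD
  refine ⟨fun i => ![cross v w i * (dot w (cross u v))⁻¹, cross w u i * (dot w (cross u v))⁻¹,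
    cross u v i * (dot w (cross u v))⁻¹], ![u, v, w], fun i => ?_, ?_, ?_, ?_⟩
  · ext k
    have h1 := cramer u v w i k
    have h3 : rm ![cross v w i * (dot w (cross u v))⁻¹, cross w u i * (dot w (cross u v))⁻¹,
        cross u v i * (dot w (cross u v))⁻¹] ![u, v, w] k =
        (cross v w i * u k + cross w u i * v k + cross u v i * w k) * (dot w (cross u v))⁻¹ := by
      show (cross v w i * (dot w (cross u v))⁻¹) * u k + (cross w u i * (dot w (cross u v))⁻¹) * v k +
        (cross u v i * (dot w (cross u v))⁻¹) * w k = _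
      ring
    rw [h3, h1, mul_assoc, mul_inv_cancel₀ hD, mul_one]
  · show u 0 * (cross u v 0 * (dot w (cross u v))⁻¹) + u 1 * (cross u v 1 * (dot w (cross u v))⁻¹) +
      u 2 * (cross u v 2 * (dot w (cross u v))⁻¹) = 0
    have := dot_cross_left u v
    simp only [dot] at this
    linear_combination (dot w (cross u v))⁻¹ * this
  · show v 0 * (cross u v 0 * (dot w (cross u v))⁻¹) + v 1 * (cross u v 1 * (dot w (cross u v))⁻¹) +
      v 2 * (cross u v 2 * (dot w (cross u v))⁻¹) = 0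
    have := dot_cross_right u v
    simp only [dot] at this
    linear_combination (dot w (cross u v))⁻¹ * this
  · show μ 0 * (cross u v 0 * (dot w (cross u v))⁻¹) + μ 1 * (cross u v 1 * (dot w (cross u v))⁻¹) +
      μ 2 * (cross u v 2 * (dot w (cross u v))⁻¹) = 0
    have h3 : dot μ (cross u v) = 0 := by
      simp only [dot, cross, Matrix.cons_val_zero, Matrix.cons_val_one, Matrix.cons_val]
      simp only [TT] at e1
      linear_combination e1 - (u 2 * v 1 * μ 0 + u 0 * v 2 * μ 1 + u 1 * v 0 * μ 2) * h2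
    simp only [dot] at h3
    linear_combination (dot w (cross u v))⁻¹ * h3

theorem t2norm {t : Fin 9 → Pol K} {a b m : Pol K} (h : T2 t a b m) :
    (∃ (t' : Fin 9 → Pol K) (a' b' m' : Pol K), P1 t' a' b' m') ∨
      ∃ (t' : Fin 9 → Pol K) (a' b' m' : Pol K), P2 t' a' b' m' := by
  have hli := lc_li h.ha h.hb h.li
  obtain ⟨e0, e1, e2⟩ := h.tt
  by_cases h2 : (2 : K) = 0
  · left
    obtain ⟨M, P, hM, hu2, hv2, hm2⟩ := exists_M hli h2 e1
    have hT : ∀ i j, TT (M i) (M i) (M j) = 0 := by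
      intro i j
      have : TT (M i) (M i) (M j) = 2 * (M i 0 * M i 1 * M j 2 + M i 0 * M i 2 * M j 1 + M i 1 * M i 2 * M j 0) := by
        simp only [TT]
        ring
      rw [this, h2, zero_mul]
    refine ⟨_, _, _, _, { h.map hM hT with a2 := ?_, b2 := ?_, m2 := ?_ }⟩
    · rw [lc_ph _ h.ha]; exact hu2
    · rw [lc_ph _ h.hb]; exact hv2
    · rw [lc_ph _ h.hm]; exact hm2
  · have h3 := norm_zero hli e0 e1 e2
    have h4 : lc m 0 = 0 ∨ lc m 1 = 0 ∨ lc m 2 = 0 := by
      rcases mul_eq_zero.1 h3 with h4 | h4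
      · rcases mul_eq_zero.1 h4 with h5 | h5
        · left
          exact (mul_eq_zero.1 h5).resolve_left h2
        · right; left; exact h5
      · right; right; exact h4
    rcases h4 with h4 | h4 | h4
    · refine norm_m2 (h.map s02_inv s02_TT) h2 ?_
      rw [lc_ph _ h.hm, rm_s02]; exact h4
    · refine norm_m2 (h.map s12_inv s12_TT) h2 ?_
      rw [lc_ph _ h.hm, rm_s12]; exact h4
    · exact norm_m2 h h2 h4

end Pool.Agent.BR
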