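import Pool.Agent.Work.MP_be705b_al.I_Base

set_option autoImplicit false
set_option linter.unusedSectionVars false
set_option linter.unusedVariables false

/-!
# MP_be705b_al, type I: module I_0

General conventions (see I_Defs, Fl, V2, Graph, Cube): `P = span K {q, q'}`, `W = cubics K`, vertices = `Fin 9`, `out U` = complement of
the initial variables of `U`, `cl K t d S` = number of cliques with repetition, `nb K t j S` = neighbours of `j` in `S`,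
`h.fl.outA j : out (A j) = nb j (out (V j))`, `h.fl.outSupA`, `Fl.exact`, `h.fl.cl1/cl2/cl3/cl4`.

I.0: `t 2` is not in `A 1 ⊔ V 2`.  Suppose `t 2 = q * ν + v`, `ν ∈ H 1`, `v ∈ V 2 = mulS l P`.  `l` does not divide `ν` (else `ν = C c * l`, `t 2 ∈ V 2`, but
`t_notMem`).  So `l, ν` are independent.
(1) for `κ ∈ FF l ν`: `l * κ ∈ A 2`: `(l κ)(q ν) = (l q) (ν κ) ∈ V 2 * W`, `(l κ) v ∈ V 2 * W`.
(2) `FF l ν * W = H 5` (`FF_mul`), so `mulS l (H 5) ≤ A 2 * W`.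
(3) `t 2 ∉ A 2`: if `t 2 * t 2 ∈ V 2 * W ⊆ mulS l (H 5)` then `l ∣ t 2`, `l ∣ q ν`, no.  So `2` is a loop (`loop_iff`).
(4) take `κ ∈ KK l`, `κ ∉ KK ν` (dimensions 5 and `finrank_FF` 4; or explicitly: `hat κ` orthogonal to `lc l` and not to `lc ν`); `a = l κ ∈ W`, `a * t 2 ∈ mulS l (H 5) ≤ A 2 * W`.
    `Fl.nzd1` with `U = V 2` (`V 2 ≤ A 2`): `a ∈ V 2 ⊔ A 2 = A 2`: `l κ q ν ∈ V 2 * W = mulS l (P * W)`, so `κ q ν = q a + q' b`, `a, b ∈ W`; `q ∣ q' b`, `q ∣ b`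
    (`dvd_of_rel`), `b = q s`, `s ∈ H 1`, `κ ν = a + q' s ∈ W` (`q' s ∈ N * H 1 = W`), so `κ ∈ KK ν`, contradiction.
-/

namespace Pool.Agent.BR

open MvPolynomial Submodule Module

variable {K : Type*} [Field K]

variable {t : Fin 9 → Pol K} {l q q' : Pol K}

private theorem mem_pair_mul {q q' f : Pol K} {U : Submodule K (Pol K)} :
    f ∈ span K {q, q'} * U ↔ ∃ a ∈ U, ∃ b ∈ U, q * a + q' * b = f := by
  rw [span_insert, Submodule.sup_mul, span_mul_eq', span_mul_eq', mem_sup]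
  constructor
  · rintro ⟨y, hy, z, hz, rfl⟩
    obtain ⟨a, ha, rfl⟩ := mem_mulS.1 hy
    obtain ⟨b, hb, rfl⟩ := mem_mulS.1 hz
    exact ⟨a, ha, b, hb, rfl⟩
  · rintro ⟨a, ha, b, hb, rfl⟩
    exact ⟨_, mul_mem_mulS ha, _, mul_mem_mulS hb, rfl⟩

private theorem exists_KK {l ν : Pol K} (hl : l ∈ H K 1) (hν : ν ∈ H K 1)
    (hli : LinearIndependent K ![l, ν]) : ∃ κ ∈ KK l, κ ∉ KK ν := by
  have h1 := cross_ne (lc_li hl hν hli)
  obtain ⟨i, hi⟩ := Function.ne_iff.1 h1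
  refine ⟨cr (cross (lc l) (Pi.single i 1)), (mem_KK hl).2 ⟨cr_mem _, ?_⟩, fun h2 => hi ?_⟩
  · rw [(cf_cr _).2, dot_cross_left]
  · have h3 := ((mem_KK hν).1 h2).2
    rw [(cf_cr _).2] at h3
    fin_cases i <;> simp [cross, dot] at h3 ⊢ <;> linear_combination -h3

theorem T1.i0 (h : T1 t l q q') : t 2 ∉ A K t 1 ⊔ V K t 2 := by
  intro hmem
  have hl0 := h.l0
  have hq0 := h.q0
  have hP : span K {q, q'} ≤ N K := by
    rw [span_le]
    rintro x (rfl | rfl)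
    · exact h.hq
    · exact h.hq'
  have hV2 : V K t ((2 : Fin 9) : ℕ) = mulS l (span K {q, q'}) := h.V2
  have hqP : q ∈ span K {q, q'} := subset_span (Set.mem_insert _ _)
  rw [h.A1, h.V2] at hmem
  obtain ⟨y, hy, v, hv, hyv⟩ := mem_sup.1 hmem
  obtain ⟨ν, hν, rfl⟩ := mem_mulS.1 hy
  obtain ⟨r, hr, rfl⟩ := mem_mulS.1 hv
  -- `l` does not divide `ν`
  have hdv : ¬ l ∣ ν := by
    intro hd
    obtain ⟨c, rfl⟩ := dvd_lin h.hl hν hl0 hd
    refine t_notMem h.fl.li 2 ?_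
    rw [hV2, ← hyv]
    refine add_mem ?_ hv
    have e : q * (C c * l) = l * (c • q) := by
      rw [smul_eq_C_mul]
      ring
    rw [e]
    exact mul_mem_mulS (Submodule.smul_mem _ _ hqP)
  have hν0 : ν ≠ 0 := by
    rintro rfl
    exact hdv (dvd_zero _)
  have hli : LinearIndependent K ![l, ν] := li_of_rel h.hl hν hl0 hν0 (relPrime_lin h.hl hl0 hdv)
  have hVW : V K t ((2 : Fin 9) : ℕ) * cubics K = mulS l (span K {q, q'} * cubics K) := by
    rw [hV2, mulS_mul]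
  have hcol : ∀ κ, l * κ ∈ cubics K → ν * κ ∈ cubics K → l * κ ∈ A K t 2 := by
    intro κ h1 h2
    rw [h.fl.mem_A, hVW]
    refine ⟨h1, ?_⟩
    have e : l * κ * t 2 = l * (q * (ν * κ)) + l * (r * (l * κ)) := by
      rw [← hyv]
      ring
    rw [e]
    exact add_mem (mul_mem_mulS (mul_mem_mul hqP h2)) (mul_mem_mulS (mul_mem_mul hr h1))
  have hFF : mulS l (H K 5) ≤ A K t 2 * cubics K := by
    rw [← FF_mul h.hl hν hli, ← mulS_mul]
    refine mul_le_mul_left ?_ _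
    rintro w hw
    obtain ⟨κ, hκ, rfl⟩ := mem_mulS.1 hw
    obtain ⟨-, h1, h2⟩ := (mem_FF h.hl hν).1 hκ
    exact hcol κ h1 h2
  have hndvd : ¬ l ∣ t 2 := by
    intro hd
    rw [← hyv] at hd
    have h1 : l ∣ q * ν := (dvd_add_left (Dvd.intro _ rfl)).1 hd
    rcases (prime_lin h.hl hl0).dvd_or_dvd h1 with h2 | h2
    · exact h.ndvd h2
    · exact hdv h2
  have hloop : Adj K t 2 2 := by
    rw [h.fl.loop_iff]
    intro hA
    have h1 := (h.fl.mem_A.1 hA).2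
    rw [hVW] at h1
    obtain ⟨u, -, hu⟩ := mem_mulS.1 h1
    have h2 : l ∣ t 2 * t 2 := ⟨u, hu.symm⟩
    rcases (prime_lin h.hl hl0).dvd_or_dvd h2 with h3 | h3 <;> exact hndvd h3
  obtain ⟨κ, hκ, hκ'⟩ := exists_KK h.hl hν hli
  have ha : l * κ ∈ cubics K := mul_KK_mem h.hl hκ
  have hat : l * κ * t 2 ∈ (V K t ((2 : Fin 9) : ℕ) ⊔ A K t 2) * cubics K := by
    rw [sup_eq_right.2 (V_le_A 2)]
    refine hFF ?_
    rw [mul_assoc]
    exact mul_mem_mulS (mul_mem_H (KK_le l hκ) (h.fl.mem_H 2))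
  have h1 := h.fl.nzd1 (h.fl.V_le _) (h.fl.llV _) le_rfl (t_notMem h.fl.li 2) hloop ha hat
  rw [sup_eq_right.2 (V_le_A 2), h.fl.mem_A, hVW, mul_assoc, mul_mem_mulS_iff hl0] at h1
  have h2 : q * (ν * κ) ∈ span K {q, q'} * cubics K := by
    have e : q * (ν * κ) = κ * t 2 - r * (l * κ) := by
      rw [← hyv]
      ring
    rw [e]
    exact sub_mem h1.2 (mul_mem_mul hr ha)
  obtain ⟨a, ha', b, hb', hab⟩ := mem_pair_mul.1 h2
  obtain ⟨s, hs1, hs2⟩ := rel_syz h.rel h.q0' (u := ν * κ - a) (v := b) (by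
    rw [mul_sub, ← hab]
    ring)
  have hs : s ∈ H K 1 := quot_mem (a := 2) (N_le h.hq) hq0 (by rw [← hs2]; exact cubics_le hb')
  refine hκ' ((mem_KK' hν).2 ⟨KK_le l hκ, ?_⟩)
  have e : ν * κ = q' * s + a := by
    rw [← hs1]
    ring
  rw [e]
  refine add_mem ?_ ha'
  rw [← N_mul_H1]
  exact mul_mem_mul h.hq' hs

end Pool.Agent.BR
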