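import Pool.Agent.Work.MP_be705b_al.I_Defs

set_option autoImplicit false
set_option linter.unusedSectionVars false
set_option linter.unusedVariables false

/-!
# MP_be705b_al, type I: module I_Base

Counts for type I.
-/

namespace Pool.Agent.BR

open MvPolynomial Submodule Module

variable {K : Type*} [Field K]

variable {t : Fin 9 → Pol K} {l q q' : Pol K}

private theorem Base_H7 : finrank K ↥(H K 7) = 36 := by rw [finrank_H']; decide +kernel

private theorem Base_H10 : finrank K ↥(H K 10) = 66 := by rw [finrank_H']; decide +kernel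

theorem T1.countA (h : T1 t l q q') : (out K t (A K t 1)).card = 6 ∧ cl K t 2 (out K t (A K t 1)) = 13 ∧
    cl K t 3 (out K t (A K t 1)) = 19 ∧ cl K t 4 (out K t (A K t 1)) = 25 := by
  have hA := h.A1
  have hle := h.fl.A_le 1
  have hL := h.fl.llA 1
  have c1 := h.fl.cl1 hle hL
  have c2 := h.fl.cl2 hle hL
  have c3 := h.fl.cl3 hle hL
  have c4 := h.fl.cl4 hle hL
  have d1 : finrank K ↥(A K t 1) = 3 := by rw [hA, finrank_mulS h.q0, finrank_H1]
  have d2 : finrank K ↥(A K t 1 * cubics K) = 15 := by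
    rw [hA, mulS_mul, H_mul_cubics 0, finrank_mulS h.q0, finrank_H4]
  have d3 : finrank K ↥(A K t 1 * H K 6) = 36 := by
    rw [hA, mulS_mul, H_mul, finrank_mulS h.q0]
    exact Base_H7
  have d4 : finrank K ↥(A K t 1 * H K 9) = 66 := by
    rw [hA, mulS_mul, H_mul, finrank_mulS h.q0]
    exact Base_H10
  omega

theorem T1.countU (h : T1 t l q q') : (out K t (A K t 1 ⊔ V K t 2)).card = 5 ∧
    cl K t 2 (out K t (A K t 1 ⊔ V K t 2)) = 7 ∧ cl K t 3 (out K t (A K t 1 ⊔ V K t 2)) = 6 ∧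
    cl K t 4 (out K t (A K t 1 ⊔ V K t 2)) = 6 := by
  obtain ⟨a1, a2, a3, a4⟩ := h.countA
  have hV : V K t ((1 : Fin 9) : ℕ) ≤ A K t 1 := V_le_A 1
  have hj : t 1 ∉ A K t 1 := (h.fl.loop_iff 1).1 h.loop
  have e := fun d => h.fl.exact (h.fl.A_le 1) (h.fl.llA 1) hV hj d
  have hs : A K t 1 ⊔ A K t 1 = A K t 1 := sup_idem _
  have h2 : ((1 : Fin 9) : ℕ) + 1 = 2 := rfl
  rw [hs, h2] at e
  have e0 := e 0
  have e1 := e 1
  have e2 := e 2
  have e3 := e 3
  simp only [zero_add, cl_zero, cl_one] at e0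
  norm_num at e1 e2 e3
  rw [cl_one] at e1
  omega

theorem T1.countV (h : T1 t l q q') : (out K t (V K t 2)).card = 7 ∧ cl K t 2 (out K t (V K t 2)) = 13 ∧
    cl K t 3 (out K t (V K t 2)) = 14 ∧ cl K t 4 (out K t (V K t 2)) = 17 := by
  obtain ⟨a1, a2, a3, a4⟩ := h.countA
  have hle := h.fl.V_le 1
  have hL := h.fl.llV 1
  have c1 := h.fl.cl1 hle hL
  have c2 := h.fl.cl2 hle hL
  have c3 := h.fl.cl3 hle hL
  have c4 := h.fl.cl4 hle hL
  have t0 := h.fl.ne 0
  have d1 : finrank K ↥(V K t 1) = 1 := by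
    rw [V_one]
    exact finrank_span_singleton t0
  have d2 : finrank K ↥(V K t 1 * cubics K) = 9 := by
    rw [V_one, span_mul_eq', finrank_mulS t0, finrank_cubics]
  have d3 : finrank K ↥(V K t 1 * H K 6) = 28 := by
    rw [V_one, span_mul_eq', finrank_mulS t0, finrank_H6]
  have d4 : finrank K ↥(V K t 1 * H K 9) = 55 := by
    rw [V_one, span_mul_eq', finrank_mulS t0, finrank_H9]
  have hV : V K t ((1 : Fin 9) : ℕ) ≤ V K t 1 := le_rfl
  have hj : t 1 ∉ V K t 1 := t_notMem h.fl.li 1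
  have e := fun d => h.fl.exact hle hL hV hj d
  have hs : V K t 1 ⊔ A K t 1 = A K t 1 := sup_eq_right.2 (V_le_A 1)
  have hs2 : V K t 1 ⊔ V K t (((1 : Fin 9) : ℕ) + 1) = V K t 2 := sup_eq_right.2 (V_mono (by norm_num))
  rw [hs, hs2] at e
  have e0 := e 0
  have e1 := e 1
  have e2 := e 2
  have e3 := e 3
  simp only [zero_add, cl_zero, cl_one] at e0
  norm_num at e1 e2 e3
  rw [cl_one] at e1
  omega

/-- `l` divides `s * q` only if it divides `s`; elements of `A 1 ⊔ V 2` divisible by `l` are in `V 2` -/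
theorem T1.mem_V2_of_dvd (h : T1 t l q q') {w : Pol K} (hw : w ∈ A K t 1 ⊔ V K t 2) (hl : l ∣ w) :
    w ∈ V K t 2 := by
  obtain ⟨y, hy, v, hv, rfl⟩ := mem_sup.1 hw
  rw [h.A1, mem_mulS] at hy
  obtain ⟨m, hm, rfl⟩ := hy
  have hv' := hv
  rw [h.V2, mem_mulS] at hv'
  obtain ⟨v', hv', e⟩ := hv'
  have h1 : l ∣ q * m := (dvd_add_left (Dvd.intro _ e)).1 hl
  have h2 : l ∣ m := by
    rcases (prime_lin h.hl h.l0).dvd_or_dvd h1 with h3 | h3
    · exact absurd h3 h.ndvd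
    · exact h3
  obtain ⟨c, rfl⟩ := dvd_lin h.hl hm h.l0 h2
  refine add_mem ?_ hv
  have h3 : q * (C c * l) = c • t 0 := by
    rw [h.t0, smul_eq_C_mul]
    ring
  rw [h3]
  exact smul_mem _ _ (t_mem (by norm_num))

end Pool.Agent.BR
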