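import Pool.Agent.Work.MP_be705b_al.I_Defs

set_option autoImplicit false
set_option linter.unusedSectionVars false
set_option linter.unusedVariables false

/-!
# MP_be705b_al, type I: module I_Pair

`q, q' ∈ N` coprime.  By `rel_syz`: `q * a = q' * b` implies `a = q' * s`, `b = q * s`.  So `dim (P * E) = 2 dim E - dim {s | q * s ∈ E, q' * s ∈ E}`:
`E = W`: `s ∈ H 1` arbitrary (`q * s ∈ N * H 1 = W`): `18 - 3 = 15`; `E = H 1`: 6; `E = H 2`: `12 - 1`; `E = H 3`: `20 - 3`; `E = H 6`: `56 - 15`.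
`nzdN1/2/3` (`κ ∈ N`, `κ ∉ P`, so `N = P + K κ`): `{f ∈ H e | f * κ ∈ P * H e}` contains `P * H (e - 2)` and has dimension
`dim H e + dim (P * H e) - dim (N * H e)`, `N * H 1 = W` (9), `N * H 2 = H 4` (15), `N * H 3 = H 5` (21): this is `3 + 6 - 9 = 0` for `e = 1`,
`6 + 11 - 15 = 2` for `e = 2`, `10 + 17 - 21 = 6` for `e = 3`, equal to `dim P * H (e - 2)`.
`PH3_inf`: `f = q a + q' b`, `a = a0 + α xyz`, `b = b0 + β xyz` with `a0, b0 ∈ W`; `f ∈ N W` gives `(α q + β q') xyz ∈ N W`, so `α dg q + β dg q' = 0`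
(coefficients `cf 3 1 1`, `cf 1 3 1`, `cf 1 1 3`), `α = β = 0`.
-/

namespace Pool.Agent.BR

open MvPolynomial Submodule Module

variable {K : Type*} [Field K]

private theorem q_ne {q q' : Pol K} (hq' : q' ∈ N K) (rel : IsRelPrime q q') : q ≠ 0 := by
  rintro rfl
  have h : IsUnit q' := rel (dvd_zero _) dvd_rfl
  exact not_isUnit (a := 1) (N_le hq') h.ne_zero h

/-- dimension of `P * E` -/
private theorem pair_dim {q q' : Pol K} (hq : q ∈ N K) (hq' : q' ∈ N K) (rel : IsRelPrime q q')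
    {E S : Submodule K (Pol K)} [Module.Finite K ↥E]
    (hS : ∀ s, s ∈ S ↔ q * s ∈ E ∧ q' * s ∈ E) :
    finrank K ↥(span K {q, q'} * E) + finrank K ↥S = 2 * finrank K ↥E := by
  have hq0 := q_ne hq' rel
  have hq0' := q_ne hq rel.symm
  have h1 : span K {q, q'} * E = mulS q E ⊔ mulS q' E := by
    rw [span_insert, Submodule.sup_mul, span_mul_eq', span_mul_eq']
  have h2 : mulS q E ⊓ mulS q' E = mulS (q * q') S := by
    ext x
    rw [mem_inf, mem_mulS, mem_mulS, mem_mulS]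
    constructor
    · rintro ⟨⟨u, hu, rfl⟩, v, hv, he⟩
      obtain ⟨s, h3, h4⟩ := rel_syz rel hq0' he.symm
      refine ⟨s, (hS s).2 ⟨?_, ?_⟩, ?_⟩
      · rwa [← h4]
      · rwa [← h3]
      · rw [h3, mul_assoc]
    · rintro ⟨s, hs, rfl⟩
      obtain ⟨h3, h4⟩ := (hS s).1 hs
      exact ⟨⟨q' * s, h4, by ring⟩, q * s, h3, by ring⟩
  have i1 : Module.Finite K ↥(mulS q E) := Module.Finite.map E _
  have i2 : Module.Finite K ↥(mulS q' E) := Module.Finite.map E _
  have h3 := finrank_sup_add_finrank_inf_eq (mulS q E) (mulS q' E)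
  rw [h2, finrank_mulS hq0, finrank_mulS hq0', finrank_mulS (mul_ne_zero hq0 hq0'), ← h1] at h3
  omega

theorem pair_cubics {q q' : Pol K} (hq : q ∈ N K) (hq' : q' ∈ N K) (rel : IsRelPrime q q') :
    finrank K ↥(span K {q, q'} * cubics K) = 15 := by
  have : Module.Finite K ↥(cubics K) := Submodule.finiteDimensional_of_le cubics_le
  have h := pair_dim hq hq' rel (E := cubics K) (S := H K 1) (fun s => by
    constructor
    · intro hs
      rw [← N_mul_H1]
      exact ⟨mul_mem_mul hq hs, mul_mem_mul hq' hs⟩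
    · rintro ⟨h1, -⟩
      exact quot_mem (a := 2) (b := 1) (N_le hq) (q_ne hq' rel) (cubics_le h1))
  rw [finrank_H1, finrank_cubics] at h
  omega

private theorem pair_H {q q' : Pol K} (hq : q ∈ N K) (hq' : q' ∈ N K) (rel : IsRelPrime q q') (e : ℕ) :
    finrank K ↥(span K {q, q'} * H K (e + 2)) + finrank K ↥(H K e) = 2 * finrank K ↥(H K (e + 2)) := by
  refine pair_dim hq hq' rel (E := H K (e + 2)) (S := H K e) (fun s => ?_)
  have e1 : e + 2 = 2 + e := add_comm _ _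
  constructor
  · intro hs
    rw [e1]
    exact ⟨mul_mem_H (N_le hq) hs, mul_mem_H (N_le hq') hs⟩
  · rintro ⟨h1, -⟩
    rw [e1] at h1
    exact quot_mem (N_le hq) (q_ne hq' rel) h1

theorem pair_H1 {q q' : Pol K} (hq : q ∈ N K) (hq' : q' ∈ N K) (rel : IsRelPrime q q') :
    finrank K ↥(span K {q, q'} * H K 1) = 6 := by
  have h := pair_dim hq hq' rel (E := H K 1) (S := ⊥) (fun s => by
    constructor
    · intro hs
      rw [mem_bot] at hs
      rw [hs, mul_zero, mul_zero]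
      exact ⟨zero_mem _, zero_mem _⟩
    · rintro ⟨h1, -⟩
      rw [mem_bot]
      have h2 := eq_zero_of_dvd (N_le hq) h1 (dvd_mul_right q s) (by norm_num)
      exact (mul_eq_zero.1 h2).resolve_left (q_ne hq' rel))
  rw [finrank_bot, finrank_H1] at h
  omega

theorem pair_H3 {q q' : Pol K} (hq : q ∈ N K) (hq' : q' ∈ N K) (rel : IsRelPrime q q') :
    finrank K ↥(span K {q, q'} * H K 3) = 17 := by
  have h := pair_H hq hq' rel 1
  rw [finrank_H1] at h
  have h3 : finrank K ↥(H K (1 + 2)) = 10 := finrank_H3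
  rw [h3] at h
  have h4 : finrank K ↥(span K {q, q'} * H K 3) + 3 = 2 * 10 := h
  omega

private theorem finrank_H0 : finrank K ↥(H K 0) = 1 := by rw [finrank_H']; decide

private theorem pair_H2 {q q' : Pol K} (hq : q ∈ N K) (hq' : q' ∈ N K) (rel : IsRelPrime q q') :
    finrank K ↥(span K {q, q'} * H K 2) = 11 := by
  have h := pair_H hq hq' rel 0
  rw [finrank_H0] at h
  have h3 : finrank K ↥(H K (0 + 2)) = 6 := finrank_H2
  rw [h3] at h
  have h4 : finrank K ↥(span K {q, q'} * H K 2) + 1 = 2 * 6 := h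
  omega

private theorem mul_H0 {U : Submodule K (Pol K)} : U * H K 0 = U := by
  have h : H K 0 = 1 := by
    ext f
    rw [mem_H0, mem_one]
    constructor
    · rintro ⟨c, rfl⟩
      exact ⟨c, rfl⟩
    · rintro ⟨c, rfl⟩
      exact ⟨c, rfl⟩
  rw [h, mul_one]

theorem pair_finrank {q q' : Pol K} (hq : q ∈ N K) (hq' : q' ∈ N K) (rel : IsRelPrime q q') :
    finrank K ↥(span K {q, q'}) = 2 := by
  have h := pair_dim hq hq' rel (E := H K 0) (S := ⊥) (fun s => by
    constructor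
    · intro hs
      rw [mem_bot] at hs
      rw [hs, mul_zero, mul_zero]
      exact ⟨zero_mem _, zero_mem _⟩
    · rintro ⟨h1, -⟩
      rw [mem_bot]
      have h2 := eq_zero_of_dvd (N_le hq) h1 (dvd_mul_right q s) (by norm_num)
      exact (mul_eq_zero.1 h2).resolve_left (q_ne hq' rel))
  rw [finrank_bot, finrank_H0, mul_H0] at h
  omega

private theorem span_le_N {q q' : Pol K} (hq : q ∈ N K) (hq' : q' ∈ N K) :
    span K {q, q'} ≤ N K := by
  rw [span_le]
  rintro _ (rfl | rfl)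
  · exact hq
  · exact hq'

private instance fin_N : Module.Finite K ↥(N K) := Submodule.finiteDimensional_of_le N_le

private theorem N_eq {q q' κ : Pol K} (hq : q ∈ N K) (hq' : q' ∈ N K) (rel : IsRelPrime q q')
    (hκ : κ ∈ N K) (hκP : κ ∉ span K {q, q'}) : N K = span K {q, q'} ⊔ span K {κ} := by
  have hle : span K {q, q'} ⊔ span K {κ} ≤ N K :=
    sup_le (span_le_N hq hq') ((span_singleton_le_iff_mem _ _).2 hκ)
  have hlt : span K {q, q'} < span K {q, q'} ⊔ span K {κ} := by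
    refine lt_of_le_of_ne le_sup_left fun h => hκP ?_
    rw [h]
    exact mem_sup_right (mem_span_singleton_self _)
  have i1 : Module.Finite K ↥(span K {q, q'} ⊔ span K {κ}) := Submodule.finiteDimensional_of_le hle
  have h1 := finrank_lt_finrank_of_lt hlt
  rw [pair_finrank hq hq' rel] at h1
  symm
  refine eq_of_le_of_finrank_le hle ?_
  rw [finrank_N]
  omega

/-- `κ` is a nonzerodivisor modulo `P` in degree `e` -/
private theorem nz_gen {q q' κ f : Pol K} (hq : q ∈ N K) (hq' : q' ∈ N K) (rel : IsRelPrime q q')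
    (hκ : κ ∈ N K) (hκP : κ ∉ span K {q, q'}) {e : ℕ} {S : Submodule K (Pol K)} (hS : S ≤ H K e)
    (hS' : mulS κ S ≤ span K {q, q'} * H K e)
    (hd : finrank K ↥(span K {q, q'} * H K e) + finrank K ↥(H K e) ≤
      finrank K ↥S + finrank K ↥(N K * H K e)) (hf : f ∈ H K e)
    (h : f * κ ∈ span K {q, q'} * H K e) : f ∈ S := by
  have hκ0 : κ ≠ 0 := by
    rintro rfl
    exact hκP (zero_mem _)
  have h1 : N K * H K e = span K {q, q'} * H K e ⊔ mulS κ (H K e) := by
    conv_lhs => rw [N_eq hq hq' rel hκ hκP]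
    rw [Submodule.sup_mul, span_mul_eq']
  have i1 : Module.Finite K ↥(N K * H K e) := by
    have h2 : N K * H K e ≤ H K (2 + e) := (mul_le_mul_left N_le _).trans (H_mul_le 2 e)
    exact Submodule.finiteDimensional_of_le h2
  have i2 : Module.Finite K ↥(span K {q, q'} * H K e) :=
    Submodule.finiteDimensional_of_le (mul_le_mul_left (span_le_N hq hq') _)
  have i3 : Module.Finite K ↥(mulS κ (H K e)) := Module.Finite.map _ _
  have h3 := finrank_sup_add_finrank_inf_eq (span K {q, q'} * H K e) (mulS κ (H K e))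
  rw [← h1, finrank_mulS hκ0] at h3
  have i4 : Module.Finite K ↥(span K {q, q'} * H K e ⊓ mulS κ (H K e) : Submodule K (Pol K)) :=
    Submodule.finiteDimensional_of_le inf_le_left
  have h4 : mulS κ S = span K {q, q'} * H K e ⊓ mulS κ (H K e) := by
    refine eq_of_le_of_finrank_le (le_inf hS' (mulS_mono hS)) ?_
    rw [finrank_mulS hκ0]
    omega
  have h5 : κ * f ∈ mulS κ S := by
    rw [h4]
    refine mem_inf.2 ⟨?_, mul_mem_mulS hf⟩
    rw [mul_comm κ f]
    exact h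
  exact (mul_mem_mulS_iff hκ0).1 h5

private theorem N_mul_H4 : N K * H K 2 = H K 4 := by
  apply le_antisymm
  · exact (mul_le_mul_left N_le _).trans (H_mul_le 2 2)
  · refine H_le fun a b c h => ?_
    have e0 : (X 0 ^ 2 : Pol K) ∈ N K := subset_span (by left; rfl)
    have e1 : (X 1 ^ 2 : Pol K) ∈ N K := subset_span (by right; left; rfl)
    have e2 : (X 2 ^ 2 : Pol K) ∈ N K := subset_span (by right; right; rfl)
    have h3 : 2 ≤ a ∨ 2 ≤ b ∨ 2 ≤ c := by omega
    rcases h3 with h' | h' | h'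
    · rw [mono_split (i' := 2) (j' := 0) (k' := 0) h' (Nat.zero_le _) (Nat.zero_le _)]
      exact mul_mem_mul (by simpa using e0) (mono_mem' (by omega))
    · rw [mono_split (i' := 0) (j' := 2) (k' := 0) (Nat.zero_le _) h' (Nat.zero_le _)]
      exact mul_mem_mul (by simpa using e1) (mono_mem' (by omega))
    · rw [mono_split (i' := 0) (j' := 0) (k' := 2) (Nat.zero_le _) (Nat.zero_le _) h']
      exact mul_mem_mul (by simpa using e2) (mono_mem' (by omega))

private theorem N_mul_H5 : N K * H K 3 = H K 5 := by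
  rw [← H_mul 2 1, ← mul_assoc, N_mul_H4, H_mul 4 1]

theorem nzdN1 {q q' κ f : Pol K} (hq : q ∈ N K) (hq' : q' ∈ N K) (rel : IsRelPrime q q') (hκ : κ ∈ N K)
    (hκP : κ ∉ span K {q, q'}) (hf : f ∈ H K 1) (h : f * κ ∈ span K {q, q'} * H K 1) : f = 0 := by
  rw [← mem_bot K]
  refine nz_gen hq hq' rel hκ hκP (S := ⊥) bot_le ?_ ?_ hf h
  · rw [mulS, Submodule.map_bot]
    exact bot_le
  · rw [pair_H1 hq hq' rel, finrank_H1, finrank_bot, N_mul_H1, finrank_cubics]

theorem nzdN2 {q q' κ f : Pol K} (hq : q ∈ N K) (hq' : q' ∈ N K) (rel : IsRelPrime q q') (hκ : κ ∈ N K)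
    (hκP : κ ∉ span K {q, q'}) (hf : f ∈ H K 2) (h : f * κ ∈ span K {q, q'} * H K 2) :
    f ∈ span K {q, q'} := by
  refine nz_gen hq hq' rel hκ hκP ((span_le_N hq hq').trans N_le) ?_ ?_ hf h
  · intro x hx
    obtain ⟨u, hu, rfl⟩ := mem_mulS.1 hx
    rw [mul_comm κ u]
    exact mul_mem_mul hu (N_le hκ)
  · rw [pair_H2 hq hq' rel, finrank_H2, pair_finrank hq hq' rel, N_mul_H4, finrank_H4]

theorem nzdN3 {q q' κ f : Pol K} (hq : q ∈ N K) (hq' : q' ∈ N K) (rel : IsRelPrime q q') (hκ : κ ∈ N K)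
    (hκP : κ ∉ span K {q, q'}) (hf : f ∈ H K 3) (h : f * κ ∈ span K {q, q'} * H K 3) :
    f ∈ span K {q, q'} * H K 1 := by
  refine nz_gen hq hq' rel hκ hκP ?_ ?_ ?_ hf h
  · exact (mul_le_mul_left ((span_le_N hq hq').trans N_le) _).trans (H_mul_le 2 1)
  · rw [← span_mul_eq', ← mul_assoc, mul_comm (span K {κ}), mul_assoc]
    refine mul_le_mul_right ?_ _
    rw [mul_le]
    intro m hm n hn
    obtain ⟨c, rfl⟩ := mem_span_singleton.1 hm
    rw [smul_mul_assoc]
    exact smul_mem _ _ (mul_mem_H (a := 2) (b := 1) (N_le hκ) hn)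
  · rw [pair_H3 hq hq' rel, finrank_H3, pair_H1 hq hq' rel, N_mul_H5, finrank_H5]

private theorem nu_zero {ν : Pol K} (hν : ν ∈ N K) (h : ν * (X 0 ^ 1 * X 1 ^ 1 * X 2 ^ 1) ∈ N K * cubics K) :
    ν = 0 := by
  obtain ⟨-, h1, h2, h3⟩ := mem_NW.1 h
  obtain ⟨k1, k2⟩ := mem_N.1 hν
  have e : sq (dg ν) = ν := by
    have := sq_add_cr k1
    rw [k2] at this
    have h3 : cr (0 : Fin 3 → K) = 0 := by simp [cr]
    rwa [h3, add_zero] at this
  rw [← e, sq_mul] at h1 h2 h3
  simp only [map_add, cf_C_mul] at h1 h2 h3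
  rw [cf_X0 2 1 1, cf_X0 1 1 1, cf_X1 3 0 1, cf_X1_zero, cf_X2 3 1 0, cf_X2_zero, cf_mono] at h1
  rw [cf_X0 0 3 1, cf_X0_zero, cf_X1 1 2 1, cf_X1 1 1 1, cf_X2 1 3 0, cf_X2_zero, cf_mono] at h2
  rw [cf_X0 0 1 3, cf_X0_zero, cf_X1 1 0 3, cf_X1_zero, cf_X2 1 1 2, cf_X2 1 1 1, cf_mono] at h3
  simp at h1 h2 h3
  have h4 : dg ν = 0 := by
    ext i
    fin_cases i
    · exact h1
    · exact h2
    · exact h3
  rw [← e, h4]
  simp [sq]

theorem PH3_inf {q q' f : Pol K} (hq : q ∈ N K) (hq' : q' ∈ N K) (rel : IsRelPrime q q')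
    (h1 : f ∈ span K {q, q'} * H K 3) (h2 : f ∈ N K * cubics K) : f ∈ span K {q, q'} * cubics K := by
  have hP : ∀ E : Submodule K (Pol K), span K {q, q'} * E = mulS q E ⊔ mulS q' E := fun E => by
    rw [span_insert, Submodule.sup_mul, span_mul_eq', span_mul_eq']
  rw [hP] at h1 ⊢
  obtain ⟨x, hx, y, hy, rfl⟩ := mem_sup.1 h1
  obtain ⟨a, ha, rfl⟩ := mem_mulS.1 hx
  obtain ⟨b, hb, rfl⟩ := mem_mulS.1 hy
  have key : ∀ a ∈ H K 3, a - (cf 1 1 1 a) • (X 0 ^ 1 * X 1 ^ 1 * X 2 ^ 1 : Pol K) ∈ cubics K := by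
    intro a ha
    rw [mem_cubics]
    refine ⟨sub_mem ha (smul_mem _ _ xyz_mem), ?_⟩
    rw [map_sub, cf_smul, cf_mono]
    simp
  have ha' := key a ha
  have hb' := key b hb
  set α := cf 1 1 1 a with hα
  set β := cf 1 1 1 b with hβ
  have h3 : (α • q + β • q') * (X 0 ^ 1 * X 1 ^ 1 * X 2 ^ 1 : Pol K) ∈ N K * cubics K := by
    have e : (α • q + β • q') * (X 0 ^ 1 * X 1 ^ 1 * X 2 ^ 1 : Pol K) = (q * a + q' * b) -
        (q * (a - α • (X 0 ^ 1 * X 1 ^ 1 * X 2 ^ 1 : Pol K)) +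
        q' * (b - β • (X 0 ^ 1 * X 1 ^ 1 * X 2 ^ 1 : Pol K))) := by
      simp only [smul_eq_C_mul]
      ring
    rw [e]
    exact sub_mem h2 (add_mem (mul_mem_mul hq ha') (mul_mem_mul hq' hb'))
  have h4 := nu_zero (add_mem (smul_mem _ _ hq) (smul_mem _ _ hq')) h3
  have hli : ∀ α β : K, α • q + β • q' = 0 → β = 0 := by
    intro α β h
    by_contra hβ0
    have hd : q ∣ q' := by
      refine ⟨C (-(α / β)), ?_⟩
      have h5 : β • q' = -(α • q) := by
        rw [eq_neg_iff_add_eq_zero, add_comm]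
        exact h
      have h6 : q' = (β⁻¹) • (β • q') := by rw [smul_smul, inv_mul_cancel₀ hβ0, one_smul]
      rw [h6, h5, smul_neg, smul_smul, mul_comm q, ← smul_eq_C_mul, neg_smul, div_eq_inv_mul]
    have h7 : IsUnit q := rel dvd_rfl hd
    exact not_isUnit (a := 1) (N_le hq) h7.ne_zero h7
  have hβ0 : β = 0 := hli α β h4
  have hα0 : α = 0 := by
    rw [hβ0, zero_smul, add_zero] at h4
    exact (smul_eq_zero.1 h4).resolve_right (q_ne hq' rel)
  rw [hα0, zero_smul, sub_zero] at ha'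
  rw [hβ0, zero_smul, sub_zero] at hb'
  exact add_mem (mem_sup_left (mul_mem_mulS ha')) (mem_sup_right (mul_mem_mulS hb'))

theorem exists_N_notMem {q q' : Pol K} (hq : q ∈ N K) (hq' : q' ∈ N K) (rel : IsRelPrime q q') :
    ∃ κ ∈ N K, κ ∉ span K {q, q'} ∧ N K = span K {q, q'} ⊔ span K {κ} := by
  have hne : ¬ N K ≤ span K {q, q'} := by
    intro hle
    have i1 : Module.Finite K ↥(span K {q, q'}) :=
      Submodule.finiteDimensional_of_le (span_le_N hq hq')
    have h := finrank_mono hle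
    rw [finrank_N, pair_finrank hq hq' rel] at h
    omega
  obtain ⟨κ, hκ, hκP⟩ := SetLike.not_le_iff_exists.1 hne
  exact ⟨κ, hκ, hκP, N_eq hq hq' rel hκ hκP⟩

end Pool.Agent.BR
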