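import Pool.Agent.Work.MP_be705b_al.I_Con
import Pool.Agent.Work.MP_be705b_al.I_Pair
import Pool.Agent.Work.MP_be705b_al.I_Base

set_option autoImplicit false
set_option linter.unusedSectionVars false
set_option linter.unusedVariables false

/-!
# MP_be705b_al, type I: module I_1

General conventions (see I_Defs, Fl, V2, Graph, Cube): `P = span K {q, q'}`, `W = cubics K`, vertices = `Fin 9`, `out U` = complement of
the initial variables of `U`, `cl K t d S` = number of cliques with repetition, `nb K t j S` = neighbours of `j` in `S`,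
`h.fl.outA j : out (A j) = nb j (out (V j))`, `h.fl.outSupA`, `Fl.exact`, `h.fl.cl1/cl2/cl3/cl4`.

I.1: `t 2 = l * κ` with `κ ∈ N` is impossible.  `κ ∉ P` (else `t 2 ∈ V 2`), so `V 3 = mulS l N` (`V_succ`), `N = P + K κ`.
`N * H 6 = H 8` (every monomial of degree 8 has an exponent `≥ 2`), so `V 3 * H 6 = mulS l (H 8)`.
(i) `l ∣ t 3`: `t 3 = l κ'`, `κ' ∈ KK l`, `κ' ∉ N` (else `t 3 ∈ V 3`).  `w ∈ A 3` implies `κ' w ∈ N * W`, so `con (hat κ') w = 0`, so `w` vanishes at `p' = hat κ' ≠ 0`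
    (`eval_con`).  `colA2`: every `s ∈ H 6` satisfies `s * t 3 ∈ V 3 * H 6`, so `s ∈ A 3 * W` vanishes at `p'`: contradiction (`exists_eval_ne`).
(ii) `l` does not divide `t 3`: `w ∈ A 3` implies `w t 3 ∈ mulS l ..`, `l ∣ w`.  So `t 3 ∉ A 3`, loop.  For all `u ∈ H 5`: `(l u) t 3 ∈ V 3 * H 6`, so `l u ∈ A 3 * W` (`colA2`).
    For `κ' ∈ KK l`: `a = l κ' ∈ W`, `a * t 3 ∈ mulS l (H 5) ≤ A 3 * W`, so `a ∈ A 3` (`nzd1`, `U = V 3`): `κ' t 3 ∈ N * W`, `con (hat κ') (t 3) = 0` (`con_iff`).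
    There are `κ', κ'' ∈ KK l` with independent `hat`s (the `hat`s of `KK l` form the plane orthogonal to `lc l`): `dvd_of_con` gives `l ∣ t 3`, contradiction.
-/

namespace Pool.Agent.BR

open MvPolynomial Submodule Module

variable {K : Type*} [Field K]

private theorem i1_NH6 : N K * H K 6 = H K 8 := by
  refine le_antisymm ?_ ?_
  · exact (mul_le_mul_left N_le _).trans (H_mul_le 2 6)
  · have hX : ∀ i : Fin 3, (X i ^ 2 : Pol K) ∈ N K := by
      intro i
      refine subset_span ?_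
      fin_cases i <;> simp
    refine H_le fun a b c habc => ?_
    have h : 2 ≤ a ∨ 2 ≤ b ∨ 2 ≤ c := by omega
    rcases h with h | h | h
    · obtain ⟨a', rfl⟩ := Nat.exists_eq_add_of_le h
      have e : (X 0 ^ (2 + a') * X 1 ^ b * X 2 ^ c : Pol K) = X 0 ^ 2 * (X 0 ^ a' * X 1 ^ b * X 2 ^ c) := by
        ring
      rw [e]
      exact mul_mem_mul (hX 0) (mono_mem' (by omega))
    · obtain ⟨b', rfl⟩ := Nat.exists_eq_add_of_le h
      have e : (X 0 ^ a * X 1 ^ (2 + b') * X 2 ^ c : Pol K) = X 1 ^ 2 * (X 0 ^ a * X 1 ^ b' * X 2 ^ c) := by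
        ring
      rw [e]
      exact mul_mem_mul (hX 1) (mono_mem' (by omega))
    · obtain ⟨c', rfl⟩ := Nat.exists_eq_add_of_le h
      have e : (X 0 ^ a * X 1 ^ b * X 2 ^ (2 + c') : Pol K) = X 2 ^ 2 * (X 0 ^ a * X 1 ^ b * X 2 ^ c') := by
        ring
      rw [e]
      exact mul_mem_mul (hX 2) (mono_mem' (by omega))

private theorem i1_li {u v : Fin 3 → K} (i j : Fin 3) (h1 : u i ≠ 0) (h2 : v i = 0) (h3 : v j ≠ 0) :
    LinearIndependent K ![u, v] := by
  rw [LinearIndependent.pair_iff]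
  intro s r h
  have hs : s = 0 := by
    have := congrFun h i
    simp only [Pi.add_apply, Pi.smul_apply, smul_eq_mul, h2, mul_zero, add_zero, Pi.zero_apply] at this
    rcases mul_eq_zero.1 this with h | h
    · exact h
    · exact absurd h h1
  refine ⟨hs, ?_⟩
  have := congrFun h j
  simp only [Pi.add_apply, Pi.smul_apply, smul_eq_mul, hs, zero_mul, zero_add, Pi.zero_apply] at this
  rcases mul_eq_zero.1 this with h | h
  · exact h
  · exact absurd h h3

private theorem i1_pair {u : Fin 3 → K} (hu : u ≠ 0) :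
    ∃ p p' : Fin 3 → K, LinearIndependent K ![p, p'] ∧ dot u p = 0 ∧ dot u p' = 0 := by
  obtain ⟨i, hi⟩ := Function.ne_iff.1 hu
  have hi' : u i ≠ 0 := hi
  fin_cases i
  · refine ⟨![-u 1, u 0, 0], ![-u 2, 0, u 0], i1_li 1 2 (by simpa using hi') (by simp) (by simpa using hi'), ?_, ?_⟩
    · simp only [dot, Matrix.cons_val_zero, Matrix.cons_val_one, Matrix.cons_val_two, Matrix.head_cons,
        Matrix.tail_cons]
      ring
    · simp only [dot, Matrix.cons_val_zero, Matrix.cons_val_one, Matrix.cons_val_two, Matrix.head_cons,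
        Matrix.tail_cons]
      ring
  · refine ⟨![u 1, -u 0, 0], ![0, -u 2, u 1], i1_li 0 2 (by simpa using hi') (by simp) (by simpa using hi'), ?_, ?_⟩
    · simp only [dot, Matrix.cons_val_zero, Matrix.cons_val_one, Matrix.cons_val_two, Matrix.head_cons,
        Matrix.tail_cons]
      ring
    · simp only [dot, Matrix.cons_val_zero, Matrix.cons_val_one, Matrix.cons_val_two, Matrix.head_cons,
        Matrix.tail_cons]
      ring
  · refine ⟨![u 2, 0, -u 0], ![0, u 2, -u 1], i1_li 0 1 (by simpa using hi') (by simp) (by simpa using hi'), ?_, ?_⟩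
    · simp only [dot, Matrix.cons_val_zero, Matrix.cons_val_one, Matrix.cons_val_two, Matrix.head_cons,
        Matrix.tail_cons]
      ring
    · simp only [dot, Matrix.cons_val_zero, Matrix.cons_val_one, Matrix.cons_val_two, Matrix.head_cons,
        Matrix.tail_cons]
      ring

variable {t : Fin 9 → Pol K} {l q q' : Pol K}

private theorem i1_V3 (h : T1 t l q q') {κ : Pol K} (hκ : κ ∈ N K) (h2 : t 2 = l * κ) :
    V K t 3 = mulS l (N K) := by
  have hκP : κ ∉ span K {q, q'} := by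
    intro hk
    apply t_notMem h.fl.li 2
    rw [h2]
    have : V K t ((2 : Fin 9) : ℕ) = mulS l (span K {q, q'}) := h.V2
    rw [this]
    exact mul_mem_mulS hk
  obtain ⟨κ0, hκ0, hκ0P, hN⟩ := exists_N_notMem h.hq h.hq' h.rel
  have hN' : N K = span K {q, q'} ⊔ span K {κ} := by
    refine le_antisymm ?_ ?_
    · have h3 := hκ
      rw [hN] at h3
      obtain ⟨a, ha, b, hb, hab⟩ := mem_sup.1 h3
      obtain ⟨c, rfl⟩ := mem_span_singleton.1 hb
      have hc : c ≠ 0 := by
        rintro rfl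
        apply hκP
        rw [← hab, zero_smul, add_zero]
        exact ha
      rw [hN]
      refine sup_le le_sup_left ?_
      rw [span_singleton_le_iff_mem]
      have : κ0 = c⁻¹ • κ - c⁻¹ • a := by
        rw [← hab, smul_add, smul_smul, inv_mul_cancel₀ hc, one_smul]
        abel
      rw [this]
      refine sub_mem (smul_mem _ _ (mem_sup_right (mem_span_singleton_self κ))) ?_
      exact smul_mem _ _ (mem_sup_left ha)
    · refine sup_le ?_ ?_
      · rw [hN]
        exact le_sup_left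
      · rwa [span_singleton_le_iff_mem]
  have h4 : V K t (((2 : Fin 9) : ℕ) + 1) = V K t ((2 : Fin 9) : ℕ) ⊔ span K {t 2} := V_succ 2
  have h5 : V K t ((2 : Fin 9) : ℕ) = mulS l (span K {q, q'}) := h.V2
  have h6 : V K t 3 = V K t (((2 : Fin 9) : ℕ) + 1) := rfl
  rw [h6, h4, h5, h2, hN', mulS_sup]
  congr 1
  rw [mulS, map_span, Set.image_singleton]
  rfl

theorem T1.i1 (h : T1 t l q q') {κ : Pol K} (hκ : κ ∈ N K) : t 2 ≠ l * κ := by
  intro h2
  have hV : V K t ((3 : Fin 9) : ℕ) = mulS l (N K) := i1_V3 h hκ h2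
  have l0 : l ≠ 0 := h.l0
  have hmem3 : t 3 ∈ cubics K := h.fl.mem 3
  have hH3 : t 3 ∈ H K 3 := cubics_le hmem3
  have hVW : V K t ((3 : Fin 9) : ℕ) * cubics K = mulS l (N K * cubics K) := by rw [hV, mulS_mul]
  have hVH : V K t ((3 : Fin 9) : ℕ) * H K 6 = mulS l (H K 8) := by rw [hV, mulS_mul, i1_NH6]
  by_cases hd : l ∣ t 3
  · -- (i)
    obtain ⟨κ', hκ'2, hκ'⟩ := exists_quot (a := 1) (b := 2) h.hl l0 hH3 hd
    have hκ'N : κ' ∉ N K := by
      intro hk
      apply t_notMem h.fl.li 3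
      rw [hV, hκ']
      exact mul_mem_mulS hk
    have hp' : hat κ' ≠ 0 := fun h0 => hκ'N (mem_N.2 ⟨hκ'2, h0⟩)
    have hA : ∀ w ∈ A K t 3, eval (hat κ') w = 0 := by
      intro w hw
      obtain ⟨hwc, hwt⟩ := h.fl.mem_A.1 hw
      rw [hVW, hκ'] at hwt
      have e : w * (l * κ') = l * (κ' * w) := by ring
      rw [e, mul_mem_mulS_iff l0, con_iff hκ'2 hwc] at hwt
      rw [eval_con hwc, hwt]
      simp
    have hAW : ∀ f ∈ A K t 3 * cubics K, eval (hat κ') f = 0 := by
      intro f hf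
      refine Submodule.mul_induction_on hf ?_ ?_
      · intro a ha b _
        rw [map_mul, hA a ha, zero_mul]
      · intro a b ha hb
        rw [map_add, ha, hb, add_zero]
    obtain ⟨s, hs, hs0⟩ := exists_eval_ne hp' 6
    apply hs0
    apply hAW
    refine h.fl.colA2 3 hs ?_
    rw [hVH, hκ']
    have e : s * (l * κ') = l * (s * κ') := by ring
    rw [e]
    exact mul_mem_mulS (mul_mem_H hs hκ'2)
  · -- (ii)
    have hloop : Adj K t 3 3 := by
      rw [h.fl.loop_iff]
      intro hA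
      obtain ⟨-, hwt⟩ := h.fl.mem_A.1 hA
      rw [hVW] at hwt
      obtain ⟨u, -, hu⟩ := mem_mulS.1 hwt
      have : l ∣ t 3 * t 3 := ⟨u, hu.symm⟩
      rcases (prime_lin h.hl l0).dvd_or_dvd this with h' | h'
      · exact hd h'
      · exact hd h'
    have hcon : ∀ p : Fin 3 → K, dot (lc l) p = 0 → con p (t 3) = 0 := by
      intro p hp
      have hk : cr p ∈ KK l := by
        rw [mem_KK h.hl, (cf_cr p).2]
        exact ⟨cr_mem p, hp⟩
      have hk2 : cr p ∈ H K 2 := cr_mem p
      have ha : l * cr p ∈ cubics K := mul_KK_mem h.hl hk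
      have hu : cr p * t 3 ∈ H K 5 := mul_mem_H hk2 hH3
      have h6 : l * (cr p * t 3) ∈ A K t 3 * cubics K := by
        refine h.fl.colA2 3 (mul_mem_H h.hl hu) ?_
        rw [hVH]
        have e : l * (cr p * t 3) * t 3 = l * (cr p * t 3 * t 3) := by ring
        rw [e]
        exact mul_mem_mulS (mul_mem_H hu hH3)
      have h7 : l * cr p ∈ V K t ((3 : Fin 9) : ℕ) ⊔ A K t 3 := by
        refine h.fl.nzd1 (h.fl.V_le _) (h.fl.llV _) le_rfl (t_notMem h.fl.li 3) hloop ha ?_
        have e : l * cr p * t 3 = l * (cr p * t 3) := by ring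
        rw [e]
        exact mul_le_mul_left le_sup_right (cubics K) h6
      rw [sup_eq_right.2 (V_le_A (3 : Fin 9))] at h7
      obtain ⟨-, h8⟩ := h.fl.mem_A.1 h7
      rw [hVW] at h8
      have e : l * cr p * t 3 = l * (cr p * t 3) := by ring
      rw [e, mul_mem_mulS_iff l0, con_iff hk2 hmem3, (cf_cr p).2] at h8
      exact h8
    have hlc : lc l ≠ 0 := by
      intro h0
      apply l0
      rw [← lin_lc h.hl, h0, lin_eq_zero]
    obtain ⟨p, p', hpp, h1, h1'⟩ := i1_pair hlc
    have hev : ∀ r : Fin 3 → K, dot (lc l) r = 0 → eval r l = 0 := by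
      intro r hr
      rw [← lin_lc h.hl, eval_lin]
      exact hr
    obtain ⟨ν, -, hν⟩ := dvd_of_con h.hl l0 hpp (hev p h1) (hev p' h1') hmem3 (hcon p h1) (hcon p' h1')
    exact hd ⟨ν, hν⟩

end Pool.Agent.BR
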