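import Pool.Agent.Work.MP_be705b_al.I_0
import Pool.Agent.Work.MP_be705b_al.I_Pair

set_option autoImplicit false
set_option linter.unusedSectionVars false
set_option linter.unusedVariables false

/-!
# MP_be705b_al, type I: module I_2a

General conventions (see I_Defs, Fl, V2, Graph, Cube): `P = span K {q, q'}`, `W = cubics K`, vertices = `Fin 9`, `out U` = complement of
the initial variables of `U`, `cl K t d S` = number of cliques with repetition, `nb K t j S` = neighbours of `j` in `S`,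
`h.fl.outA j : out (A j) = nb j (out (V j))`, `h.fl.outSupA`, `Fl.exact`, `h.fl.cl1/cl2/cl3/cl4`.

I.2, preparation.  `c = t 2`, `l` does not divide `c`.  `E = {ε ∈ KK l | ε * c ∈ P * W}`.
`A 2 = mulS l E`: `w c ∈ V 2 * W = mulS l (P * W)` implies `l ∣ w`, `w = l ε`, `ε ∈ KK l` (`exists_quot`, `mem_KK'`), `ε c ∈ P * W`.
`2` is a loop: `t 2 ∉ A 2`.
`E * W ⊇ P * H 3`, more generally `u ∈ H 5`, `u c ∈ P * H 6` implies `u ∈ E * W`: `(l u) c ∈ V 2 * H 6`, `colA2`: `l u ∈ A 2 * W = mulS l (E * W)`.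
Counts: `U = A 1 ⊔ V 2`, `U ⊔ A 2 = mulS q (H 1) ⊔ mulS l E` (`V 2 = mulS l P ≤ mulS l E`), `mulS q (H 1) ⊓ mulS l E = span {l * q}` (`l ∣ q m` gives `m = C c * l`):
dimension `3 + dim E - 1`; `(U ⊔ A 2) * W = mulS q (H 4) ⊔ mulS l (E * W)`, intersection `mulS (l * q) (H 3)` (uses `q * H 3 ≤ E * W`): dimension `15 + dim (E * W) - 10`.
(`Fl.cl1`, `Fl.cl2` for `U ⊔ A 2 ∈ LL`: `Fl.llSupA`, `t 2 ∉ U` by `T1.i0`.)
Last statement: `2 ∈ out (U ⊔ A 2) = nb 2 (out U)`, all its elements are neighbours of the loop `2`; `cl_erase 1` at `v = 2`.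
-/

namespace Pool.Agent.BR

open MvPolynomial Submodule Module

variable {K : Type*} [Field K]

variable {t : Fin 9 → Pol K} {l q q' : Pol K}

/-- `{ε ∈ KK l | ε * c ∈ P * W}` -/
noncomputable def EE (l q q' c : Pol K) : Submodule K (Pol K) :=
  KK l ⊓ (span K {q, q'} * cubics K).comap (LinearMap.mulLeft K c)

theorem mem_EE {l q q' c ε : Pol K} : ε ∈ EE l q q' c ↔ ε ∈ KK l ∧ ε * c ∈ span K {q, q'} * cubics K := by
  rw [EE, mem_inf, mem_comap, LinearMap.mulLeft_apply, mul_comm c ε]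

private theorem val2 : ((2 : Fin 9) : ℕ) = 2 := rfl

private theorem T1.mem_A2 (h : T1 t l q q') {w : Pol K} :
    w ∈ A K t 2 ↔ w ∈ cubics K ∧ w * t 2 ∈ mulS l (span K {q, q'} * cubics K) := by
  rw [h.fl.mem_A, val2, h.V2, mulS_mul]

theorem T1.A2_eq (h : T1 t l q q') (hl : ¬ l ∣ t 2) : A K t 2 = mulS l (EE l q q' (t 2)) := by
  have hl0 := h.l0
  ext w
  rw [h.mem_A2]
  constructor
  · rintro ⟨hw, hw2⟩
    obtain ⟨x, hx, he⟩ := mem_mulS.1 hw2
    have h1 : l ∣ w * t 2 := ⟨x, he.symm⟩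
    have h2 : l ∣ w := ((prime_lin h.hl hl0).dvd_or_dvd h1).resolve_right hl
    obtain ⟨ε, hε, rfl⟩ := exists_quot (a := 1) (b := 2) h.hl hl0 (cubics_le hw) h2
    refine mul_mem_mulS (mem_EE.2 ⟨(mem_KK' h.hl).2 ⟨hε, hw⟩, ?_⟩)
    have h3 : ε * t 2 = x := by
      apply mul_left_cancel₀ hl0
      rw [he]
      ring
    rwa [h3]
  · intro hw
    obtain ⟨ε, hε, rfl⟩ := mem_mulS.1 hw
    obtain ⟨h1, h2⟩ := mem_EE.1 hε
    refine ⟨mul_KK_mem h.hl h1, ?_⟩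
    rw [mul_assoc]
    exact mul_mem_mulS h2

theorem T1.loop2 (h : T1 t l q q') (hl : ¬ l ∣ t 2) : Adj K t 2 2 := by
  rw [h.fl.loop_iff, h.A2_eq hl, mem_mulS]
  rintro ⟨ε, -, he⟩
  exact hl ⟨ε, he.symm⟩

theorem T1.P_le_EE (h : T1 t l q q') (hl : ¬ l ∣ t 2) : span K {q, q'} ≤ EE l q q' (t 2) := by
  have h1 : ∀ x ∈ span K {q, q'}, x * t 2 ∈ span K {q, q'} * cubics K := fun x hx =>
    mul_mem_mul hx (h.fl.mem 2)
  have h2 : span K {q, q'} ≤ KK l := by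
    rw [span_le]
    rintro x (rfl | rfl)
    · exact N_le_KK h.hl h.hq
    · exact N_le_KK h.hl h.hq'
  intro x hx
  exact mem_EE.2 ⟨h2 hx, h1 x hx⟩

theorem T1.mem_EEW (h : T1 t l q q') (hl : ¬ l ∣ t 2) {u : Pol K} (hu : u ∈ H K 5)
    (huc : u * t 2 ∈ span K {q, q'} * H K 6) : u ∈ EE l q q' (t 2) * cubics K := by
  have h1 : l * u ∈ A K t 2 * cubics K := by
    refine h.fl.colA2 2 (mul_mem_H h.hl hu) ?_
    rw [val2, h.V2, mulS_mul, mul_assoc]
    exact mul_mem_mulS huc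
  rw [h.A2_eq hl, mulS_mul] at h1
  exact (mul_mem_mulS_iff h.l0).1 h1

private theorem T1.P_le_H2 (h : T1 t l q q') : span K {q, q'} ≤ H K 2 := by
  rw [span_le]
  rintro x (rfl | rfl)
  · exact N_le h.hq
  · exact N_le h.hq'

theorem T1.PH3_le (h : T1 t l q q') (hl : ¬ l ∣ t 2) :
    span K {q, q'} * H K 3 ≤ EE l q q' (t 2) * cubics K := by
  rw [mul_le]
  intro m hm n hn
  refine h.mem_EEW hl (mul_mem_H (h.P_le_H2 hm) hn) ?_
  rw [mul_assoc]
  exact mul_mem_mul hm (mul_mem_H hn (h.fl.mem_H 2))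

private theorem EE_le_H2 (l q q' c : Pol K) : EE l q q' c ≤ H K 2 := inf_le_left.trans (KK_le l)

private theorem T1.hUU (h : T1 t l q q') (hl : ¬ l ∣ t 2) :
    A K t 1 ⊔ V K t 2 ⊔ A K t 2 = mulS q (H K 1) ⊔ mulS l (EE l q q' (t 2)) := by
  rw [h.A1, h.V2, h.A2_eq hl, sup_assoc, sup_eq_right.2 (mulS_mono (h.P_le_EE hl))]

private theorem T1.UL (h : T1 t l q q') : LL K t (A K t 1 ⊔ V K t 2) :=
  h.fl.llSupV (h.fl.A_le 1) (h.fl.llA 1) 2

private theorem T1.UW (h : T1 t l q q') : A K t 1 ⊔ V K t 2 ≤ cubics K :=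
  sup_le (h.fl.A_le 1) (h.fl.V_le 2)

private theorem T1.ndvd_mul (h : T1 t l q q') {m : Pol K} (hd : l ∣ q * m) : l ∣ m :=
  ((prime_lin h.hl h.l0).dvd_or_dvd hd).resolve_left h.ndvd

theorem T1.count2 (h : T1 t l q q') (hl : ¬ l ∣ t 2) :
    finrank K ↥(EE l q q' (t 2)) + (out K t (A K t 1 ⊔ V K t 2 ⊔ A K t 2)).card = 7 ∧
    finrank K ↥(EE l q q' (t 2) * cubics K) + cl K t 2 (out K t (A K t 1 ⊔ V K t 2 ⊔ A K t 2)) = 23 := by
  have hl0 := h.l0
  have hq0 := h.q0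
  have hqH : q ∈ H K 2 := N_le h.hq
  have hUA : A K t 1 ⊔ V K t 2 ⊔ A K t 2 ≤ cubics K := sup_le h.UW (h.fl.A_le 2)
  have hLL : LL K t (A K t 1 ⊔ V K t 2 ⊔ A K t 2) :=
    h.fl.llSupA h.UW h.UL (j := 2) le_sup_right h.i0
  have c1 := h.fl.cl1 hUA hLL
  have c2 := h.fl.cl2 hUA hLL
  have hEfin : Module.Finite K ↥(EE l q q' (t 2)) :=
    Submodule.finiteDimensional_of_le (EE_le_H2 l q q' (t 2))
  have hEW : EE l q q' (t 2) * cubics K ≤ H K 5 := by
    have h1 := mul_le_mul' (EE_le_H2 (K := K) l q q' (t 2)) (cubics_le (K := K))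
    rwa [H_mul] at h1
  have hEWfin : Module.Finite K ↥(EE l q q' (t 2) * cubics K) := Submodule.finiteDimensional_of_le hEW
  constructor
  · -- degree one
    have hfin1 : Module.Finite K ↥(mulS q (H K 1)) :=
      Submodule.finiteDimensional_of_le (S₂ := H K (2 + 1)) (mulS_H_le hqH)
    have hfin2 : Module.Finite K ↥(mulS l (EE l q q' (t 2))) :=
      Submodule.finiteDimensional_of_le (S₂ := H K (1 + 2))
        ((mulS_mono (EE_le_H2 l q q' (t 2))).trans (mulS_H_le h.hl))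
    have e1 := finrank_sup_add_finrank_inf_eq (mulS q (H K 1)) (mulS l (EE l q q' (t 2)))
    have e2 : mulS q (H K 1) ⊓ mulS l (EE l q q' (t 2)) = span K {l * q} := by
      apply le_antisymm
      · rintro x ⟨hx1, hx2⟩
        obtain ⟨m, hm, rfl⟩ := mem_mulS.1 hx1
        obtain ⟨ε, hε, he⟩ := mem_mulS.1 hx2
        obtain ⟨r, rfl⟩ := dvd_lin h.hl hm hl0 (h.ndvd_mul ⟨ε, he.symm⟩)
        refine mem_span_singleton.2 ⟨r, ?_⟩
        rw [smul_eq_C_mul]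
        ring
      · rw [span_singleton_le_iff_mem, mem_inf]
        refine ⟨?_, mul_mem_mulS (h.P_le_EE hl (subset_span (by simp)))⟩
        rw [mul_comm]
        exact mul_mem_mulS h.hl
    have e3 : finrank K ↥(span K {l * q}) = 1 := finrank_span_singleton (mul_ne_zero hl0 hq0)
    rw [e2, e3, finrank_mulS hq0, finrank_mulS hl0, finrank_H1, ← h.hUU hl] at e1
    omega
  · -- degree two
    have hfin1 : Module.Finite K ↥(mulS q (H K 4)) :=
      Submodule.finiteDimensional_of_le (S₂ := H K (2 + 4)) (mulS_H_le hqH)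
    have hfin2 : Module.Finite K ↥(mulS l (EE l q q' (t 2) * cubics K)) :=
      Submodule.finiteDimensional_of_le (S₂ := H K (1 + 5)) ((mulS_mono hEW).trans (mulS_H_le h.hl))
    have e1 := finrank_sup_add_finrank_inf_eq (mulS q (H K 4)) (mulS l (EE l q q' (t 2) * cubics K))
    have e2 : mulS q (H K 4) ⊓ mulS l (EE l q q' (t 2) * cubics K) = mulS (l * q) (H K 3) := by
      apply le_antisymm
      · rintro x ⟨hx1, hx2⟩
        obtain ⟨m, hm, rfl⟩ := mem_mulS.1 hx1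
        obtain ⟨ε, hε, he⟩ := mem_mulS.1 hx2
        obtain ⟨m', hm', rfl⟩ := exists_quot (a := 1) (b := 3) h.hl hl0 hm (h.ndvd_mul ⟨ε, he.symm⟩)
        refine mem_mulS.2 ⟨m', hm', ?_⟩
        ring
      · intro x hx
        obtain ⟨m, hm, rfl⟩ := mem_mulS.1 hx
        refine mem_inf.2 ⟨mem_mulS.2 ⟨l * m, mul_mem_H h.hl hm, by ring⟩, ?_⟩
        rw [mul_assoc]
        exact mul_mem_mulS (h.PH3_le hl (mul_mem_mul (subset_span (by simp)) hm))
    have e3 : (A K t 1 ⊔ V K t 2 ⊔ A K t 2) * cubics K =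
        mulS q (H K 4) ⊔ mulS l (EE l q q' (t 2) * cubics K) := by
      rw [h.hUU hl, Submodule.sup_mul, mulS_mul, mulS_mul, H_mul_cubics 0]
    rw [e2, finrank_mulS (mul_ne_zero hl0 hq0), finrank_H3, finrank_mulS hq0, finrank_mulS hl0, finrank_H4,
      ← e3] at e1
    omega

theorem T1.count2_le (h : T1 t l q q') (hl : ¬ l ∣ t 2) :
    (out K t (A K t 1 ⊔ V K t 2 ⊔ A K t 2)).card ≤ cl K t 2 (out K t (A K t 1 ⊔ V K t 2 ⊔ A K t 2)) := by
  have hV : V K t ((2 : Fin 9) : ℕ) ≤ A K t 1 ⊔ V K t 2 := le_sup_right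
  rw [h.fl.outSupA h.UW h.UL (j := 2) hV h.i0]
  have h2 : (2 : Fin 9) ∈ nb K t 2 (out K t (A K t 1 ⊔ V K t 2)) :=
    mem_nb.2 ⟨mem_out_of hV h.i0, h.loop2 hl⟩
  have h3 : nb K t 2 (nb K t 2 (out K t (A K t 1 ⊔ V K t 2))) = nb K t 2 (out K t (A K t 1 ⊔ V K t 2)) := by
    ext u
    simp only [mem_nb]
    tauto
  have h4 := cl_erase (K := K) (t := t) 1 h2
  rw [h3, cl_one] at h4
  rw [show (2 : ℕ) = 1 + 1 by rfl, h4]
  exact Nat.le_add_right _ _

end Pool.Agent.BR
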