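import Pool.Agent.Work.MP_be705b_al.I_Defs

set_option autoImplicit false
set_option linter.unusedSectionVars false
set_option linter.unusedVariables false

/-!
# MP_be705b_al, type I: module I_Con

Contraction. (1) `con_iff`: `mem_NW` + `cf311_mul`, `cf131_mul`, `cf113_mul`, and `κ * w ∈ H 5`.
(2) `eval_con`: expand `w` in the nine monomials (`mem_cubics`; `w = Σ cf · monomial`).
(3) `con_mul`: for `ν = sq (dg ν)`, `m = lin (lc m)`, direct computation with `cf_X0 ..`.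
(4) `con_symm`: the coefficients `cf 3 1 1`, `cf 1 3 1`, `cf 1 1 3` of `κ * (l * κ') = κ' * (l * κ)`.
(5) `dvd_of_con`: for every `i` the vector `(cf (2 e_i + e_j) w)_j` is orthogonal to the independent vectors `p, p'`, as is `lc l ≠ 0`;
   so it is a multiple `c_i • lc l` and `w = l * sq c` (compare `eq_smul_cross` in V2).
(6) `finrank_KK1`: `KK l` is the kernel of a nonzero functional on `H 2` (`mem_KK`).
-/

namespace Pool.Agent.BR

open MvPolynomial Submodule Module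

variable {K : Type*} [Field K]

/-! ### expansion in the nine monomials -/

private theorem I_Con_expand {w : Pol K} (hw : w ∈ cubics K) :
    w = X 0 ^ 2 * lin ![cf 3 0 0 w, cf 2 1 0 w, cf 2 0 1 w] + X 1 ^ 2 * lin ![cf 1 2 0 w, cf 0 3 0 w, cf 0 2 1 w] +
      X 2 ^ 2 * lin ![cf 1 0 2 w, cf 0 1 2 w, cf 0 0 3 w] := by
  obtain ⟨h1, h2⟩ := mem_cubics.1 hw
  have e : X 0 ^ 2 * lin ![cf 3 0 0 w, cf 2 1 0 w, cf 2 0 1 w] +
      X 1 ^ 2 * lin ![cf 1 2 0 w, cf 0 3 0 w, cf 0 2 1 w] + X 2 ^ 2 * lin ![cf 1 0 2 w, cf 0 1 2 w, cf 0 0 3 w] =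
      C (cf 3 0 0 w) * (X 0 ^ 3 * X 1 ^ 0 * X 2 ^ 0) + C (cf 2 1 0 w) * (X 0 ^ 2 * X 1 ^ 1 * X 2 ^ 0) +
      C (cf 2 0 1 w) * (X 0 ^ 2 * X 1 ^ 0 * X 2 ^ 1) + C (cf 1 2 0 w) * (X 0 ^ 1 * X 1 ^ 2 * X 2 ^ 0) +
      C (cf 0 3 0 w) * (X 0 ^ 0 * X 1 ^ 3 * X 2 ^ 0) + C (cf 0 2 1 w) * (X 0 ^ 0 * X 1 ^ 2 * X 2 ^ 1) +
      C (cf 1 0 2 w) * (X 0 ^ 1 * X 1 ^ 0 * X 2 ^ 2) + C (cf 0 1 2 w) * (X 0 ^ 0 * X 1 ^ 1 * X 2 ^ 2) +
      C (cf 0 0 3 w) * (X 0 ^ 0 * X 1 ^ 0 * X 2 ^ 3) := by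
    simp only [lin, Matrix.cons_val_zero, Matrix.cons_val_one, Matrix.cons_val]
    ring
  rw [e]
  have hm : ∀ (k : K) (a b c : ℕ), a + b + c = 3 → (C k * (X 0 ^ a * X 1 ^ b * X 2 ^ c) : Pol K) ∈ H K 3 := by
    intro k a b c h
    rw [← smul_eq_C_mul]
    exact smul_mem _ _ (mono_mem' h)
  refine H_ext h1 ?_ ?_
  · refine add_mem (add_mem (add_mem (add_mem (add_mem (add_mem (add_mem (add_mem ?_ ?_) ?_) ?_) ?_) ?_) ?_) ?_) ?_ <;>
      exact hm _ _ _ _ (by norm_num)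
  · intro a b c h
    have hc : c = 3 - a - b := by omega
    have ha : a ≤ 3 := by omega
    have hb : b ≤ 3 := by omega
    simp only [map_add, cf_C_mul, cf_mono]
    subst hc
    interval_cases a <;> interval_cases b <;> first
      | (exfalso; omega)
      | simp [h2]

private theorem I_Con_dot (p : Fin 3 → K) (w : Pol K) : con p w =
    ![dot ![cf 3 0 0 w, cf 2 1 0 w, cf 2 0 1 w] p, dot ![cf 1 2 0 w, cf 0 3 0 w, cf 0 2 1 w] p,
      dot ![cf 1 0 2 w, cf 0 1 2 w, cf 0 0 3 w] p] := by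
  ext i
  fin_cases i <;> simp [con, dot] <;> ring

private theorem I_Con_hat {κ w : Pol K} (hκ : κ ∈ H K 2) (hw : w ∈ cubics K) :
    con (hat κ) w = ![cf 3 1 1 (κ * w), cf 1 3 1 (κ * w), cf 1 1 3 (κ * w)] := by
  rw [cf311_mul hκ hw, cf131_mul hκ hw, cf113_mul hκ hw]
  rfl

theorem con_add (p : Fin 3 → K) (w w' : Pol K) : con p (w + w') = con p w + con p w' := by
  ext i
  fin_cases i <;> simp [con] <;> ring

theorem con_smul (p : Fin 3 → K) (r : K) (w : Pol K) : con p (r • w) = r • con p w := by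
  ext i
  fin_cases i <;> simp [con] <;> ring

theorem con_iff {κ w : Pol K} (hκ : κ ∈ H K 2) (hw : w ∈ cubics K) :
    κ * w ∈ N K * cubics K ↔ con (hat κ) w = 0 := by
  rw [mem_NW, I_Con_hat hκ hw]
  constructor
  · rintro ⟨-, h1, h2, h3⟩
    rw [h1, h2, h3]
    ext i
    fin_cases i <;> rfl
  · intro h
    exact ⟨mul_mem_H hκ (cubics_le hw), congrFun h 0, congrFun h 1, congrFun h 2⟩

theorem eval_con {w : Pol K} (hw : w ∈ cubics K) (p : Fin 3 → K) :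
    eval p w = p 0 ^ 2 * con p w 0 + p 1 ^ 2 * con p w 1 + p 2 ^ 2 * con p w 2 := by
  rw [I_Con_dot]
  conv_lhs => rw [I_Con_expand hw]
  simp only [map_add, map_mul, map_pow, eval_X, eval_lin, Matrix.cons_val_zero, Matrix.cons_val_one,
    Matrix.cons_val]

theorem con_mul {ν m : Pol K} (hν : ν ∈ N K) (hm : m ∈ H K 1) (p : Fin 3 → K) :
    con p (ν * m) = eval p m • dg ν := by
  have h1 : sq (dg ν) = ν := by
    have h := sq_add_cr (N_le hν)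
    rw [hat_of_N hν] at h
    have h3 : cr (0 : Fin 3 → K) = 0 := by simp [cr]
    rwa [h3, add_zero] at h
  have h2 := lin_lc hm
  have key : ∀ u v : Fin 3 → K, con p (sq u * lin v) = dot v p • u := by
    intro u v
    have e : sq u * lin v = C (u 0 * v 0) * (X 0 ^ 3 * X 1 ^ 0 * X 2 ^ 0) +
        C (u 0 * v 1) * (X 0 ^ 2 * X 1 ^ 1 * X 2 ^ 0) +
        C (u 0 * v 2) * (X 0 ^ 2 * X 1 ^ 0 * X 2 ^ 1) + C (u 1 * v 0) * (X 0 ^ 1 * X 1 ^ 2 * X 2 ^ 0) +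
        C (u 1 * v 1) * (X 0 ^ 0 * X 1 ^ 3 * X 2 ^ 0) + C (u 1 * v 2) * (X 0 ^ 0 * X 1 ^ 2 * X 2 ^ 1) +
        C (u 2 * v 0) * (X 0 ^ 1 * X 1 ^ 0 * X 2 ^ 2) + C (u 2 * v 1) * (X 0 ^ 0 * X 1 ^ 1 * X 2 ^ 2) +
        C (u 2 * v 2) * (X 0 ^ 0 * X 1 ^ 0 * X 2 ^ 3) := by
      simp only [sq, lin, map_mul]
      ring
    rw [e]
    ext i
    simp only [con, map_add, cf_C_mul, cf_mono]
    fin_cases i
    · simp [dot]
      ring
    · simp [dot]
      ring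
    · simp [dot]
      ring
  rw [← h1, ← h2, key, eval_lin, h1]

theorem con_symm {l κ κ' : Pol K} (hl : l ∈ H K 1) (hκ : κ ∈ KK l) (hκ' : κ' ∈ KK l) :
    con (hat κ) (l * κ') = con (hat κ') (l * κ) := by
  rw [I_Con_hat (KK_le l hκ) (mul_KK_mem hl hκ'), I_Con_hat (KK_le l hκ') (mul_KK_mem hl hκ)]
  have e : κ' * (l * κ) = κ * (l * κ') := by ring
  rw [e]

theorem dvd_of_con {l w : Pol K} {p p' : Fin 3 → K} (hl : l ∈ H K 1) (l0 : l ≠ 0)
    (hpp : LinearIndependent K ![p, p']) (lp : eval p l = 0) (lp' : eval p' l = 0)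
    (hw : w ∈ cubics K) (h1 : con p w = 0) (h2 : con p' w = 0) : ∃ ν ∈ N K, w = l * ν := by
  have dc : ∀ u v : Fin 3 → K, dot u v = dot v u := fun u v => by simp only [dot]; ring
  rw [← lin_lc hl, eval_lin, dc] at lp lp'
  obtain ⟨c, hc⟩ := eq_smul_cross hpp lp lp'
  have c0 : c ≠ 0 := by
    rintro rfl
    apply l0
    rw [← lin_lc hl, hc, zero_smul, lin_eq_zero]
  have key : ∀ r : Fin 3 → K, dot r p = 0 → dot r p' = 0 → ∃ d : K, lin r = C d * l := by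
    intro r hr hr'
    rw [dc] at hr hr'
    obtain ⟨d, hd⟩ := eq_smul_cross hpp hr hr'
    refine ⟨d / c, ?_⟩
    conv_rhs => rw [← lin_lc hl, hc]
    rw [← lin_smul, smul_smul, div_mul_cancel₀ _ c0, hd]
  rw [I_Con_dot] at h1 h2
  obtain ⟨d0, e0⟩ := key _ (congrFun h1 0) (congrFun h2 0)
  obtain ⟨d1, e1⟩ := key _ (congrFun h1 1) (congrFun h2 1)
  obtain ⟨d2, e2⟩ := key _ (congrFun h1 2) (congrFun h2 2)
  refine ⟨sq ![d0, d1, d2], sq_mem_N _, ?_⟩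
  rw [I_Con_expand hw, e0, e1, e2]
  simp only [sq, Matrix.cons_val_zero, Matrix.cons_val_one, Matrix.cons_val]
  ring

theorem finrank_KK1 {l : Pol K} (hl : l ∈ H K 1) (l0 : l ≠ 0) : finrank K ↥(KK l) = 5 := by
  set φ : ↥(H K 2) →ₗ[K] K := ((cf 1 1 1).comp (LinearMap.mulLeft K l)).comp (H K 2).subtype with hφ
  have e1 : KK l = (LinearMap.ker φ).map (H K 2).subtype := by
    ext κ
    rw [KK, mem_inf, mem_map]
    constructor
    · rintro ⟨h1, h2⟩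
      exact ⟨⟨κ, h1⟩, h2, rfl⟩
    · rintro ⟨⟨κ', h1⟩, h2, rfl⟩
      exact ⟨h1, h2⟩
  have h0 : lc l ≠ 0 := by
    intro h
    apply l0
    rw [← lin_lc hl, h, lin_eq_zero]
  obtain ⟨i, hi⟩ : ∃ i, lc l i ≠ 0 := by
    by_contra hcon
    push Not at hcon
    exact h0 (funext hcon)
  have h1 : φ ⟨cr (Pi.single i 1), cr_mem _⟩ = lc l i := by
    show cf 1 1 1 (l * cr (Pi.single i 1)) = _
    conv_lhs => rw [← lin_lc hl, cf111_lin_mul, (cf_cr _).2]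
    fin_cases i <;> simp [dot]
  have hr : LinearMap.range φ = ⊤ := by
    rw [LinearMap.range_eq_top]
    intro x
    refine ⟨(x / lc l i) • ⟨cr (Pi.single i 1), cr_mem _⟩, ?_⟩
    rw [map_smul, h1, smul_eq_mul, div_mul_cancel₀ _ hi]
  have h2 := LinearMap.finrank_range_add_finrank_ker φ
  rw [hr, finrank_top, finrank_self, finrank_H2] at h2
  rw [e1, finrank_map_subtype_eq]
  omega

theorem hat_eval {l κ : Pol K} (hl : l ∈ H K 1) (hκ : κ ∈ KK l) : eval (hat κ) l = 0 := by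
  rw [← lin_lc hl, eval_lin]
  exact ((mem_KK hl).1 hκ).2

end Pool.Agent.BR
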