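import Pool.Agent.Work.MP_be705b_al.I_2a
import Pool.Agent.Work.MP_be705b_al.I_Con

set_option autoImplicit false
set_option linter.unusedSectionVars false
set_option linter.unusedVariables false

/-!
# MP_be705b_al, type I: module I_2b

General conventions (see I_Defs, Fl, V2, Graph, Cube): `P = span K {q, q'}`, `W = cubics K`, vertices = `Fin 9`, `out U` = complement of
the initial variables of `U`, `cl K t d S` = number of cliques with repetition, `nb K t j S` = neighbours of `j` in `S`,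
`h.fl.outA j : out (A j) = nb j (out (V j))`, `h.fl.outSupA`, `Fl.exact`, `h.fl.cl1/cl2/cl3/cl4`.

I.2.  `c = t 2`, `l` does not divide `c`, `E = EE l q q' c`.
(1) `hats`: for `ε, ε' ∈ E` the vectors `hat ε`, `hat ε'` are dependent: `ε c ∈ P * W ≤ N * W` gives `con (hat ε) c = 0` (`con_iff`); `dvd_of_con` (with `hat_eval`) would give `l ∣ c`.
(2) `N` is not contained in `E`: take `κ ∈ N`, `κ ∉ P`: `κ c ∈ P * W ≤ P * H 3`, `nzdN3`: `c ∈ P * H 1`.  Then `u c ∈ P * H 6` for all `u ∈ H 5`, so `E * W = H 5` (`T1.mem_EEW`), `cl 2 = 2`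
    (`T1.count2`), `card ≤ 2`, `dim E ≥ 5`, `E = KK l` (`finrank_KK1`): but `KK l` contains elements with independent `hat`s; contradiction to (1).
(3) `E ⊓ N = P` (`P ≤ E ⊓ N < N`, dimensions 2, 3), `dim E ≤ 3` by (1).  `E ≠ P`: `dim (P * W) = 15 < 17 = dim (P * H 3) ≤ dim (E * W)` (`T1.PH3_le`, `pair_cubics`, `pair_H3`).
    So `E = P + K ε`, `ε ∉ N`, `dim E = 3`, `card = 4`, `cl 2 ≥ 4`, `dim (E * W) ≤ 19`, `≥ 17`.
    `17` is impossible: then `E * W = P * H 3`, so `ε * (κ * m) ∈ P * H 3` for `κ ∈ N \ P`, `m ∈ H 1`; `nzdN3`: `ε * m ∈ P * H 1` for all `m ∈ H 1`; so `ε * κ ∈ P * H 2`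
    (`κ ∈ H 1 * H 1`), `nzdN2`: `ε ∈ P`, contradiction.
-/

namespace Pool.Agent.BR

open MvPolynomial Submodule Module

variable {K : Type*} [Field K]

variable {t : Fin 9 → Pol K} {l q q' : Pol K}

private theorem P_le_N {q q' : Pol K} (hq : q ∈ N K) (hq' : q' ∈ N K) : span K {q, q'} ≤ N K := by
  rw [span_le]
  rintro x (rfl | rfl)
  · exact hq
  · exact hq'

private theorem EE_le (l q q' c : Pol K) : EE l q q' c ≤ H K 2 := fun _ hx => KK_le l (mem_EE.1 hx).1

/-- two elements of `KK l` with independent `hat`s -/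
private theorem exists_hats {l : Pol K} (hl : l ∈ H K 1) (hl0 : l ≠ 0) :
    ∃ ε ∈ KK l, ∃ ε' ∈ KK l, LinearIndependent K ![hat ε, hat ε'] := by
  have h0 : lc l ≠ 0 := by
    intro h
    apply hl0
    rw [← lin_lc hl, h]
    exact lin_eq_zero.2 rfl
  obtain ⟨i, hi⟩ := Function.ne_iff.1 h0
  have key : ∀ p p' : Fin 3 → K, dot (lc l) p = 0 → dot (lc l) p' = 0 →
      LinearIndependent K ![p, p'] → ∃ ε ∈ KK l, ∃ ε' ∈ KK l,
      LinearIndependent K ![hat ε, hat ε'] := by
    intro p p' h1 h2 h3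
    refine ⟨cr p, (mem_KK hl).2 ⟨cr_mem _, by rw [(cf_cr _).2, h1]⟩, cr p',
      (mem_KK hl).2 ⟨cr_mem _, by rw [(cf_cr _).2, h2]⟩, ?_⟩
    rw [(cf_cr _).2, (cf_cr _).2]
    exact h3
  have hi' : lc l i ≠ 0 := hi
  fin_cases i
  · have hi0 : lc l 0 ≠ 0 := hi'
    refine key ![-lc l 1, lc l 0, 0] ![-lc l 2, 0, lc l 0] ?_ ?_ ?_
    · simp [dot]
      ring
    · simp [dot]
      ring
    · rw [LinearIndependent.pair_iff]
      intro s t' hst
      have h1 := congrFun hst 1
      have h2 := congrFun hst 2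
      simp [hi0] at h1 h2
      exact ⟨h1, h2⟩
  · have hi0 : lc l 1 ≠ 0 := hi'
    refine key ![lc l 1, -lc l 0, 0] ![0, -lc l 2, lc l 1] ?_ ?_ ?_
    · simp [dot]
      ring
    · simp [dot]
      ring
    · rw [LinearIndependent.pair_iff]
      intro s t' hst
      have h1 := congrFun hst 0
      have h2 := congrFun hst 2
      simp [hi0] at h1 h2
      exact ⟨h1, h2⟩
  · have hi0 : lc l 2 ≠ 0 := hi'
    refine key ![lc l 2, 0, -lc l 0] ![0, lc l 2, -lc l 1] ?_ ?_ ?_
    · simp [dot]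
      ring
    · simp [dot]
      ring
    · rw [LinearIndependent.pair_iff]
      intro s t' hst
      have h1 := congrFun hst 0
      have h2 := congrFun hst 1
      simp [hi0] at h1 h2
      exact ⟨h1, h2⟩

theorem T1.hats (h : T1 t l q q') (hl : ¬ l ∣ t 2) {ε ε' : Pol K} (hε : ε ∈ EE l q q' (t 2))
    (hε' : ε' ∈ EE l q q' (t 2)) : ¬ LinearIndependent K ![hat ε, hat ε'] := by
  intro hli
  have hPN := P_le_N h.hq h.hq'
  obtain ⟨h1, h2⟩ := mem_EE.1 hε
  obtain ⟨h1', h2'⟩ := mem_EE.1 hε'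
  obtain ⟨ν, -, hν⟩ := dvd_of_con h.hl h.l0 hli (hat_eval h.hl h1) (hat_eval h.hl h1') (h.fl.mem 2)
    ((con_iff (KK_le l h1) (h.fl.mem 2)).1 (mul_le_mul_left hPN _ h2))
    ((con_iff (KK_le l h1') (h.fl.mem 2)).1 (mul_le_mul_left hPN _ h2'))
  exact hl ⟨ν, hν⟩

theorem T1.not_N_le (h : T1 t l q q') (hl : ¬ l ∣ t 2) : ¬ N K ≤ EE l q q' (t 2) := by
  intro hN
  obtain ⟨κ, hκ, hκP, -⟩ := exists_N_notMem h.hq h.hq' h.rel
  have h1 := (mem_EE.1 (hN hκ)).2
  have h2 : t 2 ∈ span K {q, q'} * H K 1 := by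
    refine nzdN3 h.hq h.hq' h.rel hκ hκP (h.fl.mem_H 2) ?_
    rw [mul_comm (t 2) κ]
    exact mul_le_mul_right cubics_le _ h1
  have h3 : EE l q q' (t 2) * cubics K = H K 5 := by
    refine le_antisymm ?_ fun u hu => h.mem_EEW hl hu ?_
    · exact (mul_le_mul' (EE_le _ _ _ _) cubics_le).trans (H_mul_le 2 3)
    · have h4 : t 2 * u ∈ span K {q, q'} * H K 1 * H K 5 := mul_mem_mul h2 hu
      have e4 : span K {q, q'} * H K 1 * H K 5 = span K {q, q'} * H K 6 := by
        rw [mul_assoc, H_mul]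
      rw [e4] at h4
      rw [mul_comm u (t 2)]
      exact h4
  obtain ⟨c1, c2⟩ := h.count2 hl
  have c3 := h.count2_le hl
  rw [h3, finrank_H5] at c2
  have h5 : EE l q q' (t 2) = KK l := by
    have hle : EE l q q' (t 2) ≤ KK l := fun _ hx => (mem_EE.1 hx).1
    have : Module.Finite K ↥(KK l) := Module.finite_of_finrank_pos (by
      rw [finrank_KK1 h.hl h.l0]
      norm_num)
    refine Submodule.eq_of_le_of_finrank_le hle ?_
    rw [finrank_KK1 h.hl h.l0]
    omega
  obtain ⟨ε, hε, ε', hε', hli⟩ := exists_hats h.hl h.l0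
  rw [← h5] at hε hε'
  exact h.hats hl hε hε' hli

theorem T1.i2b (h : T1 t l q q') (hl : ¬ l ∣ t 2) : ∃ ε ∈ EE l q q' (t 2), ε ∉ N K ∧
    EE l q q' (t 2) = span K {q, q'} ⊔ span K {ε} ∧ finrank K ↥(EE l q q' (t 2)) = 3 ∧
    (finrank K ↥(EE l q q' (t 2) * cubics K) = 18 ∨ finrank K ↥(EE l q q' (t 2) * cubics K) = 19) := by
  obtain ⟨κ, hκ, hκP, -⟩ := exists_N_notMem h.hq h.hq' h.rel
  have hPN := P_le_N h.hq h.hq'
  have hPE := h.P_le_EE hl
  have hPf := pair_finrank h.hq h.hq' h.rel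
  have fN : Module.Finite K ↥(N K) := Module.finite_of_finrank_pos (by
    rw [finrank_N]
    norm_num)
  have fE : Module.Finite K ↥(EE l q q' (t 2)) :=
    Submodule.finiteDimensional_of_le (EE_le l q q' (t 2))
  have fP : FiniteDimensional K ↥(span K {q, q'}) :=
    FiniteDimensional.span_of_finite K (Set.toFinite _)
  -- `E ⊓ N = P`
  have h1 : EE l q q' (t 2) ⊓ N K = span K {q, q'} := by
    symm
    refine Submodule.eq_of_le_of_finrank_le (le_inf hPE hPN) ?_
    rw [hPf]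
    have h2 : finrank K ↥(EE l q q' (t 2) ⊓ N K) < finrank K ↥(N K) := by
      refine Submodule.finrank_lt_finrank_of_lt (lt_of_le_of_ne inf_le_right fun e => ?_)
      exact h.not_N_le hl (inf_eq_right.1 e)
    rw [finrank_N] at h2
    omega
  have hEW : EE l q q' (t 2) * cubics K ≤ H K 5 :=
    (mul_le_mul' (EE_le _ _ _ _) cubics_le).trans (H_mul_le 2 3)
  have fEW : Module.Finite K ↥(EE l q q' (t 2) * cubics K) :=
    Submodule.finiteDimensional_of_le hEW
  have h17 : 17 ≤ finrank K ↥(EE l q q' (t 2) * cubics K) := by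
    rw [← pair_H3 h.hq h.hq' h.rel]
    exact Submodule.finrank_mono (h.PH3_le hl)
  -- `E ≠ P`
  have h2 : ∃ ε ∈ EE l q q' (t 2), ε ∉ span K {q, q'} := by
    by_contra hcon
    push Not at hcon
    have h3 : EE l q q' (t 2) = span K {q, q'} := le_antisymm hcon hPE
    rw [h3, pair_cubics h.hq h.hq' h.rel] at h17
    omega
  obtain ⟨ε, hε, hεP⟩ := h2
  have hεN : ε ∉ N K := fun hN => hεP (by rw [← h1]; exact ⟨hε, hN⟩)
  have hε2 : ε ∈ H K 2 := EE_le _ _ _ _ hε
  have hhat : hat ε ≠ 0 := fun e => hεN (mem_N.2 ⟨hε2, e⟩)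
  have hE : EE l q q' (t 2) = span K {q, q'} ⊔ span K {ε} := by
    refine le_antisymm (fun ε' hε' => ?_) (sup_le hPE ?_)
    · have h3 := h.hats hl hε hε'
      rw [LinearIndependent.pair_iff' hhat] at h3
      push Not at h3
      obtain ⟨a, ha⟩ := h3
      have h4 : ε' - a • ε ∈ span K {q, q'} := by
        rw [← h1]
        refine ⟨sub_mem hε' (Submodule.smul_mem _ _ hε), mem_N.2 ⟨sub_mem (EE_le _ _ _ _ hε')
          (Submodule.smul_mem _ _ hε2), ?_⟩⟩
        rw [hat_sub, hat_smul, ha, sub_self]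
      rw [mem_sup]
      exact ⟨_, h4, _, Submodule.smul_mem _ a (mem_span_singleton_self ε), sub_add_cancel _ _⟩
    · rw [span_le, Set.singleton_subset_iff]
      exact hε
  have hfE : finrank K ↥(EE l q q' (t 2)) = 3 := by
    have h3 : finrank K ↥(span K {q, q'}) < finrank K ↥(EE l q q' (t 2)) := by
      refine Submodule.finrank_lt_finrank_of_lt (lt_of_le_of_ne hPE fun e => hεP ?_)
      rw [e]
      exact hε
    have h4 : finrank K ↥(EE l q q' (t 2)) ≤ finrank K ↥(span K {q, q'}) + 1 := by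
      have h5 := Submodule.finrank_add_le_finrank_add_finrank (span K {q, q'}) (span K {ε})
      rw [← hE] at h5
      have h6 : finrank K ↥(span K {ε}) ≤ 1 := by
        have := finrank_span_le_card (R := K) ({ε} : Set (Pol K))
        simpa using this
      omega
    omega
  refine ⟨ε, hε, hεN, hE, hfE, ?_⟩
  obtain ⟨c1, c2⟩ := h.count2 hl
  have c3 := h.count2_le hl
  have h18 : finrank K ↥(EE l q q' (t 2) * cubics K) ≠ 17 := by
    intro e
    have h3 : span K {q, q'} * H K 3 = EE l q q' (t 2) * cubics K :=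
      Submodule.eq_of_le_of_finrank_le (h.PH3_le hl) (by rw [e, pair_H3 h.hq h.hq' h.rel])
    have h4 : ∀ m ∈ H K 1, ε * m ∈ span K {q, q'} * H K 1 := by
      intro m hm
      refine nzdN3 h.hq h.hq' h.rel hκ hκP (mul_mem_H hε2 hm) ?_
      rw [h3]
      have e2 : ε * m * κ = ε * (κ * m) := by ring
      rw [e2]
      refine mul_mem_mul hε ?_
      rw [← N_mul_H1]
      exact mul_mem_mul hκ hm
    refine hεP (nzdN2 h.hq h.hq' h.rel hκ hκP hε2 ?_)
    have h5 : κ ∈ H K 1 * H K 1 := by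
      rw [H_mul]
      exact N_le hκ
    refine Submodule.mul_induction_on h5 (fun m hm m' hm' => ?_) fun x y hx hy => ?_
    · rw [← mul_assoc]
      have h6 := mul_mem_mul (h4 m hm) hm'
      rwa [mul_assoc, H_mul] at h6
    · rw [mul_add]
      exact add_mem hx hy
  omega

end Pool.Agent.BR
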