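import Pool.Agent.Work.MP_be705b_al.I_Con

set_option autoImplicit false
set_option linter.unusedSectionVars false
set_option linter.unusedVariables false

/-!
# MP_be705b_al, type I: module I_CP

`CP p = N * Λ_p`, `Λ_p = IP p 1` (two dimensional for `p ≠ 0`).
`mem_CP`: `⊆` by `con_mul`; `⊇`: `w = Σ x_i ^ 2 * m_i` with `m_i ∈ H 1`, `con p w = (m_i(p))_i` (or by dimensions).
`finrank_CP`: the map `con p : W → K^3` is surjective (take `x_i ^ 2 * x_j` with `p j ≠ 0`).
`CP_mul`: `⊆` is clear (`CP_le_IP`, `IP_mul_le`). `⊇`: `IP p 6 = Λ_p * H 5` (dimension 27 = 2 * 21 - 15, or division) and `H 5` is spanned by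
`N * W` and `x^3yz, xy^3z, xyz^3`.  It remains to see `l * x^3yz ∈ Λ_p * N * W` for `l ∈ Λ_p`: say `p 2 ≠ 0`, scaled so that `Λ_p` is spanned by
`x - a z`, `y - b z`.  Modulo `Λ_p * N * W` (monomials of `N * W`: all of degree 5 except the three): with `(y - bz) * x^4z`, `(y - bz) * x^3z^2`:
`(x - az) x^3yz ≡ b x^3z^2 (x - az) ≡ 0`; with `(y-bz) x^2y^2z`, `(y-bz) xy^2z^2`: `(x - az) xy^3z ≡ b x y^2 z^2 (x - az) ≡ 0`; with `(y-bz) x^2z^3`,
`(y-bz) xz^4`: `(x - az) xyz^3 ≡ b x z^4 (x-az) ≡ 0`; the same with `x, y` exchanged for `y - bz`.  The other cases `p 0 ≠ 0`, `p 1 ≠ 0` by symmetry.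
Alternative: show `CP p * W + K f = H 6` for one `f` by a spanning argument and compare dimensions.
`CP_mul6`, `CP_mul9`: `CP p * H 6 = CP p * W * W = IP p 6 * W = IP p 9` etc. (`IP p 6 * W ⊇ ` : `IP p d = Λ_p * H (d-1)`.)
-/

namespace Pool.Agent.BR

open MvPolynomial Submodule Module

variable {K : Type*} [Field K]

private theorem exists_ne {p : Fin 3 → K} (hp : p ≠ 0) : ∃ i, p i ≠ 0 := by
  by_contra hcon
  push Not at hcon
  exact hp (funext hcon)

private theorem lin_mem_IP {p u : Fin 3 → K} (h : dot u p = 0) : lin u ∈ IP p 1 :=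
  mem_IP.2 ⟨lin_mem _, by rw [eval_lin, h]⟩

private theorem con_zero (p : Fin 3 → K) : con p (0 : Pol K) = 0 := by
  have h := con_smul p 0 (0 : Pol K)
  rwa [zero_smul, zero_smul] at h

private theorem icp_sub (p : Fin 3 → K) {w : Pol K} (hw : w ∈ CP p) : con p w = 0 := by
  refine Submodule.mul_induction_on hw ?_ ?_
  · intro ν hν m hm
    obtain ⟨h1, h2⟩ := mem_IP.1 hm
    rw [con_mul hν h1, h2, zero_smul]
  · intro x y hx hy
    rw [con_add, hx, hy, add_zero]

private theorem cubic_eq {w : Pol K} (hw : w ∈ cubics K) :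
    w = X 0 ^ 2 * lin ![cf 3 0 0 w, cf 2 1 0 w, cf 2 0 1 w] +
      X 1 ^ 2 * lin ![cf 1 2 0 w, cf 0 3 0 w, cf 0 2 1 w] +
      X 2 ^ 2 * lin ![cf 1 0 2 w, cf 0 1 2 w, cf 0 0 3 w] := by
  obtain ⟨h3, h111⟩ := mem_cubics.1 hw
  have hX : ∀ i : Fin 3, (X i ^ 2 : Pol K) ∈ H K 2 := fun i => isHomogeneous_X_pow _ 2
  refine H_ext h3 ?_ fun a b c h => ?_
  · exact add_mem (add_mem (mul_mem_H (hX 0) (lin_mem _)) (mul_mem_H (hX 1) (lin_mem _)))
      (mul_mem_H (hX 2) (lin_mem _))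
  · have e : ∀ (i : Fin 3) (f : Pol K), (X i ^ 2 * f : Pol K) = X i * (X i * f) := fun i f => by ring
    rw [e, e, e]
    have ha : a ≤ 3 := by omega
    have hb : b ≤ 3 := by omega
    have hc : c = 3 - a - b := by omega
    subst hc
    interval_cases a <;> interval_cases b <;> first
      | (exfalso; omega)
      | (simp only [map_add, Nat.reduceSub, Nat.sub_zero, Nat.sub_self]
         simp only [cf_X0 _ _ _, cf_X1 _ _ _, cf_X2 _ _ _, cf_X0_zero, cf_X1_zero, cf_X2_zero, (cf_lin _).1,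
          (cf_lin _).2.1, (cf_lin _).2.2, h111]
         simp)

theorem mem_CP {p : Fin 3 → K} (hp : p ≠ 0) {w : Pol K} : w ∈ CP p ↔ w ∈ cubics K ∧ con p w = 0 := by
  constructor
  · intro h
    refine ⟨?_, icp_sub p h⟩
    have h1 : CP p ≤ N K * H K 1 := mul_le_mul_right (IP_le p 1) _
    rw [N_mul_H1] at h1
    exact h1 h
  · rintro ⟨h1, h2⟩
    have e0 : (X 0 ^ 2 : Pol K) ∈ N K := subset_span (by left; rfl)
    have e1 : (X 1 ^ 2 : Pol K) ∈ N K := subset_span (by right; left; rfl)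
    have e2 : (X 2 ^ 2 : Pol K) ∈ N K := subset_span (by right; right; rfl)
    rw [cubic_eq h1]
    have c0 := congrFun h2 0
    have c1 := congrFun h2 1
    have c2 := congrFun h2 2
    simp only [con, Pi.zero_apply, Matrix.cons_val_zero, Matrix.cons_val_one, Matrix.cons_val] at c0 c1 c2
    refine add_mem (add_mem (mul_mem_mul e0 (lin_mem_IP ?_)) (mul_mem_mul e1 (lin_mem_IP ?_)))
      (mul_mem_mul e2 (lin_mem_IP ?_))
    · simp only [dot, Matrix.cons_val_zero, Matrix.cons_val_one, Matrix.cons_val]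
      linear_combination c0
    · simp only [dot, Matrix.cons_val_zero, Matrix.cons_val_one, Matrix.cons_val]
      linear_combination c1
    · simp only [dot, Matrix.cons_val_zero, Matrix.cons_val_one, Matrix.cons_val]
      linear_combination c2

theorem CP_le (p : Fin 3 → K) : CP p ≤ cubics K := by
  have h1 : CP p ≤ N K * H K 1 := mul_le_mul_right (IP_le p 1) _
  rwa [N_mul_H1] at h1

theorem CP_le_IP (p : Fin 3 → K) : CP p ≤ IP p 3 := by
  have h1 : CP p ≤ H K 2 * IP p 1 := mul_le_mul_left N_le _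
  rw [mul_comm] at h1
  exact h1.trans (IP_mul_le p 1 2)

/-- `con p` as a linear map -/
private noncomputable def conL (p : Fin 3 → K) : Pol K →ₗ[K] (Fin 3 → K) where
  toFun := con p
  map_add' := con_add p
  map_smul' := con_smul p

theorem finrank_CP {p : Fin 3 → K} (hp : p ≠ 0) : finrank K ↥(CP p) = 6 := by
  set φ : ↥(cubics K) →ₗ[K] (Fin 3 → K) := (conL p).domRestrict (cubics K) with hφ
  have : Module.Finite K ↥(cubics K) := Submodule.finiteDimensional_of_le cubics_le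
  have h1 : finrank K ↥(LinearMap.range φ) + finrank K ↥(LinearMap.ker φ) = finrank K ↥(cubics K) :=
    LinearMap.finrank_range_add_finrank_ker φ
  have h2 : LinearMap.range φ = ⊤ := by
    obtain ⟨j, hj⟩ := exists_ne hp
    rw [eq_top_iff]
    intro v _
    have hX : (X j : Pol K) ∈ H K 1 := isHomogeneous_X K j
    have hv : C (p j)⁻¹ * (sq v * X j) ∈ cubics K := by
      rw [← smul_eq_C_mul, ← N_mul_H1]
      exact smul_mem _ _ (mul_mem_mul (sq_mem_N v) hX)
    refine ⟨⟨_, hv⟩, ?_⟩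
    show con p (C (p j)⁻¹ * (sq v * X j)) = v
    rw [← smul_eq_C_mul, con_smul, con_mul (sq_mem_N v) hX, (cf_sq v).1, eval_X, smul_smul,
      inv_mul_cancel₀ hj, one_smul]
  rw [h2, finrank_top, finrank_cubics, Module.finrank_fin_fun] at h1
  have h3 : finrank K ↥(LinearMap.ker φ) = finrank K ↥(CP p) := by
    have h4 : CP p = (LinearMap.ker φ).map (cubics K).subtype := by
      ext f
      rw [mem_CP hp]
      constructor
      · rintro ⟨hf, hfp⟩
        exact ⟨⟨f, hf⟩, hfp, rfl⟩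
      · rintro ⟨g, hg, rfl⟩
        exact ⟨g.2, hg⟩
    rw [h4]
    exact LinearEquiv.finrank_eq (equivMapOfInjective _ (cubics K).injective_subtype _)
  omega

private theorem IP_sup {p : Fin 3 → K} {j : Fin 3} (hj : p j ≠ 0) (d : ℕ) :
    H K (d + 1) ≤ IP p 1 * H K d ⊔ span K {(X j : Pol K) ^ (d + 1)} := by
  have hX : (X j : Pol K) ∈ H K 1 := isHomogeneous_X K j
  have hg : ∀ g ∈ H K 1, g - (eval p g / p j) • (X j : Pol K) ∈ IP p 1 := by
    intro g hg
    refine mem_IP.2 ⟨sub_mem hg (smul_mem _ _ hX), ?_⟩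
    rw [map_sub, smul_eval, eval_X, div_mul_cancel₀ _ hj, sub_self]
  induction d with
  | zero =>
    intro g hg'
    have h1 := hg g hg'
    have h2 : g = (g - (eval p g / p j) • (X j : Pol K)) * 1 + (eval p g / p j) • (X j : Pol K) ^ (0 + 1) := by
      rw [mul_one, zero_add, pow_one, sub_add_cancel]
    rw [h2]
    exact add_mem (mem_sup_left (mul_mem_mul h1 (isHomogeneous_one _ _)))
      (mem_sup_right (smul_mem _ _ (mem_span_singleton_self _)))
  | succ d ih =>
    rw [← H_mul (d + 1) 1, mul_le]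
    intro f hf g hg'
    have h1 := hg g hg'
    have h2 : f * g = (g - (eval p g / p j) • (X j : Pol K)) * f +
        (eval p g / p j) • (f * X j) := by
      rw [smul_eq_C_mul, smul_eq_C_mul]
      ring
    rw [h2]
    refine add_mem (mem_sup_left (mul_mem_mul h1 hf)) (smul_mem _ _ ?_)
    obtain ⟨u, hu, v, hv, rfl⟩ := mem_sup.1 (ih hf)
    obtain ⟨c, rfl⟩ := mem_span_singleton.1 hv
    rw [add_mul]
    refine add_mem (mem_sup_left ?_) (mem_sup_right ?_)
    · rw [← H_mul d 1, ← mul_assoc]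
      exact mul_mem_mul hu hX
    · rw [smul_mul_assoc, ← pow_succ]
      exact smul_mem _ _ (mem_span_singleton_self _)

/-- forms vanishing at `p` of degree `d + 1` -/
theorem IP_succ {p : Fin 3 → K} (hp : p ≠ 0) (d : ℕ) : IP p (d + 1) = IP p 1 * H K d := by
  apply le_antisymm
  · intro f hf
    obtain ⟨h1, h2⟩ := mem_IP.1 hf
    obtain ⟨j, hj⟩ := exists_ne hp
    obtain ⟨u, hu, v, hv, rfl⟩ := mem_sup.1 (IP_sup hj d h1)
    obtain ⟨c, rfl⟩ := mem_span_singleton.1 hv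
    have h3 := (mem_IP.1 (IP_mul_le p 1 d hu)).2
    rw [map_add, h3, zero_add, smul_eval, map_pow, eval_X] at h2
    have h4 : c = 0 := (mul_eq_zero.1 h2).resolve_right (pow_ne_zero _ hj)
    rw [h4, zero_smul, add_zero]
    exact hu
  · have h := IP_mul_le p 1 d
    rwa [add_comm 1 d] at h

private theorem good (a b s : Fin 3) : (X a : Pol K) ^ 2 * (X b * X s ^ 2) ∈ N K * cubics K := by
  have hN : ∀ i : Fin 3, (X i ^ 2 : Pol K) ∈ N K := by
    intro i
    fin_cases i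
    · exact subset_span (by left; rfl)
    · exact subset_span (by right; left; rfl)
    · exact subset_span (by right; right; rfl)
  rw [← N_mul_H1]
  refine mul_mem_mul (hN a) ?_
  rw [mul_comm (X b : Pol K)]
  exact mul_mem_mul (hN s) (isHomogeneous_X K b)

private theorem bad {p : Fin 3 → K} {i j k : Fin 3} (hk : p k ≠ 0) (s : Fin 3) :
    (C (p k) * X i - C (p i) * X k : Pol K) * (X i * X j * X k * X s ^ 2) ∈
      IP p 1 * (N K * cubics K) := by
  have hA : ∀ i, (C (p k) * X i - C (p i) * X k : Pol K) ∈ IP p 1 := by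
    intro i
    refine mem_IP.2 ⟨sub_mem ?_ ?_, ?_⟩
    · rw [← smul_eq_C_mul]
      exact smul_mem _ _ (isHomogeneous_X K i)
    · rw [← smul_eq_C_mul]
      exact smul_mem _ _ (isHomogeneous_X K k)
    · simp only [map_sub, map_mul, eval_C, eval_X]
      ring
  have e1 : (C (p k) * X i - C (p i) * X k : Pol K) * (X i * X k * X s ^ 2) ∈ N K * cubics K := by
    have e : (C (p k) * X i - C (p i) * X k : Pol K) * (X i * X k * X s ^ 2) =
        (p k) • (X i ^ 2 * (X k * X s ^ 2)) - (p i) • (X k ^ 2 * (X i * X s ^ 2)) := by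
      rw [smul_eq_C_mul, smul_eq_C_mul]
      ring
    rw [e]
    exact sub_mem (smul_mem _ _ (good i k s)) (smul_mem _ _ (good k i s))
  have e2 : (C (p k) * X i - C (p i) * X k : Pol K) * (X i * X j * X k * X s ^ 2) =
      (p k)⁻¹ • ((C (p k) * X j - C (p j) * X k) * ((C (p k) * X i - C (p i) * X k) *
        (X i * X k * X s ^ 2)) +
      (p j) • ((C (p k) * X i - C (p i) * X k) * (X k ^ 2 * (X i * X s ^ 2)))) := by
    rw [smul_eq_C_mul, smul_eq_C_mul]
    have h : (C (p k)⁻¹ * C (p k) : Pol K) = 1 := by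
      rw [← map_mul, inv_mul_cancel₀ hk, map_one]
    linear_combination (-(C (p k) * X i - C (p i) * X k : Pol K) * (X i * X j * X k * X s ^ 2)) * h
  rw [e2]
  exact smul_mem _ _ (add_mem (mul_mem_mul (hA j) e1)
    (smul_mem _ _ (mul_mem_mul (hA i) (good k i s))))

private theorem IP_bad {p : Fin 3 → K} (hp : p ≠ 0) {l : Pol K} (hl : l ∈ IP p 1) (s : Fin 3) :
    l * (X 0 * X 1 * X 2 * X s ^ 2) ∈ IP p 1 * (N K * cubics K) := by
  obtain ⟨h1, h2⟩ := mem_IP.1 hl
  obtain ⟨k, hk⟩ := exists_ne hp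
  rw [← lin_lc h1, eval_lin] at h2
  rw [← lin_lc h1]
  generalize lc l = u at h2
  have h3 : (C (u 0) * C (p 0) + C (u 1) * C (p 1) + C (u 2) * C (p 2) : Pol K) = 0 := by
    rw [← map_mul, ← map_mul, ← map_mul, ← map_add, ← map_add]
    rw [dot] at h2
    rw [h2, map_zero]
  have h : (C (p k)⁻¹ * C (p k) : Pol K) = 1 := by
    rw [← map_mul, inv_mul_cancel₀ hk, map_one]
  have key : ∀ i j : Fin 3, (X i * X j * X k : Pol K) = X 0 * X 1 * X 2 →
      (X j * X i * X k : Pol K) = X 0 * X 1 * X 2 →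
      lin u = C (p k)⁻¹ * (C (u i) * (C (p k) * X i - C (p i) * X k) +
        C (u j) * (C (p k) * X j - C (p j) * X k)) →
      lin u * (X 0 * X 1 * X 2 * X s ^ 2) ∈ IP p 1 * (N K * cubics K) := by
    intro i j e1 e2 e3
    have a1 := bad (i := i) (j := j) hk s
    have a2 := bad (i := j) (j := i) hk s
    rw [e1] at a1
    rw [e2] at a2
    have e4 : lin u * (X 0 * X 1 * X 2 * X s ^ 2) = (p k)⁻¹ •
        ((u i) • ((C (p k) * X i - C (p i) * X k) * (X 0 * X 1 * X 2 * X s ^ 2)) +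
        (u j) • ((C (p k) * X j - C (p j) * X k) * (X 0 * X 1 * X 2 * X s ^ 2))) := by
      rw [e3, smul_eq_C_mul, smul_eq_C_mul, smul_eq_C_mul]
      ring
    rw [e4]
    exact smul_mem _ _ (add_mem (smul_mem _ _ a1) (smul_mem _ _ a2))
  fin_cases k
  · refine key 1 2 (by simp only [Fin.mk_zero]; ring) (by simp only [Fin.mk_zero]; ring) ?_
    simp only [Fin.mk_zero] at h ⊢
    rw [lin]
    linear_combination (C (p 0)⁻¹ * X 0) * h3 - (C (u 0) * X 0 + C (u 1) * X 1 + C (u 2) * X 2) * h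
  · refine key 0 2 (by simp only [Fin.mk_one]; ring) (by simp only [Fin.mk_one]; ring) ?_
    simp only [Fin.mk_one] at h ⊢
    rw [lin]
    linear_combination (C (p 1)⁻¹ * X 1) * h3 - (C (u 0) * X 0 + C (u 1) * X 1 + C (u 2) * X 2) * h
  · refine key 0 1 (by simp only [Fin.reduceFinMk]) (by simp only [Fin.reduceFinMk]; ring) ?_
    simp only [Fin.reduceFinMk] at h ⊢
    rw [lin]
    linear_combination (C (p 2)⁻¹ * X 2) * h3 - (C (u 0) * X 0 + C (u 1) * X 1 + C (u 2) * X 2) * h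

theorem CP_mul {p : Fin 3 → K} (hp : p ≠ 0) : CP p * cubics K = IP p 6 := by
  have e0 : CP p * cubics K = IP p 1 * (N K * cubics K) := by
    rw [CP, mul_comm (N K), mul_assoc]
  rw [e0, IP_succ hp 5]
  apply le_antisymm
  · refine mul_le_mul_right ?_ _
    rw [← H_mul 2 3]
    exact mul_le_mul' N_le cubics_le
  · rw [mul_le]
    intro l hl f hf
    have hb : ∀ s : Fin 3, (X 0 * X 1 * X 2 * X s ^ 2 : Pol K) ∈ H K 5 := by
      intro s
      have h1 : (X 0 * X 1 * X 2 : Pol K) ∈ H K 3 := by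
        have := xyz_mem (K := K)
        rwa [pow_one, pow_one, pow_one] at this
      exact mul_mem_H h1 (isHomogeneous_X_pow _ 2)
    have h1 : f - ((cf 3 1 1 f) • (X 0 * X 1 * X 2 * X 0 ^ 2) + (cf 1 3 1 f) • (X 0 * X 1 * X 2 * X 1 ^ 2) +
        (cf 1 1 3 f) • (X 0 * X 1 * X 2 * X 2 ^ 2)) ∈ N K * cubics K := by
      have m0 : (X 0 * X 1 * X 2 * X 0 ^ 2 : Pol K) = X 0 ^ 3 * X 1 ^ 1 * X 2 ^ 1 := by ring
      have m1 : (X 0 * X 1 * X 2 * X 1 ^ 2 : Pol K) = X 0 ^ 1 * X 1 ^ 3 * X 2 ^ 1 := by ring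
      have m2 : (X 0 * X 1 * X 2 * X 2 ^ 2 : Pol K) = X 0 ^ 1 * X 1 ^ 1 * X 2 ^ 3 := by ring
      rw [mem_NW]
      refine ⟨sub_mem hf (add_mem (add_mem (smul_mem _ _ (hb 0)) (smul_mem _ _ (hb 1)))
        (smul_mem _ _ (hb 2))), ?_, ?_, ?_⟩
      · simp only [m0, m1, m2, map_sub, map_add, cf_smul, cf_mono]
        norm_num
      · simp only [m0, m1, m2, map_sub, map_add, cf_smul, cf_mono]
        norm_num
      · simp only [m0, m1, m2, map_sub, map_add, cf_smul, cf_mono]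
        norm_num
    have h2 : l * f = l * (f - ((cf 3 1 1 f) • (X 0 * X 1 * X 2 * X 0 ^ 2) +
        (cf 1 3 1 f) • (X 0 * X 1 * X 2 * X 1 ^ 2) + (cf 1 1 3 f) • (X 0 * X 1 * X 2 * X 2 ^ 2))) +
        ((cf 3 1 1 f) • (l * (X 0 * X 1 * X 2 * X 0 ^ 2)) +
        (cf 1 3 1 f) • (l * (X 0 * X 1 * X 2 * X 1 ^ 2)) +
        (cf 1 1 3 f) • (l * (X 0 * X 1 * X 2 * X 2 ^ 2))) := by
      simp only [smul_eq_C_mul]
      ring
    rw [h2]
    exact add_mem (mul_mem_mul hl h1) (add_mem (add_mem (smul_mem _ _ (IP_bad hp hl 0))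
      (smul_mem _ _ (IP_bad hp hl 1))) (smul_mem _ _ (IP_bad hp hl 2)))

theorem CP_mul6 {p : Fin 3 → K} (hp : p ≠ 0) : CP p * H K 6 = IP p 9 := by
  rw [← cubics_mul_cubics, ← mul_assoc, CP_mul hp, IP_succ hp 5, mul_assoc, H_mul_cubics 4,
    IP_succ hp 8]

theorem CP_mul9 {p : Fin 3 → K} (hp : p ≠ 0) : CP p * H K 9 = IP p 12 := by
  have e : H K 9 = H K 6 * cubics K := (H_mul_cubics 5).symm
  rw [e, ← mul_assoc, CP_mul6 hp, IP_succ hp 8, mul_assoc, H_mul_cubics 7, IP_succ hp 11]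

/-- two elements of `l * KK l`: membership in `CP p` -/
theorem hat_of_mem_CP {l κ κ' : Pol K} (hl : l ∈ H K 1) (l0 : l ≠ 0) (hκ : κ ∈ KK l) (hκ' : κ' ∈ KK l)
    (h0 : hat κ ≠ 0) (h1 : l * κ ∈ CP (hat κ)) (h2 : l * κ' ∈ CP (hat κ)) : ∃ r : K, hat κ' = r • hat κ := by
  -- `con (hat κ') (l * κ) = con (hat κ) (l * κ') = 0` (con_symm); if `hat κ, hat κ'` were independent, `dvd_of_con` gives
  -- `l * κ = l * ν` with `ν ∈ N`, so `hat κ = 0`.
  by_contra hcon
  push Not at hcon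
  have hli : LinearIndependent K ![hat κ, hat κ'] := by
    rw [LinearIndependent.pair_iff' h0]
    exact fun a ha => hcon a ha.symm
  have h3 := (mem_CP h0).1 h1
  have h4 := (mem_CP h0).1 h2
  have h5 : con (hat κ') (l * κ) = 0 := by
    rw [← con_symm hl hκ hκ', h4.2]
  obtain ⟨ν, hν, he⟩ := dvd_of_con hl l0 hli (hat_eval hl hκ) (hat_eval hl hκ') h3.1 h3.2 h5
  have h6 : κ = ν := mul_left_cancel₀ l0 he
  rw [h6] at h0
  exact h0 (hat_of_N hν)

end Pool.Agent.BR
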