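import Pool.Agent.Work.MP_be705b_al.I_Defs

set_option autoImplicit false
set_option linter.unusedSectionVars false
set_option linter.unusedVariables false

/-!
# MP_be705b_al, type I: module I_CStar

First nonvanishing coordinates.
`exists_isC`: the `t i` span `W` and some element of `W` does not vanish at `p ≠ 0` (`x_i ^ 3`).
`IsC.mem_out`: an element `t c + v`, `v ∈ V c`, does not vanish at `p` (elements of `V c` vanish at `p`).
`IsC.loop`: otherwise `t c ∈ A c`, so `t c * t c ∈ V c * W` (`Fl.loop_iff`, `Fl.mem_A`) vanishes at `p`.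
`IsC.isIn`: for `v < c` take `t v`; for `v > c` take `t v - (t v)(p) / (t c)(p) • t c`.
`isIn2`: say `c < c'` (the statement is symmetric); then `(t c)(p') = 0`.  `v < c`: `t v`.  `c < v < c'`: `t v - α t c`.  `v > c'`: first subtract
`β t c'` to get the value 0 at `p'`, then `γ t c` to get 0 at `p` (`(t c)(p') = 0`).
`IsIn` is defined in Step.lean: `u ∈ V (v + 1)`, `u ∉ V v`.
-/

namespace Pool.Agent.BR

open MvPolynomial Submodule Module

variable {K : Type*} [Field K]

variable {t : Fin 9 → Pol K}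

private theorem sub_mem_cubics (h : Fl t) {a b : Fin 9} (α : K) : t a - α • t b ∈ cubics K :=
  sub_mem (h.mem a) (smul_mem _ _ (h.mem b))

private theorem ev_sub (p : Fin 3 → K) (α : K) (a b : Pol K) : eval p (a - α • b) = eval p a - α * eval p b := by
  rw [map_sub, smul_eval]

theorem exists_isC (h : Fl t) {p : Fin 3 → K} (hp : p ≠ 0) : ∃ c, IsC t p c := by
  classical
  obtain ⟨i, hi⟩ := Function.ne_iff.1 hp
  have h1 : ∃ c, eval p (t c) ≠ 0 := by
    by_contra hcon
    push Not at hcon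
    have h2 : cubics K ≤ LinearMap.ker (aeval p : Pol K →ₐ[K] K).toLinearMap := by
      rw [← h.sp]
      show V K t 9 ≤ _
      rw [V_top, span_le]
      rintro _ ⟨c, rfl⟩
      rw [SetLike.mem_coe, LinearMap.mem_ker, AlgHom.toLinearMap_apply]
      have := hcon c
      rwa [← coe_aeval_eq_eval] at this
    have h3 : (X i ^ 3 : Pol K) ∈ cubics K := by
      have : (X i ^ 3 : Pol K) = monomial (Finsupp.single i 3) 1 := by
        rw [X_pow_eq_monomial]
      rw [this, cubics]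
      refine subset_span ⟨Finsupp.single i 3, ?_, ?_, rfl⟩
      · simp
      · obtain ⟨j, hj⟩ : ∃ j : Fin 3, j ≠ i := by
          fin_cases i
          · exact ⟨1, by decide⟩
          · exact ⟨0, by decide⟩
          · exact ⟨0, by decide⟩
        exact ⟨j, by rw [Finsupp.single_apply, if_neg hj.symm]⟩
    have h4 := h2 h3
    rw [LinearMap.mem_ker, AlgHom.toLinearMap_apply, map_pow, aeval_X] at h4
    exact hi (pow_eq_zero_iff (by norm_num) |>.1 h4)
  obtain ⟨c, hc, hmin⟩ := WellFounded.has_min (wellFounded_lt (α := Fin 9)) {c | eval p (t c) ≠ 0} h1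
  refine ⟨c, hc, fun i hi => ?_⟩
  by_contra hcon
  exact hmin i hcon hi

theorem IsC.V_eval {p : Fin 3 → K} {c : Fin 9} (hc : IsC t p c) {w : Pol K} (hw : w ∈ V K t c) :
    eval p w = 0 := by
  have h1 : V K t c ≤ LinearMap.ker (aeval p : Pol K →ₐ[K] K).toLinearMap := by
    rw [V, span_le]
    rintro _ ⟨i, hi, rfl⟩
    rw [SetLike.mem_coe, LinearMap.mem_ker, AlgHom.toLinearMap_apply]
    have := hc.2 i (Fin.lt_def.2 hi)
    rwa [← coe_aeval_eq_eval] at this
  have h2 := h1 hw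
  rw [LinearMap.mem_ker, AlgHom.toLinearMap_apply] at h2
  rwa [← coe_aeval_eq_eval]

theorem IsC.mem_out {p : Fin 3 → K} {c : Fin 9} (hc : IsC t p c) {U : Submodule K (Pol K)}
    (hU : ∀ w ∈ U, eval p w = 0) : c ∈ out K t U := by
  rw [Pool.Agent.BR.mem_out]
  intro v hv hmem
  have h1 := hU _ hmem
  rw [map_add, hc.V_eval hv, add_zero] at h1
  exact hc.1 h1

theorem IsC.loop (h : Fl t) {p : Fin 3 → K} {c : Fin 9} (hc : IsC t p c) : Adj K t c c := by
  rw [h.loop_iff]
  intro hA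
  have h1 := (h.mem_A.1 hA).2
  have h2 : ∀ w ∈ V K t c * cubics K, eval p w = 0 := by
    intro w hw
    induction hw using Submodule.mul_induction_on' with
    | mem_mul_mem m hm n _ => rw [map_mul, hc.V_eval hm, zero_mul]
    | add x _ y _ hx hy => rw [map_add, hx, hy, add_zero]
  have h3 := h2 _ h1
  rw [map_mul] at h3
  exact hc.1 (mul_self_eq_zero.1 h3)

private theorem isIn_t (h : Fl t) (v : Fin 9) : IsIn K t (t v) v :=
  ⟨t_mem (Nat.lt_succ_self _), t_notMem h.li v⟩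

private theorem isIn_sub (h : Fl t) {v : Fin 9} {u w : Pol K} (hu : IsIn K t u v) (hw : w ∈ V K t v) :
    IsIn K t (u - w) v := by
  refine ⟨sub_mem hu.1 (V_mono (Nat.le_succ _) hw), fun hmem => hu.2 ?_⟩
  have := add_mem hmem hw
  rwa [sub_add_cancel] at this

theorem IsC.isIn (h : Fl t) {p : Fin 3 → K} {c : Fin 9} (hc : IsC t p c) {v : Fin 9} (hv : v ≠ c) :
    ∃ u ∈ cubics K, IsIn K t u v ∧ eval p u = 0 := by
  rcases lt_or_gt_of_ne hv with hlt | hgt
  · exact ⟨t v, h.mem v, isIn_t h v, hc.2 v hlt⟩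
  · refine ⟨t v - (eval p (t v) / eval p (t c)) • t c, sub_mem_cubics h _,
      isIn_sub h (isIn_t h v) (smul_mem _ _ (t_mem (Fin.lt_def.1 hgt))), ?_⟩
    rw [ev_sub, div_mul_cancel₀ _ hc.1, sub_self]

private theorem isIn2_aux (h : Fl t) {p p' : Fin 3 → K} {c c' : Fin 9} (hc : IsC t p c) (hc' : IsC t p' c')
    (hcc : c < c') {v : Fin 9} (hv : v ≠ c) (hv' : v ≠ c') :
    ∃ u ∈ cubics K, IsIn K t u v ∧ eval p u = 0 ∧ eval p' u = 0 := by
  have hcp' : eval p' (t c) = 0 := hc'.2 c hcc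
  rcases lt_or_gt_of_ne hv with hlt | hgt
  · exact ⟨t v, h.mem v, isIn_t h v, hc.2 v hlt, hc'.2 v (hlt.trans hcc)⟩
  rcases lt_or_gt_of_ne hv' with hlt' | hgt'
  · refine ⟨t v - (eval p (t v) / eval p (t c)) • t c, sub_mem_cubics h _,
      isIn_sub h (isIn_t h v) (smul_mem _ _ (t_mem (Fin.lt_def.1 hgt))), ?_, ?_⟩
    · rw [ev_sub, div_mul_cancel₀ _ hc.1, sub_self]
    · rw [ev_sub, hc'.2 v hlt', hcp', mul_zero, sub_zero]
  · set u1 : Pol K := t v - (eval p' (t v) / eval p' (t c')) • t c' with hu1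
    have e1 : eval p' u1 = 0 := by
      rw [hu1, ev_sub, div_mul_cancel₀ _ hc'.1, sub_self]
    have i1 : IsIn K t u1 v :=
      isIn_sub h (isIn_t h v) (smul_mem _ _ (t_mem (Fin.lt_def.1 hgt')))
    refine ⟨u1 - (eval p u1 / eval p (t c)) • t c,
      sub_mem (sub_mem_cubics h _) (smul_mem _ _ (h.mem c)),
      isIn_sub h i1 (smul_mem _ _ (t_mem (Fin.lt_def.1 hgt))), ?_, ?_⟩
    · rw [ev_sub, div_mul_cancel₀ _ hc.1, sub_self]
    · rw [ev_sub, e1, hcp', mul_zero, sub_zero]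

theorem isIn2 (h : Fl t) {p p' : Fin 3 → K} {c c' : Fin 9} (hc : IsC t p c) (hc' : IsC t p' c')
    (hcc : c ≠ c') {v : Fin 9} (hv : v ≠ c) (hv' : v ≠ c') :
    ∃ u ∈ cubics K, IsIn K t u v ∧ eval p u = 0 ∧ eval p' u = 0 := by
  rcases lt_or_gt_of_ne hcc with hlt | hgt
  · exact isIn2_aux h hc hc' hlt hv hv'
  · obtain ⟨u, hu, hi, h1, h2⟩ := isIn2_aux h hc' hc hgt hv' hv
    exact ⟨u, hu, hi, h2, h1⟩

/-- if `t c` is the first coordinate not vanishing at `p` and `t j` with `j ≠ c` vanishes .. : `j ∈ out U`, `U` vanishing at `p` -/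
theorem IsC.ne_of_eval {p : Fin 3 → K} {c j : Fin 9} (hc : IsC t p c) (hj : eval p (t j) = 0) : c ≠ j := by
  rintro rfl
  exact hc.1 hj

end Pool.Agent.BR
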