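import Pool.Agent.Work.MP_be705b_al.I_2b
import Pool.Agent.Work.MP_be705b_al.I_CP
import Pool.Agent.Work.MP_be705b_al.I_CStar

set_option autoImplicit false
set_option linter.unusedSectionVars false
set_option linter.unusedVariables false

/-!
# MP_be705b_al, type I: module I_2c

General conventions (see I_Defs, Fl, V2, Graph, Cube): `P = span K {q, q'}`, `W = cubics K`, vertices = `Fin 9`, `out U` = complement of
the initial variables of `U`, `cl K t d S` = number of cliques with repetition, `nb K t j S` = neighbours of `j` in `S`,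
`h.fl.outA j : out (A j) = nb j (out (V j))`, `h.fl.outSupA`, `Fl.exact`, `h.fl.cl1/cl2/cl3/cl4`.

I.2, end.  `E = P + K ε` from `T1.i2b`, `U = A 1 ⊔ V 2`, `S = out U` (5 vertices, `cl 2 = 7`, `cl 3 = 6`, `cl 4 = 6`, `T1.countU`), `S' = out (U ⊔ A 2) = nb 2 S` (4 vertices),
`2 ∈ S'` (`2` is a loop, `T1.loop2`, `2 ∈ S` since `t 2 ∉ U`).  So `S = {2, x, y, z, e}`, `S' = {2, x, y, z}`, `2` adjacent to `2, x, y, z` and not to `e`.
Case `dim (E * W) = 19`: `cl 2 S' = 4` (`T1.count2`).  `graph1`: `cl 2 S' = 4`, `cl 2 S = 7`, `cl 3 S = 6` are contradictory (2 ~ everything in `S'` uses the 4 edges of `S'`; the 3 other edges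
   contain `e`; cubes of `S` without `2`: 2).
Case `dim (E * W) = 18`: `cl 2 S' = 5`.  Let `p = hat ε`.  `dim {w ∈ W | ε w ∈ P * W} = dim (P * W) + 9 - dim (E * W) = 6`; this space lies in `CP p` (`con_iff`, `mem_CP`), of dimension 6,
   so `ε * w ∈ P * W` for all `w ∈ CP p`.  With `w = κ m`, `κ ∈ N \ P`, `m ∈ IP p 1`: `ε m ∈ P * H 1` (`nzdN3`).
   `q(p) = q'(p) = 0`: otherwise there is `r ∈ P` with `r(p) ≠ 0`; `f = κ - (κ(p)/r(p)) r ∈ N` vanishes at `p`, so `f ∈ IP p 1 * H 1` (`IP_succ`), `ε f ∈ P * H 2`, `ε r ∈ P * H 2`,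
   so `ε κ ∈ P * H 2`, `ε ∈ P` (`nzdN2`), contradiction.
   So `A 1 = q H 1`, `V 2`, `A 2 = l E` vanish at `p` (`l(p) = 0`: `hat_eval`) and `c(p) = 0` (`con p c = 0`, `eval_con`).  Let `c₀` with `IsC t p c₀`: `c₀ ∈ S'` (`IsC.mem_out`), `c₀ ≠ 2`, loop.
   `graph2`: `S = {2, c₀, y, z, e}`, loops `2, c₀`, `2 ~ c₀, y, z`, `2 ≁ e`, `cl 2 {2, c₀, y, z} = 5`, `cl 3 S = 6`, `cl 4 S = 6`: contradiction.
Graph lemmas: `cl4_bits`, `cl5_bits` of Graph.lean, then `decide` (see `no_adjacent_loops` there for the pattern).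
-/

namespace Pool.Agent.BR

open MvPolynomial Submodule Module

variable {K : Type*} [Field K]

variable {t : Fin 9 → Pol K} {l q q' : Pol K}

private theorem bits4a : ∀ x1 x2 x3 x4 x5 x6 : Bool,
    clB (sym4 true true true true x1 x2 x3 x4 x5 x6) 2 [0, 1, 2, 3] = 4 →
    x1 = false ∧ x2 = false ∧ x3 = false ∧ x4 = false ∧ x5 = false ∧ x6 = false := by
  decide

private theorem bits4b : ∀ x2 x3 x4 x5 x6 : Bool,
    clB (sym4 true true true true true x2 x3 x4 x5 x6) 2 [0, 1, 2, 3] = 5 →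
    x2 = false ∧ x3 = false ∧ x4 = false ∧ x5 = false ∧ x6 = false := by
  decide

private theorem bits5a : ∀ x1 x2 x3 x4 : Bool,
    clB (sym5 true true true true false false false false x1 false false x2 false x3 x4) 2 [0, 1, 2, 3, 4] = 7 →
    clB (sym5 true true true true false false false false x1 false false x2 false x3 x4) 3 [0, 1, 2, 3, 4] = 6 →
    False := by
  decide

private theorem bits5b : ∀ x1 x2 x3 x4 : Bool,
    clB (sym5 true true true true false true false false x1 false false x2 false x3 x4) 3 [0, 1, 2, 3, 4] = 6 →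
    clB (sym5 true true true true false true false false x1 false false x2 false x3 x4) 4 [0, 1, 2, 3, 4] = 6 →
    False := by
  decide

theorem graph1 {a x y z e : Fin 9} (hnd : [a, x, y, z, e].Nodup) (h0 : Adj K t a a) (h1 : Adj K t a x)
    (h2 : Adj K t a y) (h3 : Adj K t a z) (h4 : ¬ Adj K t a e) (c2 : cl K t 2 {a, x, y, z} = 4)
    (d2 : cl K t 2 {a, x, y, z, e} = 7) (d3 : cl K t 3 {a, x, y, z, e} = 6) : False := by
  simp only [List.nodup_cons, List.mem_cons, List.not_mem_nil, or_false, not_or, List.nodup_nil, and_true,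
    not_false_eq_true] at hnd
  obtain ⟨⟨ax, ay, az, ae⟩, ⟨xy, xz, xe⟩, ⟨yz, ye⟩, ze⟩ := hnd
  rw [cl4_bits ax ay az xy xz yz] at c2
  rw [cl5_bits ax ay az ae xy xz xe yz ye ze] at d2 d3
  rw [← adjB_true] at h0 h1 h2 h3
  rw [← adjB_false] at h4
  rw [h0, h1, h2, h3] at c2
  obtain ⟨b1, b2, b3, b4, b5, b6⟩ := bits4a _ _ _ _ _ _ c2
  rw [h0, h1, h2, h3, h4, b1, b2, b3, b4, b5, b6] at d2 d3
  exact bits5a _ _ _ _ d2 d3

theorem graph2 {a x y z e : Fin 9} (hnd : [a, x, y, z, e].Nodup) (h0 : Adj K t a a) (hx : Adj K t x x)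
    (h1 : Adj K t a x) (h2 : Adj K t a y) (h3 : Adj K t a z) (h4 : ¬ Adj K t a e)
    (c2 : cl K t 2 {a, x, y, z} = 5) (d3 : cl K t 3 {a, x, y, z, e} = 6)
    (d4 : cl K t 4 {a, x, y, z, e} = 6) : False := by
  simp only [List.nodup_cons, List.mem_cons, List.not_mem_nil, or_false, not_or, List.nodup_nil, and_true,
    not_false_eq_true] at hnd
  obtain ⟨⟨ax, ay, az, ae⟩, ⟨xy, xz, xe⟩, ⟨yz, ye⟩, ze⟩ := hnd
  rw [cl4_bits ax ay az xy xz yz] at c2
  rw [cl5_bits ax ay az ae xy xz xe yz ye ze] at d3 d4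
  rw [← adjB_true] at h0 hx h1 h2 h3
  rw [← adjB_false] at h4
  rw [h0, hx, h1, h2, h3] at c2
  obtain ⟨b2, b3, b4, b5, b6⟩ := bits4b _ _ _ _ _ c2
  rw [h0, h1, h2, h3, h4, hx, b2, b3, b4, b5, b6] at d3 d4
  exact bits5b _ _ _ _ d3 d4

/-- if `ε * w ∈ P * W` has a solution space of dimension 6, it is `CP p` -/
private theorem i2c_CP (h : T1 t l q q') {ε : Pol K} (hε2 : ε ∈ H K 2) (hp : hat ε ≠ 0)
    (h18 : finrank K ↥((span K {q, q'} ⊔ span K {ε}) * cubics K) = 18) {w : Pol K} (hw : w ∈ CP (hat ε)) :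
    ε * w ∈ span K {q, q'} * cubics K := by
  have hPN : span K {q, q'} ≤ N K := by
    rw [span_le]
    rintro x (rfl | rfl)
    · exact h.hq
    · exact h.hq'
  have hε0 : ε ≠ 0 := by
    rintro rfl
    apply hp
    ext i
    fin_cases i <;> simp [hat]
  set D : Submodule K (Pol K) := cubics K ⊓ (span K {q, q'} * cubics K).comap (LinearMap.mulLeft K ε) with hD
  have memD : ∀ w, w ∈ D ↔ w ∈ cubics K ∧ ε * w ∈ span K {q, q'} * cubics K := fun w => by simp [hD]
  have hDC : D ≤ CP (hat ε) := by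
    intro w hw
    obtain ⟨h1, h2⟩ := (memD w).1 hw
    exact (mem_CP hp).2 ⟨h1, (con_iff hε2 h1).1 (mul_le_mul_left hPN _ h2)⟩
  have e1 : (span K {q, q'} ⊔ span K {ε}) * cubics K = span K {q, q'} * cubics K ⊔ mulS ε (cubics K) := by
    rw [Submodule.sup_mul, span_mul_eq']
  have e2 : span K {q, q'} * cubics K ⊓ mulS ε (cubics K) = mulS ε D := by
    ext x
    rw [mem_inf, mem_mulS, mem_mulS]
    constructor
    · rintro ⟨h1, w, h2, rfl⟩
      exact ⟨w, (memD w).2 ⟨h2, h1⟩, rfl⟩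
    · rintro ⟨w, h2, rfl⟩
      obtain ⟨h3, h4⟩ := (memD w).1 h2
      exact ⟨h4, w, h3, rfl⟩
  have hf1 : Module.Finite K ↥(span K {q, q'} * cubics K) := by
    have := pair_cubics h.hq h.hq' h.rel
    exact Module.finite_of_finrank_pos (by omega)
  have hf2 : Module.Finite K ↥(mulS ε (cubics K)) := by
    have h1 := finrank_mulS hε0 (cubics K)
    rw [finrank_cubics] at h1
    exact Module.finite_of_finrank_pos (by omega)
  have hfr := finrank_sup_add_finrank_inf_eq (span K {q, q'} * cubics K) (mulS ε (cubics K))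
  rw [← e1, e2, h18, finrank_mulS hε0, finrank_mulS hε0, pair_cubics h.hq h.hq' h.rel, finrank_cubics] at hfr
  have hf3 : Module.Finite K ↥(CP (hat ε)) := by
    have := finrank_CP hp
    exact Module.finite_of_finrank_pos (by omega)
  have hDeq : D = CP (hat ε) := by
    refine Submodule.eq_of_le_of_finrank_le hDC ?_
    rw [finrank_CP hp]
    omega
  rw [← hDeq] at hw
  exact ((memD w).1 hw).2

private theorem i2c_eval (h : T1 t l q q') {ε : Pol K} (hε2 : ε ∈ H K 2) (hεN : ε ∉ N K) (hp : hat ε ≠ 0)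
    (hCP : ∀ w ∈ CP (hat ε), ε * w ∈ span K {q, q'} * cubics K) {r : Pol K} (hr : r ∈ span K {q, q'}) :
    eval (hat ε) r = 0 := by
  have hPN : span K {q, q'} ≤ N K := by
    rw [span_le]
    rintro x (rfl | rfl)
    · exact h.hq
    · exact h.hq'
  by_contra hr0
  obtain ⟨κ, hκ, hκP, -⟩ := exists_N_notMem h.hq h.hq' h.rel
  have h1 : ∀ m ∈ IP (hat ε) 1, ε * m ∈ span K {q, q'} * H K 1 := by
    intro m hm
    have hm1 : m ∈ H K 1 := (mem_IP.1 hm).1
    refine nzdN3 h.hq h.hq' h.rel hκ hκP (mul_mem_H hε2 hm1) ?_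
    have h2 : κ * m ∈ CP (hat ε) := mul_mem_mul hκ hm
    have h3 := hCP _ h2
    have h4 : ε * m * κ = ε * (κ * m) := by ring
    rw [h4]
    exact mul_le_mul_right cubics_le _ h3
  set c := eval (hat ε) κ / eval (hat ε) r with hc
  set f := κ - C c * r with hf
  have hrN : r ∈ N K := hPN hr
  have hfI : f ∈ IP (hat ε) (1 + 1) := by
    refine mem_IP.2 ⟨?_, ?_⟩
    · refine sub_mem (N_le hκ) ?_
      rw [← smul_eq_C_mul]
      exact smul_mem _ _ (N_le hrN)
    · rw [hf, map_sub, map_mul, eval_C, hc, div_mul_cancel₀ _ hr0, sub_self]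
  rw [IP_succ hp 1] at hfI
  have h5 : ε * f ∈ span K {q, q'} * H K 2 := by
    have h6 : mulS ε (IP (hat ε) 1 * H K 1) ≤ span K {q, q'} * H K 2 := by
      rw [← mulS_mul]
      have h7 : mulS ε (IP (hat ε) 1) ≤ span K {q, q'} * H K 1 := by
        intro x hx
        obtain ⟨m, hm, rfl⟩ := mem_mulS.1 hx
        exact h1 m hm
      refine (mul_le_mul_left h7 _).trans ?_
      rw [mul_assoc, H_mul]
    exact h6 (mul_mem_mulS hfI)
  have h8 : ε * κ ∈ span K {q, q'} * H K 2 := by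
    have h9 : ε * κ = ε * f + c • (r * ε) := by
      rw [hf, smul_eq_C_mul]
      ring
    rw [h9]
    exact add_mem h5 (smul_mem _ _ (mul_mem_mul hr hε2))
  exact hεN (hPN (nzdN2 h.hq h.hq' h.rel hκ hκP hε2 h8))

theorem T1.dvd_t2 (h : T1 t l q q') : l ∣ t 2 := by
  by_contra hl
  classical
  obtain ⟨ε, hε, hεN, hE, hE3, hdim⟩ := h.i2b hl
  have hUc : A K t 1 ⊔ V K t 2 ≤ cubics K := sup_le (h.fl.A_le 1) (h.fl.V_le 2)
  have hUL : LL K t (A K t 1 ⊔ V K t 2) := h.fl.llSupV (h.fl.A_le 1) (h.fl.llA 1) 2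
  have hV : V K t ((2 : Fin 9) : ℕ) ≤ A K t 1 ⊔ V K t 2 := le_sup_right
  have hj : t 2 ∉ A K t 1 ⊔ V K t 2 := h.i0
  have h2S : (2 : Fin 9) ∈ out K t (A K t 1 ⊔ V K t 2) := mem_out_of hV hj
  have hS' : out K t (A K t 1 ⊔ V K t 2 ⊔ A K t 2) = nb K t 2 (out K t (A K t 1 ⊔ V K t 2)) :=
    h.fl.outSupA hUc hUL hV hj
  have hloop := h.loop2 hl
  have h2S' : (2 : Fin 9) ∈ nb K t 2 (out K t (A K t 1 ⊔ V K t 2)) := mem_nb.2 ⟨h2S, hloop⟩
  obtain ⟨k1, k2, k3, k4⟩ := h.countU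
  obtain ⟨m1, m2⟩ := h.count2 hl
  rw [hS', hE3] at m1
  rw [hS'] at m2
  set S := out K t (A K t 1 ⊔ V K t 2) with hS
  set S' := nb K t 2 S with hSS
  have hsub : S' ⊆ S := fun u hu => (mem_nb.1 hu).1
  have c4 : S'.card = 4 := by omega
  have key : ∀ w ∈ S'.erase 2, ∃ y z e, S' = {2, w, y, z} ∧ S = {2, w, y, z, e} ∧
      [2, w, y, z, e].Nodup ∧ Adj K t 2 w ∧ Adj K t 2 y ∧ Adj K t 2 z ∧ ¬ Adj K t 2 e := by
    intro w hw
    have c2 : ((S'.erase 2).erase w).card = 2 := by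
      rw [Finset.card_erase_of_mem hw, Finset.card_erase_of_mem h2S', c4]
    obtain ⟨y, z, hyz, he⟩ := Finset.card_eq_two.1 c2
    have c1 : (S \ S').card = 1 := by
      rw [Finset.card_sdiff_of_subset hsub, k1, c4]
    obtain ⟨e, hse⟩ := Finset.card_eq_one.1 c1
    have eS' : S' = {2, w, y, z} := by
      rw [← Finset.insert_erase h2S', ← Finset.insert_erase hw, he]
    have eS : S = {2, w, y, z, e} := by
      rw [← Finset.union_sdiff_of_subset hsub, hse, eS']
      ext u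
      simp
    have heS : e ∈ S \ S' := by rw [hse]; exact Finset.mem_singleton_self e
    obtain ⟨he1, he2⟩ := Finset.mem_sdiff.1 heS
    have hy : y ∈ (S'.erase 2).erase w := by rw [he]; simp
    have hz : z ∈ (S'.erase 2).erase w := by rw [he]; simp
    simp only [Finset.mem_erase] at hy hz hw
    refine ⟨y, z, e, eS', eS, ?_, (mem_nb.1 hw.2).2, (mem_nb.1 hy.2.2).2, (mem_nb.1 hz.2.2).2, ?_⟩
    · simp only [List.nodup_cons, List.mem_cons, List.not_mem_nil, or_false, not_or, List.nodup_nil, and_true,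
        not_false_eq_true]
      refine ⟨⟨hw.1.symm, hy.2.1.symm, hz.2.1.symm, ?_⟩, ⟨hy.1.symm, hz.1.symm, ?_⟩, ⟨hyz, ?_⟩, ?_⟩
      · rintro rfl; exact he2 h2S'
      · rintro rfl; exact he2 hw.2
      · rintro rfl; exact he2 hy.2.2
      · rintro rfl; exact he2 hz.2.2
    · intro hadj
      exact he2 (mem_nb.2 ⟨he1, hadj⟩)
  rcases hdim with h18 | h19
  · rw [h18] at m2
    have hε2 : ε ∈ H K 2 := KK_le _ (mem_EE.1 hε).1
    have hp : hat ε ≠ 0 := fun h0 => hεN (mem_N.2 ⟨hε2, h0⟩)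
    have hPN : span K {q, q'} ≤ N K := by
      rw [span_le]
      rintro x (rfl | rfl)
      · exact h.hq
      · exact h.hq'
    rw [hE] at h18
    have hev : ∀ r ∈ span K {q, q'}, eval (hat ε) r = 0 := fun r hr =>
      i2c_eval h hε2 hεN hp (fun w hw => i2c_CP h hε2 hp h18 hw) hr
    have hlp : eval (hat ε) l = 0 := hat_eval h.hl (mem_EE.1 hε).1
    have hvan : ∀ w ∈ A K t 1 ⊔ V K t 2 ⊔ A K t 2, eval (hat ε) w = 0 := by
      have hZ : A K t 1 ⊔ V K t 2 ⊔ A K t 2 ≤ LinearMap.ker (MvPolynomial.aeval (hat ε) : Pol K →ₐ[K] K).toLinearMap := by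
        refine sup_le (sup_le ?_ ?_) ?_
        · rw [h.A1]
          intro w hw
          obtain ⟨m, -, rfl⟩ := mem_mulS.1 hw
          rw [LinearMap.mem_ker]
          show aeval (hat ε) (q * m) = 0
          rw [map_mul, aeval_eq_eval, hev q (subset_span (by simp)), zero_mul]
        · rw [h.V2]
          intro w hw
          obtain ⟨m, -, rfl⟩ := mem_mulS.1 hw
          rw [LinearMap.mem_ker]
          show aeval (hat ε) (l * m) = 0
          rw [map_mul, aeval_eq_eval, hlp, zero_mul]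
        · rw [h.A2_eq hl]
          intro w hw
          obtain ⟨m, -, rfl⟩ := mem_mulS.1 hw
          rw [LinearMap.mem_ker]
          show aeval (hat ε) (l * m) = 0
          rw [map_mul, aeval_eq_eval, hlp, zero_mul]
      intro w hw
      have := hZ hw
      rw [LinearMap.mem_ker] at this
      rw [← aeval_eq_eval]
      exact this
    have ht2 : eval (hat ε) (t 2) = 0 := by
      have h1 := (mem_EE.1 hε).2
      have h2 := (con_iff hε2 (h.fl.mem 2)).1 (mul_le_mul_left hPN _ h1)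
      rw [eval_con (h.fl.mem 2), h2]
      simp
    obtain ⟨c₀, hc₀⟩ := exists_isC h.fl hp
    have hcS : c₀ ∈ S' := by
      rw [← hS']
      exact hc₀.mem_out hvan
    have hc2 : c₀ ≠ 2 := hc₀.ne_of_eval ht2
    obtain ⟨y, z, e, e1, e2, e3, e4, e5, e6, e7⟩ := key c₀ (Finset.mem_erase.2 ⟨hc2, hcS⟩)
    rw [e1] at m2
    rw [e2] at k3 k4
    exact graph2 e3 hloop (hc₀.loop h.fl) e4 e5 e6 e7 (by omega) k3 k4
  · rw [h19] at m2
    obtain ⟨w, hw⟩ : (S'.erase 2).Nonempty := by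
      rw [← Finset.card_pos, Finset.card_erase_of_mem h2S', c4]
      norm_num
    obtain ⟨y, z, e, e1, e2, e3, e4, e5, e6, e7⟩ := key w hw
    rw [e1] at m2
    rw [e2] at k2 k3
    exact graph1 e3 hloop e4 e5 e6 e7 (by omega) k2 k3

end Pool.Agent.BR
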