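import Pool.Agent.Work.MP_be705b_al.I_Con
import Pool.Agent.Work.MP_be705b_al.I_Base
import Pool.Agent.Work.MP_be705b_al.I_CStar

set_option autoImplicit false
set_option linter.unusedSectionVars false
set_option linter.unusedVariables false

/-!
# MP_be705b_al, type I: module I_31

I.3.1: `l ∤ t 3`, `t 3 ∉ A 1 ⊔ V 3`.
-/

namespace Pool.Agent.BR

open MvPolynomial Submodule Module

variable {K : Type*} [Field K]

variable {t : Fin 9 → Pol K} {l q q' κ : Pol K} {p : Fin 3 → K} {c g a b u v : Fin 9}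

private theorem I31_A3 (h : T1C t l q q' κ p c g a b u v) (hl : ¬ l ∣ t 3) :
    A K t 3 ≤ mulS l (KK l) := by
  intro w hw
  have hl1 := h.k.t1.hl
  have l0 := h.k.t1.l0
  obtain ⟨hwc, h2⟩ := h.k.t1.fl.mem_A.1 hw
  have h3 : V K t ((3 : Fin 9) : ℕ) = mulS l (span K {q, q', κ}) := h.V3
  rw [h3, mulS_mul, mem_mulS] at h2
  obtain ⟨s, hs, e⟩ := h2
  have h4 : l ∣ w := by
    rcases (prime_lin hl1 l0).dvd_or_dvd (Dvd.intro s e) with h5 | h5
    · exact h5
    · exact absurd h5 hl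
  obtain ⟨ε, hε, rfl⟩ := exists_quot (a := 1) (b := 2) hl1 l0 (cubics_le hwc) h4
  exact mul_mem_mulS ((mem_KK' hl1).2 ⟨hε, hwc⟩)

private theorem I31_dim (h : T1C t l q q' κ p c g a b u v) :
    7 ≤ finrank K ↥(A K t 1 ⊔ mulS l (KK l)) := by
  have hl1 := h.k.t1.hl
  have l0 := h.k.t1.l0
  have q0 := h.k.t1.q0
  rw [h.k.t1.A1]
  have i1 : Module.Finite K ↥(mulS q (H K 1)) := by
    unfold mulS; infer_instance
  have i2 : Module.Finite K ↥(mulS l (KK l)) := by
    have : Module.Finite K ↥(KK l) := Submodule.finiteDimensional_of_le (KK_le l)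
    unfold mulS; infer_instance
  have e := Submodule.finrank_sup_add_finrank_inf_eq (mulS q (H K 1)) (mulS l (KK l))
  rw [finrank_mulS q0, finrank_mulS l0, finrank_H1, finrank_KK1 hl1 l0] at e
  have h1 : mulS q (H K 1) ⊓ mulS l (KK l) ≤ span K {l * q} := by
    rintro w ⟨hw1, hw2⟩
    obtain ⟨m, hm, rfl⟩ := mem_mulS.1 hw1
    obtain ⟨ε, hε, e⟩ := mem_mulS.1 hw2
    have h2 : l ∣ m := by
      rcases (prime_lin hl1 l0).dvd_or_dvd (Dvd.intro ε e) with h5 | h5
      · exact absurd h5 h.k.t1.ndvd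
      · exact h5
    obtain ⟨r, rfl⟩ := dvd_lin hl1 hm l0 h2
    refine mem_span_singleton.2 ⟨r, ?_⟩
    rw [smul_eq_C_mul]
    ring
  have h2 := finrank_mono h1
  have h3 : finrank K ↥(span K {l * q}) = 1 := finrank_span_singleton (mul_ne_zero l0 q0)
  omega

theorem T1C.i31 (h : T1C t l q q' κ p c g a b u v) (hl : ¬ l ∣ t 3) (hU : t 3 ∉ A K t 1 ⊔ V K t 3) :
    False := by
  have hl1 := h.k.t1.hl
  have l0 := h.k.t1.l0
  have fl := h.k.t1.fl
  have hA3 := I31_A3 h hl
  have hev : ∀ w ∈ mulS l (KK l), eval p w = 0 := by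
    intro w hw
    obtain ⟨ε, hε, rfl⟩ := mem_mulS.1 hw
    rw [map_mul, h.lp, zero_mul]
  have hevV : ∀ w ∈ V K t 3, eval p w = 0 := by
    intro w hw
    rw [h.V3] at hw
    obtain ⟨ε, hε, rfl⟩ := mem_mulS.1 hw
    rw [map_mul, h.lp, zero_mul]
  have hevA : ∀ w ∈ A K t 1, eval p w = 0 := by
    intro w hw
    rw [h.k.t1.A1] at hw
    obtain ⟨ε, hε, rfl⟩ := mem_mulS.1 hw
    rw [map_mul, h.qp, zero_mul]
  have hloop : Adj K t 3 3 := by
    rw [fl.loop_iff]
    intro h1
    obtain ⟨ε, hε, e⟩ := mem_mulS.1 (hA3 h1)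
    exact hl (Dvd.intro ε e)
  have hUle : A K t 1 ⊔ V K t 3 ≤ cubics K := sup_le (fl.A_le 1) (fl.V_le 3)
  have hUL : LL K t (A K t 1 ⊔ V K t 3) := fl.llSupV (fl.A_le 1) (fl.llA 1) 3
  have hVU : V K t ((3 : Fin 9) : ℕ) ≤ A K t 1 ⊔ V K t 3 := le_sup_right
  have hout := fl.outSupA hUle hUL hVU hU
  have h3 : (3 : Fin 9) ∈ out K t (A K t 1 ⊔ V K t 3) := mem_out_of hVU hU
  have hevU : ∀ w ∈ A K t 1 ⊔ V K t 3 ⊔ A K t 3, eval p w = 0 := by
    intro w hw
    obtain ⟨y, hy, z, hz, rfl⟩ := mem_sup.1 hw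
    obtain ⟨y1, hy1, y2, hy2, rfl⟩ := mem_sup.1 hy
    rw [map_add, map_add, hevA _ hy1, hevV _ hy2, hev _ (hA3 hz)]
    simp
  have hcU := h.cC.mem_out hevU
  rw [hout, mem_nb] at hcU
  have hadj : Adj K t 3 c := hcU.2
  have hnd := h.nd
  simp only [List.nodup_cons, List.mem_cons, List.not_mem_nil, or_false, not_or, not_false_eq_true,
    List.nodup_nil, and_true] at hnd
  obtain ⟨⟨n1, n2, n3, n4, n5⟩, ⟨n6, n7, n8, n9⟩, ⟨n10, n11, n12⟩, ⟨n13, n14⟩, n15⟩ := hnd
  have hc3 : c = 3 := by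
    by_contra hne
    rw [h.oA] at h3
    simp only [Finset.mem_insert, Finset.mem_singleton] at h3
    rcases h3 with h3 | h3 | h3 | h3
    · exact hne h3.symm
    · rw [h3] at hloop
      exact h.gg hloop
    · rw [h3] at hloop hadj
      have e : ({c, g, a, b} : Finset (Fin 9)) = {c, a, g, b} := by
        ext x; simp only [Finset.mem_insert, Finset.mem_singleton]; tauto
      have e2 := h.e2
      have e3 := h.e3
      have e4 := h.e4
      rw [e] at e2 e3 e4
      exact no_adjacent_loops n2 n1 n3 (Ne.symm n6) n10 n7 e2 e3 e4 h.cc hloop (adj_symm hadj)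
    · rw [h3] at hloop hadj
      have e : ({c, g, a, b} : Finset (Fin 9)) = {c, b, g, a} := by
        ext x; simp only [Finset.mem_insert, Finset.mem_singleton]; tauto
      have e2 := h.e2
      have e3 := h.e3
      have e4 := h.e4
      rw [e] at e2 e3 e4
      exact no_adjacent_loops n3 n1 n2 (Ne.symm n7) (Ne.symm n10) n6 e2 e3 e4 h.cc hloop (adj_symm hadj)
  -- the neighbours of `3`
  have hoA3 := fl.outA 3
  have hsub : out K t (A K t 3) ⊆ {c, a, b, u} := by
    intro x hx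
    rw [hoA3, mem_nb] at hx
    obtain ⟨hx1, hx2⟩ := hx
    have hx1' : x ∈ out K t (V K t 3) := hx1
    rw [h.o3] at hx1'
    simp only [Finset.mem_insert, Finset.mem_singleton] at hx1' ⊢
    rw [← hc3] at hx2
    rcases hx1' with h1 | h1 | h1 | h1 | h1 | h1
    · exact Or.inl h1
    · rw [h1] at hx2; exact absurd hx2 h.cg
    · exact Or.inr (Or.inl h1)
    · exact Or.inr (Or.inr (Or.inl h1))
    · exact Or.inr (Or.inr (Or.inr h1))
    · rw [h1] at hx2; exact absurd hx2 h.cv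
  have hcard : ({c, a, b, u} : Finset (Fin 9)).card = 4 := by
    rw [Finset.card_insert_of_notMem, Finset.card_insert_of_notMem, Finset.card_insert_of_notMem,
      Finset.card_singleton]
    · simpa using n13
    · simp only [Finset.mem_insert, Finset.mem_singleton, not_or]; exact ⟨n10, n11⟩
    · simp only [Finset.mem_insert, Finset.mem_singleton, not_or]; exact ⟨n2, n3, n4⟩
  have c1 := fl.cl1 (fl.A_le 3) (fl.llA 3)
  have hle4 := Finset.card_le_card hsub
  rw [hcard] at hle4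
  have i2 : Module.Finite K ↥(mulS l (KK l)) := by
    have : Module.Finite K ↥(KK l) := Submodule.finiteDimensional_of_le (KK_le l)
    unfold mulS; infer_instance
  have hd5 : finrank K ↥(mulS l (KK l)) = 5 := by rw [finrank_mulS l0, finrank_KK1 hl1 l0]
  have hd3 := finrank_mono hA3
  have hAeq : A K t 3 = mulS l (KK l) := Submodule.eq_of_le_of_finrank_le hA3 (by omega)
  have hoeq : out K t (A K t 3) = {c, a, b, u} := Finset.eq_of_subset_of_card_le hsub (by omega)
  have hnbr : ∀ x ∈ ({c, a, b} : Finset (Fin 9)), Adj K t 3 x := by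
    intro x hx
    have : x ∈ out K t (A K t 3) := by
      rw [hoeq]
      simp only [Finset.mem_insert, Finset.mem_singleton] at hx ⊢
      tauto
    rw [hoA3, mem_nb] at this
    exact this.2
  have hsub2 : ({c, a, b} : Finset (Fin 9)) ⊆ out K t (A K t 1 ⊔ V K t 3 ⊔ A K t 3) := by
    intro x hx
    rw [hout, mem_nb]
    refine ⟨?_, hnbr x hx⟩
    rw [h.oA]
    simp only [Finset.mem_insert, Finset.mem_singleton] at hx ⊢
    tauto
  have hcard3 : ({c, a, b} : Finset (Fin 9)).card = 3 := by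
    rw [Finset.card_insert_of_notMem, Finset.card_insert_of_notMem, Finset.card_singleton]
    · simpa using n10
    · simp only [Finset.mem_insert, Finset.mem_singleton, not_or]; exact ⟨n2, n3⟩
  have hle3 := Finset.card_le_card hsub2
  rw [hcard3] at hle3
  have c2 := fl.cl1 (sup_le hUle (fl.A_le 3)) (fl.llSupA hUle hUL hVU hU)
  have hmono : A K t 1 ⊔ mulS l (KK l) ≤ A K t 1 ⊔ V K t 3 ⊔ A K t 3 := by
    rw [← hAeq]
    exact sup_le (le_sup_left.trans le_sup_left) le_sup_right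
  have i3 : Module.Finite K ↥(A K t 1 ⊔ V K t 3 ⊔ A K t 3) :=
    Submodule.finiteDimensional_of_le ((sup_le hUle (fl.A_le 3)).trans cubics_le)
  have h7 := finrank_mono hmono
  have h77 := I31_dim h
  omega

end Pool.Agent.BR
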