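import Pool.Agent.Work.MP_be705b_al.I_Defs

/-!
# MP_be705b_al, type I: module I_32g

Graph lemma for I.3.2 (vertices `c g a b v`), by `cl4_bits`, `cl5_bits` and `decide`.  `x, y` are two different elements of `{g, a, b, v}`; the three alternatives are the conclusion of `tline`.
(Checked by brute force: no solution.)  Do the six cases for `{x, y}` (the hypothesis `hT` is symmetric under exchanging `x` and `y`; a helper lemma with `x < y` in the list is enough).
On paper: `v` has exactly one edge and one triangle (6-5, 6-5), so `v ~ a` with `a` a loop (or `b`).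
-/

set_option autoImplicit false
set_option linter.unusedSectionVars false
set_option linter.unusedVariables false

namespace Pool.Agent.BR

open MvPolynomial Submodule Module

variable {K : Type*} [Field K]

variable {t : Fin 9 → Pol K}

/-- the conclusion of `tline` -/
def ShapeT (t : Fin 9 → Pol K) (c x y : Fin 9) : Prop :=
  (¬ Adj K t x x ∧ ¬ Adj K t y y ∧ Adj K t c x ∧ Adj K t c y) ∨
    (Adj K t x x ∧ ¬ Adj K t y y ∧ ¬ Adj K t c x ∧ Adj K t c y ∧ ¬ Adj K t x y) ∨
    (Adj K t y y ∧ ¬ Adj K t x x ∧ ¬ Adj K t c y ∧ Adj K t c x ∧ ¬ Adj K t x y)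

private def shapeB (cx cy xx yy xy : Bool) : Bool :=
  (!xx && !yy && cx && cy) || (xx && !yy && !cx && cy && !xy) || (yy && !xx && !cy && cx && !xy)

private theorem shapeB_of {c x y : Fin 9} (hT : ShapeT t c x y) :
    shapeB (adjB K t c x) (adjB K t c y) (adjB K t x x) (adjB K t y y) (adjB K t x y) = true := by
  rcases hT with ⟨h1, h2, h3, h4⟩ | ⟨h1, h2, h3, h4, h5⟩ | ⟨h1, h2, h3, h4, h5⟩
  · rw [adjB_false.2 h1, adjB_false.2 h2, adjB_true.2 h3, adjB_true.2 h4]
    generalize adjB K t x y = z
    revert z; decide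
  · rw [adjB_true.2 h1, adjB_false.2 h2, adjB_false.2 h3, adjB_true.2 h4, adjB_false.2 h5]; decide
  · rw [adjB_true.2 h1, adjB_false.2 h2, adjB_false.2 h3, adjB_true.2 h4, adjB_false.2 h5]; decide

private theorem shapeB_symm (cx cy xx yy xy : Bool) :
    shapeB cx cy xx yy xy = shapeB cy cx yy xx xy := by
  revert cx cy xx yy xy; decide

private def chk (ca cb ga gb aa ab av bb bv : Bool) : Bool :=
  !((clB (sym4 true false ca cb false ga gb aa ab bb) 2 [0, 1, 2, 3]).beq 5 &&
    (clB (sym4 true false ca cb false ga gb aa ab bb) 3 [0, 1, 2, 3]).beq 5 &&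
    (clB (sym5 true false ca cb false false ga gb false aa ab av bb bv false) 2 [0, 1, 2, 3, 4]).beq 6 &&
    (clB (sym5 true false ca cb false false ga gb false aa ab av bb bv false) 3 [0, 1, 2, 3, 4]).beq 6) ||
  (!shapeB false ca false aa ga && !shapeB false cb false bb gb && !shapeB false false false false false &&
    !shapeB ca cb aa bb ab && !shapeB ca false aa false av && !shapeB cb false bb false bv)

private theorem chk_all : ∀ ca cb ga gb aa ab av bb bv : Bool,
    chk ca cb ga gb aa ab av bb bv = true := by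
  decide +kernel

/-- all the Boolean solutions of the four clique equations -/
private theorem bits32 (ca cb ga gb aa ab av bb bv : Bool)
    (e2 : clB (sym4 true false ca cb false ga gb aa ab bb) 2 [0, 1, 2, 3] = 5)
    (e3 : clB (sym4 true false ca cb false ga gb aa ab bb) 3 [0, 1, 2, 3] = 5)
    (f2 : clB (sym5 true false ca cb false false ga gb false aa ab av bb bv false) 2 [0, 1, 2, 3, 4] = 6)
    (f3 : clB (sym5 true false ca cb false false ga gb false aa ab av bb bv false) 3 [0, 1, 2, 3, 4] = 6) :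
    shapeB false ca false aa ga = false ∧ shapeB false cb false bb gb = false ∧
    shapeB false false false false false = false ∧ shapeB ca cb aa bb ab = false ∧
    shapeB ca false aa false av = false ∧ shapeB cb false bb false bv = false := by
  have h := chk_all ca cb ga gb aa ab av bb bv
  unfold chk at h
  rw [e2, e3, f2, f3] at h
  simpa [and_assoc] using h

theorem graph32 {c g a b v x y : Fin 9} (hnd : [c, g, a, b, v].Nodup) (cc : Adj K t c c)
    (cg : ¬ Adj K t c g) (cv : ¬ Adj K t c v) (gg : ¬ Adj K t g g) (gv : ¬ Adj K t g v) (vv : ¬ Adj K t v v)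
    (e2 : cl K t 2 {c, g, a, b} = 5) (e3 : cl K t 3 {c, g, a, b} = 5)
    (f2 : cl K t 2 {c, g, a, b, v} = 6) (f3 : cl K t 3 {c, g, a, b, v} = 6) (hx : x ∈ ({g, a, b, v} : Finset (Fin 9)))
    (hy : y ∈ ({g, a, b, v} : Finset (Fin 9))) (hxy : x ≠ y) (hT : ShapeT t c x y) : False := by
  simp only [List.nodup_cons, List.mem_cons, List.not_mem_nil, or_false, not_or, List.nodup_nil,
    not_false_eq_true, and_true] at hnd
  obtain ⟨⟨n1, n2, n3, n4⟩, ⟨n5, n6, n7⟩, ⟨n8, n9⟩, n10⟩ := hnd
  rw [cl4_bits n1 n2 n3 n5 n6 n8] at e2 e3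
  rw [cl5_bits n1 n2 n3 n4 n5 n6 n7 n8 n9 n10] at f2 f3
  rw [← adjB_false] at cg cv gg gv vv
  rw [← adjB_true] at cc
  rw [cc, cg, gg] at e2 e3
  rw [cc, cg, cv, gg, gv, vv] at f2 f3
  obtain ⟨s1, s2, s3, s4, s5, s6⟩ := bits32 _ _ _ _ _ _ _ _ _ e2 e3 f2 f3
  have hB := shapeB_of hT
  simp only [Finset.mem_insert, Finset.mem_singleton] at hx hy
  have key : ∀ {u w : Fin 9}, shapeB (adjB K t c u) (adjB K t c w) (adjB K t u u) (adjB K t w w)
      (adjB K t u w) = false → ¬ ((x = u ∧ y = w) ∨ (x = w ∧ y = u)) := by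
    rintro u w h0 (⟨rfl, rfl⟩ | ⟨rfl, rfl⟩)
    · rw [h0] at hB; exact absurd hB (by decide)
    · rw [shapeB_symm, adjB_symm x y, h0] at hB; exact absurd hB (by decide)
  have k1 := key (u := g) (w := a) (by rw [cg, gg]; exact s1)
  have k2 := key (u := g) (w := b) (by rw [cg, gg]; exact s2)
  have k3 := key (u := g) (w := v) (by rw [cg, gg, cv, vv, gv]; exact s3)
  have k4 := key (u := a) (w := b) s4
  have k5 := key (u := a) (w := v) (by rw [cv, vv]; exact s5)
  have k6 := key (u := b) (w := v) (by rw [cv, vv]; exact s6)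
  rcases hx with rfl | rfl | rfl | rfl <;> rcases hy with rfl | rfl | rfl | rfl <;> simp_all

end Pool.Agent.BR
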