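import Pool.Agent.Work.MP_be705b_al.I_TLine
import Pool.Agent.Work.MP_be705b_al.I_32g
import Pool.Agent.Work.MP_be705b_al.I_Con
import Pool.Agent.Work.MP_be705b_al.I_Base

set_option autoImplicit false
set_option linter.unusedSectionVars false
set_option linter.unusedVariables false

/-!
# MP_be705b_al, type I: module I_32

General conventions (see I_Defs, Fl, V2, Graph, Cube): `P = span K {q, q'}`, `W = cubics K`, vertices = `Fin 9`, `out U` = complement of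
the initial variables of `U`, `cl K t d S` = number of cliques with repetition, `nb K t j S` = neighbours of `j` in `S`,
`h.fl.outA j : out (A j) = nb j (out (V j))`, `h.fl.outSupA`, `Fl.exact`, `h.fl.cl1/cl2/cl3/cl4`.

I.3.2: `l ∤ t 3`, `t 3 ∈ A 1 ⊔ V 3`.
(1) `A 3 ≤ mulS l (KK l)` (as in I_31), `3` is a loop.  `3 ∈ out (V 3)`, `3 ∉ out (A 1 ⊔ V 3)` (`t 3 ∈ A 1 ⊔ V 3`), so `3 ∈ {u, v}`, `v` no loop: `3 = u`.
(2) `hu`: `m ∈ H 1`, `m(p) = 0`, `IsIn (q m) 3`: so `V 4 = V 3 ⊔ span {q m}` (`q m ∈ V 4`, `∉ V 3`), and `l ∤ m` (else `q m ∈ mulS l ..`, `q m = C r * (l q) ∈ V 1`).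
(3) `A 3 = mulS l (KK l)`: `t 3 = γ q m + v₃`; for `ε ∈ KK l`: `l ε q m ∈ mulS l (P * H 3) ≤ mulS l (Φ * W) = V 3 * W` (`h.PJ`), and `l ε v₃ ∈ V 3 * W`.  So `mulS l (KK l) ∈ LL` (`Fl.llA`),
    `U = mulS l (KK l) ⊔ V 4 = mulS l (KK l) ⊔ span {q m} ∈ LL` (`Fl.llSupV`; `V 3 ≤ mulS l (KK l)`), `dim U = 6`, `(out U).card = 3`, `c ∈ out U` (everything vanishes at `p`).
(4) `out (V 4) = {c, g, a, b, v}` (`out_sup_t`/`Fl.exact` with `U = V 3`, `j = 3`: erase `3 = u`), `out (A 3)`: card 4, `cl 2 = 28 - 21 = 7` (`KK l * W = H 5`): `cl 2 (out (V 4)) = 10 - 4 = 6`,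
    `cl 3 (out (V 4)) = 13 - 7 = 6`.
(5) `out U ⊆ out (V 4)`, `out U = {c, x, y}`; `tline` and `graph32`.
-/

namespace Pool.Agent.BR

open MvPolynomial Submodule Module

variable {K : Type*} [Field K]

variable {t : Fin 9 → Pol K} {l q q' κ : Pol K} {p : Fin 3 → K} {c g a b u v : Fin 9}

theorem T1C.i32 (h : T1C t l q q' κ p c g a b u v) (hl : ¬ l ∣ t 3) (hU : t 3 ∈ A K t 1 ⊔ V K t 3) :
    False := by
  have fl : Fl t := h.k.t1.fl
  have hl1 : l ∈ H K 1 := h.k.t1.hl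
  have l0 : l ≠ 0 := h.k.t1.l0
  have hpr : Prime l := prime_lin hl1 l0
  have lq : ¬ l ∣ q := h.k.t1.ndvd
  have hV3 := h.V3
  have hVW : V K t 3 * cubics K = mulS l (span K {q, q', κ} * cubics K) := by
    rw [hV3, mulS_mul]
  have dvd_of_mulS : ∀ {U : Submodule K (Pol K)} {w : Pol K}, w ∈ mulS l U → l ∣ w := by
    intro U w hw
    obtain ⟨x, -, rfl⟩ := mem_mulS.1 hw
    exact Dvd.intro x rfl
  -- (1)
  have hA3 : A K t 3 ≤ mulS l (KK l) := by
    intro w hw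
    obtain ⟨h1, h2⟩ := fl.mem_A.1 hw
    have h2' : w * t 3 ∈ mulS l (span K {q, q', κ} * cubics K) := by
      rw [← hVW]
      exact h2
    have h3 : l ∣ w := (hpr.dvd_or_dvd (dvd_of_mulS h2')).resolve_right hl
    obtain ⟨e, he, rfl⟩ := exists_quot (a := 1) (b := 2) hl1 l0 (cubics_le h1) h3
    exact mul_mem_mulS ((mem_KK' hl1).2 ⟨he, h1⟩)
  have hloop : Adj K t 3 3 := (fl.loop_iff 3).2 fun h3 => hl (dvd_of_mulS (hA3 h3))
  have h3o : (3 : Fin 9) ∈ out K t (V K t 3) := mem_out_of le_rfl (t_notMem fl.li 3)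
  have h3n : (3 : Fin 9) ∉ out K t (A K t 1 ⊔ V K t 3) := notMem_out.2 (inn_of_t_mem hU)
  rw [h.o3] at h3o
  rw [h.oA] at h3n
  simp only [Finset.mem_insert, Finset.mem_singleton, not_or] at h3o h3n
  have h3u : (3 : Fin 9) = u := by
    rcases h3o with h1 | h1 | h1 | h1 | h1 | h1
    · exact absurd h1 h3n.1
    · exact absurd h1 h3n.2.1
    · exact absurd h1 h3n.2.2.1
    · exact absurd h1 h3n.2.2.2
    · exact h1
    · exact absurd (h1 ▸ hloop) h.vv
  -- (2)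
  obtain ⟨m, hm, mp, hqm⟩ := h.hu
  rw [← h3u] at hqm
  obtain ⟨hq4, hq3⟩ := hqm
  have hq4' : q * m ∈ V K t (((3 : Fin 9) : ℕ) + 1) := hq4
  have hq3' : q * m ∉ V K t 3 := hq3
  obtain ⟨γ, v', hv', hqe⟩ := mem_V_succ.1 hq4'
  have hv'3 : v' ∈ V K t 3 := hv'
  have hγ : γ ≠ 0 := by
    rintro rfl
    rw [zero_smul, zero_add] at hqe
    exact hq3' (hqe ▸ hv'3)
  have ht3 : t 3 = γ⁻¹ • (q * m) - γ⁻¹ • v' := by
    rw [← smul_sub, hqe, add_sub_cancel_right, smul_smul, inv_mul_cancel₀ hγ, one_smul]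
  have lm : ¬ l ∣ m := by
    intro hd
    obtain ⟨r, rfl⟩ := dvd_lin hl1 hm l0 hd
    apply hq3'
    have e1 : q * (C r * l) = r • t 0 := by
      rw [h.k.t1.t0, MvPolynomial.smul_eq_C_mul]
      ring
    rw [e1]
    exact Submodule.smul_mem _ _ (t_mem (by decide))
  -- (3)
  have hA3' : mulS l (KK l) ≤ A K t 3 := by
    intro w hw
    obtain ⟨e, he, rfl⟩ := mem_mulS.1 hw
    have hc : l * e ∈ cubics K := mul_KK_mem hl1 he
    refine fl.mem_A.2 ⟨hc, ?_⟩
    show l * e * t 3 ∈ V K t 3 * cubics K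
    have e1 : l * e * t 3 = γ⁻¹ • (l * (q * (e * m))) - γ⁻¹ • (v' * (l * e)) := by
      rw [ht3, mul_sub, mul_smul_comm, mul_smul_comm]
      congr 2 <;> ring
    rw [e1]
    refine Submodule.sub_mem _ (Submodule.smul_mem _ _ ?_) (Submodule.smul_mem _ _ ?_)
    · rw [hVW]
      refine mul_mem_mulS (h.PJ (Submodule.mul_mem_mul (subset_span (by simp)) ?_))
      exact mul_mem_H (a := 2) (b := 1) (KK_le l he) hm
    · exact Submodule.mul_mem_mul hv'3 hc
  have hAe : A K t 3 = mulS l (KK l) := le_antisymm hA3 hA3'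
  have hV3K : V K t 3 ≤ mulS l (KK l) := by
    rw [← hAe]
    exact V_le_A (3 : Fin 9)
  have hKc : mulS l (KK l) ≤ cubics K := by
    rw [← hAe]
    exact fl.A_le 3
  have hKL : LL K t (mulS l (KK l)) := by
    rw [← hAe]
    exact fl.llA 3
  have hUe : mulS l (KK l) ⊔ V K t 4 = mulS l (KK l) ⊔ span K {q * m} := by
    apply le_antisymm
    · refine sup_le le_sup_left ?_
      have e4 : V K t 4 = V K t 3 ⊔ span K {t 3} := V_succ (3 : Fin 9)
      rw [e4]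
      refine sup_le (hV3K.trans le_sup_left) ?_
      rw [span_singleton_le_iff_mem, ht3]
      refine Submodule.sub_mem _ (Submodule.smul_mem _ _ ?_) (Submodule.smul_mem _ _ ?_)
      · exact mem_sup_right (mem_span_singleton_self _)
      · exact mem_sup_left (hV3K hv'3)
    · refine sup_le le_sup_left ?_
      rw [span_singleton_le_iff_mem]
      exact mem_sup_right hq4
  have hUL : LL K t (mulS l (KK l) ⊔ span K {q * m}) := by
    rw [← hUe]
    exact fl.llSupV hKc hKL 4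
  have hqmc : q * m ∈ cubics K := fl.V_le 4 hq4
  have hUc : mulS l (KK l) ⊔ span K {q * m} ≤ cubics K :=
    sup_le hKc ((span_singleton_le_iff_mem _ _).2 hqmc)
  obtain ⟨d1, -, -⟩ := tline_dim hl1 l0 h.k.t1.hq hm lq lm
  have hcard : (out K t (mulS l (KK l) ⊔ span K {q * m})).card = 3 := by
    have := fl.cl1 hUc hUL
    omega
  have hcU : c ∈ out K t (mulS l (KK l) ⊔ span K {q * m}) := by
    refine h.cC.mem_out ?_
    intro w hw
    obtain ⟨x, hx, y, hy, rfl⟩ := mem_sup.1 hw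
    obtain ⟨e, -, rfl⟩ := mem_mulS.1 hx
    obtain ⟨r, rfl⟩ := mem_span_singleton.1 hy
    rw [map_add, map_mul, h.lp, zero_mul, MvPolynomial.smul_eval, map_mul, h.qp, zero_mul, mul_zero,
      add_zero]
  -- (4)
  have hnd := h.nd
  have ho4 : out K t (V K t 4) = {c, g, a, b, v} := by
    have e4 : V K t 4 = V K t 3 ⊔ span K {t 3} := V_succ (3 : Fin 9)
    have e5 : out K t (V K t 3 ⊔ span K {t 3}) = (out K t (V K t 3)).erase 3 :=
      out_sup_t fl.li (j := (3 : Fin 9)) (U := V K t 3) le_rfl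
    rw [e4, e5, h.o3, h3u]
    simp only [List.nodup_cons, List.mem_cons, List.not_mem_nil, or_false, not_or] at hnd
    ext i
    simp only [Finset.mem_erase, Finset.mem_insert, Finset.mem_singleton]
    constructor
    · rintro ⟨h1, h2 | h2 | h2 | h2 | h2 | h2⟩
      · exact Or.inl h2
      · exact Or.inr (Or.inl h2)
      · exact Or.inr (Or.inr (Or.inl h2))
      · exact Or.inr (Or.inr (Or.inr (Or.inl h2)))
      · exact absurd h2 h1
      · exact Or.inr (Or.inr (Or.inr (Or.inr h2)))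
    · rintro (rfl | rfl | rfl | rfl | rfl)
      · exact ⟨hnd.1.2.2.2.1, Or.inl rfl⟩
      · exact ⟨hnd.2.1.2.2.1, Or.inr (Or.inl rfl)⟩
      · exact ⟨hnd.2.2.1.2.1, Or.inr (Or.inr (Or.inl rfl))⟩
      · exact ⟨hnd.2.2.2.1.1, Or.inr (Or.inr (Or.inr (Or.inl rfl)))⟩
      · exact ⟨fun h1 => hnd.2.2.2.2.1 h1.symm, Or.inr (Or.inr (Or.inr (Or.inr (Or.inr rfl))))⟩
  have hκN : κ ∉ N K := by
    intro hN
    exact h.k.p0 (by rw [← h.k.hp, hat_of_N hN])
  have hKW : KK l * cubics K = H K 5 := mul_cubics_eq (N_le_KK hl1) (KK_le l) h.k.hκ hκN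
  have a1 : cl K t 1 (out K t (A K t 3)) = 4 := by
    have h1 := fl.cl1 (fl.A_le 3) (fl.llA 3)
    rw [hAe, finrank_mulS l0, finrank_KK1 hl1 l0] at h1
    rw [cl_one, hAe]
    omega
  have a2 : cl K t 2 (out K t (A K t 3)) = 7 := by
    have h1 := fl.cl2 (fl.A_le 3) (fl.llA 3)
    rw [hAe, mulS_mul, finrank_mulS l0, hKW, finrank_H5] at h1
    rw [hAe]
    omega
  have hs1 : V K t 3 ⊔ A K t 3 = A K t 3 := sup_eq_right.2 (V_le_A (3 : Fin 9))
  have hs2 : V K t 3 ⊔ V K t (((3 : Fin 9) : ℕ) + 1) = V K t 4 := sup_eq_right.2 (V_mono (by decide))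
  have ex1 := fl.exact (fl.V_le 3) (fl.llV 3) (j := (3 : Fin 9)) le_rfl (t_notMem fl.li 3) 1
  have ex2 := fl.exact (fl.V_le 3) (fl.llV 3) (j := (3 : Fin 9)) le_rfl (t_notMem fl.li 3) 2
  rw [hs1, hs2, a1, h.o3, h.f2, ho4] at ex1
  rw [hs1, hs2, a2, h.o3, h.f3, ho4] at ex2
  have ex1' : 10 = 4 + cl K t 2 {c, g, a, b, v} := ex1
  have ex2' : 13 = 7 + cl K t 3 {c, g, a, b, v} := ex2
  have f2 : cl K t 2 {c, g, a, b, v} = 6 := by omega
  have f3 : cl K t 3 {c, g, a, b, v} = 6 := by omega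
  -- (5)
  have hsub : out K t (mulS l (KK l) ⊔ span K {q * m}) ⊆ {c, g, a, b, v} := by
    rw [← ho4, ← hUe]
    exact out_mono le_sup_right
  obtain ⟨x, y, hxy, hxye⟩ : ∃ x y, x ≠ y ∧
      (out K t (mulS l (KK l) ⊔ span K {q * m})).erase c = {x, y} := by
    apply Finset.card_eq_two.1
    rw [Finset.card_erase_of_mem hcU, hcard]
  have hx1 : x ∈ (out K t (mulS l (KK l) ⊔ span K {q * m})).erase c := by rw [hxye]; simp
  have hy1 : y ∈ (out K t (mulS l (KK l) ⊔ span K {q * m})).erase c := by rw [hxye]; simp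
  have hox : out K t (mulS l (KK l) ⊔ span K {q * m}) = {c, x, y} := by
    rw [← Finset.insert_erase hcU, hxye]
  have hcx : c ≠ x := fun e => (Finset.mem_erase.1 hx1).1 e.symm
  have hcy : c ≠ y := fun e => (Finset.mem_erase.1 hy1).1 e.symm
  have hT := tline fl hl1 l0 h.k.t1.hq hm lq lm h.k.p0 h.lp h.qp mp hUL h.cC hox hcx hcy hxy
  have mem4 : ∀ z ∈ (out K t (mulS l (KK l) ⊔ span K {q * m})).erase c,
      z ∈ ({g, a, b, v} : Finset (Fin 9)) := by
    intro z hz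
    obtain ⟨h1, h2⟩ := Finset.mem_erase.1 hz
    exact (Finset.mem_insert.1 (hsub h2)).resolve_left h1
  refine graph32 (c := c) (g := g) (a := a) (b := b) (v := v) ?_ h.cc h.cg h.cv h.gg h.gv h.vv h.e2
    h.e3 f2 f3 (mem4 x hx1) (mem4 y hy1) hxy hT
  simp only [List.nodup_cons, List.mem_cons, List.not_mem_nil, or_false, not_or] at hnd ⊢
  tauto

end Pool.Agent.BR
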