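import Pool.Agent.Work.MP_be705b_al.I_Con
import Pool.Agent.Work.MP_be705b_al.I_Pair
import Pool.Agent.Work.MP_be705b_al.I_Base
import Pool.Agent.Work.MP_be705b_al.I_CStar

set_option autoImplicit false
set_option linter.unusedSectionVars false
set_option linter.unusedVariables false

/-!
# MP_be705b_al, type I: module I_33a

General conventions (see I_Defs, Fl, V2, Graph, Cube): `P = span K {q, q'}`, `W = cubics K`, vertices = `Fin 9`, `out U` = complement of
the initial variables of `U`, `cl K t d S` = number of cliques with repetition, `nb K t j S` = neighbours of `j` in `S`,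
`h.fl.outA j : out (A j) = nb j (out (V j))`, `h.fl.outSupA`, `Fl.exact`, `h.fl.cl1/cl2/cl3/cl4`.

I.3.3 (1a): `t 3 = l κ'`, `κ' ∈ KK l`, `hat κ' = r p`.  Then `κ' - r κ ∈ N`, so `V 4 = V 3 ⊔ span {t 3} = mulS l F` with `F = span {q, q', κ, κ'} = N ⊔ span {κ}` (dimension 4: `κ' - r κ ∈ N` is not in `P` since `t 3 ∉ V 3`).
`F * W = H 5` (`mul_cubics_eq`), `F * H 6 = H 8`: `out (V 4)`: `5, 28 - 21 = 7, 55 - 45 = 10`.
`A 1 ≤ A 3`: `(q m)(l κ') ∈ mulS l (P * H 3) ≤ V 3 * W` (`h.PJ`).  So `out (A 3) = nb 3 (out (V 3)) ⊆ out (A 1 ⊔ V 3) = {c, g, a, b}`.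
`Fl.exact` with `U = V 3`, `j = 3`: `(out (A 3)).card = 10 - 7 = 3`, `cl 2 (out (A 3)) = 13 - 10 = 3`.
`3 ∈ out (A 1 ⊔ V 3)`: `t 3 = l κ' ∉ A 1 ⊔ V 3` (an element `q m + l φ` divisible by `l` has `l ∣ m`, so it is in `mulS l Φ = V 3`).  `3 ≠ c` (`t 3` vanishes at `p`).  So `3 ∈ {g, a, b}`.
Graph lemma `graph33a` (vertices `c g a b u v`, `s = 3`, `s ∈ {g, a, b}`): brute force: no solution.  Reduce first: the 3-element set `Nb = nb 3 {c,g,a,b}`; one gets `3 = a` (or `b`), `Nb = {g, a, b}`, `b` no loop, `g ≁ b`, `c ≁ a`, `c ~ b`;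
then `out (V 4) = {c, g, b, u, v}` has `cl 2 = 7`, `cl 3 = 10`: impossible (on paper: the edges at `u, v`: candidates `u², uv, uc, ug, ub, vb`, exactly 5 of them, 8 triangles; all six give 8 triangles).
-/

namespace Pool.Agent.BR

open MvPolynomial Submodule Module

variable {K : Type*} [Field K]

variable {t : Fin 9 → Pol K} {l q q' κ : Pol K} {p : Fin 3 → K} {c g a b u v : Fin 9}

private theorem nb_refl {n m : ℕ} {t : Fin n → Pol K} {φ : Fin m → Fin n} (hφ : Function.Injective φ)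
    {A : Fin m → Fin m → Bool} (hA : ∀ i j, A i j = true ↔ Adj K t (φ i) (φ j)) (d : ℕ) (l : List (Fin m))
    (hl : l.Nodup) (i : Fin m) : cl K t d (nb K t (φ i) (l.map φ).toFinset) = clB A d (l.filter (A i)) := by
  rw [← cl_refl hφ hA d _ (hl.filter _)]
  congr 1
  ext x
  rw [mem_nb]
  simp only [List.mem_toFinset, List.mem_map, List.mem_filter]
  constructor
  · rintro ⟨⟨y, hy, rfl⟩, h⟩
    exact ⟨y, ⟨hy, (hA _ _).2 h⟩, rfl⟩
  · rintro ⟨y, ⟨hy, h⟩, rfl⟩
    exact ⟨⟨y, hy, rfl⟩, (hA _ _).1 h⟩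

private theorem nb4_bits {n : ℕ} {t : Fin n → Pol K} {a b c d : Fin n} (h1 : a ≠ b) (h2 : a ≠ c) (h3 : a ≠ d)
    (h4 : b ≠ c) (h5 : b ≠ d) (h6 : c ≠ d) (k : ℕ) (i : Fin 4) :
    cl K t k (nb K t (![a, b, c, d] i) {a, b, c, d}) =
      clB (sym4 (adjB K t a a) (adjB K t a b) (adjB K t a c) (adjB K t a d)
      (adjB K t b b) (adjB K t b c) (adjB K t b d) (adjB K t c c) (adjB K t c d) (adjB K t d d))
      k ([0, 1, 2, 3].filter ((sym4 (adjB K t a a) (adjB K t a b) (adjB K t a c) (adjB K t a d)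
      (adjB K t b b) (adjB K t b c) (adjB K t b d) (adjB K t c c) (adjB K t c d) (adjB K t d d)) i)) := by
  have hφ : Function.Injective ![a, b, c, d] := by
    intro i j
    fin_cases i <;> fin_cases j <;>
      simp [h1, h1.symm, h2, h2.symm, h3, h3.symm, h4, h4.symm, h5, h5.symm, h6, h6.symm]
  rw [← nb_refl (K := K) (t := t) hφ (A := sym4 (adjB K t a a) (adjB K t a b) (adjB K t a c) (adjB K t a d)
      (adjB K t b b) (adjB K t b c) (adjB K t b d) (adjB K t c c) (adjB K t c d) (adjB K t d d))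
      ?_ k [0, 1, 2, 3] (by decide)]
  · simp
  · intro i j
    fin_cases i <;> fin_cases j <;> simp [sym4, adjB, adj_comm]

/-- first part: the shape of `{c, g, a, b}` -/
theorem graph33a1 {c g a b s : Fin 9} (hnd : [c, g, a, b].Nodup) (cc : Adj K t c c)
    (cg : ¬ Adj K t c g) (gg : ¬ Adj K t g g)
    (e2 : cl K t 2 {c, g, a, b} = 5) (e3 : cl K t 3 {c, g, a, b} = 5) (e4 : cl K t 4 {c, g, a, b} = 5)
    (hs : s ∈ ({g, a, b} : Finset (Fin 9))) (n1 : (nb K t s {c, g, a, b}).card = 3)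
    (n2 : cl K t 2 (nb K t s {c, g, a, b}) = 3) :
    (s = a ∧ ¬ Adj K t b b ∧ ¬ Adj K t g b ∧ Adj K t c b) ∨ (s = b ∧ ¬ Adj K t a a ∧ ¬ Adj K t g a ∧ Adj K t c a) := by
  simp only [List.nodup_cons, List.mem_cons, List.not_mem_nil, or_false, not_or, List.nodup_nil, and_true,
    not_false_eq_true] at hnd
  obtain ⟨⟨h1, h2, h3⟩, ⟨h4, h5⟩, h6⟩ := hnd
  rw [← cl_one (K := K) (t := t)] at n1
  rw [cl4_bits h1 h2 h3 h4 h5 h6] at e2 e3 e4
  rw [← adjB_true] at cc
  rw [← adjB_false] at cg gg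
  simp only [Finset.mem_insert, Finset.mem_singleton] at hs
  rcases hs with rfl | rfl | rfl
  · exfalso
    have m1 := nb4_bits (K := K) (t := t) h1 h2 h3 h4 h5 h6 1 1
    have m2 := nb4_bits (K := K) (t := t) h1 h2 h3 h4 h5 h6 2 1
    simp only [Matrix.cons_val_one, Matrix.cons_val_zero] at m1 m2
    rw [n1] at m1
    rw [n2] at m2
    rw [cc, cg, gg] at e2 e3 e4 m1 m2
    generalize adjB K t c a = x1 at *
    generalize adjB K t c b = x2 at *
    generalize adjB K t s a = x3 at *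
    generalize adjB K t s b = x4 at *
    generalize adjB K t a a = x5 at *
    generalize adjB K t a b = x6 at *
    generalize adjB K t b b = x7 at *
    clear n1 n2 cc cg gg
    revert x1 x2 x3 x4 x5 x6 x7
    decide
  · left
    have m1 := nb4_bits (K := K) (t := t) h1 h2 h3 h4 h5 h6 1 2
    have m2 := nb4_bits (K := K) (t := t) h1 h2 h3 h4 h5 h6 2 2
    simp only [Matrix.cons_val] at m1 m2
    rw [n1] at m1
    rw [n2] at m2
    rw [cc, cg, gg] at e2 e3 e4 m1 m2
    refine ⟨rfl, ?_⟩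
    rw [← adjB_false, ← adjB_false, ← adjB_true]
    generalize adjB K t c s = x1 at *
    generalize adjB K t c b = x2 at *
    generalize adjB K t g s = x3 at *
    generalize adjB K t g b = x4 at *
    generalize adjB K t s s = x5 at *
    generalize adjB K t s b = x6 at *
    generalize adjB K t b b = x7 at *
    clear n1 n2 cc cg gg
    revert x1 x2 x3 x4 x5 x6 x7
    decide
  · right
    have m1 := nb4_bits (K := K) (t := t) h1 h2 h3 h4 h5 h6 1 3
    have m2 := nb4_bits (K := K) (t := t) h1 h2 h3 h4 h5 h6 2 3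
    simp only [Matrix.cons_val] at m1 m2
    rw [n1] at m1
    rw [n2] at m2
    rw [cc, cg, gg] at e2 e3 e4 m1 m2
    refine ⟨rfl, ?_⟩
    rw [← adjB_false, ← adjB_false, ← adjB_true]
    generalize adjB K t c a = x1 at *
    generalize adjB K t c s = x2 at *
    generalize adjB K t g a = x3 at *
    generalize adjB K t g s = x4 at *
    generalize adjB K t a a = x5 at *
    generalize adjB K t a s = x6 at *
    generalize adjB K t s s = x7 at *
    clear n1 n2 cc cg gg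
    revert x1 x2 x3 x4 x5 x6 x7
    decide

/-- second part -/
theorem graph33a2 {c g b u v : Fin 9} (hnd : [c, g, b, u, v].Nodup) (cc : Adj K t c c)
    (cg : ¬ Adj K t c g) (gg : ¬ Adj K t g g) (cv : ¬ Adj K t c v) (gv : ¬ Adj K t g v) (vv : ¬ Adj K t v v)
    (bb : ¬ Adj K t b b) (gb : ¬ Adj K t g b) (cb : Adj K t c b)
    (f2 : cl K t 2 {c, g, b, u, v} = 7) (f3 : cl K t 3 {c, g, b, u, v} = 10) : False := by
  simp only [List.nodup_cons, List.mem_cons, List.not_mem_nil, or_false, not_or, List.nodup_nil, and_true,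
    not_false_eq_true] at hnd
  obtain ⟨⟨h1, h2, h3, h4⟩, ⟨h5, h6, h7⟩, ⟨h8, h9⟩, h10⟩ := hnd
  rw [cl5_bits h1 h2 h3 h4 h5 h6 h7 h8 h9 h10] at f2 f3
  rw [← adjB_true] at cc cb
  rw [← adjB_false] at cg gg cv gv vv bb gb
  rw [cc, cb, cg, gg, cv, gv, vv, bb, gb] at f2 f3
  generalize adjB K t c u = x1 at *
  generalize adjB K t g u = x2 at *
  generalize adjB K t b u = x3 at *
  generalize adjB K t b v = x4 at *
  generalize adjB K t u u = x5 at *
  generalize adjB K t u v = x6 at *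
  clear cc cb cg gg cv gv vv bb gb
  revert x1 x2 x3 x4 x5 x6
  decide

private theorem val3 : ((3 : Fin 9) : ℕ) = 3 := rfl

private theorem V_four (t : Fin 9 → Pol K) : V K t 4 = V K t 3 ⊔ span K {t 3} := by
  have h := V_succ (K := K) (t := t) 3
  rw [val3] at h
  exact h

private theorem erase_aux {c g a b u v : Fin 9} (h1 : c ≠ a) (h2 : g ≠ a) (h3 : a ≠ b) (h4 : a ≠ u) (h5 : a ≠ v) :
    ({c, g, a, b, u, v} : Finset (Fin 9)).erase a = {c, g, b, u, v} := by
  ext i
  simp only [Finset.mem_erase, Finset.mem_insert, Finset.mem_singleton]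
  constructor
  · rintro ⟨h, h'⟩
    rcases h' with rfl | rfl | rfl | rfl | rfl | rfl
    · simp
    · simp
    · exact absurd rfl h
    · simp
    · simp
    · simp
  · rintro (rfl | rfl | rfl | rfl | rfl)
    · exact ⟨h1, by simp⟩
    · exact ⟨h2, by simp⟩
    · exact ⟨h3.symm, by simp⟩
    · exact ⟨h4.symm, by simp⟩
    · exact ⟨h5.symm, by simp⟩

private theorem erase_aux' {c g a b u v : Fin 9} (h1 : c ≠ b) (h2 : g ≠ b) (h3 : a ≠ b) (h4 : b ≠ u) (h5 : b ≠ v) :
    ({c, g, a, b, u, v} : Finset (Fin 9)).erase b = {c, g, a, u, v} := by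
  ext i
  simp only [Finset.mem_erase, Finset.mem_insert, Finset.mem_singleton]
  constructor
  · rintro ⟨h, h'⟩
    rcases h' with rfl | rfl | rfl | rfl | rfl | rfl
    · simp
    · simp
    · simp
    · exact absurd rfl h
    · simp
    · simp
  · rintro (rfl | rfl | rfl | rfl | rfl)
    · exact ⟨h1, by simp⟩
    · exact ⟨h2, by simp⟩
    · exact ⟨h3, by simp⟩
    · exact ⟨h4.symm, by simp⟩
    · exact ⟨h5.symm, by simp⟩

theorem T1C.i33a (h : T1C t l q q' κ p c g a b u v) {κ' : Pol K} (hκ' : κ' ∈ KK l) (ht : t 3 = l * κ') {r : K}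
    (hr : hat κ' = r • p) : False := by
  have hT := h.k.t1
  have hfl := hT.fl
  have hl0 := hT.l0
  have hκ2 : κ ∈ H K 2 := KK_le l h.k.hκ
  have hκ2' : κ' ∈ H K 2 := KK_le l hκ'
  have hκN : κ ∉ N K := by
    intro hmem
    exact h.k.p0 (by rw [← h.k.hp, hat_of_N hmem])
  -- `κ' - r κ ∈ N`, not in `P`
  have hδN : κ' - r • κ ∈ N K := by
    rw [mem_N]
    refine ⟨sub_mem hκ2' (smul_mem _ _ hκ2), ?_⟩
    rw [hat_sub, hat_smul, hr, h.k.hp, sub_self]
  have hsub : span K {q, q'} ≤ span K {q, q', κ} := span_mono (by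
    intro x hx
    rcases hx with rfl | rfl
    · simp
    · simp)
  have ht3 : t 3 ∉ V K t 3 := t_notMem hfl.li 3
  have hδP : κ' - r • κ ∉ span K {q, q'} := by
    intro hmem
    apply ht3
    rw [h.V3, ht]
    refine mul_mem_mulS ?_
    have h1 := add_mem (hsub hmem) (smul_mem (span K {q, q', κ}) r (subset_span (by simp : κ ∈ ({q, q', κ} : Set (Pol K)))))
    rwa [sub_add_cancel] at h1
  -- the space `F`
  set F : Submodule K (Pol K) := span K {q, q', κ} ⊔ span K {κ'} with hF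
  have hκF : κ ∈ F := mem_sup_left (subset_span (by simp))
  have hV4 : V K t 4 = mulS l F := by
    rw [V_four, h.V3, ht, hF, mulS_sup]
    congr 1
    rw [mulS, Submodule.map_span, Set.image_singleton]
    rfl
  have hNF : N K ≤ F := by
    obtain ⟨κ0, hκ0, hκ0P, hN⟩ := exists_N_notMem hT.hq hT.hq' hT.rel
    have h1 := hδN
    rw [hN] at h1
    obtain ⟨π, hπ, σ, hσ, he⟩ := mem_sup.1 h1
    obtain ⟨s, rfl⟩ := mem_span_singleton.1 hσ
    have hs : s ≠ 0 := by
      rintro rfl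
      apply hδP
      rw [← he, zero_smul, add_zero]
      exact hπ
    rw [hN]
    refine sup_le (hsub.trans le_sup_left) ?_
    rw [span_singleton_le_iff_mem]
    have h2 : κ0 = s⁻¹ • ((κ' - r • κ) - π) := by
      rw [← he, add_sub_cancel_left, smul_smul, inv_mul_cancel₀ hs, one_smul]
    rw [h2]
    refine smul_mem _ _ (sub_mem (sub_mem (mem_sup_right (mem_span_singleton_self _)) (smul_mem _ _ hκF)) ?_)
    exact mem_sup_left (hsub hπ)
  have hFH : F ≤ H K 2 := by
    refine sup_le ?_ ?_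
    · rw [span_le]
      rintro x (rfl | rfl | rfl)
      · exact N_le hT.hq
      · exact N_le hT.hq'
      · exact hκ2
    · rw [span_singleton_le_iff_mem]
      exact hκ2'
  have hFW : F * cubics K = H K 5 := mul_cubics_eq hNF hFH hκF hκN
  have hF6 : F * H K 6 = H K 8 := by
    rw [← cubics_mul_cubics, ← mul_assoc, hFW, H_mul_cubics 4]
  -- counts for `V 4`
  have c2 := hfl.cl2 (hfl.V_le 4) (hfl.llV 4)
  have c3 := hfl.cl3 (hfl.V_le 4) (hfl.llV 4)
  rw [hV4, mulS_mul, hFW, finrank_mulS hl0, finrank_H5, ← hV4] at c2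
  rw [hV4, mulS_mul, hF6, finrank_mulS hl0, finrank_H8, ← hV4] at c3
  -- `A 3`
  have hA13 : A K t 1 ≤ A K t 3 := by
    intro w hw
    rw [hT.A1] at hw
    obtain ⟨m, hm, rfl⟩ := mem_mulS.1 hw
    rw [hfl.mem_A, val3, h.V3, mulS_mul, ht]
    refine ⟨?_, ?_⟩
    · rw [← N_mul_H1]
      exact mul_mem_mul hT.hq hm
    · have h1 : q * m * (l * κ') = l * (q * (m * κ')) := by ring
      rw [h1]
      refine mul_mem_mulS (h.PJ (mul_mem_mul (subset_span (by simp)) ?_))
      exact mul_mem_H hm hκ2'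
  have hV3A : V K t 3 ≤ A K t 3 := V_le_A 3
  have x2 : cl K t 2 (out K t (V K t 3)) = cl K t 1 (out K t (V K t 3 ⊔ A K t 3)) +
      cl K t 2 (out K t (V K t 3 ⊔ V K t ((3 : Fin 9) + 1 : ℕ))) :=
    Fl.exact hfl (hfl.V_le 3) (hfl.llV 3) (j := 3) le_rfl ht3 1
  have x3 : cl K t 3 (out K t (V K t 3)) = cl K t 2 (out K t (V K t 3 ⊔ A K t 3)) +
      cl K t 3 (out K t (V K t 3 ⊔ V K t ((3 : Fin 9) + 1 : ℕ))) :=
    Fl.exact hfl (hfl.V_le 3) (hfl.llV 3) (j := 3) le_rfl ht3 2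
  have y1 : V K t 3 ⊔ V K t ((3 : Fin 9) + 1 : ℕ) = V K t 4 := by
    rw [val3]
    exact sup_eq_right.2 (V_mono (by norm_num))
  rw [sup_eq_right.2 hV3A, y1, h.o3, h.f2] at x2
  rw [sup_eq_right.2 hV3A, y1, h.o3, h.f3] at x3
  have hout : out K t (A K t 3) = nb K t 3 {c, g, a, b} := by
    apply Finset.Subset.antisymm
    · intro i hi
      have h1 : i ∈ out K t (A K t 1 ⊔ V K t 3) := out_mono (sup_le hA13 hV3A) hi
      rw [h.oA] at h1
      rw [hfl.outA, mem_nb] at hi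
      exact mem_nb.2 ⟨h1, hi.2⟩
    · intro i hi
      rw [mem_nb] at hi
      rw [hfl.outA, mem_nb, val3, h.o3]
      refine ⟨?_, hi.2⟩
      have h1 := hi.1
      simp only [Finset.mem_insert, Finset.mem_singleton] at h1 ⊢
      tauto
  rw [hout] at x2 x3
  have n1 : (nb K t 3 {c, g, a, b}).card = 3 := by
    rw [cl_one] at x2
    omega
  have n2 : cl K t 2 (nb K t 3 {c, g, a, b}) = 3 := by omega
  -- `3 ∈ {g, a, b}`
  have h3U : t 3 ∉ A K t 1 ⊔ V K t 3 := by
    intro hmem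
    obtain ⟨x, hx, y, hy, he⟩ := mem_sup.1 hmem
    apply ht3
    rw [← he]
    refine add_mem ?_ hy
    have h1 : l ∣ y := by
      rw [h.V3] at hy
      obtain ⟨z, _, rfl⟩ := mem_mulS.1 hy
      exact dvd_mul_right _ _
    have h2 : l ∣ x := by
      have h3 : x = t 3 - y := by rw [← he, add_sub_cancel_right]
      rw [h3, ht]
      exact dvd_sub (dvd_mul_right _ _) h1
    exact V_mono (by norm_num) (hT.mem_V2_of_dvd (mem_sup_left hx) h2)
  have h3o : (3 : Fin 9) ∈ out K t (A K t 1 ⊔ V K t 3) := mem_out_of le_sup_right h3U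
  have h3c : c ≠ 3 := h.cC.ne_of_eval (by rw [ht, map_mul, h.lp, zero_mul])
  have hs : (3 : Fin 9) ∈ ({g, a, b} : Finset (Fin 9)) := by
    rw [h.oA] at h3o
    simp only [Finset.mem_insert, Finset.mem_singleton] at h3o ⊢
    rcases h3o with h3o | h3o
    · exact absurd h3o.symm h3c
    · exact h3o
  have hnd := h.nd
  have hnd4 : [c, g, a, b].Nodup := hnd.sublist (by
    exact (List.sublist_append_left [c, g, a, b] [u, v]))
  have hV4e : out K t (V K t 4) = ({c, g, a, b, u, v} : Finset (Fin 9)).erase 3 := by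
    have h1 : out K t (V K t 3 ⊔ span K {t 3}) = (out K t (V K t 3)).erase 3 :=
      out_sup_t hfl.li (j := 3) le_rfl
    rw [V_four, h1, h.o3]
  simp only [List.nodup_cons, List.mem_cons, List.not_mem_nil, or_false, not_or, List.nodup_nil, and_true,
    not_false_eq_true] at hnd
  obtain ⟨⟨d1, d2, d3, d4, d5⟩, ⟨d6, d7, d8, d9⟩, ⟨d10, d11, d12⟩, ⟨d13, d14⟩, d15⟩ := hnd
  rcases graph33a1 hnd4 h.cc h.cg h.gg h.e2 h.e3 h.e4 hs n1 n2 with ⟨e, k1, k2, k3⟩ | ⟨e, k1, k2, k3⟩
  · have hset : ({c, g, a, b, u, v} : Finset (Fin 9)).erase 3 = {c, g, b, u, v} := by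
      rw [e]
      exact erase_aux d2 d6 d10 d11 d12
    rw [hV4e, hset] at c2 c3
    refine graph33a2 (c := c) (g := g) (b := b) (u := u) (v := v) ?_ h.cc h.cg h.gg h.cv h.gv h.vv k1 k2 k3
      (by omega) (by omega)
    simp only [List.nodup_cons, List.mem_cons, List.not_mem_nil, or_false, not_or, List.nodup_nil, and_true,
      not_false_eq_true]
    exact ⟨⟨d1, d3, d4, d5⟩, ⟨d7, d8, d9⟩, ⟨d13, d14⟩, d15⟩
  · have hset : ({c, g, a, b, u, v} : Finset (Fin 9)).erase 3 = {c, g, a, u, v} := by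
      rw [e]
      exact erase_aux' d3 d7 d10 d13 d14
    rw [hV4e, hset] at c2 c3
    refine graph33a2 (c := c) (g := g) (b := a) (u := u) (v := v) ?_ h.cc h.cg h.gg h.cv h.gv h.vv k1 k2 k3
      (by omega) (by omega)
    simp only [List.nodup_cons, List.mem_cons, List.not_mem_nil, or_false, not_or, List.nodup_nil, and_true,
      not_false_eq_true]
    exact ⟨⟨d1, d2, d4, d5⟩, ⟨d6, d8, d9⟩, ⟨d11, d12⟩, d15⟩

end Pool.Agent.BR
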