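import Pool.Agent.Work.MP_be705b_al.I_CP
import Pool.Agent.Work.MP_be705b_al.I_Pair
import Pool.Agent.Work.MP_be705b_al.I_Base

/-!
# MP_be705b_al, type I: module I_3a

General conventions (see I_Defs, Fl, V2, Graph, Cube): `P = span K {q, q'}`, `W = cubics K`, vertices = `Fin 9`, `out U` = complement of
the initial variables of `U`, `cl K t d S` = number of cliques with repetition, `nb K t j S` = neighbours of `j` in `S`,
`h.fl.outA j : out (A j) = nb j (out (V j))`, `h.fl.outSupA`, `Fl.exact`, `h.fl.cl1/cl2/cl3/cl4`.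

I.3, `t 2 = l κ`, `p = hat κ ≠ 0` (structure `T1K`), `l(p) = 0` by `hat_eval`.
`nil`: (`κ = hat`..) Suppose `2` is a loop.  Take `m ∈ H 1` with `m(p) ≠ 0`, `a = q m ∈ W`: `a t 2 t 2 = (l q) (m κ (l κ)) ∈ V 2 * H 6`, so `nil1` (`U = V 2`) gives `a t 2 ∈ V 2 * W = mulS l (P * W)`,
   `q m κ ∈ P * W ≤ N * W`, `con p (q m) = 0` (`con_iff`), but `con p (q m) = m(p) • dg q ≠ 0` (`con_mul`, `q ≠ 0`, `quad_ext`/`mem_N`).  So `t 2 ∈ A 2`: `l κ l κ ∈ V 2 * W = mulS l (P * W)`, i.e.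
   `l κ κ ∈ P * W` (`mul_mem_mulS_iff`).
`qp`: `w ∈ A 2` gives `w κ ∈ P * W ≤ N * W`, `con p w = 0`, `w(p) = 0` (`eval_con`).  For `s ∈ H 4`: `(q s) t 2 = (l q) (s κ) ∈ V 2 * H 6`, `colA2`: `q s ∈ A 2 * W` vanishes at `p`; choose `s(p) ≠ 0`
   (`exists_eval_ne`).  Same for `q'`.
`A2`: `w ∈ A 2 ↔ w ∈ W ∧ w κ ∈ P * W`.  `A 2 ≤ CP p` by the above (`mem_CP`).  `CP p ≤ A 2`: `CP p = N * IP p 1`; for `ν ∈ N`, `m ∈ IP p 1`: `ν m κ ∈ P * H 3` (by `T1K.kl` of module I_3b) and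
   `∈ N * W`, (`con_iff`, `con_mul`), so `∈ P * W` by `PH3_inf`.  (`A2` is stated here with the hypothesis `kl`.)
-/

set_option autoImplicit false
set_option linter.unusedSectionVars false
set_option linter.unusedVariables false

namespace Pool.Agent.BR

open MvPolynomial Submodule Module

variable {K : Type*} [Field K]

variable {t : Fin 9 → Pol K} {l q q' κ : Pol K} {p : Fin 3 → K}

private theorem T1K.P_le_N (h : T1K t l q q' κ p) : span K {q, q'} ≤ N K := by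
  rw [span_le]
  rintro _ (rfl | rfl)
  · exact h.t1.hq
  · exact h.t1.hq'

private theorem T1K.κ2 (h : T1K t l q q' κ p) : κ ∈ H K 2 := KK_le l h.hκ

private theorem T1K.PW_le (h : T1K t l q q' κ p) : span K {q, q'} * cubics K ≤ N K * cubics K :=
  mul_le_mul' h.P_le_N le_rfl

theorem T1K.lp (h : T1K t l q q' κ p) : eval p l = 0 := by
  have h1 := hat_eval h.t1.hl h.hκ
  rwa [h.hp] at h1

theorem T1K.mem_A2 (h : T1K t l q q' κ p) {w : Pol K} :
    w ∈ A K t 2 ↔ w ∈ cubics K ∧ w * κ ∈ span K {q, q'} * cubics K := by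
  rw [h.t1.fl.mem_A]
  refine and_congr_right fun _ => ?_
  have h1 : V K t ((2 : Fin 9) : ℕ) = mulS l (span K {q, q'}) := h.t1.V2
  have h2 : w * t 2 = l * (w * κ) := by rw [h.t2]; ring
  rw [h1, mulS_mul, h2, mul_mem_mulS_iff h.t1.l0]

/-- elements of `A 2` contract to zero with `p` -/
private theorem T1K.con_A2 (h : T1K t l q q' κ p) {w : Pol K} (hw : w ∈ A K t 2) : con p w = 0 := by
  obtain ⟨h1, h2⟩ := h.mem_A2.1 hw
  have h3 : κ * w ∈ N K * cubics K := by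
    rw [mul_comm κ w]
    exact h.PW_le h2
  have h4 := (con_iff h.κ2 h1).1 h3
  rwa [h.hp] at h4

theorem T1K.nil (h : T1K t l q q' κ p) : t 2 ∈ A K t 2 ∧ l * κ * κ ∈ span K {q, q'} * cubics K := by
  have key : t 2 ∈ A K t 2 := by
    by_contra hn
    have hloop : Adj K t 2 2 := (h.t1.fl.loop_iff 2).2 hn
    obtain ⟨m, hm, hmp⟩ := exists_eval_ne h.p0 1
    have ha : q * m ∈ cubics K := by
      rw [← N_mul_H1]
      exact mul_mem_mul h.t1.hq hm
    have hU := h.t1.fl.V_le 2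
    have hL := h.t1.fl.llV 2
    have hj : t 2 ∉ V K t 2 := t_notMem h.t1.fl.li (2 : Fin 9)
    have hat : q * m * t 2 * t 2 ∈ V K t 2 * H K 6 := by
      have e : q * m * t 2 * t 2 = t 0 * (m * κ * (l * κ)) := by
        rw [h.t1.t0, h.t2]; ring
      rw [e]
      refine mul_mem_mul (t_mem (i := (0 : Fin 9)) (by decide)) ?_
      exact mul_mem_H (a := 3) (b := 3) (mul_mem_H (a := 1) (b := 2) hm h.κ2)
        (mul_mem_H (a := 1) (b := 2) h.t1.hl h.κ2)
    have h1 := h.t1.fl.nil1 hU hL (j := 2) le_rfl hj hloop ha hat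
    have h2 : q * m * t 2 = l * (q * m * κ) := by rw [h.t2]; ring
    rw [h.t1.V2, mulS_mul, h2, mul_mem_mulS_iff h.t1.l0] at h1
    have h3 : κ * (q * m) ∈ N K * cubics K := by
      rw [mul_comm κ (q * m)]
      exact h.PW_le h1
    have h4 := (con_iff h.κ2 ha).1 h3
    rw [h.hp, con_mul h.t1.hq hm] at h4
    have h5 : dg q = 0 := (smul_eq_zero.1 h4).resolve_left hmp
    refine h.t1.q0 (quad_ext (N_le h.t1.hq) (zero_mem _) ?_ ?_)
    · rw [h5]
      have := dg_add (0 : Pol K) 0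
      rw [add_zero] at this
      exact (left_eq_add.1 this).symm
    · rw [hat_of_N h.t1.hq, hat_of_N (zero_mem _)]
  refine ⟨key, ?_⟩
  have h1 := (h.mem_A2.1 key).2
  rwa [h.t2] at h1

theorem T1K.qp (h : T1K t l q q' κ p) : eval p q = 0 ∧ eval p q' = 0 := by
  obtain ⟨s, hs, hsp⟩ := exists_eval_ne h.p0 4
  have hA : A K t 2 * cubics K ≤ IP p 6 := by
    refine le_trans (mul_le_mul' ?_ cubics_le) (IP_mul_le p 3 3)
    intro w hw
    have h1 := (h.mem_A2.1 hw).1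
    refine mem_IP.2 ⟨cubics_le h1, ?_⟩
    rw [eval_con h1, h.con_A2 hw]
    simp
  have gen : ∀ r : Pol K, r ∈ H K 2 → l * r ∈ V K t 2 → eval p r = 0 := by
    intro r hr hrV
    have h1 : r * s * t 2 ∈ V K t ((2 : Fin 9) : ℕ) * H K 6 := by
      have e : r * s * t 2 = (l * r) * (s * κ) := by rw [h.t2]; ring
      rw [e]
      exact mul_mem_mul hrV (mul_mem_H (a := 4) (b := 2) hs h.κ2)
    have h2 := h.t1.fl.colA2 2 (a := r * s) (mul_mem_H (a := 2) (b := 4) hr hs) h1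
    have h3 := (mem_IP.1 (hA h2)).2
    rw [map_mul] at h3
    exact (mul_eq_zero.1 h3).resolve_right hsp
  have h0 : t 0 ∈ V K t 2 := t_mem (i := (0 : Fin 9)) (by decide)
  have h1 : t 1 ∈ V K t 2 := t_mem (i := (1 : Fin 9)) (by decide)
  rw [h.t1.t0] at h0
  rw [h.t1.t1] at h1
  exact ⟨gen q (N_le h.t1.hq) h0, gen q' (N_le h.t1.hq') h1⟩

theorem T1K.A2_of (h : T1K t l q q' κ p)
    (kl : ∀ m ∈ H K 1, eval p m = 0 → κ * m ∈ span K {q, q'} * H K 1) : A K t 2 = CP p := by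
  apply le_antisymm
  · intro w hw
    exact (mem_CP h.p0).2 ⟨(h.mem_A2.1 hw).1, h.con_A2 hw⟩
  · rw [CP, mul_le]
    intro ν hν m hm
    obtain ⟨hm1, hmp⟩ := mem_IP.1 hm
    have h1 : ν * m ∈ cubics K := by
      rw [← N_mul_H1]
      exact mul_mem_mul hν hm1
    refine h.mem_A2.2 ⟨h1, PH3_inf h.t1.hq h.t1.hq' h.t1.rel ?_ ?_⟩
    · have e : ν * m * κ = (κ * m) * ν := by ring
      have h2 : span K {q, q'} * H K 1 * N K ≤ span K {q, q'} * H K 3 := by
        rw [mul_assoc]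
        refine mul_le_mul' le_rfl ?_
        exact (mul_le_mul' le_rfl N_le).trans (H_mul_le 1 2)
      rw [e]
      exact h2 (mul_mem_mul (kl m hm1 hmp) hν)
    · rw [mul_comm (ν * m) κ, con_iff h.κ2 h1, h.hp, con_mul hν hm1, hmp, zero_smul]

end Pool.Agent.BR
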