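import Pool.Agent.Work.MP_be705b_al.I_Geo
import Pool.Agent.Work.MP_be705b_al.I_3a
import Pool.Agent.Work.MP_be705b_al.I_CStar

set_option autoImplicit false
set_option linter.unusedSectionVars false
set_option linter.unusedVariables false

/-!
# MP_be705b_al, type I: module I_33b

General conventions (see I_Defs, Fl, V2, Graph, Cube): `P = span K {q, q'}`, `W = cubics K`, vertices = `Fin 9`, `out U` = complement of
the initial variables of `U`, `cl K t d S` = number of cliques with repetition, `nb K t j S` = neighbours of `j` in `S`,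
`h.fl.outA j : out (A j) = nb j (out (V j))`, `h.fl.outSupA`, `Fl.exact`, `h.fl.cl1/cl2/cl3/cl4`.

I.3.3 (1b), first part: `t 3 = l κ'`, `κ' ∈ KK l`, `hat κ'` not a multiple of `p`.
(1) `t 3 ∉ A 2 = CP p` (`hat_of_mem_CP`; `l κ = t 2 ∈ A 2`, `T1K.nil`), so `3 ∈ out (A 2) = {c, g, v}` (`V 3 ≤ A 2`).  `3 ∈ out (A 1 ⊔ V 3) = {c, g, a, b}` (`t 3 ∉ A 1 ⊔ V 3`: as in I_33a).  `3 ≠ c`.  So `3 = g`, no loop: `t 3 ∈ A 3`.
(2) `w ∈ A 3 ↔ w ∈ W ∧ w κ' ∈ Φ * W`.  `l κ' κ' ∈ Φ * W`.  `A 1 ≤ A 3` (`h.PJ`), `V 3 ≤ A 3`.  So `out (A 3) = nb 3 (out (V 3)) ⊆ {c, g, a, b}`, and `g = 3 ≁ c, g`: `out (A 3) ⊆ {a, b}`.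
(3) `(A 2 : t 3) = W` in degree one: `A 2 * W = IP p 6` (`CP_mul`) contains `w t 3` for all `w ∈ W` (`l(p) = 0`); `Fl.col1` with `U = A 2`, `j = 3`: `w ∈ A 2 ⊔ A 3`.  Since `A 2` vanishes at `p`, there is `w ∈ A 3` with `w(p) ≠ 0`.
(4) `geo`: `l κ' ∈ Φ * H 1`.  So for `ν ∈ N`: `(l ν) κ' ∈ Φ * H 1 * H 2 = Φ * H 3 ≤ Φ * W`.  [`Φ * H 3 ≤ Φ * W`: `P * H 3` by `h.PJ`; `κ * xyz`: with `p i ≠ 0`, `X i * κ = w₁ + p i xyz` as in I_3c, so
    `p i κ xyz = κ (X i κ) - κ w₁`; and `κ (X i κ)`: `κ ≡ κ(p)/p_i^2 X i^2` mod `IP p 1 * H 1` (`IP_succ`; `κ - (κ(p)/p_i^2) X i^2` vanishes at `p`), `κ * IP p 1 ≤ P * H 1` (`h.kl`), so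
    `κ (X i κ) ∈ (κ(p)/p_i^2) κ X i^3 + P * H 3`, `X i^3 ∈ W`.]  `KK l = Φ + K κ' + N` (dimension 5: `Φ + N` has dimension 4 and `κ' ∉ Φ + N` since `hat κ'` is not a multiple of `p`), so `mulS l (KK l) ≤ A 3`
    (`l κ' ∈ A 3` by (2), `l κ ∈ V 3`).
(5) `A 1 ⊔ mulS l (KK l) ≤ A 3` has dimension `3 + 5 - 1 = 7` and vanishes at `p`; with (3): `dim (A 3) ≥ 8`, `(out (A 3)).card ≤ 1`.
(6) graph (`graph33b`): on `{c, g, a, b}` with `(nb g).card ≤ 1`, `nb g ⊆ {a, b}`: `nb g = {a}`, or `{b}`.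
-/

namespace Pool.Agent.BR

open MvPolynomial Submodule Module

variable {K : Type*} [Field K]

variable {t : Fin 9 → Pol K} {l q q' κ : Pol K} {p : Fin 3 → K} {c g a b u v : Fin 9}

/-- the shape of `{c, g, a, b}` -/
theorem graph33b {c g a b : Fin 9} (hnd : [c, g, a, b].Nodup) (cc : Adj K t c c)
    (cg : ¬ Adj K t c g) (gg : ¬ Adj K t g g)
    (e2 : cl K t 2 {c, g, a, b} = 5) (e3 : cl K t 3 {c, g, a, b} = 5) (e4 : cl K t 4 {c, g, a, b} = 5)
    (n1 : ¬ (Adj K t g a ∧ Adj K t g b)) :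
    (Adj K t g a ∧ ¬ Adj K t g b ∧ Adj K t a a ∧ ¬ Adj K t c a ∧ ¬ Adj K t b b ∧ Adj K t c b ∧ Adj K t a b) ∨
    (Adj K t g b ∧ ¬ Adj K t g a ∧ Adj K t b b ∧ ¬ Adj K t c b ∧ ¬ Adj K t a a ∧ Adj K t c a ∧ Adj K t a b) := by
  simp only [List.nodup_cons, List.mem_cons, List.not_mem_nil, or_false, not_or, List.nodup_nil, and_true, not_false_eq_true] at hnd
  obtain ⟨⟨h1, h2, h3⟩, ⟨h4, h5⟩, h6⟩ := hnd
  rw [cl4_bits h1 h2 h3 h4 h5 h6] at e2 e3 e4
  simp only [← adjB_true] at *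
  rw [Bool.not_eq_true] at cg gg
  rw [cc, cg, gg] at e2 e3 e4
  clear cc cg gg h1 h2 h3 h4 h5 h6
  generalize adjB K t c a = x1 at *
  generalize adjB K t c b = x2 at *
  generalize adjB K t g a = x3 at *
  generalize adjB K t g b = x4 at *
  generalize adjB K t a a = x5 at *
  generalize adjB K t a b = x6 at *
  generalize adjB K t b b = x7 at *
  cases x3 <;> cases x4 <;> revert e2 e3 e4 n1 <;> revert x1 x2 x5 x6 x7 <;> decide

/-- cubics and `x y z` -/
private theorem cubic_add {f : Pol K} (hf : f ∈ H K 3) :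
    f - C (cf 1 1 1 f) * (X 0 ^ 1 * X 1 ^ 1 * X 2 ^ 1) ∈ cubics K := by
  rw [mem_cubics]
  have h1 : (C (cf 1 1 1 f) * (X 0 ^ 1 * X 1 ^ 1 * X 2 ^ 1) : Pol K) ∈ H K 3 := by
    rw [← smul_eq_C_mul]
    exact smul_mem _ _ xyz_mem
  refine ⟨sub_mem hf h1, ?_⟩
  rw [map_sub, cf_C_mul, cf_mono]
  simp

private theorem lin_single (i : Fin 3) : (X i : Pol K) = lin (Pi.single i 1) := by
  fin_cases i <;> simp [lin]

theorem PhiH3 {q q' κ : Pol K} {p : Fin 3 → K} (hq : q ∈ N K) (hq' : q' ∈ N K) (hκ : κ ∈ H K 2) (hp : hat κ = p)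
    (p0 : p ≠ 0) (kl : ∀ m ∈ H K 1, eval p m = 0 → κ * m ∈ span K {q, q'} * H K 1)
    (PJ : span K {q, q'} * H K 3 ≤ span K {q, q', κ} * cubics K) :
    span K {q, q', κ} * H K 3 ≤ span K {q, q', κ} * cubics K := by
  have hP : span K {q, q'} ≤ span K {q, q', κ} := span_mono (by
    intro x hx
    simp only [Set.mem_insert_iff, Set.mem_singleton_iff] at hx ⊢
    tauto)
  have hκm : κ ∈ span K {q, q', κ} := subset_span (by simp)
  obtain ⟨i, hi⟩ : ∃ i, p i ≠ 0 := by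
    by_contra hcon
    push Not at hcon
    exact p0 (funext hcon)
  have hXi : (X i : Pol K) ∈ H K 1 := isHomogeneous_X K i
  -- the main point: `κ * (X i * κ)`
  have h1 : κ * (X i * κ) ∈ span K {q, q', κ} * cubics K := by
    set r : K := eval p κ / p i ^ 2 with hr
    have h2 : κ - C r * X i ^ 2 ∈ IP p 2 := by
      rw [mem_IP]
      constructor
      · refine sub_mem hκ ?_
        rw [← smul_eq_C_mul]
        exact smul_mem _ _ (isHomogeneous_X_pow _ _)
      · rw [map_sub, map_mul, map_pow, eval_C, eval_X, hr, div_mul_cancel₀ _ (pow_ne_zero 2 hi), sub_self]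
    have h3 : ∀ f ∈ IP p 2, κ * f ∈ span K {q, q'} * H K 2 := by
      intro f hf
      rw [IP_succ p0 1] at hf
      refine Submodule.mul_induction_on hf ?_ ?_
      · intro m hm n hn
        rw [← mul_assoc]
        have h4 := mul_mem_mul (kl m (mem_IP.1 hm).1 (mem_IP.1 hm).2) hn
        rwa [mul_assoc (span K {q, q'}), H_mul] at h4
      · intro x y hx hy
        rw [mul_add]
        exact add_mem hx hy
    have h5 : κ * (κ - C r * X i ^ 2) * X i ∈ span K {q, q', κ} * cubics K := by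
      apply PJ
      have h6 := mul_mem_mul (h3 _ h2) hXi
      rwa [mul_assoc (span K {q, q'}), H_mul] at h6
    have h7 : κ * (C r * X i ^ 3) ∈ span K {q, q', κ} * cubics K := by
      refine mul_mem_mul hκm ?_
      rw [← smul_eq_C_mul]
      refine smul_mem _ _ ?_
      fin_cases i
      · simpa using mono_mem_cubics (K := K) (a := 3) (b := 0) (c := 0) (by norm_num) (by norm_num)
      · simpa using mono_mem_cubics (K := K) (a := 0) (b := 3) (c := 0) (by norm_num) (by norm_num)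
      · simpa using mono_mem_cubics (K := K) (a := 0) (b := 0) (c := 3) (by norm_num) (by norm_num)
    have h8 := add_mem h5 h7
    have h9 : κ * (κ - C r * X i ^ 2) * X i + κ * (C r * X i ^ 3) = κ * (X i * κ) := by ring
    rwa [h9] at h8
  -- `κ * xyz`
  have h10 : κ * (X 0 ^ 1 * X 1 ^ 1 * X 2 ^ 1) ∈ span K {q, q', κ} * cubics K := by
    have h11 := cubic_add (mul_mem_H hXi hκ)
    have h12 : cf 1 1 1 (X i * κ) = p i := by
      rw [lin_single, cf111_lin_mul, hp]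
      fin_cases i <;> simp [dot]
    rw [h12] at h11
    have h13 := sub_mem h1 (mul_mem_mul hκm h11)
    have h14 : κ * (X i * κ) - κ * (X i * κ - C (p i) * (X 0 ^ 1 * X 1 ^ 1 * X 2 ^ 1)) =
        p i • (κ * (X 0 ^ 1 * X 1 ^ 1 * X 2 ^ 1)) := by
      rw [smul_eq_C_mul]; ring
    rw [h14] at h13
    have h15 := smul_mem _ (p i)⁻¹ h13
    rwa [smul_smul, inv_mul_cancel₀ hi, one_smul] at h15
  have h16 : span K {q, q', κ} = span K {q, q'} ⊔ span K {κ} := by
    rw [← span_union]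
    congr 1
    ext x
    simp only [Set.mem_insert_iff, Set.mem_singleton_iff, Set.mem_union]
    tauto
  rw [Submodule.mul_le]
  intro φ hφ f hf
  rw [h16] at hφ
  obtain ⟨x, hx, y, hy, rfl⟩ := mem_sup.1 hφ
  obtain ⟨r, rfl⟩ := mem_span_singleton.1 hy
  rw [add_mul]
  refine add_mem (PJ (mul_mem_mul hx hf)) ?_
  rw [smul_mul_assoc]
  refine smul_mem _ _ ?_
  have h17 := add_mem (mul_mem_mul hκm (cubic_add hf)) (smul_mem _ (cf 1 1 1 f) h10)
  have h18 : κ * (f - C (cf 1 1 1 f) * (X 0 ^ 1 * X 1 ^ 1 * X 2 ^ 1)) +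
      cf 1 1 1 f • (κ * (X 0 ^ 1 * X 1 ^ 1 * X 2 ^ 1)) = κ * f := by
    rw [smul_eq_C_mul]; ring
  rwa [h18] at h17

/-- `V 3 * W` and `A 3` -/
private theorem memA3 (h : T1C t l q q' κ p c g a b u v) {κ' : Pol K} (ht : t 3 = l * κ') {w : Pol K} :
    w ∈ A K t 3 ↔ w ∈ cubics K ∧ w * κ' ∈ span K {q, q', κ} * cubics K := by
  rw [h.k.t1.fl.mem_A]
  have e : ((3 : Fin 9) : ℕ) = 3 := rfl
  rw [e, h.V3, mulS_mul, ht, show w * (l * κ') = l * (w * κ') by ring, mul_mem_mulS_iff h.k.t1.l0]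

private theorem P_le : span K {q, q'} ≤ span K {q, q', κ} := span_mono (by
    intro x hx
    simp only [Set.mem_insert_iff, Set.mem_singleton_iff] at hx ⊢
    tauto)

private theorem t3_notMem (h : T1C t l q q' κ p c g a b u v) {κ' : Pol K} (ht : t 3 = l * κ') :
    t 3 ∉ A K t 1 ⊔ V K t 3 := by
  intro hmem
  obtain ⟨x, hx, y, hy, hxy⟩ := mem_sup.1 hmem
  rw [h.k.t1.A1, mem_mulS] at hx
  obtain ⟨m, hm, rfl⟩ := hx
  have hy' := hy
  rw [h.V3, mem_mulS] at hy'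
  obtain ⟨φ, hφ, rfl⟩ := hy'
  have hl0 := h.k.t1.l0
  have hpr := prime_lin h.k.t1.hl hl0
  have hd : l ∣ q * m := ⟨κ' - φ, by rw [mul_sub, ← ht, ← hxy]; ring⟩
  have hdm : l ∣ m := (hpr.dvd_or_dvd hd).resolve_left h.k.t1.ndvd
  obtain ⟨r, rfl⟩ := dvd_lin h.k.t1.hl hm hl0 hdm
  apply t_notMem h.k.t1.fl.li 3
  have e : ((3 : Fin 9) : ℕ) = 3 := rfl
  rw [e, h.V3, mem_mulS]
  refine ⟨r • q + φ, ?_, ?_⟩
  · refine add_mem (smul_mem _ _ (subset_span (by simp))) hφ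
  · rw [← hxy, smul_eq_C_mul]; ring

private theorem hatκ (h : T1C t l q q' κ p c g a b u v) : hat κ = p := h.k.hp

private theorem V3_le_A2 (h : T1C t l q q' κ p c g a b u v) : V K t 3 ≤ A K t 2 := by
  have e := V_succ (K := K) (t := t) 2
  have e2 : ((2 : Fin 9) : ℕ) + 1 = 3 := rfl
  rw [e2] at e
  rw [e]
  refine sup_le (V_le_A 2) ?_
  rw [span_singleton_le_iff_mem]
  exact h.k.nil.1

private theorem t3_notMem_A2 (h : T1C t l q q' κ p c g a b u v) {κ' : Pol K} (hκ' : κ' ∈ KK l) (ht : t 3 = l * κ')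
    (hr : ∀ r : K, hat κ' ≠ r • p) : t 3 ∉ A K t 2 := by
  intro hmem
  have h2 := h.k.nil.1
  rw [h.A2, ← h.k.hp] at hmem h2
  rw [ht] at hmem
  rw [h.k.t2] at h2
  obtain ⟨r, hr'⟩ := hat_of_mem_CP h.k.t1.hl h.k.t1.l0 h.k.hκ hκ' (by rw [h.k.hp]; exact h.k.p0) h2 hmem
  exact hr r (by rw [hr', h.k.hp])

private theorem g_eq (h : T1C t l q q' κ p c g a b u v) {κ' : Pol K} (hκ' : κ' ∈ KK l) (ht : t 3 = l * κ')
    (hr : ∀ r : K, hat κ' ≠ r • p) : g = 3 := by
  have h1 : (3 : Fin 9) ∈ out K t (A K t 2) := mem_out_of (V3_le_A2 h) (t3_notMem_A2 h hκ' ht hr)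
  have h2 : (3 : Fin 9) ∈ out K t (A K t 1 ⊔ V K t 3) := mem_out_of le_sup_right (t3_notMem h ht)
  rw [h.oA2] at h1
  rw [h.oA] at h2
  have h3 : (3 : Fin 9) ≠ c := by
    rintro rfl
    apply h.cC.1
    rw [ht, map_mul, h.lp, zero_mul]
  have hnd := h.nd
  simp only [List.nodup_cons, List.mem_cons, List.not_mem_nil, or_false, not_or, List.nodup_nil, and_true,
    not_false_eq_true] at hnd
  obtain ⟨⟨n1, n2, n3, n4, n5⟩, ⟨n6, n7, n8, n9⟩, ⟨n10, n11, n12⟩, ⟨n13, n14⟩, n15⟩ := hnd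
  simp only [Finset.mem_insert, Finset.mem_singleton] at h1 h2
  rcases h1 with h1 | h1 | h1
  · exact absurd h1 h3
  · exact h1.symm
  · exfalso
    rcases h2 with h2 | h2 | h2 | h2
    · exact h3 h2
    · exact n9 (by rw [← h2, h1])
    · exact n12 (by rw [← h2, h1])
    · exact n14 (by rw [← h2, h1])

/-- the quadrics in `KK l` -/
private theorem KK_gen (h : T1C t l q q' κ p c g a b u v) {κ' : Pol K} (hκ' : κ' ∈ KK l)
    (hr : ∀ r : K, hat κ' ≠ r • p) {η : Pol K} (hη : η ∈ KK l) :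
    ∃ r s : K, ∃ ν ∈ N K, η = r • κ + s • κ' + ν := by
  have hl0 := h.k.t1.l0
  have hl := h.k.t1.hl
  have hp0 := h.k.p0
  -- the space of vectors orthogonal to `lc l`
  set F : (Fin 3 → K) →ₗ[K] K :=
    { toFun := fun x => dot (lc l) x, map_add' := fun x y => by simp [dot]; ring,
      map_smul' := fun r x => by simp [dot]; ring } with hF
  have hFx : ∀ x, F x = dot (lc l) x := fun x => rfl
  have hF0 : F ≠ 0 := by
    intro h0
    apply hl0
    rw [← lin_lc hl, lin_eq_zero]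
    ext i
    have h1 : F (Pi.single i 1) = 0 := by rw [h0]; rfl
    rw [hFx] at h1
    fin_cases i <;> simpa [dot] using h1
  have hker : finrank K ↥(LinearMap.ker F) = 2 := by
    have h1 := LinearMap.finrank_range_add_finrank_ker F
    have h2 : LinearMap.range F = ⊤ := LinearMap.range_eq_top.2 (LinearMap.surjective hF0)
    rw [h2, finrank_top, finrank_self, Module.finrank_fin_fun] at h1
    omega
  have hpk : hat κ ∈ LinearMap.ker F := by
    rw [LinearMap.mem_ker, hFx]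
    exact ((mem_KK hl).1 h.k.hκ).2
  have hpk' : hat κ' ∈ LinearMap.ker F := by
    rw [LinearMap.mem_ker, hFx]
    exact ((mem_KK hl).1 hκ').2
  have hpη : hat η ∈ LinearMap.ker F := by
    rw [LinearMap.mem_ker, hFx]
    exact ((mem_KK hl).1 hη).2
  have hli : LinearIndependent K ![hat κ, hat κ'] := by
    rw [LinearIndependent.pair_iff' (by rw [h.k.hp]; exact hp0)]
    intro r hr'
    exact hr r (by rw [← hr', h.k.hp])
  have hsp : span K {hat κ, hat κ'} = LinearMap.ker F := by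
    refine Submodule.eq_of_le_of_finrank_eq ?_ ?_
    · rw [span_le]
      rintro x (rfl | rfl)
      · exact hpk
      · exact hpk'
    · rw [hker]
      have h2 := finrank_span_eq_card hli
      rw [Matrix.range_cons, Matrix.range_cons, Matrix.range_empty, Set.union_empty, Set.singleton_union] at h2
      simpa using h2
  rw [← hsp, mem_span_pair] at hpη
  obtain ⟨r, s, hrs⟩ := hpη
  refine ⟨r, s, η - (r • κ + s • κ'), ?_, by abel⟩
  rw [mem_N]
  refine ⟨sub_mem (KK_le l hη) (add_mem (smul_mem _ _ (KK_le l h.k.hκ)) (smul_mem _ _ (KK_le l hκ'))), ?_⟩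
  rw [hat_sub, hat_add, hat_smul, hat_smul, hrs, sub_self]

theorem T1C.i33b1 (h : T1C t l q q' κ p c g a b u v) {κ' : Pol K} (hκ' : κ' ∈ KK l) (ht : t 3 = l * κ')
    (hr : ∀ r : K, hat κ' ≠ r • p) : g = 3 ∧ mulS l (KK l) ≤ A K t 3 ∧
      (out K t (A K t 3) = {a} ∨ out K t (A K t 3) = {b}) := by
  classical
  have hl0 := h.k.t1.l0
  have hl := h.k.t1.hl
  have hp0 := h.k.p0
  have fl := h.k.t1.fl
  have hκH : κ ∈ H K 2 := KK_le l h.k.hκ
  have hκH' : κ' ∈ H K 2 := KK_le l hκ'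
  have hg := g_eq h hκ' ht hr
  have hqm : q ∈ span K {q, q', κ} := subset_span (by simp)
  have hκm : κ ∈ span K {q, q', κ} := subset_span (by simp)
  have e3 : ((3 : Fin 9) : ℕ) = 3 := rfl
  -- no loop
  have hnl : t 3 ∈ A K t 3 := by
    by_contra hcon
    have := (fl.loop_iff 3).2 hcon
    rw [← hg] at this
    exact h.gg this
  have hnil : l * κ' * κ' ∈ span K {q, q', κ} * cubics K := by
    have := ((memA3 h ht).1 hnl).2
    rwa [ht] at this
  have hA13 : A K t 1 ≤ A K t 3 := by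
    rw [h.k.t1.A1]
    intro w hw
    obtain ⟨m, hm, rfl⟩ := mem_mulS.1 hw
    rw [memA3 h ht]
    constructor
    · rw [← N_mul_H1]
      exact mul_mem_mul h.k.t1.hq hm
    · have h1 : q * m * κ' = q * (m * κ') := by ring
      rw [h1]
      exact h.PJ (mul_mem_mul (subset_span (by simp)) (mul_mem_H hm hκH'))
  have hV3 : V K t 3 ≤ A K t 3 := V_le_A 3
  -- step (3)
  obtain ⟨y, hyA, hyp⟩ : ∃ y ∈ A K t 3, eval p y ≠ 0 := by
    obtain ⟨i, hi⟩ : ∃ i, p i ≠ 0 := by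
      by_contra hcon
      push Not at hcon
      exact hp0 (funext hcon)
    have hw0 : (X i ^ 3 : Pol K) ∈ cubics K := by
      fin_cases i
      · simpa using mono_mem_cubics (K := K) (a := 3) (b := 0) (c := 0) (by norm_num) (by norm_num)
      · simpa using mono_mem_cubics (K := K) (a := 0) (b := 3) (c := 0) (by norm_num) (by norm_num)
      · simpa using mono_mem_cubics (K := K) (a := 0) (b := 0) (c := 3) (by norm_num) (by norm_num)
    have hm : X i ^ 3 * t 3 ∈ A K t 2 * cubics K := by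
      rw [h.A2, CP_mul hp0, mem_IP]
      refine ⟨mul_mem_H (cubics_le hw0) (fl.mem_H 3), ?_⟩
      rw [ht, map_mul, map_mul, h.lp, zero_mul, mul_zero]
    have h1 := fl.col1 (fl.A_le 2) (fl.llA 2) (j := 3) (V3_le_A2 h) (t3_notMem_A2 h hκ' ht hr) hw0 hm
    obtain ⟨x, hx, y, hy, hxy⟩ := mem_sup.1 h1
    refine ⟨y, hy, ?_⟩
    rw [h.A2] at hx
    have hx0 := (mem_IP.1 (CP_le_IP p hx)).2
    intro hy0
    have h2 : eval p (X i ^ 3 : Pol K) = 0 := by
      rw [← hxy, map_add, hx0, hy0, add_zero]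
    rw [map_pow, eval_X] at h2
    exact hi (pow_eq_zero_iff (by norm_num) |>.1 h2)
  -- step (4)
  have hgeo : l * κ' ∈ span K {q, q', κ} * H K 1 :=
    geo hl hl0 h.k.t1.hq h.k.t1.hq' h.k.t1.rel hκH h.k.hp hp0 h.lp h.qp h.qp' h.kp hκ' hr hnil
      ((memA3 h ht).1 hyA).1 hyp ((memA3 h ht).1 hyA).2
  have hPhi : span K {q, q', κ} * H K 3 ≤ span K {q, q', κ} * cubics K :=
    PhiH3 h.k.t1.hq h.k.t1.hq' hκH h.k.hp hp0 h.kl h.PJ
  have hLA : mulS l (KK l) ≤ A K t 3 := by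
    intro w hw
    obtain ⟨η, hη, rfl⟩ := mem_mulS.1 hw
    obtain ⟨r, s, ν, hν, rfl⟩ := KK_gen h hκ' hr hη
    have h1 : l * κ ∈ A K t 3 := by
      apply hV3
      rw [h.V3]
      exact mul_mem_mulS hκm
    have h2 : l * κ' ∈ A K t 3 := by rw [← ht]; exact hnl
    have h3 : l * ν ∈ A K t 3 := by
      rw [memA3 h ht]
      refine ⟨mul_KK_mem hl (N_le_KK hl hν), ?_⟩
      have h4 := mul_mem_mul hgeo (N_le hν)
      rw [mul_assoc (span K {q, q', κ}), H_mul] at h4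
      have h5 := hPhi h4
      rwa [show l * κ' * ν = l * ν * κ' by ring] at h5
    have h6 := add_mem (add_mem (smul_mem _ r h1) (smul_mem _ s h2)) h3
    rwa [show r • (l * κ) + s • (l * κ') + l * ν = l * (r • κ + s • κ' + ν) by
      simp only [smul_eq_C_mul]; ring] at h6
  refine ⟨hg, hLA, ?_⟩
  -- dimensions
  have hfin : Module.Finite K ↥(H K 3) := fin_H 3
  have finA : ∀ X : Submodule K (Pol K), X ≤ H K 3 → Module.Finite K ↥X := fun X hX =>
    Module.Finite.of_injective (Submodule.inclusion hX) (Submodule.inclusion_injective hX)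
  have hA3H : A K t 3 ≤ H K 3 := (fl.A_le 3).trans cubics_le
  have := finA _ hA3H
  have hdim7 : 7 ≤ finrank K ↥(A K t 1 ⊔ mulS l (KK l)) := by
    have f1 := finA _ (hA13.trans hA3H)
    have f2 := finA _ (hLA.trans hA3H)
    have h1 := Submodule.finrank_sup_add_finrank_inf_eq (A K t 1) (mulS l (KK l))
    have h2 : finrank K ↥(A K t 1) = 3 := by
      rw [h.k.t1.A1, finrank_mulS h.k.t1.q0, finrank_H1]
    have h3 : finrank K ↥(mulS l (KK l)) = 5 := by
      rw [finrank_mulS hl0, finrank_KK1 hl hl0]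
    have h4 : finrank K ↥(A K t 1 ⊓ mulS l (KK l)) ≤ 1 := by
      have h5 : A K t 1 ⊓ mulS l (KK l) ≤ span K {l * q} := by
        rintro w ⟨hw1, hw2⟩
        have hw1' : w ∈ A K t 1 := hw1
        have hw2' : w ∈ mulS l (KK l) := hw2
        rw [h.k.t1.A1, mem_mulS] at hw1'
        obtain ⟨m, hm, rfl⟩ := hw1'
        obtain ⟨η, hη, he⟩ := mem_mulS.1 hw2'
        have hdm : l ∣ m := ((prime_lin hl hl0).dvd_or_dvd ⟨η, he.symm⟩).resolve_left h.k.t1.ndvd
        obtain ⟨r, rfl⟩ := dvd_lin hl hm hl0 hdm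
        rw [mem_span_singleton]
        exact ⟨r, by rw [smul_eq_C_mul]; ring⟩
      refine (Submodule.finrank_mono h5).trans ?_
      exact (finrank_span_singleton (mul_ne_zero hl0 h.k.t1.q0)).le
    omega
  have hlt : A K t 1 ⊔ mulS l (KK l) < A K t 3 := by
    refine lt_of_le_of_ne (sup_le hA13 hLA) ?_
    intro heq
    rw [← heq] at hyA
    obtain ⟨x, hx, z, hz, hxz⟩ := mem_sup.1 hyA
    apply hyp
    rw [h.k.t1.A1, mem_mulS] at hx
    obtain ⟨m, hm, rfl⟩ := hx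
    obtain ⟨η, hη, rfl⟩ := mem_mulS.1 hz
    rw [← hxz, map_add, map_mul, map_mul, h.qp, h.lp, zero_mul, zero_mul, add_zero]
  have hdim8 : 8 ≤ finrank K ↥(A K t 3) := by
    have h1 := Submodule.finrank_lt_finrank_of_lt hlt
    omega
  have hcard : (out K t (A K t 3)).card ≤ 1 := by
    have h1 := fl.cl1 (fl.A_le 3) (fl.llA 3)
    omega
  -- the graph
  have hsub : ∀ i ∈ out K t (A K t 3), (i = a ∨ i = b) ∧ Adj K t g i := by
    intro i hi
    have h1 : i ∈ out K t (A K t 1 ⊔ V K t 3) := out_mono (sup_le hA13 hV3) hi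
    rw [h.oA] at h1
    rw [fl.outA 3, mem_nb, ← hg] at hi
    simp only [Finset.mem_insert, Finset.mem_singleton] at h1
    rcases h1 with h1 | h1 | h1 | h1
    · exact absurd (adj_symm (h1 ▸ hi.2)) h.cg
    · exact absurd (h1 ▸ hi.2) (fun h2 => h.gg (by simpa [h1] using hi.2))
    · exact ⟨Or.inl h1, hi.2⟩
    · exact ⟨Or.inr h1, hi.2⟩
  have hin : ∀ i, (i = a ∨ i = b) → Adj K t g i → i ∈ out K t (A K t 3) := by
    intro i hi hadj
    rw [fl.outA 3, mem_nb, e3, h.o3, ← hg]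
    refine ⟨?_, hadj⟩
    simp only [Finset.mem_insert, Finset.mem_singleton]
    tauto
  have hnd := h.nd
  simp only [List.nodup_cons, List.mem_cons, List.not_mem_nil, or_false, not_or, List.nodup_nil, and_true,
    not_false_eq_true] at hnd
  obtain ⟨⟨n1, n2, n3, n4, n5⟩, ⟨n6, n7, n8, n9⟩, ⟨n10, n11, n12⟩, ⟨n13, n14⟩, n15⟩ := hnd
  have hn1 : ¬ (Adj K t g a ∧ Adj K t g b) := by
    rintro ⟨h1, h2⟩
    have h3 := hin a (Or.inl rfl) h1
    have h4 := hin b (Or.inr rfl) h2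
    exact n10 (Finset.card_le_one.1 hcard a h3 b h4)
  have hnd4 : [c, g, a, b].Nodup := by
    simp only [List.nodup_cons, List.mem_cons, List.not_mem_nil, or_false, not_or, List.nodup_nil, and_true,
      not_false_eq_true]
    exact ⟨⟨n1, n2, n3⟩, ⟨n6, n7⟩, n10⟩
  rcases graph33b hnd4 h.cc h.cg h.gg h.e2 h.e3 h.e4 hn1 with h1 | h1
  · left
    refine Finset.eq_singleton_iff_unique_mem.2 ⟨hin a (Or.inl rfl) h1.1, fun i hi => ?_⟩
    exact Finset.card_le_one.1 hcard _ hi _ (hin a (Or.inl rfl) h1.1)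
  · right
    refine Finset.eq_singleton_iff_unique_mem.2 ⟨hin b (Or.inr rfl) h1.1, fun i hi => ?_⟩
    exact Finset.card_le_one.1 hcard _ hi _ (hin b (Or.inr rfl) h1.1)

end Pool.Agent.BR
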