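import Pool.Agent.Work.MP_be705b_al.I_33b

set_option autoImplicit false
set_option linter.unusedSectionVars false
set_option linter.unusedVariables false

/-!
# MP_be705b_al, type I: module I_33c

General conventions (see I_Defs, Fl, V2, Graph, Cube): `P = span K {q, q'}`, `W = cubics K`, vertices = `Fin 9`, `out U` = complement of
the initial variables of `U`, `cl K t d S` = number of cliques with repetition, `nb K t j S` = neighbours of `j` in `S`,
`h.fl.outA j : out (A j) = nb j (out (V j))`, `h.fl.outSupA`, `Fl.exact`, `h.fl.cl1/cl2/cl3/cl4`.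

I.3.3 (1b), second part.  `g = 3`, `mulS l (KK l) ≤ A 3`, `out (A 3) = {a}` (`nb 3 (out (V 3)) = {a}`).
By `graph33b` (`3 ~ a`, `3 ≁ b`): `a` loop, `c ≁ a`, `b` no loop, `c ~ b`, `a ~ b`.
`Fl.exact`, `U = V 3`, `j = 3`: `out (V 4) = {c, a, b, u, v}`, `cl 2 = 10 - 1 = 9`, `cl 3 = 13 - cl 2 {a} = 13 - 1 = 12`, `cl 4 = 16 - 1 = 15` (`a` loop).
Let `L = mulS l (KK l)`, dimension 5, `V 4 ≤ L` (`t 3 = l κ'`), so `out L ⊆ out (V 4)` has 4 elements: `out L = {c, a, b, u, v} \ {y}`.
`y ≠ c` (`L` vanishes at `p`), `y ≠ a` (`L ≤ A 3`, `a ∈ out (A 3)`).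
`y ≁ u`, `y ≁ v` (also if `y ∈ {u, v}`): `Fl.g2` with `U = V 4`: there is `w ∈ L` with `IsIn w y` (`w = t y + ..`, `y ∉ out L`) and `w' ∈ A 1 = mulS q (H 1)` with `IsIn w' u` resp. `v`
  (`u, v ∉ out (A 1 ⊔ V 3)`, so there are elements `w'' = w' + v₃` with initial variable `u`; subtracting `v₃ ∈ V 3` does not change the initial variable); `w w' = l κ'' q m ∈ mulS l (P * H 3) ≤ V 3 * W ≤ V 4 * W` (`h.PJ`).
`graph33c` (brute force: unique solution `y = b`): so `out L = {c, a, u, v}`.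
-/

namespace Pool.Agent.BR

open MvPolynomial Submodule Module

variable {K : Type*} [Field K]

variable {t : Fin 9 → Pol K} {l q q' κ : Pol K} {p : Fin 3 → K} {c g a b u v : Fin 9}

theorem graph33c {c a b u v y : Fin 9} (hnd : [c, a, b, u, v].Nodup) (cc : Adj K t c c) (aa : Adj K t a a)
    (ca : ¬ Adj K t c a) (bb : ¬ Adj K t b b) (cb : Adj K t c b) (ab : Adj K t a b) (cv : ¬ Adj K t c v)
    (vv : ¬ Adj K t v v) (f2 : cl K t 2 {c, a, b, u, v} = 9) (f3 : cl K t 3 {c, a, b, u, v} = 12)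
    (f4 : cl K t 4 {c, a, b, u, v} = 15) (hy : y ∈ ({b, u, v} : Finset (Fin 9))) (yu : ¬ Adj K t y u)
    (yv : ¬ Adj K t y v) : y = b := by
  simp only [List.nodup_cons, List.mem_cons, List.not_mem_nil, or_false, not_or, List.nodup_nil, and_true, not_false_eq_true] at hnd
  obtain ⟨⟨h1, h2, h3, h4⟩, ⟨h5, h6, h7⟩, ⟨h8, h9⟩, h10⟩ := hnd
  rw [cl5_bits h1 h2 h3 h4 h5 h6 h7 h8 h9 h10] at f2 f3 f4
  simp only [← adjB_true] at *
  rw [Bool.not_eq_true] at ca bb cv vv yu yv
  rw [cc, aa, ca, bb, cb, ab, cv, vv] at f2 f3 f4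
  simp only [Finset.mem_insert, Finset.mem_singleton] at hy
  rcases hy with rfl | rfl | rfl
  · rfl
  · exfalso
    rw [yu, yv] at f2 f3 f4
    clear cc aa ca bb cb ab cv vv yu yv h1 h2 h3 h4 h5 h6 h7 h8 h9 h10
    generalize adjB K t c y = x1 at *
    generalize adjB K t a y = x2 at *
    generalize adjB K t a v = x3 at *
    generalize adjB K t b y = x4 at *
    generalize adjB K t b v = x5 at *
    revert x1 x2 x3 x4 x5
    decide
  · exfalso
    rw [adjB_symm] at yu
    rw [yu] at f2 f3 f4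
    clear cc aa ca bb cb ab cv vv yu yv h1 h2 h3 h4 h5 h6 h7 h8 h9 h10
    generalize adjB K t c u = x1 at *
    generalize adjB K t a u = x2 at *
    generalize adjB K t a y = x3 at *
    generalize adjB K t b u = x4 at *
    generalize adjB K t b y = x5 at *
    generalize adjB K t u u = x6 at *
    revert x1 x2 x3 x4 x5 x6
    decide


private theorem cl_loop {x : Fin 9} (hx : Adj K t x x) (d : ℕ) : cl K t d {x} = 1 := by
  classical
  induction d with
  | zero => rw [cl_zero]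
  | succ d ih =>
    rw [cl_erase d (Finset.mem_singleton_self x), Finset.erase_singleton, cl_empty, add_zero]
    have h1 : nb K t x {x} = {x} := by
      ext y
      rw [mem_nb, Finset.mem_singleton]
      constructor
      · exact fun h => h.1
      · rintro rfl
        exact ⟨rfl, hx⟩
    rw [h1, ih]

private theorem V4_eq : V K t 4 = V K t 3 ⊔ span K {t 3} := V_succ (K := K) (t := t) 3

private theorem V4_le (h : T1C t l q q' κ p c g a b u v) {κ' : Pol K} (hκ' : κ' ∈ KK l) (ht : t 3 = l * κ') :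
    V K t 4 ≤ mulS l (KK l) := by
  rw [V4_eq, h.V3]
  refine sup_le (mulS_mono ?_) ?_
  · rw [span_le]
    rintro x (rfl | rfl | rfl)
    · exact N_le_KK h.k.t1.hl h.k.t1.hq
    · exact N_le_KK h.k.t1.hl h.k.t1.hq'
    · exact h.k.hκ
  · rw [span_singleton_le_iff_mem, ht]
    exact mul_mem_mulS hκ'

theorem T1C.i33b2 (h : T1C t l q q' κ p c g a b u v) {κ' : Pol K} (hκ' : κ' ∈ KK l) (ht : t 3 = l * κ')
    (hg : g = 3) (hA : mulS l (KK l) ≤ A K t 3) (ho : out K t (A K t 3) = {a}) :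
    out K t (mulS l (KK l)) = {c, a, u, v} ∧ out K t (V K t 4) = {c, a, b, u, v} ∧ ¬ Adj K t c a ∧ Adj K t a a := by
  classical
  have hl0 := h.k.t1.l0
  have hl := h.k.t1.hl
  have fl := h.k.t1.fl
  have e3 : ((3 : Fin 9) : ℕ) = 3 := rfl
  have hnd := h.nd
  simp only [List.nodup_cons, List.mem_cons, List.not_mem_nil, or_false, not_or, List.nodup_nil, and_true,
    not_false_eq_true] at hnd
  obtain ⟨⟨n1, n2, n3, n4, n5⟩, ⟨n6, n7, n8, n9⟩, ⟨n10, n11, n12⟩, ⟨n13, n14⟩, n15⟩ := hnd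
  -- neighbours of `3`
  have hnb : ∀ i, i ∈ ({c, g, a, b, u, v} : Finset (Fin 9)) → Adj K t g i → i = a := by
    intro i hi hadj
    have h1 : i ∈ out K t (A K t 3) := by
      rw [fl.outA 3, mem_nb, e3, h.o3, ← hg]
      exact ⟨hi, hadj⟩
    rw [ho] at h1
    exact Finset.mem_singleton.1 h1
  have hgb : ¬ Adj K t g b := fun hh => n10 (hnb b (by simp) hh).symm
  have hnd4 : [c, g, a, b].Nodup := by
    simp only [List.nodup_cons, List.mem_cons, List.not_mem_nil, or_false, not_or, List.nodup_nil, and_true,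
      not_false_eq_true]
    exact ⟨⟨n1, n2, n3⟩, ⟨n6, n7⟩, n10⟩
  obtain ⟨ga, -, aa, ca, bb, cb, ab⟩ := (graph33b hnd4 h.cc h.cg h.gg h.e2 h.e3 h.e4 (fun hh => hgb hh.2)).resolve_right
    (fun hh => hgb hh.1)
  -- `out (V 4)`
  have oV4 : out K t (V K t 4) = {c, a, b, u, v} := by
    rw [V4_eq]
    have h1 := out_sup_t fl.li (U := V K t 3) (j := 3) le_rfl
    rw [h1, h.o3, ← hg]
    ext i
    simp only [Finset.mem_erase, Finset.mem_insert, Finset.mem_singleton]
    constructor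
    · rintro ⟨hi, h2 | h2 | h2⟩
      · exact Or.inl h2
      · exact absurd h2 hi
      · exact Or.inr h2
    · intro h2
      refine ⟨?_, h2.imp id Or.inr⟩
      rintro rfl
      rcases h2 with h2 | h2 | h2 | h2 | h2
      · exact n1 h2.symm
      · exact n6 h2
      · exact n7 h2
      · exact n8 h2
      · exact n9 h2
  have hexact : ∀ d, cl K t (d + 1) {c, g, a, b, u, v} = 1 + cl K t (d + 1) {c, a, b, u, v} := by
    intro d
    have h1 := fl.exact (fl.V_le 3) (fl.llV 3) (j := 3) le_rfl (t_notMem fl.li 3) d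
    have s1 : V K t 3 ⊔ A K t 3 = A K t 3 := sup_eq_right.2 (V_le_A (K := K) (t := t) 3)
    have s2 : V K t 3 ⊔ V K t 4 = V K t 4 := sup_eq_right.2 (V_mono (K := K) (t := t) (by norm_num))
    have e4 : ((3 : Fin 9) : ℕ) + 1 = 4 := rfl
    rw [e4] at h1
    have h2 : cl K t (d + 1) (out K t (V K t 3)) =
        cl K t d (out K t (V K t 3 ⊔ A K t 3)) + cl K t (d + 1) (out K t (V K t 3 ⊔ V K t 4)) := h1
    rw [s1, s2, ho, cl_loop aa, h.o3] at h2
    rw [h2, oV4]
  have f2 : cl K t 2 {c, a, b, u, v} = 9 := by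
    have h1 : cl K t 2 {c, g, a, b, u, v} = 1 + cl K t 2 {c, a, b, u, v} := hexact 1
    rw [h.f2] at h1
    omega
  have f3 : cl K t 3 {c, a, b, u, v} = 12 := by
    have h1 : cl K t 3 {c, g, a, b, u, v} = 1 + cl K t 3 {c, a, b, u, v} := hexact 2
    rw [h.f3] at h1
    omega
  have f4 : cl K t 4 {c, a, b, u, v} = 15 := by
    have h1 : cl K t 4 {c, g, a, b, u, v} = 1 + cl K t 4 {c, a, b, u, v} := hexact 3
    rw [h.f4] at h1
    omega
  -- `L`
  have hV4 := V4_le h hκ' ht
  have hLW : mulS l (KK l) ≤ cubics K := by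
    intro w hw
    obtain ⟨η, hη, rfl⟩ := mem_mulS.1 hw
    exact mul_KK_mem hl hη
  have hcard : (out K t (mulS l (KK l))).card = 4 := by
    have h1 := dim_one fl.li (U := mulS l (KK l)) (by rw [fl.sp]; exact hLW)
    rw [fl.sp, finrank_cubics, finrank_mulS hl0, finrank_KK1 hl hl0] at h1
    omega
  have hsub : out K t (mulS l (KK l)) ⊆ {c, a, b, u, v} := by
    rw [← oV4]
    exact out_mono hV4
  have hcard5 : ({c, a, b, u, v} : Finset (Fin 9)).card = 5 := by
    rw [Finset.card_insert_of_notMem, Finset.card_insert_of_notMem, Finset.card_insert_of_notMem,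
      Finset.card_insert_of_notMem, Finset.card_singleton]
    · simp only [Finset.mem_singleton]; exact n15
    · simp only [Finset.mem_insert, Finset.mem_singleton, not_or]; exact ⟨n13, n14⟩
    · simp only [Finset.mem_insert, Finset.mem_singleton, not_or]; exact ⟨n10, n11, n12⟩
    · simp only [Finset.mem_insert, Finset.mem_singleton, not_or]; exact ⟨n2, n3, n4, n5⟩
  obtain ⟨y, hy5, hyL⟩ : ∃ y ∈ ({c, a, b, u, v} : Finset (Fin 9)), y ∉ out K t (mulS l (KK l)) := by
    by_contra hcon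
    push Not at hcon
    have := Finset.card_le_card (fun i hi => hcon i hi : ({c, a, b, u, v} : Finset (Fin 9)) ⊆ _)
    omega
  have hLeq : out K t (mulS l (KK l)) = ({c, a, b, u, v} : Finset (Fin 9)).erase y := by
    refine Finset.eq_of_subset_of_card_le ?_ ?_
    · intro i hi
      refine Finset.mem_erase.2 ⟨?_, hsub hi⟩
      rintro rfl
      exact hyL hi
    · rw [Finset.card_erase_of_mem hy5, hcard5, hcard]
  have hcL : c ∈ out K t (mulS l (KK l)) := by
    refine h.cC.mem_out ?_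
    intro w hw
    obtain ⟨η, hη, rfl⟩ := mem_mulS.1 hw
    rw [map_mul, h.lp, zero_mul]
  have haL : a ∈ out K t (mulS l (KK l)) := by
    apply out_mono hA
    rw [ho]
    exact Finset.mem_singleton_self a
  have hyc : y ≠ c := by rintro rfl; exact hyL hcL
  have hya : y ≠ a := by rintro rfl; exact hyL haL
  -- elements of `A 1`
  have hA1 : ∀ x, x ∈ ({c, g, a, b, u, v} : Finset (Fin 9)) → x ∉ ({c, g, a, b} : Finset (Fin 9)) →
      ∃ m ∈ H K 1, IsIn K t (q * m) x := by
    intro x hx6 hx4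
    have h1 : x ∈ inn K t (A K t 1 ⊔ V K t 3) := by
      rw [← notMem_out, h.oA]
      exact hx4
    rw [inn_sup_V fl.li] at h1
    have h2 : ¬ (x : ℕ) < 3 := by
      rw [← inn_V fl.li, notMem_inn, h.o3]
      exact hx6
    have h3 := h1.resolve_right h2
    obtain ⟨w, hw, hxw⟩ := mem_inn.1 h3
    rw [h.k.t1.A1, mem_mulS] at hxw
    obtain ⟨m, hm, he⟩ := hxw
    refine ⟨m, hm, ?_⟩
    rw [he]
    refine ⟨add_mem (t_mem (by omega)) (V_mono (by omega) hw), ?_⟩
    intro hcon
    apply t_notMem fl.li x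
    have := sub_mem hcon hw
    rwa [add_sub_cancel_right] at this
  have hyw : ∃ η ∈ KK l, IsIn K t (l * η) y := by
    obtain ⟨w, hw, hxw⟩ := mem_inn.1 (notMem_out.1 hyL)
    obtain ⟨η, hη, he⟩ := mem_mulS.1 hxw
    refine ⟨η, hη, ?_⟩
    rw [he]
    refine ⟨add_mem (t_mem (by omega)) (V_mono (by omega) hw), ?_⟩
    intro hcon
    apply t_notMem fl.li y
    have := sub_mem hcon hw
    rwa [add_sub_cancel_right] at this
  have hnadj : ∀ x, x ∈ ({c, g, a, b, u, v} : Finset (Fin 9)) → x ∉ ({c, g, a, b} : Finset (Fin 9)) →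
      x ∈ ({c, a, b, u, v} : Finset (Fin 9)) → ¬ Adj K t y x := by
    intro x hx6 hx4 hx5
    obtain ⟨η, hη, hη1⟩ := hyw
    obtain ⟨m, hm, hm1⟩ := hA1 x hx6 hx4
    refine fl.g2 (fl.V_le 4) (fl.llV 4) hη1 hm1 (by rw [oV4]; exact hy5) (by rw [oV4]; exact hx5) ?_
    have h1 : l * η * (q * m) = l * (q * (m * η)) := by ring
    have h2 : q * (m * η) ∈ span K {q, q'} * H K 3 :=
      mul_mem_mul (subset_span (by simp)) (mul_mem_H hm (KK_le l hη))
    have h3 : l * (q * (m * η)) ∈ V K t 3 * cubics K := by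
      rw [h.V3, mulS_mul]
      exact mul_mem_mulS (h.PJ h2)
    rw [h1]
    have h34 : V K t 3 ≤ V K t 4 := V_mono (by norm_num)
    exact (mul_le_mul' h34 le_rfl) h3
  have hyu : ¬ Adj K t y u := hnadj u (by simp) (by
    simp only [Finset.mem_insert, Finset.mem_singleton, not_or]
    exact ⟨Ne.symm n4, Ne.symm n8, Ne.symm n11, Ne.symm n13⟩) (by simp)
  have hyv : ¬ Adj K t y v := hnadj v (by simp) (by
    simp only [Finset.mem_insert, Finset.mem_singleton, not_or]
    exact ⟨Ne.symm n5, Ne.symm n9, Ne.symm n12, Ne.symm n14⟩) (by simp)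
  have hnd5 : [c, a, b, u, v].Nodup := by
    simp only [List.nodup_cons, List.mem_cons, List.not_mem_nil, or_false, not_or, List.nodup_nil, and_true,
      not_false_eq_true]
    exact ⟨⟨n2, n3, n4, n5⟩, ⟨n10, n11, n12⟩, ⟨n13, n14⟩, n15⟩
  have hy3 : y ∈ ({b, u, v} : Finset (Fin 9)) := by
    simp only [Finset.mem_insert, Finset.mem_singleton] at hy5 ⊢
    rcases hy5 with h1 | h1 | h1
    · exact absurd h1 hyc
    · exact absurd h1 hya
    · exact h1
  have hyb := graph33c hnd5 h.cc aa ca bb cb ab h.cv h.vv f2 f3 f4 hy3 hyu hyv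
  refine ⟨?_, oV4, ca, aa⟩
  rw [hLeq, hyb]
  ext i
  simp only [Finset.mem_erase, Finset.mem_insert, Finset.mem_singleton]
  constructor
  · rintro ⟨h1, h2 | h2 | h2 | h2⟩
    · exact Or.inl h2
    · exact Or.inr (Or.inl h2)
    · exact absurd h2 h1
    · exact Or.inr (Or.inr h2)
  · intro h2
    refine ⟨?_, h2.imp id (fun h3 => h3.imp id Or.inr)⟩
    rintro rfl
    rcases h2 with h2 | h2 | h2 | h2
    · exact n3 h2.symm
    · exact n10 h2.symm
    · exact n13 h2
    · exact n14 h2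

end Pool.Agent.BR
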