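import Pool.Agent.Work.MP_be705b_al.I_TLine
import Pool.Agent.Work.MP_be705b_al.I_Con
import Pool.Agent.Work.MP_be705b_al.I_Base

set_option autoImplicit false
set_option linter.unusedSectionVars false
set_option linter.unusedVariables false

/-!
# MP_be705b_al, type I: module I_33d

General conventions (see I_Defs, Fl, V2, Graph, Cube): `P = span K {q, q'}`, `W = cubics K`, vertices = `Fin 9`, `out U` = complement of
the initial variables of `U`, `cl K t d S` = number of cliques with repetition, `nb K t j S` = neighbours of `j` in `S`,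
`h.fl.outA j : out (A j) = nb j (out (V j))`, `h.fl.outSupA`, `Fl.exact`, `h.fl.cl1/cl2/cl3/cl4`.

I.3.3 (1b), end.  `g = 3`, `L = mulS l (KK l)`, `out L = {c, a, u, v}`, `out (V 4) = {c, a, b, u, v}`, `c ≁ a`, `c ≁ v`, `v` no loop, `a` loop.  Consider the vertex 4 (`4 ∈ out (V 4)`, the smallest element).  `V 4 ≤ L`.
Whenever `l ∤ t 4`: `A 4 ≤ L` (`w t 4 ∈ V 4 * W = mulS l ..` gives `l ∣ w`).
* `4 = b`: `b ∉ out L`, so `t 4 + v ∈ L` for some `v ∈ V 4 ≤ L`: `t 4 ∈ L`, `V 5 = L` (dimension 5).  `l ∤ t 5` (else `t 5 ∈ L = V 5`), so `A 5 = V 5` (`w t 5 ∈ V 5 * W = mulS l (H 5)` gives `l ∣ w`), so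
  `nb 5 (out (V 5)) = out (A 5) = out (V 5) = {c, a, u, v}` and `5` is adjacent to all of `{c, a, u, v}`; `5 ∈ {c, a, u, v}`; `5 ≠ c, v` (`c ≁ v`), `5 ≠ a` (`c ≁ a`): `5 = u`.  `hu`: `IsIn (q m) 5`: `V 6 = V 5 ⊔ span {q m}`,
  `U = L ⊔ span {q m} = V 6 ∈ LL`, `out U = {c, a, v}`.
* `4 = u`: `hu`: `V 5 = V 4 ⊔ span {q m}`, `l ∤ t 4`, `A 4 ≤ L`; `L ≤ A 4`: `t 4 = γ q m + v₄`, `l ε q m ∈ mulS l (P * H 3) ≤ V 3 * W` (`h.PJ`), `l ε v₄ ∈ V 4 * W`.  So `L = A 4 ∈ LL`, `U = L ⊔ V 5 = L ⊔ span {q m} ∈ LL`,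
  `out U = {c, a, v}` (`inn_sup_V`; dimension 6).
* `4 = v`: `4 ∈ out L`, so `t 4 ∉ L`, `l ∤ t 4`, `t 4 ∉ A 4`: loop, but `v` is no loop.
* `4 = c`: `l ∤ t 4` (`t 4` does not vanish at `p`), `A 4 ≤ L`, `v ∈ out L ⊆ out (A 4) = nb 4 (out (V 4))`: `c ~ v`, no.
* `4 = a`: `4 ∈ out L`, `l ∤ t 4`, `c ∈ out L ⊆ out (A 4)`: `a ~ c`, no.
In the first two cases `tline` (`m` from `hu`; `l ∤ m` since `q m ∉ V 1`; `x = a`, `y = v`): `c ~ a` or `c ~ v` in all three alternatives: contradiction.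
-/

namespace Pool.Agent.BR

open MvPolynomial Submodule Module

variable {K : Type*} [Field K]

variable {t : Fin 9 → Pol K} {l q q' κ : Pol K} {p : Fin 3 → K} {c g a b u v : Fin 9}

private theorem i33d_V {w : Pol K} {j : Fin 9} (h : IsIn K t w j) :
    V K t ((j : ℕ) + 1) = V K t j ⊔ span K {w} := by
  obtain ⟨r, v, hv, rfl⟩ := mem_V_succ.1 h.1
  have hr : r ≠ 0 := by
    rintro rfl
    apply h.2
    rwa [zero_smul, zero_add]
  apply le_antisymm
  · rw [V_succ]
    refine sup_le le_sup_left ?_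
    rw [span_singleton_le_iff_mem]
    have e : t j = r⁻¹ • ((r • t j + v) - v) := by
      rw [add_sub_cancel_right, smul_smul, inv_mul_cancel₀ hr, one_smul]
    have e' : r⁻¹ • ((r • t j + v) - v) ∈ V K t j ⊔ span K {r • t j + v} :=
      smul_mem _ _ (sub_mem (mem_sup_right (mem_span_singleton_self _)) (mem_sup_left hv))
    rwa [← e] at e'
  · refine sup_le (V_mono (Nat.le_succ _)) ?_
    rw [span_singleton_le_iff_mem]
    exact h.1

/-- the end: `L ∈ LL` and `V u ≤ L` -/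
private theorem i33d_end (h : T1C t l q q' κ p c g a b u v) (ca : ¬ Adj K t c a) (aa : Adj K t a a)
    (hL : out K t (mulS l (KK l)) = {c, a, u, v}) (hLW : mulS l (KK l) ≤ cubics K)
    (hLL : LL K t (mulS l (KK l))) (hVu : V K t u ≤ mulS l (KK l)) (hu1 : 1 ≤ (u : ℕ)) : False := by
  have T := h.k.t1
  obtain ⟨m, hm, mp, hum⟩ := h.hu
  have lm : ¬ l ∣ m := by
    intro hd
    obtain ⟨r, rfl⟩ := dvd_lin T.hl hm T.l0 hd
    apply hum.2
    have e : q * (C r * l) = r • t 0 := by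
      rw [T.t0, smul_eq_C_mul]
      ring
    rw [e]
    exact smul_mem _ _ (t_mem (i := (0 : Fin 9)) hu1)
  have hsup : mulS l (KK l) ⊔ span K {q * m} = mulS l (KK l) ⊔ span K {t u} := by
    have e1 := i33d_V hum
    have e2 := V_succ (K := K) (t := t) u
    have e3 : mulS l (KK l) ⊔ V K t ((u : ℕ) + 1) = mulS l (KK l) ⊔ span K {q * m} := by
      rw [e1, ← sup_assoc, sup_eq_left.2 hVu]
    have e4 : mulS l (KK l) ⊔ V K t ((u : ℕ) + 1) = mulS l (KK l) ⊔ span K {t u} := by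
      rw [e2, ← sup_assoc, sup_eq_left.2 hVu]
    rw [← e3, e4]
  have hLW' : mulS l (KK l) ≤ Wt K t := by rw [T.fl.sp]; exact hLW
  have h1 : LL K t (mulS l (KK l) ⊔ span K {q * m}) := by
    rw [hsup]
    exact hLL.sup_t T.fl.li hLW' hVu
  have hnd := h.nd
  simp only [List.nodup_cons, List.mem_cons, List.not_mem_nil, or_false, not_or, List.nodup_nil, and_true,
    not_false_eq_true] at hnd
  obtain ⟨⟨cg', ca', cb', cu', cv'⟩, ⟨ga', gb', gu', gv'⟩, ⟨ab', au', av'⟩, ⟨bu', bv'⟩, uv'⟩ := hnd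
  have h2 : out K t (mulS l (KK l) ⊔ span K {q * m}) = {c, a, v} := by
    rw [hsup, out_sup_t T.fl.li hVu, hL]
    ext x
    simp only [Finset.mem_erase, Finset.mem_insert, Finset.mem_singleton]
    constructor
    · rintro ⟨h1, h2 | h2 | h2 | h2⟩
      · exact Or.inl h2
      · exact Or.inr (Or.inl h2)
      · exact absurd h2 h1
      · exact Or.inr (Or.inr h2)
    · rintro (h2 | h2 | h2)
      · exact ⟨by rw [h2]; exact cu', Or.inl h2⟩
      · exact ⟨by rw [h2]; exact au', Or.inr (Or.inl h2)⟩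
      · exact ⟨by rw [h2]; exact fun h => uv' h.symm, Or.inr (Or.inr (Or.inr h2))⟩
  rcases tline T.fl T.hl T.l0 T.hq hm T.ndvd lm h.k.p0 h.lp h.qp mp h1 h.cC h2 ca' cv' av' with h3 | h3 | h3
  · exact h3.1 aa
  · exact h.cv h3.2.2.2.1
  · exact h.vv h3.1

theorem T1C.i33b3 (h : T1C t l q q' κ p c g a b u v) {κ' : Pol K} (hκ' : κ' ∈ KK l) (ht : t 3 = l * κ')
    (hg : g = 3) (hA : mulS l (KK l) ≤ A K t 3) (hL : out K t (mulS l (KK l)) = {c, a, u, v})
    (hV : out K t (V K t 4) = {c, a, b, u, v}) (ca : ¬ Adj K t c a) (aa : Adj K t a a) : False := by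
  have T := h.k.t1
  have hLW : mulS l (KK l) ≤ cubics K := by
    intro w hw
    obtain ⟨κ1, h1, rfl⟩ := mem_mulS.1 hw
    exact mul_KK_mem T.hl h1
  have Ldvd : ∀ w ∈ cubics K, l ∣ w → w ∈ mulS l (KK l) := by
    intro w hw hd
    obtain ⟨κ1, h1, rfl⟩ := exists_quot (a := 1) (b := 2) T.hl T.l0 (cubics_le hw) hd
    exact mul_mem_mulS ((mem_KK' T.hl).2 ⟨h1, hw⟩)
  have dvdL : ∀ U : Submodule K (Pol K), U ≤ mulS l (KK l) → ∀ x ∈ U * cubics K, l ∣ x := by
    intro U hU x hx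
    have h1 := mul_le_mul_left hU (cubics K) hx
    rw [mulS_mul] at h1
    obtain ⟨y, -, rfl⟩ := mem_mulS.1 h1
    exact dvd_mul_right _ _
  have hPhi : span K {q, q', κ} ≤ KK l := by
    rw [span_le]
    rintro x (rfl | rfl | rfl)
    · exact N_le_KK T.hl T.hq
    · exact N_le_KK T.hl T.hq'
    · exact h.k.hκ
  have e4 : V K t 4 = V K t 3 ⊔ span K {t 3} := V_succ (K := K) (t := t) 3
  have V4 : V K t 4 ≤ mulS l (KK l) := by
    rw [e4, h.V3]
    refine sup_le (mulS_mono hPhi) ?_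
    rw [span_singleton_le_iff_mem, ht]
    exact mul_mem_mulS hκ'
  have V4' : V K t ((4 : Fin 9) : ℕ) ≤ mulS l (KK l) := V4
  have AL : ∀ j : Fin 9, V K t j ≤ mulS l (KK l) → t j ∉ mulS l (KK l) → A K t j ≤ mulS l (KK l) := by
    intro j hj1 hj2 w hw
    obtain ⟨h1, h2⟩ := T.fl.mem_A.1 hw
    have h3 := dvdL _ hj1 _ h2
    rcases (prime_lin T.hl T.l0).dvd_or_dvd h3 with h4 | h4
    · exact Ldvd _ h1 h4
    · exact absurd (Ldvd _ (T.fl.mem j) h4) hj2
  have hnd := h.nd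
  simp only [List.nodup_cons, List.mem_cons, List.not_mem_nil, or_false, not_or, List.nodup_nil, and_true,
    not_false_eq_true] at hnd
  obtain ⟨⟨cg', ca', cb', cu', cv'⟩, ⟨ga', gb', gu', gv'⟩, ⟨ab', au', av'⟩, ⟨bu', bv'⟩, uv'⟩ := hnd
  have h4V : (4 : Fin 9) ∈ out K t (V K t 4) := mem_out_of (j := (4 : Fin 9)) le_rfl (t_notMem T.fl.li 4)
  have adj4 : (4 : Fin 9) ∈ out K t (mulS l (KK l)) → ∀ x ∈ out K t (mulS l (KK l)), Adj K t 4 x := by
    intro h4 x hx
    have h1 := out_mono (AL 4 V4' (t_notMem_of_out h4)) hx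
    rw [T.fl.outA] at h1
    exact (mem_nb.1 h1).2
  rw [hV] at h4V
  simp only [Finset.mem_insert, Finset.mem_singleton] at h4V
  rcases h4V with h4 | h4 | h4 | h4 | h4
  · -- `4 = c`
    have h1 := adj4 (by rw [hL, h4]; simp) v (by rw [hL]; simp)
    rw [h4] at h1
    exact h.cv h1
  · -- `4 = a`
    have h1 := adj4 (by rw [hL, h4]; simp) c (by rw [hL]; simp)
    rw [h4] at h1
    exact ca (adj_symm h1)
  · -- `4 = b`
    have h1 : (4 : Fin 9) ∉ out K t (mulS l (KK l)) := by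
      rw [hL, h4]
      simp only [Finset.mem_insert, Finset.mem_singleton, not_or]
      exact ⟨fun h => cb' h.symm, fun h => ab' h.symm, bu', bv'⟩
    have h2 : t 4 ∈ mulS l (KK l) := t_mem_of_inn V4' (notMem_out.1 h1)
    have e5 : V K t 5 = V K t 4 ⊔ span K {t 4} := V_succ (K := K) (t := t) 4
    have V5 : V K t 5 ≤ mulS l (KK l) := by
      rw [e5]
      refine sup_le V4 ?_
      rwa [span_singleton_le_iff_mem]
    have o5 : out K t (V K t 5) = {5, 6, 7, 8} := by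
      ext i
      rw [← notMem_inn, inn_V T.fl.li]
      fin_cases i <;> simp
    have f5 := T.fl.cl1 (T.fl.V_le 5) (T.fl.llV 5)
    rw [o5] at f5
    have f5' : finrank K ↥(V K t 5) = 5 := by
      have : ({5, 6, 7, 8} : Finset (Fin 9)).card = 4 := by decide
      omega
    have fL : finrank K ↥(mulS l (KK l)) = 5 := by rw [finrank_mulS T.l0, finrank_KK1 T.hl T.l0]
    have : Module.Finite K ↥(mulS l (KK l)) := Module.finite_of_finrank_pos (by omega)
    have V5e : V K t 5 = mulS l (KK l) := Submodule.eq_of_le_of_finrank_le V5 (by omega)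
    have h5 : t 5 ∉ mulS l (KK l) := by
      rw [← V5e]
      exact t_notMem T.fl.li 5
    have hA5 : A K t 5 ≤ mulS l (KK l) := AL 5 V5 h5
    have h5V : (5 : Fin 9) ∈ out K t (mulS l (KK l)) := mem_out_of (j := (5 : Fin 9)) V5 h5
    have adj5 : ∀ x ∈ out K t (mulS l (KK l)), Adj K t 5 x := by
      intro x hx
      have h6 := out_mono hA5 hx
      rw [T.fl.outA] at h6
      exact (mem_nb.1 h6).2
    have h5V' := h5V
    rw [hL] at h5V'
    simp only [Finset.mem_insert, Finset.mem_singleton] at h5V'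
    rcases h5V' with h6 | h6 | h6 | h6
    · have h7 := adj5 a (by rw [hL]; simp)
      rw [h6] at h7
      exact ca h7
    · have h7 := adj5 c (by rw [hL]; simp)
      rw [h6] at h7
      exact ca (adj_symm h7)
    · refine i33d_end h ca aa hL hLW ?_ ?_ ?_
      · rw [← V5e]
        exact T.fl.llV 5
      · rw [← h6]
        exact V5
      · rw [← h6]
        decide
    · have h7 := adj5 v (by rw [hL]; simp)
      rw [h6] at h7
      exact h.vv h7
  · -- `4 = u`
    have h4L : (4 : Fin 9) ∈ out K t (mulS l (KK l)) := by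
      rw [hL, h4]
      simp
    have hA4 : A K t 4 ≤ mulS l (KK l) := AL 4 V4' (t_notMem_of_out h4L)
    obtain ⟨m, hm, mp, hum⟩ := h.hu
    rw [← h4] at hum
    obtain ⟨r, w, hw, he⟩ := mem_V_succ.1 hum.1
    have hr : r ≠ 0 := by
      rintro rfl
      apply hum.2
      rw [he, zero_smul, zero_add]
      exact hw
    have hA4' : mulS l (KK l) ≤ A K t 4 := by
      intro x hx
      obtain ⟨ε, hε, rfl⟩ := mem_mulS.1 hx
      refine T.fl.mem_A.2 ⟨mul_KK_mem T.hl hε, ?_⟩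
      have e1 : l * ε * t 4 = r⁻¹ • (l * (q * (ε * m)) - w * (l * ε)) := by
        have e2 : l * (q * (ε * m)) - w * (l * ε) = r • (l * ε * t 4) := by
          have e3 : l * (q * (ε * m)) = l * ε * (q * m) := by ring
          rw [e3, he, smul_eq_C_mul, smul_eq_C_mul]
          ring
        rw [e2, smul_smul, inv_mul_cancel₀ hr, one_smul]
      rw [e1]
      refine smul_mem _ _ (sub_mem ?_ (mul_mem_mul hw (mul_KK_mem T.hl hε)))
      have h5 : q * (ε * m) ∈ span K {q, q', κ} * cubics K := by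
        apply h.PJ
        exact mul_mem_mul (subset_span (by simp)) (mul_mem_H (KK_le l hε) hm)
      have h6 : l * (q * (ε * m)) ∈ V K t 3 * cubics K := by
        rw [h.V3, mulS_mul]
        exact mul_mem_mulS h5
      have h7 : V K t 3 * cubics K ≤ V K t ((4 : Fin 9) : ℕ) * cubics K :=
        mul_le_mul_left (V_mono (by decide)) _
      exact h7 h6
    have hAe : A K t 4 = mulS l (KK l) := le_antisymm hA4 hA4'
    refine i33d_end h ca aa hL hLW ?_ ?_ ?_
    · rw [← hAe]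
      exact T.fl.llA 4
    · rw [← h4]
      exact V4
    · rw [← h4]
      decide
  · -- `4 = v`
    have h1 := adj4 (by rw [hL, h4]; simp) v (by rw [hL]; simp)
    rw [h4] at h1
    exact h.vv h1

end Pool.Agent.BR
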