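import Pool.Agent.Work.MP_be705b_al.I_Pair

set_option autoImplicit false
set_option linter.unusedSectionVars false
set_option linter.unusedVariables false

/-!
# MP_be705b_al, type I: module I_3b

General conventions (see I_Defs, Fl, V2, Graph, Cube): `P = span K {q, q'}`, `W = cubics K`, vertices = `Fin 9`, `out U` = complement of
the initial variables of `U`, `cl K t d S` = number of cliques with repetition, `nb K t j S` = neighbours of `j` in `S`,
`h.fl.outA j : out (A j) = nb j (out (V j))`, `h.fl.outSupA`, `Fl.exact`, `h.fl.cl1/cl2/cl3/cl4`.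

I.3, the product of `κ` with `Λ_p`.  Pure algebra (no flag).  `κ = sq n + cr p`, `n = dg κ`.  `P = {ν ∈ N | ν(p) = 0}` (both 2-dimensional: `p ≠ 0`, the functional `ν ↦ ν(p)` is nonzero on `N`).
Choose `θ ∈ N` with `θ(p) = 1`; `θ ∉ P`.  Then `x_i^2 - p_i^2 θ ∈ P`, `sq n - n(p) θ ∈ P` where `n(p) = eval p (sq n)`.
Modulo `P * H 1`, with `m = p_1 x - p_0 y` (`X 0, X 1, X 2 = x, y, z`):
 `κ m = (p_0 yz + p_1 xz + p_2 xy + sq n)(p_1 x - p_0 y) = p_1^2 x^2 z - p_0^2 y^2 z + p_1 p_2 x^2 y - p_0 p_2 x y^2 + sq n * m ≡ θ (p_0^2 p_1^2 z - p_0^2 p_1^2 z + p_0^2 p_1 p_2 y - p_0 p_1^2 p_2 x) + n(p) θ m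
   = (n(p) - p_0 p_1 p_2) θ m`.  The same for the other two generators of `Λ_p` (`Λ_p` is spanned by `p_j x_i - p_i x_j`).  So with `δ = n(p) - p_0 p_1 p_2`:
 `κ m ≡ δ θ m` mod `P * H 1` for all `m ∈ Λ_p`.  In particular for `m = l` (`l(p) = 0`): `l κ ≡ δ θ l`, `l κ κ ≡ δ θ l κ ≡ δ^2 θ^2 l` mod `P * H 3` and `l κ κ ∈ P * W`: so `δ^2 θ^2 l ∈ P * H 3`,
 `nzdN3`: `δ^2 θ l ∈ P * H 1`, `nzdN1`: `δ^2 l = 0`, `δ = 0`.  So `κ m ∈ P * H 1` for `m ∈ Λ_p`, and `κ(p) = 3 p_0 p_1 p_2 + n(p) = 4 p_0 p_1 p_2`.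
-/

namespace Pool.Agent.BR

open MvPolynomial Submodule Module

variable {K : Type*} [Field K]

private theorem i3b_evalP {q q' : Pol K} {p : Fin 3 → K} (qp : eval p q = 0) (qp' : eval p q' = 0) {f : Pol K}
    (hf : f ∈ span K {q, q'}) : eval p f = 0 := by
  obtain ⟨a, b, rfl⟩ := mem_span_pair.1 hf
  simp [smul_eq_C_mul, qp, qp']

private theorem i3b_theta {p : Fin 3 → K} (p0 : p ≠ 0) : ∃ θ ∈ N K, eval p θ = 1 := by
  obtain ⟨i, hi⟩ := Function.ne_iff.1 p0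
  have hi' : p i ≠ 0 := hi
  refine ⟨C ((p i ^ 2)⁻¹) * X i ^ 2, ?_, ?_⟩
  · rw [← smul_eq_C_mul]
    refine (N K).smul_mem _ (subset_span ?_)
    fin_cases i <;> simp
  · simp only [map_mul, eval_C, map_pow, eval_X]
    exact inv_mul_cancel₀ (pow_ne_zero 2 hi')

private theorem i3b_memP {q q' : Pol K} {p : Fin 3 → K} (hq : q ∈ N K) (hq' : q' ∈ N K)
    (rel : IsRelPrime q q') (p0 : p ≠ 0) (qp : eval p q = 0) (qp' : eval p q' = 0) {ν : Pol K}
    (hν : ν ∈ N K) (h : eval p ν = 0) : ν ∈ span K {q, q'} := by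
  obtain ⟨κ0, hκ0, hκP, hN⟩ := exists_N_notMem hq hq' rel
  obtain ⟨θ, hθ, hθ1⟩ := i3b_theta (K := K) p0
  have hk : eval p κ0 ≠ 0 := by
    intro h0
    rw [hN] at hθ
    obtain ⟨a, ha, b, hb, rfl⟩ := mem_sup.1 hθ
    obtain ⟨c, rfl⟩ := mem_span_singleton.1 hb
    rw [map_add, i3b_evalP qp qp' ha, smul_eq_C_mul, map_mul, h0, mul_zero, add_zero] at hθ1
    exact zero_ne_one hθ1
  rw [hN] at hν
  obtain ⟨a, ha, b, hb, rfl⟩ := mem_sup.1 hν
  obtain ⟨c, rfl⟩ := mem_span_singleton.1 hb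
  rw [map_add, i3b_evalP qp qp' ha, smul_eq_C_mul, map_mul, eval_C, zero_add] at h
  have hc : c = 0 := by
    rcases mul_eq_zero.1 h with h | h
    · exact h
    · exact absurd h hk
  rw [hc, zero_smul, add_zero]
  exact ha

private theorem i3b_key {p u n : Fin 3 → K} (θ : Pol K) (hu : dot u p = 0) :
    (sq n + cr p) * lin u =
      C (n 0 * p 0 ^ 2 + n 1 * p 1 ^ 2 + n 2 * p 2 ^ 2 - p 0 * p 1 * p 2) * (θ * lin u) +
      ((X 0 ^ 2 - C (p 0 ^ 2) * θ) * lin ![0, u 0 * p 2, u 0 * p 1] +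
       (X 1 ^ 2 - C (p 1 ^ 2) * θ) * lin ![u 1 * p 2, 0, u 1 * p 0] +
       (X 2 ^ 2 - C (p 2 ^ 2) * θ) * lin ![u 2 * p 1, u 2 * p 0, 0] +
       (sq n - C (n 0 * p 0 ^ 2 + n 1 * p 1 ^ 2 + n 2 * p 2 ^ 2) * θ) * lin u) := by
  have h : C (u 0) * C (p 0) + C (u 1) * C (p 1) + C (u 2) * C (p 2) = (0 : Pol K) := by
    rw [← C_mul, ← C_mul, ← C_mul, ← C_add, ← C_add]
    have : u 0 * p 0 + u 1 * p 1 + u 2 * p 2 = 0 := hu
    rw [this, C_0]
  simp only [sq, cr, lin, Matrix.cons_val_zero, Matrix.cons_val_one, Matrix.cons_val_two, Matrix.head_cons,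
    Matrix.tail_cons, C_mul, C_add, C_sub, C_pow, C_0]
  linear_combination (X 0 * X 1 * X 2 + θ * (C (p 1) * C (p 2) * X 0 + C (p 0) * C (p 2) * X 1 +
    C (p 0) * C (p 1) * X 2)) * h

theorem kl_alg {l q q' κ : Pol K} {p : Fin 3 → K} (hl : l ∈ H K 1) (l0 : l ≠ 0) (hq : q ∈ N K) (hq' : q' ∈ N K)
    (rel : IsRelPrime q q') (hκ : κ ∈ H K 2) (hp : hat κ = p) (p0 : p ≠ 0) (lp : eval p l = 0)
    (qp : eval p q = 0) (qp' : eval p q' = 0) (hnil : l * κ * κ ∈ span K {q, q'} * cubics K) :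
    (∀ m ∈ H K 1, eval p m = 0 → κ * m ∈ span K {q, q'} * H K 1) ∧ eval p κ = 4 * p 0 * p 1 * p 2 := by
  obtain ⟨θ, hθ, hθ1⟩ := i3b_theta (K := K) p0
  have hθP : θ ∉ span K {q, q'} := by
    intro h
    rw [i3b_evalP qp qp' h] at hθ1
    exact zero_ne_one hθ1
  have hX : ∀ i : Fin 3, (X i ^ 2 : Pol K) ∈ N K := by
    intro i
    refine subset_span ?_
    fin_cases i <;> simp
  have hXP : ∀ i : Fin 3, (X i ^ 2 - C (p i ^ 2) * θ : Pol K) ∈ span K {q, q'} := by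
    intro i
    refine i3b_memP hq hq' rel p0 qp qp' ?_ ?_
    · rw [← smul_eq_C_mul]
      exact (N K).sub_mem (hX i) ((N K).smul_mem _ hθ)
    · rw [map_sub, map_mul, hθ1, map_pow, eval_X, eval_C, mul_one, sub_self]
  set n := dg κ with hn
  set np := n 0 * p 0 ^ 2 + n 1 * p 1 ^ 2 + n 2 * p 2 ^ 2 with hnp
  have hnP : (sq n - C np * θ : Pol K) ∈ span K {q, q'} := by
    refine i3b_memP hq hq' rel p0 qp qp' ?_ ?_
    · rw [← smul_eq_C_mul]
      exact (N K).sub_mem (sq_mem_N n) ((N K).smul_mem _ hθ)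
    · rw [map_sub, map_mul, hθ1, eval_C, mul_one]
      simp only [sq, map_add, map_mul, eval_C, map_pow, eval_X]
      rw [hnp]
      ring
  set δ := np - p 0 * p 1 * p 2 with hδ
  have hκe : κ = sq n + cr p := by
    rw [hn, ← hp]
    exact (sq_add_cr hκ).symm
  have key : ∀ m ∈ H K 1, eval p m = 0 → κ * m - C δ * (θ * m) ∈ span K {q, q'} * H K 1 := by
    intro m hm hpm
    have hm' : m = lin (lc m) := (lin_lc hm).symm
    have hdot : dot (lc m) p = 0 := by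
      rw [← eval_lin, ← hm']
      exact hpm
    have h := i3b_key (n := n) θ hdot
    rw [← hm', ← hκe] at h
    rw [h]
    have e : ∀ A B : Pol K, A + B - A = B := by intro A B; ring
    rw [e]
    refine add_mem (add_mem (add_mem ?_ ?_) ?_) ?_
    · exact mul_mem_mul (hXP 0) (lin_mem _)
    · exact mul_mem_mul (hXP 1) (lin_mem _)
    · exact mul_mem_mul (hXP 2) (lin_mem _)
    · exact mul_mem_mul hnP hm
  have hδ0 : δ = 0 := by
    by_contra hδ0
    have hl1 := key l hl lp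
    have hθ2 : θ ∈ H K 2 := N_le hθ
    -- products with forms of degree two
    have hmul : ∀ {f g : Pol K}, f ∈ span K {q, q'} * H K 1 → g ∈ H K 2 →
        f * g ∈ span K {q, q'} * H K 3 := by
      intro f g hf hg
      have := mul_mem_mul hf hg
      rwa [mul_assoc, H_mul] at this
    have h3 : l * κ * κ ∈ span K {q, q'} * H K 3 := mul_le_mul_right cubics_le _ hnil
    have h4 : C δ * (C δ * (θ * l * θ)) ∈ span K {q, q'} * H K 3 := by
      have h5 := hmul hl1 hκ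
      have h6 := hmul hl1 hθ2
      have h7 : C δ * (C δ * (θ * l * θ)) = l * κ * κ - (κ * l - C δ * (θ * l)) * κ
          - δ • ((κ * l - C δ * (θ * l)) * θ) := by
        rw [smul_eq_C_mul]
        ring
      rw [h7]
      exact sub_mem (sub_mem h3 h5) (smul_mem _ _ h6)
    have h8 : θ * l * θ ∈ span K {q, q'} * H K 3 := by
      have h9 : θ * l * θ = (δ⁻¹ * δ⁻¹) • (C δ * (C δ * (θ * l * θ))) := by
        rw [smul_eq_C_mul, C_mul]
        have : C δ⁻¹ * C δ = (1 : Pol K) := by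
          rw [← C_mul, inv_mul_cancel₀ hδ0, C_1]
        linear_combination (-(θ * l * θ) * (C δ⁻¹ * C δ + 1)) * this
      rw [h9]
      exact smul_mem _ _ h4
    have h10 := nzdN3 hq hq' rel hθ hθP (mul_mem_H hθ2 hl : θ * l ∈ H K (2 + 1)) h8
    rw [mul_comm θ l] at h10
    exact l0 (nzdN1 hq hq' rel hθ hθP hl h10)
  refine ⟨fun m hm hpm => ?_, ?_⟩
  · have := key m hm hpm
    rwa [hδ0, C_0, zero_mul, sub_zero] at this
  · rw [hκe]
    simp only [sq, cr, map_add, map_mul, eval_C, map_pow, eval_X]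
    have : n 0 * p 0 ^ 2 + n 1 * p 1 ^ 2 + n 2 * p 2 ^ 2 - p 0 * p 1 * p 2 = 0 := hδ0
    linear_combination this

end Pool.Agent.BR
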