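import Pool.Agent.Work.MP_be705b_al.I_Defs

/-!
# MP_be705b_al, type I: module I_3c

General conventions (see I_Defs, Fl, V2, Graph, Cube): `P = span K {q, q'}`, `W = cubics K`, vertices = `Fin 9`, `out U` = complement of
the initial variables of `U`, `cl K t d S` = number of cliques with repetition, `nb K t j S` = neighbours of `j` in `S`,
`h.fl.outA j : out (A j) = nb j (out (V j))`, `h.fl.outSupA`, `Fl.exact`, `h.fl.cl1/cl2/cl3/cl4`.

I.3.  `PJ`: `P * H 3 ≤ Φ * W`, `Φ = span {q, q', κ}`.  `H 3 = W + K xyz`.  It suffices `q * (x y z) ∈ Φ * W` (same for `q'`).  Choose `i` with `p i ≠ 0`, `m = X i`: `κ m = w₁ + (p i) xyz` with `w₁ ∈ W`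
(the coefficient of `xyz` in `X i * κ` is `hat κ i = p i`, `cf111_lin_mul`).  `κ * (q m) ∈ Φ * W` (`q m ∈ N * H 1 = W`) and `κ q m = q w₁ + (p i) q xyz`, `q w₁ ∈ Φ * W`.
`V3_eq`: `V 3 = V 2 ⊔ span {t 2}` (`V_succ`), `V 2 = mulS l P`, `t 2 = l κ`.
-/

set_option autoImplicit false
set_option linter.unusedSectionVars false
set_option linter.unusedVariables false

namespace Pool.Agent.BR

open MvPolynomial Submodule Module

variable {K : Type*} [Field K]

variable {t : Fin 9 → Pol K} {l q q' κ : Pol K} {p : Fin 3 → K}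

private theorem cf111_X_mul (i : Fin 3) (κ : Pol K) : cf 1 1 1 (X i * κ) = hat κ i := by
  fin_cases i
  · exact cf_X0 0 1 1 κ
  · exact cf_X1 1 0 1 κ
  · exact cf_X2 1 1 0 κ

theorem PJ_alg {q q' κ : Pol K} (hq : q ∈ N K) (hq' : q' ∈ N K) (hκ : κ ∈ H K 2) (h0 : hat κ ≠ 0) :
    span K {q, q'} * H K 3 ≤ span K {q, q', κ} * cubics K := by
  obtain ⟨i, hi⟩ : ∃ i, hat κ i ≠ 0 := by
    by_contra h
    push Not at h
    exact h0 (funext h)
  have hX : (X i : Pol K) ∈ H K 1 := isHomogeneous_X K i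
  have hsN : span K {q, q'} ≤ N K := by
    rw [span_le]
    rintro _ (rfl | rfl)
    · exact hq
    · exact hq'
  have hs2 : span K {q, q'} ≤ span K {q, q', κ} := by
    apply span_mono
    intro x hx
    rcases hx with rfl | hx
    · exact Or.inl rfl
    · exact Or.inr (Or.inl hx)
  have hκs : κ ∈ span K {q, q', κ} := subset_span (Or.inr (Or.inr rfl))
  rw [mul_le]
  intro s hs f hf
  have hXκ : X i * κ ∈ H K 3 := mul_mem_H hX hκ
  set r := cf 1 1 1 f / hat κ i with hr
  have hw : f - r • (X i * κ) ∈ cubics K := by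
    refine mem_cubics.2 ⟨sub_mem hf (smul_mem _ _ hXκ), ?_⟩
    rw [map_sub, map_smul, cf111_X_mul, smul_eq_mul, hr, div_mul_cancel₀ _ hi, sub_self]
  have e : s * f = s * (f - r • (X i * κ)) + r • (κ * (s * X i)) := by
    rw [mul_sub, mul_smul_comm]
    have : s * (X i * κ) = κ * (s * X i) := by ring
    rw [this, sub_add_cancel]
  rw [e]
  refine add_mem (mul_mem_mul (hs2 hs) hw) (smul_mem _ _ (mul_mem_mul hκs ?_))
  rw [← N_mul_H1]
  exact mul_mem_mul (hsN hs) hX

theorem T1K.V3_eq (h : T1K t l q q' κ p) : V K t 3 = mulS l (span K {q, q', κ}) := by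
  have h1 : V K t 3 = V K t 2 ⊔ span K {t 2} := V_succ (2 : Fin 9)
  have h2 : span K {q, q', κ} = span K {q, q'} ⊔ span K {κ} := by
    rw [← span_union]
    congr 1
    ext x
    simp only [Set.mem_insert_iff, Set.mem_singleton_iff, Set.mem_union]
    tauto
  rw [h1, h.t1.V2, h.t2, h2, mulS_sup]
  congr 1
  rw [mulS, Submodule.map_span, Set.image_singleton]
  rfl

end Pool.Agent.BR
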