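import Pool.Agent.Work.MP_be705b_al.I_3a
import Pool.Agent.Work.MP_be705b_al.I_3b
import Pool.Agent.Work.MP_be705b_al.I_3c
import Pool.Agent.Work.MP_be705b_al.I_CStar
import Pool.Agent.Work.MP_be705b_al.I_0

set_option autoImplicit false
set_option linter.unusedSectionVars false
set_option linter.unusedVariables false

/-!
# MP_be705b_al, type I: module I_3d

General conventions (see I_Defs, Fl, V2, Graph, Cube): `P = span K {q, q'}`, `W = cubics K`, vertices = `Fin 9`, `out U` = complement of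
the initial variables of `U`, `cl K t d S` = number of cliques with repetition, `nb K t j S` = neighbours of `j` in `S`,
`h.fl.outA j : out (A j) = nb j (out (V j))`, `h.fl.outSupA`, `Fl.exact`, `h.fl.cl1/cl2/cl3/cl4`.

I.3, names of the vertices.  Let `T1K` hold, `U = A 1 ⊔ V 2`.  From I_3a, I_3b: `l, q, q'` vanish at `p`, `kl`, `kp`, `A 2 = CP p` (6-dimensional), `t 2 ∈ A 2`.
`t 2 ∉ U` (`T1.i0`).  Counts:
* `out (A 2)`: `9 - 6 = 3`, `cl 2 = 28 - 27 = 1`, `cl 3 = 1` (`CP_mul`, `CP_mul6`, `CP_mul9`, `finrank_IP`), `cl 4` not needed.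
* `out (V 3)`: `Fl.exact` with `U = V 2`, `j = 2`: `7-1, 13-3, 14-1, 17-1 = 6, 10, 13, 16` (`T1.countV`).
* `U ⊔ A 2 = A 1 ⊔ A 2` (`V 2 ≤ A 2`), `A 1 ⊓ A 2 = mulS q (IP p 1)` (`q m ∈ CP p ↔ con p (q m) = m(p) • dg q = 0 ↔ m(p) = 0`), dimension `3 + 6 - 2 = 7`; so `out (U ⊔ A 2)` has 2 elements.
  `cl 2 (out (U ⊔ A 2)) = cl 3 = 1`: `out (U ⊔ A 2) ⊆ out (A 2)`, it contains `c` (below) which is a loop, and `cl 2 (out (A 2)) = 1`; `cl 3` likewise (`cl_mono`).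
* `out (A 1 ⊔ V 3) = out (U ⊔ V 3)`: `Fl.exact`, `U`, `j = 2`: `5-1, 7-2, 6-1, 6-1 = 4, 5, 5, 5` (`T1.countU`).
Let `c` with `IsC t p c` (`exists_isC`); `A 1, V 3, A 2` vanish at `p`, so `c` is in all the `out`s (`IsC.mem_out`), `Adj c c` (`IsC.loop`).
`out (U ⊔ A 2) = {c, g}`; `out (A 2) = {c, g, v}`; `cl 2 (out (A 2)) = 1` and `c` loop: no other edge in `{c, g, v}`: `cg, cv, gg, gv, vv`.
`out (A 1 ⊔ V 3) ⊇ out (U ⊔ A 2)` [`U ⊔ V 3 ≤ U ⊔ A 2` since `t 2 ∈ A 2`], so `= {c, g, a, b}`; `v ∉ out (A 1 ⊔ V 3)`: `out (U ⊔ A 2) = nb 2 (out U)` (`Fl.outSupA`) and `out (A 2) = nb 2 (out (V 2))` (`Fl.outA`);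
if `v ∈ out (A 1 ⊔ V 3) ⊆ out U` then `v ∈ nb 2 (out U) = {c, g}`, no.  `out (V 3) ⊇ out (A 1 ⊔ V 3) ∪ out (A 2)` (`V 3 ≤ A 2`), 6 elements: `{c, g, a, b, u, v}`.
`hu`: `mulS q (IP p 1) ≤ A 1 ⊓ A 2` has dimension 2 and contains `V 1 = span {l q}`; so there is `q m ∈ mulS q (IP p 1)`, not in `V 1`, with initial variable `i ≠ 0`
  (subtract a multiple of `t 0 = l q`; `IsIn K t (q m) i`, `i ≥ 1`).  `i ∉ out (A 1)`, `i ∉ out (A 2)`.  `i ≠ 1`: else `q m = α t 0 + β t 1`, `β ≠ 0`, `l ∣ q m`, `m = C r * l`, `q m ∈ V 1`.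
  `i ≠ 2`: else `q m ∈ V 3 = mulS l Φ`, again `l ∣ m`.  So `i ∈ out (V 3) = {c, g, a, b, u, v}` (`inn_V`: `i ≥ 3`), not in `{c, g, v} = out (A 2)`, not in `{a, b}` (`⊆ out (A 1)`): `i = u`.
-/

namespace Pool.Agent.BR

open MvPolynomial Submodule Module

variable {K : Type*} [Field K]

variable {t : Fin 9 → Pol K} {l q q' κ : Pol K} {p : Fin 3 → K}

private theorem cl_loop {c : Fin 9} (hc : Adj K t c c) (d : ℕ) : cl K t d {c} = 1 := by
  induction d with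
  | zero => exact cl_zero _
  | succ d ih =>
    have h1 := cl_erase (K := K) (t := t) d (Finset.mem_singleton_self c)
    have h2 : nb K t c {c} = {c} := by
      ext u
      rw [mem_nb, Finset.mem_singleton]
      constructor
      · exact fun h => h.1
      · rintro rfl
        exact ⟨rfl, hc⟩
    rw [h2, ih, Finset.erase_singleton, cl_empty] at h1
    exact h1

private theorem one_le_cl {c : Fin 9} (hc : Adj K t c c) (d : ℕ) {S : Finset (Fin 9)} (hS : c ∈ S) :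
    1 ≤ cl K t d S := by
  rw [← cl_loop hc d]
  exact cl_mono d (Finset.singleton_subset_iff.2 hS)

private theorem three {c g v : Fin 9} (h1 : c ≠ g) (h2 : c ≠ v) (h3 : g ≠ v) (cc : Adj K t c c)
    (e : cl K t 2 {c, g, v} = 1) : ¬ Adj K t c g ∧ ¬ Adj K t c v ∧ ¬ Adj K t g g ∧ ¬ Adj K t g v ∧ ¬ Adj K t v v := by
  rw [cl3_bits h1 h2 h3] at e
  rw [← adjB_true] at cc
  rw [cc] at e
  simp only [← adjB_false]
  generalize adjB K t c g = x1 at *
  generalize adjB K t c v = x2 at *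
  generalize adjB K t g g = x3 at *
  generalize adjB K t g v = x4 at *
  generalize adjB K t v v = x5 at *
  clear cc
  revert x1 x2 x3 x4 x5
  decide

private theorem val2 : ((2 : Fin 9) : ℕ) = 2 := rfl

private theorem V2_le_V3 (t : Fin 9 → Pol K) : V K t 2 ≤ V K t 3 := V_mono (by norm_num)

private theorem V3_le_A2 (h : t 2 ∈ A K t 2) : V K t 3 ≤ A K t 2 := by
  have h1 : V K t 3 = V K t 2 ⊔ span K {t 2} := V_succ (K := K) (t := t) 2
  rw [h1]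
  refine sup_le (V_le_A 2) ?_
  rw [span_singleton_le_iff_mem]
  exact h

private theorem T1K.U_le (h : T1K t l q q' κ p) : A K t 1 ⊔ V K t 2 ≤ cubics K :=
  sup_le (h.t1.fl.A_le 1) (h.t1.fl.V_le 2)

private theorem T1K.U_ll (h : T1K t l q q' κ p) : LL K t (A K t 1 ⊔ V K t 2) :=
  h.t1.fl.llSupV (h.t1.fl.A_le 1) (h.t1.fl.llA 1) 2

/-- the counts of `out (A 2)` and `out (V 3)` -/
private theorem T1K.counts1 (h : T1K t l q q' κ p) (hA2 : A K t 2 = CP p) :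
    (out K t (A K t 2)).card = 3 ∧ cl K t 2 (out K t (A K t 2)) = 1 ∧ cl K t 3 (out K t (A K t 2)) = 1 ∧
    (out K t (V K t 3)).card = 6 ∧ cl K t 2 (out K t (V K t 3)) = 10 ∧ cl K t 3 (out K t (V K t 3)) = 13 ∧
    cl K t 4 (out K t (V K t 3)) = 16 := by
  have hfl := h.t1.fl
  have a1 := hfl.cl1 (hfl.A_le 2) (hfl.llA 2)
  have a2 := hfl.cl2 (hfl.A_le 2) (hfl.llA 2)
  have a3 := hfl.cl3 (hfl.A_le 2) (hfl.llA 2)
  have i6 := finrank_IP h.p0 6
  have i9 := finrank_IP h.p0 9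
  rw [finrank_H6] at i6
  rw [finrank_H9] at i9
  have f1 : finrank K ↥(A K t 2) = 6 := by rw [hA2, finrank_CP h.p0]
  have f2 : A K t 2 * cubics K = IP p 6 := by rw [hA2, CP_mul h.p0]
  have f3 : A K t 2 * H K 6 = IP p 9 := by rw [hA2, CP_mul6 h.p0]
  rw [f1] at a1
  rw [f2] at a2
  rw [f3] at a3
  have hj : t 2 ∉ V K t 2 := t_notMem hfl.li 2
  have hA : V K t 2 ⊔ A K t 2 = A K t 2 := sup_eq_right.2 (V_le_A 2)
  have hV : V K t 2 ⊔ V K t ((2 : Fin 9) + 1 : ℕ) = V K t 3 := by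
    rw [val2]
    exact sup_eq_right.2 (V2_le_V3 t)
  have x1 : cl K t 1 (out K t (V K t 2)) = cl K t 0 (out K t (V K t 2 ⊔ A K t 2)) +
      cl K t 1 (out K t (V K t 2 ⊔ V K t ((2 : Fin 9) + 1 : ℕ))) :=
    Fl.exact hfl (hfl.V_le 2) (hfl.llV 2) (j := 2) le_rfl hj 0
  have x2 : cl K t 2 (out K t (V K t 2)) = cl K t 1 (out K t (V K t 2 ⊔ A K t 2)) +
      cl K t 2 (out K t (V K t 2 ⊔ V K t ((2 : Fin 9) + 1 : ℕ))) :=
    Fl.exact hfl (hfl.V_le 2) (hfl.llV 2) (j := 2) le_rfl hj 1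
  have x3 : cl K t 3 (out K t (V K t 2)) = cl K t 2 (out K t (V K t 2 ⊔ A K t 2)) +
      cl K t 3 (out K t (V K t 2 ⊔ V K t ((2 : Fin 9) + 1 : ℕ))) :=
    Fl.exact hfl (hfl.V_le 2) (hfl.llV 2) (j := 2) le_rfl hj 2
  have x4 : cl K t 4 (out K t (V K t 2)) = cl K t 3 (out K t (V K t 2 ⊔ A K t 2)) +
      cl K t 4 (out K t (V K t 2 ⊔ V K t ((2 : Fin 9) + 1 : ℕ))) :=
    Fl.exact hfl (hfl.V_le 2) (hfl.llV 2) (j := 2) le_rfl hj 3
  rw [hA, hV] at x1 x2 x3 x4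
  rw [cl_one, cl_zero, cl_one] at x1
  rw [cl_one] at x2
  obtain ⟨v1, v2, v3, v4⟩ := h.t1.countV
  exact ⟨by omega, by omega, by omega, by omega, by omega, by omega, by omega⟩

private theorem T1K.A1_inf_A2 (h : T1K t l q q' κ p) (qp : eval p q = 0) (hA2 : A K t 2 = CP p) :
    A K t 1 ⊓ A K t 2 = mulS q (IP p 1) := by
  have hq0 := h.t1.q0
  have hdg : dg q ≠ 0 := by
    intro h0
    apply hq0
    rw [← sq_add_cr (N_le h.t1.hq), h0, hat_of_N h.t1.hq]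
    simp [sq, cr]
  ext w
  rw [h.t1.A1, hA2, mem_inf, mem_CP h.p0]
  constructor
  · rintro ⟨h1, h2, h3⟩
    obtain ⟨m, hm, rfl⟩ := mem_mulS.1 h1
    refine mul_mem_mulS (mem_IP.2 ⟨hm, ?_⟩)
    rw [con_mul h.t1.hq hm] at h3
    exact (smul_eq_zero.1 h3).resolve_right hdg
  · intro h1
    obtain ⟨m, hm, rfl⟩ := mem_mulS.1 h1
    obtain ⟨hm1, hm2⟩ := mem_IP.1 hm
    refine ⟨mul_mem_mulS hm1, ?_, ?_⟩
    · rw [← N_mul_H1]
      exact mul_mem_mul h.t1.hq hm1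
    · rw [con_mul h.t1.hq hm1, hm2, zero_smul]

private theorem T1K.U_sup_A2 (h : T1K t l q q' κ p) : A K t 1 ⊔ V K t 2 ⊔ A K t 2 = A K t 1 ⊔ A K t 2 := by
  rw [sup_assoc]
  congr 1
  exact sup_eq_right.2 (V_le_A 2)

private theorem T1K.cardUA (h : T1K t l q q' κ p) (qp : eval p q = 0) (hA2 : A K t 2 = CP p) :
    (out K t (A K t 1 ⊔ V K t 2 ⊔ A K t 2)).card = 2 := by
  have hfl := h.t1.fl
  have hle : A K t 1 ⊔ V K t 2 ⊔ A K t 2 ≤ cubics K := sup_le h.U_le (hfl.A_le 2)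
  have hll : LL K t (A K t 1 ⊔ V K t 2 ⊔ A K t 2) := hfl.llSupA h.U_le h.U_ll (j := 2) le_sup_right h.t1.i0
  have a1 := hfl.cl1 hle hll
  have fin1 : Module.Finite K ↥(A K t 1) := Submodule.finiteDimensional_of_le (S₂ := H K 3)
    ((hfl.A_le 1).trans cubics_le)
  have fin2 : Module.Finite K ↥(A K t 2) := Submodule.finiteDimensional_of_le (S₂ := H K 3)
    ((hfl.A_le 2).trans cubics_le)
  have e1 := finrank_sup_add_finrank_inf_eq (A K t 1) (A K t 2)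
  have i1 := finrank_IP h.p0 1
  rw [finrank_H1] at i1
  rw [h.A1_inf_A2 qp hA2, finrank_mulS h.t1.q0, ← h.U_sup_A2] at e1
  have f1 : finrank K ↥(A K t 1) = 3 := by rw [h.t1.A1, finrank_mulS h.t1.q0, finrank_H1]
  have f2 : finrank K ↥(A K t 2) = 6 := by rw [hA2, finrank_CP h.p0]
  omega

private theorem exists_m {l : Pol K} (hl : l ∈ H K 1) (l0 : l ≠ 0) {p : Fin 3 → K} (p0 : p ≠ 0) :
    ∃ m ∈ H K 1, eval p m = 0 ∧ ¬ l ∣ m := by
  by_contra hcon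
  push Not at hcon
  have h1 : IP p 1 ≤ span K {l} := by
    intro m hm
    obtain ⟨hm1, hm2⟩ := mem_IP.1 hm
    obtain ⟨r, rfl⟩ := dvd_lin hl hm1 l0 (hcon m hm1 hm2)
    refine mem_span_singleton.2 ⟨r, ?_⟩
    rw [smul_eq_C_mul]
  have h2 := Submodule.finrank_mono h1
  have i1 := finrank_IP p0 1
  rw [finrank_H1] at i1
  rw [finrank_span_singleton l0] at h2
  omega

private theorem set4 (c g a b : Fin 9) : ({a, b} : Finset (Fin 9)) ∪ {c, g} = {c, g, a, b} := by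
  ext i
  simp only [Finset.mem_union, Finset.mem_singleton, Finset.mem_insert]
  constructor
  · rintro ((h | h) | (h | h))
    · exact Or.inr (Or.inr (Or.inl h))
    · exact Or.inr (Or.inr (Or.inr h))
    · exact Or.inl h
    · exact Or.inr (Or.inl h)
  · rintro (h | h | h | h)
    · exact Or.inr (Or.inl h)
    · exact Or.inr (Or.inr h)
    · exact Or.inl (Or.inl h)
    · exact Or.inl (Or.inr h)

private theorem set3 (c g v : Fin 9) : ({v} : Finset (Fin 9)) ∪ {c, g} = {c, g, v} := by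
  ext i
  simp only [Finset.mem_union, Finset.mem_singleton, Finset.mem_insert]
  constructor
  · rintro (h | h | h)
    · exact Or.inr (Or.inr h)
    · exact Or.inl h
    · exact Or.inr (Or.inl h)
  · rintro (h | h | h)
    · exact Or.inr (Or.inl h)
    · exact Or.inr (Or.inr h)
    · exact Or.inl h

private theorem set6 (c g a b u v : Fin 9) :
    ({u} : Finset (Fin 9)) ∪ insert v {c, g, a, b} = {c, g, a, b, u, v} := by
  ext i
  simp only [Finset.mem_union, Finset.mem_singleton, Finset.mem_insert]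
  constructor
  · rintro (h | h | h | h | h | h)
    · exact Or.inr (Or.inr (Or.inr (Or.inr (Or.inl h))))
    · exact Or.inr (Or.inr (Or.inr (Or.inr (Or.inr h))))
    · exact Or.inl h
    · exact Or.inr (Or.inl h)
    · exact Or.inr (Or.inr (Or.inl h))
    · exact Or.inr (Or.inr (Or.inr (Or.inl h)))
  · rintro (h | h | h | h | h | h)
    · exact Or.inr (Or.inr (Or.inl h))
    · exact Or.inr (Or.inr (Or.inr (Or.inl h)))
    · exact Or.inr (Or.inr (Or.inr (Or.inr (Or.inl h))))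
    · exact Or.inr (Or.inr (Or.inr (Or.inr (Or.inr h))))
    · exact Or.inl h
    · exact Or.inr (Or.inl h)

theorem T1K.exists_C (h : T1K t l q q' κ p) : ∃ c g a b u v, T1C t l q q' κ p c g a b u v := by
  classical
  have hT := h.t1
  have hfl := hT.fl
  have lp := h.lp
  obtain ⟨nil1, nil2⟩ := h.nil
  obtain ⟨qp, qp'⟩ := h.qp
  obtain ⟨kl, kp⟩ := kl_alg hT.hl hT.l0 hT.hq hT.hq' hT.rel (KK_le l h.hκ) h.hp h.p0 lp qp qp' nil2
  have hA2 := h.A2_of kl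
  have hV3 := h.V3_eq
  have hPJ := PJ_alg hT.hq hT.hq' (KK_le l h.hκ) (by rw [h.hp]; exact h.p0)
  obtain ⟨a1, a2, a3, v1, v2, v3, v4⟩ := h.counts1 hA2
  have hUA := h.cardUA qp hA2
  obtain ⟨c, hc⟩ := exists_isC hfl h.p0
  have cc := hc.loop hfl
  -- everything vanishes at `p`
  have evUA : ∀ w ∈ A K t 1 ⊔ V K t 2 ⊔ A K t 2, eval p w = 0 := by
    intro w hw
    rw [h.U_sup_A2] at hw
    obtain ⟨x, hx, y, hy, rfl⟩ := mem_sup.1 hw
    rw [hT.A1] at hx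
    rw [hA2] at hy
    obtain ⟨m, _, rfl⟩ := mem_mulS.1 hx
    rw [map_add, map_mul, qp, zero_mul, zero_add]
    exact (mem_IP.1 (CP_le_IP p hy)).2
  have cUA : c ∈ out K t (A K t 1 ⊔ V K t 2 ⊔ A K t 2) := hc.mem_out evUA
  have sUA2 : out K t (A K t 1 ⊔ V K t 2 ⊔ A K t 2) ⊆ out K t (A K t 2) := out_mono le_sup_right
  -- `{c, g}`
  obtain ⟨g, hg⟩ : ∃ g, (out K t (A K t 1 ⊔ V K t 2 ⊔ A K t 2)).erase c = {g} := by
    rw [← Finset.card_eq_one, Finset.card_erase_of_mem cUA, hUA]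
  have hcg : out K t (A K t 1 ⊔ V K t 2 ⊔ A K t 2) = {c, g} := by
    rw [← Finset.insert_erase cUA, hg]
  have ncg : c ≠ g := by
    rintro rfl
    have : c ∈ (out K t (A K t 1 ⊔ V K t 2 ⊔ A K t 2)).erase c := by rw [hg]; exact Finset.mem_singleton_self c
    exact absurd this (Finset.notMem_erase c _)
  -- `{c, g, v}`
  have sv : (out K t (A K t 2) \ {c, g}).card = 1 := by
    rw [Finset.card_sdiff_of_subset (by rw [← hcg]; exact sUA2), a1, Finset.card_pair ncg]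
  obtain ⟨v, hv⟩ := Finset.card_eq_one.1 sv
  have hA2o : out K t (A K t 2) = {c, g, v} := by
    have h1 := Finset.sdiff_union_of_subset (show ({c, g} : Finset (Fin 9)) ⊆ out K t (A K t 2) by
      rw [← hcg]; exact sUA2)
    rw [← h1, hv, set3]
  have hvm : v ∈ out K t (A K t 2) \ {c, g} := by rw [hv]; exact Finset.mem_singleton_self v
  rw [Finset.mem_sdiff] at hvm
  obtain ⟨hv1, hv2⟩ := hvm
  simp only [Finset.mem_insert, Finset.mem_singleton, not_or] at hv2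
  obtain ⟨nvc, nvg⟩ := hv2
  have a2' := a2
  rw [hA2o] at a2'
  obtain ⟨cg, cv, gg, gv, vv⟩ := three ncg (Ne.symm nvc) (Ne.symm nvg) cc a2'
  -- counts for `U ⊔ A 2`
  have w2 : cl K t 2 (out K t (A K t 1 ⊔ V K t 2 ⊔ A K t 2)) = 1 :=
    le_antisymm ((cl_mono 2 sUA2).trans a2.le) (one_le_cl cc 2 cUA)
  have w3 : cl K t 3 (out K t (A K t 1 ⊔ V K t 2 ⊔ A K t 2)) = 1 :=
    le_antisymm ((cl_mono 3 sUA2).trans a3.le) (one_le_cl cc 3 cUA)
  -- counts for `U ⊔ V 3`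
  have hUV : A K t 1 ⊔ V K t 2 ⊔ V K t ((2 : Fin 9) + 1 : ℕ) = A K t 1 ⊔ V K t 3 := by
    rw [val2, sup_assoc]
    congr 1
    exact sup_eq_right.2 (V2_le_V3 t)
  have x1 : cl K t 1 (out K t (A K t 1 ⊔ V K t 2)) = cl K t 0 (out K t (A K t 1 ⊔ V K t 2 ⊔ A K t 2)) +
      cl K t 1 (out K t (A K t 1 ⊔ V K t 2 ⊔ V K t ((2 : Fin 9) + 1 : ℕ))) :=
    Fl.exact hfl h.U_le h.U_ll (j := 2) le_sup_right hT.i0 0
  have x2 : cl K t 2 (out K t (A K t 1 ⊔ V K t 2)) = cl K t 1 (out K t (A K t 1 ⊔ V K t 2 ⊔ A K t 2)) +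
      cl K t 2 (out K t (A K t 1 ⊔ V K t 2 ⊔ V K t ((2 : Fin 9) + 1 : ℕ))) :=
    Fl.exact hfl h.U_le h.U_ll (j := 2) le_sup_right hT.i0 1
  have x3 : cl K t 3 (out K t (A K t 1 ⊔ V K t 2)) = cl K t 2 (out K t (A K t 1 ⊔ V K t 2 ⊔ A K t 2)) +
      cl K t 3 (out K t (A K t 1 ⊔ V K t 2 ⊔ V K t ((2 : Fin 9) + 1 : ℕ))) :=
    Fl.exact hfl h.U_le h.U_ll (j := 2) le_sup_right hT.i0 2
  have x4 : cl K t 4 (out K t (A K t 1 ⊔ V K t 2)) = cl K t 3 (out K t (A K t 1 ⊔ V K t 2 ⊔ A K t 2)) +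
      cl K t 4 (out K t (A K t 1 ⊔ V K t 2 ⊔ V K t ((2 : Fin 9) + 1 : ℕ))) :=
    Fl.exact hfl h.U_le h.U_ll (j := 2) le_sup_right hT.i0 3
  rw [hUV] at x1 x2 x3 x4
  rw [cl_one, cl_zero, cl_one] at x1
  rw [cl_one] at x2
  obtain ⟨u1, u2, u3, u4⟩ := hT.countU
  have b1 : (out K t (A K t 1 ⊔ V K t 3)).card = 4 := by omega
  have b2 : cl K t 2 (out K t (A K t 1 ⊔ V K t 3)) = 5 := by omega
  have b3 : cl K t 3 (out K t (A K t 1 ⊔ V K t 3)) = 5 := by omega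
  have b4 : cl K t 4 (out K t (A K t 1 ⊔ V K t 3)) = 5 := by omega
  -- `{c, g, a, b}`
  have hV3A2 := V3_le_A2 nil1
  have hle3 : A K t 1 ⊔ V K t 3 ≤ A K t 1 ⊔ V K t 2 ⊔ A K t 2 := by
    rw [h.U_sup_A2]
    exact sup_le_sup_left hV3A2 _
  have s3 : ({c, g} : Finset (Fin 9)) ⊆ out K t (A K t 1 ⊔ V K t 3) := by
    rw [← hcg]
    exact out_mono hle3
  have sab : (out K t (A K t 1 ⊔ V K t 3) \ {c, g}).card = 2 := by
    rw [Finset.card_sdiff_of_subset s3, b1, Finset.card_pair ncg]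
  obtain ⟨a, b, nab, hab⟩ := Finset.card_eq_two.1 sab
  have hoA : out K t (A K t 1 ⊔ V K t 3) = {c, g, a, b} := by
    rw [← Finset.sdiff_union_of_subset s3, hab, set4]
  have ha : a ∈ out K t (A K t 1 ⊔ V K t 3) \ {c, g} := by rw [hab]; simp
  have hb : b ∈ out K t (A K t 1 ⊔ V K t 3) \ {c, g} := by rw [hab]; simp
  rw [Finset.mem_sdiff] at ha hb
  obtain ⟨ha1, ha2⟩ := ha
  obtain ⟨hb1, hb2⟩ := hb
  simp only [Finset.mem_insert, Finset.mem_singleton, not_or] at ha2 hb2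
  obtain ⟨nac, nag⟩ := ha2
  obtain ⟨nbc, nbg⟩ := hb2
  -- `v` is not in it
  have hv3 : v ∉ out K t (A K t 1 ⊔ V K t 3) := by
    intro hmem
    have h1 : v ∈ out K t (A K t 1 ⊔ V K t 2) := out_mono (sup_le_sup_left (V2_le_V3 t) _) hmem
    have h2 : Adj K t 2 v := by
      have h3 := hv1
      rw [hfl.outA, mem_nb] at h3
      exact h3.2
    have h3 : v ∈ out K t (A K t 1 ⊔ V K t 2 ⊔ A K t 2) := by
      rw [hfl.outSupA h.U_le h.U_ll (j := 2) le_sup_right hT.i0]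
      exact mem_nb.2 ⟨h1, h2⟩
    rw [hcg] at h3
    simp only [Finset.mem_insert, Finset.mem_singleton] at h3
    rcases h3 with h3 | h3
    · exact nvc h3
    · exact nvg h3
  have nva : v ≠ a := fun e => hv3 (e ▸ ha1)
  have nvb : v ≠ b := fun e => hv3 (e ▸ hb1)
  -- `out (V 3)`
  have s5 : insert v (out K t (A K t 1 ⊔ V K t 3)) ⊆ out K t (V K t 3) := by
    rw [Finset.insert_subset_iff]
    exact ⟨out_mono hV3A2 hv1, out_mono le_sup_right⟩
  have c5 : (insert v (out K t (A K t 1 ⊔ V K t 3))).card = 5 := by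
    rw [Finset.card_insert_of_notMem hv3, b1]
  have su : (out K t (V K t 3) \ insert v (out K t (A K t 1 ⊔ V K t 3))).card = 1 := by
    rw [Finset.card_sdiff_of_subset s5, v1, c5]
  obtain ⟨u, hu⟩ := Finset.card_eq_one.1 su
  have hum : u ∈ out K t (V K t 3) \ insert v (out K t (A K t 1 ⊔ V K t 3)) := by
    rw [hu]; exact Finset.mem_singleton_self u
  rw [Finset.mem_sdiff, Finset.mem_insert, not_or, hoA] at hum
  obtain ⟨hu1, nuv, hu2⟩ := hum
  simp only [Finset.mem_insert, Finset.mem_singleton, not_or] at hu2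
  obtain ⟨nuc, nug, nua, nub⟩ := hu2
  have ho3 : out K t (V K t 3) = {c, g, a, b, u, v} := by
    rw [← Finset.sdiff_union_of_subset s5, hu, hoA, set6]
  -- the element `q * m`
  obtain ⟨m, hm1, hm2, hm3⟩ := exists_m hT.hl hT.l0 h.p0
  have hqmW : q * m ∈ cubics K := by
    rw [← N_mul_H1]
    exact mul_mem_mul hT.hq hm1
  have hqmA1 : q * m ∈ A K t 1 := by
    rw [hT.A1]
    exact mul_mem_mulS hm1
  have hqmA2 : q * m ∈ A K t 2 := by
    have h1 : q * m ∈ mulS q (IP p 1) := mul_mem_mulS (mem_IP.2 ⟨hm1, hm2⟩)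
    rw [← h.A1_inf_A2 qp hA2] at h1
    exact h1.2
  have hqmV3 : q * m ∉ V K t 3 := by
    intro hmem
    rw [hV3] at hmem
    obtain ⟨z, _, hz⟩ := mem_mulS.1 hmem
    exact hm3 (((prime_lin hT.hl hT.l0).dvd_or_dvd ⟨z, hz.symm⟩).resolve_left hT.ndvd)
  have hqm0 : q * m ≠ 0 := by
    intro h0
    exact hqmV3 (by rw [h0]; exact zero_mem _)
  obtain ⟨i, hi⟩ := exists_isIn (K := K) (t := t) (by rw [hfl.sp]; exact hqmW) hqm0
  have hi3 : i ∈ out K t (V K t 3) := by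
    rw [← notMem_inn, inn_V hfl.li]
    intro hlt
    exact hqmV3 (V_mono (by omega) hi.1)
  have hiA1 : i ∉ out K t (A K t 1) := notMem_out.2 (hi.mem_inn hqmA1)
  have hiA2 : i ∉ out K t (A K t 2) := notMem_out.2 (hi.mem_inn hqmA2)
  have hiAV : i ∉ out K t (A K t 1 ⊔ V K t 3) := fun hh => hiA1 (out_mono le_sup_left hh)
  have hiu : i = u := by
    rw [ho3] at hi3
    rw [hA2o] at hiA2
    rw [hoA] at hiAV
    simp only [Finset.mem_insert, Finset.mem_singleton, not_or] at hi3 hiA2 hiAV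
    rcases hi3 with e | e | e | e | e | e
    · exact absurd e hiA2.1
    · exact absurd e hiA2.2.1
    · exact absurd e hiAV.2.2.1
    · exact absurd e hiAV.2.2.2
    · exact e
    · exact absurd e hiA2.2.2
  rw [hiu] at hi
  refine ⟨c, g, a, b, u, v, ⟨h, lp, qp, qp', kl, kp, hA2, hV3, hPJ, hc, ?_, ho3, hoA, hA2o, ?_, ?_, ?_, ?_, ?_, ?_,
    cc, cg, cv, gg, gv, vv, ⟨m, hm1, hm2, hi⟩⟩⟩
  · simp only [List.nodup_cons, List.mem_cons, List.not_mem_nil, or_false, not_or, List.nodup_nil, and_true,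
      not_false_eq_true]
    exact ⟨⟨ncg, Ne.symm nac, Ne.symm nbc, Ne.symm nuc, Ne.symm nvc⟩,
      ⟨Ne.symm nag, Ne.symm nbg, Ne.symm nug, Ne.symm nvg⟩, ⟨nab, Ne.symm nua, Ne.symm nva⟩,
      ⟨Ne.symm nub, Ne.symm nvb⟩, nuv⟩
  · rw [← hoA]; exact b2
  · rw [← hoA]; exact b3
  · rw [← hoA]; exact b4
  · rw [← ho3]; exact v2
  · rw [← ho3]; exact v3
  · rw [← ho3]; exact v4

theorem T1C.swap {c g a b u v : Fin 9} (h : T1C t l q q' κ p c g a b u v) :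
    T1C t l q q' κ p c g b a u v := by
  have e1 : ({c, g, b, a} : Finset (Fin 9)) = {c, g, a, b} := by
    rw [Finset.pair_comm b a]
  have e2 : ({c, g, b, a, u, v} : Finset (Fin 9)) = {c, g, a, b, u, v} := by
    rw [Finset.insert_comm b a]
  refine ⟨h.k, h.lp, h.qp, h.qp', h.kl, h.kp, h.A2, h.V3, h.PJ, h.cC, ?_, by rw [e2]; exact h.o3,
    by rw [e1]; exact h.oA, h.oA2, by rw [e1]; exact h.e2, by rw [e1]; exact h.e3, by rw [e1]; exact h.e4,
    by rw [e2]; exact h.f2, by rw [e2]; exact h.f3, by rw [e2]; exact h.f4, h.cc, h.cg, h.cv, h.gg, h.gv, h.vv, h.hu⟩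
  have hnd := h.nd
  simp only [List.nodup_cons, List.mem_cons, List.not_mem_nil, or_false, not_or, List.nodup_nil, and_true,
    not_false_eq_true] at hnd ⊢
  obtain ⟨⟨d1, d2, d3, d4, d5⟩, ⟨d6, d7, d8, d9⟩, ⟨d10, d11, d12⟩, ⟨d13, d14⟩, d15⟩ := hnd
  exact ⟨⟨d1, d3, d2, d4, d5⟩, ⟨d7, d6, d8, d9⟩, ⟨Ne.symm d10, d13, d14⟩, ⟨d11, d12⟩, d15⟩

end Pool.Agent.BR
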