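import Pool.Agent.Work.MP_be705b_al.V2
import Pool.Agent.Work.MP_be705b_al.Cube
import Pool.Agent.Work.MP_be705b_al.Graph
import Pool.Agent.Work.MP_be705b_al.II.Defs

set_option autoImplicit false
set_option linter.unusedSectionVars false
set_option linter.unusedVariables false

/-!
# MP_be705b_al, type I: definitions

`P = <q, q'>`, `con p w` = contraction of the cubic `w ∈ N ⊗ H 1` with the point `p` (coefficients of `x^2, y^2, z^2`),
`CP p = N * Λ_p`, `IsC t p c` (defined in II/Defs): `t c` is the first coordinate not vanishing at `p`.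
-/

namespace Pool.Agent.BR

open MvPolynomial Submodule Module

variable {K : Type*} [Field K]

/-- contraction of a cubic with the point `p` -/
noncomputable def con (p : Fin 3 → K) (w : Pol K) : Fin 3 → K :=
  ![p 0 * cf 3 0 0 w + p 1 * cf 2 1 0 w + p 2 * cf 2 0 1 w,
    p 0 * cf 1 2 0 w + p 1 * cf 0 3 0 w + p 2 * cf 0 2 1 w,
    p 0 * cf 1 0 2 w + p 1 * cf 0 1 2 w + p 2 * cf 0 0 3 w]

/-- `N * Λ_p` -/
noncomputable def CP (p : Fin 3 → K) : Submodule K (Pol K) := N K * IP p 1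

/-- the situation of I.3: `t 2 = l * κ` with `κ ∉ N` -/
structure T1K (t : Fin 9 → Pol K) (l q q' κ : Pol K) (p : Fin 3 → K) : Prop where
  t1 : T1 t l q q'
  hκ : κ ∈ KK l
  hp : hat κ = p
  p0 : p ≠ 0
  t2 : t 2 = l * κ

/-- the situation of I.3 after the analysis of `t 2`; the six remaining vertices are
`c, g, a, b, u, v` (on paper: `c_*, g, h1, h2, u', u''`). -/
structure T1C (t : Fin 9 → Pol K) (l q q' κ : Pol K) (p : Fin 3 → K) (c g a b u v : Fin 9) : Prop where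
  k : T1K t l q q' κ p
  lp : eval p l = 0
  qp : eval p q = 0
  qp' : eval p q' = 0
  kl : ∀ m ∈ H K 1, eval p m = 0 → κ * m ∈ span K {q, q'} * H K 1
  kp : eval p κ = 4 * p 0 * p 1 * p 2
  A2 : A K t 2 = CP p
  V3 : V K t 3 = mulS l (span K {q, q', κ})
  PJ : span K {q, q'} * H K 3 ≤ span K {q, q', κ} * cubics K
  cC : IsC t p c
  nd : [c, g, a, b, u, v].Nodup
  o3 : out K t (V K t 3) = {c, g, a, b, u, v}
  oA : out K t (A K t 1 ⊔ V K t 3) = {c, g, a, b}
  oA2 : out K t (A K t 2) = {c, g, v}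
  e2 : cl K t 2 {c, g, a, b} = 5
  e3 : cl K t 3 {c, g, a, b} = 5
  e4 : cl K t 4 {c, g, a, b} = 5
  f2 : cl K t 2 {c, g, a, b, u, v} = 10
  f3 : cl K t 3 {c, g, a, b, u, v} = 13
  f4 : cl K t 4 {c, g, a, b, u, v} = 16
  cc : Adj K t c c
  cg : ¬ Adj K t c g
  cv : ¬ Adj K t c v
  gg : ¬ Adj K t g g
  gv : ¬ Adj K t g v
  vv : ¬ Adj K t v v
  hu : ∃ m ∈ H K 1, eval p m = 0 ∧ IsIn K t (q * m) u

end Pool.Agent.BR
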