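import Pool.Agent.Work.MP_be705b_al.I_1
import Pool.Agent.Work.MP_be705b_al.I_2c
import Pool.Agent.Work.MP_be705b_al.I_3d
import Pool.Agent.Work.MP_be705b_al.I_31
import Pool.Agent.Work.MP_be705b_al.I_32
import Pool.Agent.Work.MP_be705b_al.I_33a
import Pool.Agent.Work.MP_be705b_al.I_33c
import Pool.Agent.Work.MP_be705b_al.I_33d

set_option autoImplicit false
set_option linter.unusedSectionVars false
set_option linter.unusedVariables false

/-!
# MP_be705b_al, type I: module I_Final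

Assembly of type I: `T1.dvd_t2`, `t 2 = l κ`, `κ ∈ KK l`, `κ ∉ N` (`T1.i1`), `T1K.exists_C`; `t 3`: `T1C.i31`, `T1C.i32`,
otherwise `t 3 = l κ'`, `T1C.i33a`, `T1C.i33b1..3` (with `T1C.swap` if `out (A 3) = {b}`).
-/

namespace Pool.Agent.BR

open MvPolynomial Submodule Module

variable {K : Type*} [Field K]

variable {t : Fin 9 → Pol K} {l q q' : Pol K}

theorem I_Final_quot (h : T1 t l q q') {i : Fin 9} (hd : l ∣ t i) : ∃ κ ∈ KK l, t i = l * κ := by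
  obtain ⟨κ, hκ, e⟩ := exists_quot (a := 1) (b := 2) h.hl h.l0 (h.fl.mem_H i) hd
  refine ⟨κ, (mem_KK' h.hl).2 ⟨hκ, ?_⟩, e⟩
  rw [← e]
  exact h.fl.mem i

theorem I_Final_aux {κ κ' : Pol K} {p : Fin 3 → K} {c g a b u v : Fin 9}
    (hC : T1C t l q q' κ p c g a b u v) (hκ' : κ' ∈ KK l) (ht : t 3 = l * κ') (hg : g = 3)
    (hA : mulS l (KK l) ≤ A K t 3) (ho : out K t (A K t 3) = {a}) : False := by
  obtain ⟨e1, e2, e3, e4⟩ := hC.i33b2 hκ' ht hg hA ho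
  exact hC.i33b3 hκ' ht hg hA e1 e2 e3 e4

theorem no_T1 (h : T1 t l q q') : False := by
  obtain ⟨κ, hκ, e2⟩ := I_Final_quot h h.dvd_t2
  have hN : κ ∉ N K := fun hN => h.i1 hN e2
  have hp : hat κ ≠ 0 := fun h0 => hN (mem_N.2 ⟨KK_le l hκ, h0⟩)
  have hT : T1K t l q q' κ (hat κ) := ⟨h, hκ, rfl, hp, e2⟩
  obtain ⟨c, g, a, b, u, v, hC⟩ := hT.exists_C
  by_cases hd : l ∣ t 3
  · obtain ⟨κ', hκ', e3⟩ := I_Final_quot h hd
    by_cases hr : ∃ r : K, hat κ' = r • hat κ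
    · obtain ⟨r, hr⟩ := hr
      exact hC.i33a hκ' e3 hr
    · have hr' : ∀ r : K, hat κ' ≠ r • hat κ := fun r h => hr ⟨r, h⟩
      obtain ⟨hg, hA, ho | ho⟩ := hC.i33b1 hκ' e3 hr'
      · exact I_Final_aux hC hκ' e3 hg hA ho
      · exact I_Final_aux hC.swap hκ' e3 hg hA ho
  · by_cases hU : t 3 ∈ A K t 1 ⊔ V K t 3
    · exact hC.i32 hd hU
    · exact hC.i31 hd hU

end Pool.Agent.BR
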