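import Pool.Agent.Work.MP_be705b_al.I_Pair

set_option autoImplicit false
set_option linter.unusedSectionVars false
set_option linter.unusedVariables false

/-!
# MP_be705b_al, type I: module I_Geo

Pure algebra, `Φ = span {q, q', κ}`, `p = hat κ`, `P = span {q, q'} = {ν ∈ N | ν(p) = 0}` (dimension 2).  `κ = sq n + cr p`; `κ(p) = 3 p0 p1 p2 + (sq n)(p)`, so `(sq n)(p) = p0 p1 p2`.  `κ' = sq n' + cr h'`, `h' = hat κ'`.
Let `r_i` be `p` with the `i`-th coordinate replaced by its negative.  All of `Φ` vanishes at `r_i`: `q(r_i) = q(p) = 0`, `κ(r_i) = (sq n)(p) + p0p1p2 - 2 p0p1p2 = 0`.  So `Φ * W` vanishes at `r_i`.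
CASE C: `2 ≠ 0`, `p0 p1 p2 ≠ 0`: `r_0, r_1, r_2` are independent.  `l κ' κ' ∈ Φ * W` gives `(l κ')(r_i) = 0`.  `{f ∈ H 3 | f(r_i) = 0, i = 0,1,2}` has dimension 7 and contains `Φ * H 1`, of dimension `≥ 7`:
   `dim (P * H 1) = 6` and `κ x₀ ∉ P * H 1` when `x₀(p) ≠ 0` (`κ(p) = 4 p0p1p2 ≠ 0`, `P` vanishes at `p`).  So `l κ' ∈ Φ * H 1`.
CASE A: `2 = 0`.  All partial derivatives of elements of `Φ` vanish at `p` (`∂_0 κ = p_1 z + p_2 y` etc. in characteristic 2), and so does `κ(p) = 4 p0p1p2 = 0`; so for `f ∈ Φ * W`: `f(p) = 0` and `(∂_i f)(p) = 0`.  For `f = w κ'` with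
   `w(p) ≠ 0`: `κ'(p) = 0`, `(∂_i κ')(p) = 0`: `h'_1 p_2 + h'_2 p_1 = 0` etc., i.e. `h'` is a multiple of `p` (characteristic 2), contradiction to `hne`.
CASE A': two coordinates of `p` vanish, say `p = (0, 0, p2)` (and the two permutations).  `P = span {x^2, y^2}`, `κ = p2 xy + sq n` with `(sq n)(p) = 0`: `Φ = span {x^2, y^2, xy}`; elements `f` of `Φ * W` have `cf 0 0 5 = cf 1 0 4 = cf 0 1 4 = 0`.
   `f = w κ'`, `w(p) ≠ 0` i.e. `cf 0 0 3 w ≠ 0`: `cf 0 0 2 κ' = 0`, then `cf 1 0 1 κ' = cf 0 1 1 κ' = 0`, so `h'` is a multiple of `p`, contradiction.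
CASE B: `2 ≠ 0`, exactly one coordinate vanishes, say `p = (p0, p1, 0)` (and the two permutations), `p' = r_0 = (-p0, p1, 0)`.  `(sq n)(p) = 0`, so `sq n ∈ P` and `Φ = P + span {z (p0 y + p1 x)}`.  For `f ∈ Φ * W`: `f(p) = f(p') = 0` and
   `(∂_z f)(p') = 0` [check for the generators `ν ∈ P` (`∂_z ν = 2 ν_2 z`) and `z (p0 y + p1 x)` (value of `p0 y + p1 x` at `p'` is `p0p1 - p1p0 = 0`); product rule].
   `w κ' ∈ Φ * W`, `w(p) ≠ 0`: `κ'(p) = 0`.  `f = l κ' κ'`: `l(p') κ'(p')^2 = 0` and `(∂_z l) κ'(p')^2 + 2 l(p') κ'(p') (∂_z κ')(p') = 0`.  `l = α (p1 x - p0 y) + β z` (`l(p) = 0`), `l(p') = -2 α p0 p1`.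
   If `κ'(p') ≠ 0`: `α = 0`, then `β = 0`, `l = 0`, no.  So `κ'(p') = 0 = κ'(p)`: `h'_2 = 0`, `(sq n')(p) = 0`, `sq n' ∈ P`.  `κ' ∈ KK l`: `α p1 h'_0 - α p0 h'_1 + β h'_2 = 0` (`mem_KK`), `h'` not a multiple of `p`: `p1 h'_0 - p0 h'_1 ≠ 0`, so
   `α = 0`, `l = β z`, `l κ' = β (z sq n' + z^2 (h'_0 y + h'_1 x)) ∈ P * H 1` (`z^2 ∈ P`).
Suggestion: prove the four cases as separate private lemmas (A', B for one position of the zero coordinate with a permutation of the variables, or three times).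
-/

namespace Pool.Agent.BR

open MvPolynomial Submodule Module

variable {K : Type*} [Field K]

/-! ### evaluation and derivatives -/

private theorem geo_esq (r d : Fin 3 → K) :
    eval r (sq d) = d 0 * r 0 ^ 2 + d 1 * r 1 ^ 2 + d 2 * r 2 ^ 2 := by
  simp only [sq, map_add, map_mul, eval_C, map_pow, eval_X]

private theorem geo_ecr (r h : Fin 3 → K) :
    eval r (cr h) = h 0 * (r 1 * r 2) + h 1 * (r 0 * r 2) + h 2 * (r 0 * r 1) := by
  simp only [cr, map_add, map_mul, eval_C, eval_X]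

private theorem geo_dsq (i : Fin 3) (r d : Fin 3 → K) :
    eval r (pderiv i (sq d)) = 2 * (r i * d i) := by
  fin_cases i <;> simp [sq, pderiv_X, Pi.single_apply, pderiv_pow, pderiv_mul] <;> ring

private theorem geo_dcr0 (r h : Fin 3 → K) :
    eval r (pderiv 0 (cr h)) = h 1 * r 2 + h 2 * r 1 := by
  simp [cr, pderiv_X, Pi.single_apply, pderiv_mul]

private theorem geo_dcr1 (r h : Fin 3 → K) :
    eval r (pderiv 1 (cr h)) = h 0 * r 2 + h 2 * r 0 := by
  simp [cr, pderiv_X, Pi.single_apply, pderiv_mul]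

private theorem geo_dcr2 (r h : Fin 3 → K) :
    eval r (pderiv 2 (cr h)) = h 0 * r 1 + h 1 * r 0 := by
  simp [cr, pderiv_X, Pi.single_apply, pderiv_mul]

private theorem geo_dlin (i : Fin 3) (r u : Fin 3 → K) : eval r (pderiv i (lin u)) = u i := by
  fin_cases i <;> simp [lin, pderiv_X, Pi.single_apply, pderiv_mul]

/-- functionals vanishing on the generators -/
private theorem geo_span {q q' κ : Pol K} (φ : Pol K →ₗ[K] K) (h1 : φ q = 0) (h2 : φ q' = 0) (h3 : φ κ = 0) :
    ∀ ν ∈ span K {q, q', κ}, φ ν = 0 := by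
  intro ν hν
  have h : span K {q, q', κ} ≤ LinearMap.ker φ := by
    rw [span_le]
    rintro _ (rfl | rfl | rfl)
    · exact h1
    · exact h2
    · exact h3
  exact h hν

private theorem geo_ev {q q' κ : Pol K} {r : Fin 3 → K} (h1 : eval r q = 0) (h2 : eval r q' = 0)
    (h3 : eval r κ = 0) : ∀ ν ∈ span K {q, q', κ}, eval r ν = 0 :=
  geo_span ((aeval r : Pol K →ₐ[K] K).toLinearMap) h1 h2 h3

private theorem geo_dv {q q' κ : Pol K} {r : Fin 3 → K} {i : Fin 3} (h1 : eval r (pderiv i q) = 0)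
    (h2 : eval r (pderiv i q') = 0) (h3 : eval r (pderiv i κ) = 0) :
    ∀ ν ∈ span K {q, q', κ}, eval r (pderiv i ν) = 0 :=
  geo_span ((aeval r : Pol K →ₐ[K] K).toLinearMap.comp (pderiv i : Derivation K (Pol K) (Pol K)).toLinearMap) h1 h2 h3

private theorem geo_ind {Φ W : Submodule K (Pol K)} {r : Fin 3 → K} (h0 : ∀ ν ∈ Φ, eval r ν = 0) {f : Pol K}
    (hf : f ∈ Φ * W) : eval r f = 0 := by
  refine Submodule.mul_induction_on hf ?_ ?_
  · intro m hm n hn
    rw [map_mul, h0 m hm, zero_mul]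
  · intro x y hx hy
    rw [map_add, hx, hy, add_zero]

private theorem geo_indd {Φ W : Submodule K (Pol K)} {r : Fin 3 → K} {i : Fin 3} (h0 : ∀ ν ∈ Φ, eval r ν = 0)
    (h1 : ∀ ν ∈ Φ, eval r (pderiv i ν) = 0) {f : Pol K} (hf : f ∈ Φ * W) : eval r (pderiv i f) = 0 := by
  refine Submodule.mul_induction_on hf ?_ ?_
  · intro m hm n hn
    rw [pderiv_mul, map_add, map_mul, map_mul, h0 m hm, h1 m hm, zero_mul, zero_mul, add_zero]
  · intro x y hx hy
    rw [map_add, map_add, hx, hy, add_zero]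

/-- parallel vectors -/
private theorem geo_par {p h : Fin 3 → K} (p0 : p ≠ 0) (c0 : h 1 * p 2 = h 2 * p 1) (c1 : h 0 * p 2 = h 2 * p 0)
    (c2 : h 0 * p 1 = h 1 * p 0) : ∃ r : K, h = r • p := by
  obtain ⟨i, hi⟩ := Function.ne_iff.1 p0
  have hi' : p i ≠ 0 := hi
  refine ⟨h i / p i, ?_⟩
  funext j
  rw [Pi.smul_apply, smul_eq_mul, div_mul_eq_mul_div, eq_div_iff hi']
  fin_cases i <;> fin_cases j <;> simp only [Fin.zero_eta, Fin.mk_one, Fin.reduceFinMk] <;> first
    | rfl
    | exact c0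
    | exact c0.symm
    | exact c1
    | exact c1.symm
    | exact c2
    | exact c2.symm

/-- `κ'` is singular at `p` -/
private theorem geo_sing {q q' κ κ' w : Pol K} {p : Fin 3 → K} {i : Fin 3}
    (qp : eval p q = 0) (qp' : eval p q' = 0) (kp : eval p κ = 0)
    (dq : eval p (pderiv i q) = 0) (dq' : eval p (pderiv i q') = 0) (dk : eval p (pderiv i κ) = 0)
    (hwp : eval p w ≠ 0) (hwκ : w * κ' ∈ span K {q, q', κ} * cubics K) : eval p (pderiv i κ') = 0 := by
  have h0 := geo_ev qp qp' kp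
  have h1 := geo_dv dq dq' dk
  have h2 := geo_ind h0 hwκ
  have h3 := geo_indd h0 h1 hwκ
  rw [map_mul] at h2
  have h4 : eval p κ' = 0 := (mul_eq_zero.1 h2).resolve_left hwp
  rw [pderiv_mul, map_add, map_mul, map_mul, h4, mul_zero, zero_add] at h3
  exact (mul_eq_zero.1 h3).resolve_left hwp

private theorem geo_N {ν : Pol K} (h : ν ∈ N K) : sq (dg ν) = ν := by
  have h1 := sq_add_cr (N_le h)
  rw [hat_of_N h] at h1
  have h3 : cr (0 : Fin 3 → K) = 0 := by simp [cr]
  rwa [h3, add_zero] at h1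

private theorem geo_esqp {κ : Pol K} {p : Fin 3 → K} (hκ : κ ∈ H K 2) (hp : hat κ = p)
    (kp : eval p κ = 4 * p 0 * p 1 * p 2) : eval p (sq (dg κ)) = p 0 * p 1 * p 2 := by
  have h1 : eval p (sq (dg κ) + cr p) = 4 * p 0 * p 1 * p 2 := by
    rw [← hp, sq_add_cr hκ, hp, kp]
  rw [map_add, geo_ecr] at h1
  linear_combination h1

private theorem geo_evalP {q q' : Pol K} {p : Fin 3 → K} (qp : eval p q = 0) (qp' : eval p q' = 0) {f : Pol K}
    (hf : f ∈ span K {q, q'}) : eval p f = 0 := by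
  obtain ⟨a, b, rfl⟩ := mem_span_pair.1 hf
  simp [smul_eq_C_mul, qp, qp']

private theorem geo_theta {p : Fin 3 → K} (p0 : p ≠ 0) : ∃ θ ∈ N K, eval p θ = 1 := by
  obtain ⟨i, hi⟩ := Function.ne_iff.1 p0
  have hi' : p i ≠ 0 := hi
  refine ⟨C ((p i ^ 2)⁻¹) * X i ^ 2, ?_, ?_⟩
  · rw [← smul_eq_C_mul]
    refine (N K).smul_mem _ (subset_span ?_)
    fin_cases i <;> simp
  · simp only [map_mul, eval_C, map_pow, eval_X]
    exact inv_mul_cancel₀ (pow_ne_zero 2 hi')

private theorem geo_memP {q q' : Pol K} {p : Fin 3 → K} (hq : q ∈ N K) (hq' : q' ∈ N K)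
    (rel : IsRelPrime q q') (p0 : p ≠ 0) (qp : eval p q = 0) (qp' : eval p q' = 0) {ν : Pol K}
    (hν : ν ∈ N K) (h : eval p ν = 0) : ν ∈ span K {q, q'} := by
  obtain ⟨κ0, hκ0, hκP, hN⟩ := exists_N_notMem hq hq' rel
  obtain ⟨θ, hθ, hθ1⟩ := geo_theta (K := K) p0
  have hk : eval p κ0 ≠ 0 := by
    intro h0
    rw [hN] at hθ
    obtain ⟨a, ha, b, hb, rfl⟩ := mem_sup.1 hθ
    obtain ⟨c, rfl⟩ := mem_span_singleton.1 hb
    rw [map_add, geo_evalP qp qp' ha, smul_eq_C_mul, map_mul, h0, mul_zero, add_zero] at hθ1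
    exact zero_ne_one hθ1
  rw [hN] at hν
  obtain ⟨a, ha, b, hb, rfl⟩ := mem_sup.1 hν
  obtain ⟨c, rfl⟩ := mem_span_singleton.1 hb
  rw [map_add, geo_evalP qp qp' ha, smul_eq_C_mul, map_mul, eval_C, zero_add] at h
  have hc : c = 0 := by
    rcases mul_eq_zero.1 h with h | h
    · exact h
    · exact absurd h hk
  rw [hc, zero_smul, add_zero]
  exact ha

private theorem geo_C {l q q' κ κ' : Pol K} {p : Fin 3 → K} (hl : l ∈ H K 1) (hq : q ∈ N K) (hq' : q' ∈ N K)
    (rel : IsRelPrime q q') (hκ : κ ∈ H K 2) (hp : hat κ = p) (qp : eval p q = 0) (qp' : eval p q' = 0)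
    (kp : eval p κ = 4 * p 0 * p 1 * p 2) (hκ' : κ' ∈ H K 2)
    (hnil : l * κ' * κ' ∈ span K {q, q', κ} * cubics K) (h2 : (2 : K) ≠ 0) (n0 : p 0 ≠ 0) (n1 : p 1 ≠ 0)
    (n2 : p 2 ≠ 0) : l * κ' ∈ span K {q, q', κ} * H K 1 := by
  set r : Fin 3 → Fin 3 → K := ![![-p 0, p 1, p 2], ![p 0, -p 1, p 2], ![p 0, p 1, -p 2]] with hr
  have hΦ : ∀ i, ∀ ν ∈ span K {q, q', κ}, eval (r i) ν = 0 := by
    intro i
    have hs : ∀ d : Fin 3 → K, eval (r i) (sq d) = eval p (sq d) := by
      intro d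
      rw [geo_esq, geo_esq]
      fin_cases i <;> simp [hr]
    refine geo_ev ?_ ?_ ?_
    · rw [← geo_N hq, hs, geo_N hq, qp]
    · rw [← geo_N hq', hs, geo_N hq', qp']
    · rw [← sq_add_cr hκ, map_add, hs, geo_esqp hκ hp kp, hp, geo_ecr]
      fin_cases i <;> simp [hr] <;> ring
  set φ : ↥(H K 3) →ₗ[K] (Fin 3 → K) :=
    LinearMap.pi fun i => (aeval (r i) : Pol K →ₐ[K] K).toLinearMap.comp (H K 3).subtype with hφ
  have hφa : ∀ (f : ↥(H K 3)) (i : Fin 3), φ f i = eval (r i) (f : Pol K) := fun f i => rfl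
  have hsurj : LinearMap.range φ = ⊤ := by
    rw [LinearMap.range_eq_top]
    intro v
    have hm : ∀ (c : K) (i : Fin 3) (u : Fin 3 → K), C c * (X i ^ 2 * lin u) ∈ H K 3 := by
      intro c i u
      rw [← smul_eq_C_mul]
      refine smul_mem _ _ ?_
      have hX : (X i ^ 2 : Pol K) ∈ H K 2 := by
        refine N_le (subset_span ?_)
        fin_cases i <;> simp
      exact mul_mem_H hX (lin_mem u)
    refine ⟨⟨C (v 0 / (2 * p 1 * p 2 * p 0 ^ 2)) * (X 0 ^ 2 * lin ![0, p 2, p 1]) +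
      C (v 1 / (2 * p 0 * p 2 * p 1 ^ 2)) * (X 1 ^ 2 * lin ![p 2, 0, p 0]) +
      C (v 2 / (2 * p 0 * p 1 * p 2 ^ 2)) * (X 2 ^ 2 * lin ![p 1, p 0, 0]),
      add_mem (add_mem (hm _ _ _) (hm _ _ _)) (hm _ _ _)⟩, ?_⟩
    funext i
    rw [hφa]
    simp only [map_add, map_mul, map_pow, eval_C, eval_X, eval_lin, dot]
    fin_cases i <;> simp [hr] <;> field_simp <;> ring
  have hker := LinearMap.finrank_range_add_finrank_ker φ
  rw [hsurj, finrank_top, finrank_H3, finrank_fin_fun] at hker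
  set M : Submodule K (Pol K) := (LinearMap.ker φ).map (H K 3).subtype with hM
  have hMm : ∀ f : Pol K, f ∈ M ↔ f ∈ H K 3 ∧ ∀ i, eval (r i) f = 0 := by
    intro f
    rw [hM, mem_map]
    constructor
    · rintro ⟨⟨g, hg⟩, h1, rfl⟩
      exact ⟨hg, fun i => congrFun h1 i⟩
    · rintro ⟨h1, h3⟩
      exact ⟨⟨f, h1⟩, funext h3, rfl⟩
  have hMf : finrank K ↥M = 7 := by
    rw [hM, finrank_map_subtype_eq]
    omega
  have hΦ2 : span K {q, q', κ} ≤ H K 2 := by
    rw [span_le]
    rintro _ (rfl | rfl | rfl)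
    · exact N_le hq
    · exact N_le hq'
    · exact hκ
  have hΦ3 : span K {q, q', κ} * H K 1 ≤ H K 3 := (mul_le_mul_left hΦ2 _).trans (H_mul_le 2 1)
  have hle : span K {q, q', κ} * H K 1 ≤ M := by
    intro f hf
    exact (hMm f).2 ⟨hΦ3 hf, fun i => geo_ind (hΦ i) hf⟩
  have hPΦ : span K {q, q'} ≤ span K {q, q', κ} := span_mono (by
    rintro _ (rfl | rfl)
    · left; rfl
    · right; left; rfl)
  have i1 : Module.Finite K ↥(span K {q, q', κ} * H K 1) := Submodule.finiteDimensional_of_le hΦ3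
  have hlt : span K {q, q'} * H K 1 < span K {q, q', κ} * H K 1 := by
    refine lt_of_le_of_ne (mul_le_mul_left hPΦ _) fun he => ?_
    have h3 : κ * X 0 ∈ span K {q, q', κ} * H K 1 := by
      refine mul_mem_mul (subset_span (by right; right; rfl)) ?_
      have := mono_mem' (K := K) (a := 1) (b := 0) (c := 0) (d := 1) rfl
      simpa using this
    rw [← he] at h3
    have h4 := geo_ind (fun ν hν => geo_evalP qp qp' hν) h3
    rw [map_mul, kp, eval_X] at h4
    have h44 : (4 : K) ≠ 0 := by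
      have : (4 : K) = 2 * 2 := by norm_num
      rw [this]
      exact mul_ne_zero h2 h2
    exact mul_ne_zero (mul_ne_zero (mul_ne_zero (mul_ne_zero h44 n0) n1) n2) n0 h4
  have h6 := finrank_lt_finrank_of_lt hlt
  rw [pair_H1 hq hq' rel] at h6
  have i2 : Module.Finite K ↥M := Submodule.finiteDimensional_of_le (fun f hf => ((hMm f).1 hf).1)
  have heq : span K {q, q', κ} * H K 1 = M := eq_of_le_of_finrank_le hle (by omega)
  rw [heq, hMm]
  refine ⟨mul_mem_H (a := 1) (b := 2) hl hκ', fun i => ?_⟩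
  have h7 := geo_ind (hΦ i) hnil
  rw [map_mul, map_mul] at h7
  rw [map_mul]
  rcases mul_eq_zero.1 h7 with h | h
  · exact h
  · rw [h, mul_zero]

private theorem geo_B0 {l q q' κ κ' w : Pol K} {p : Fin 3 → K} (hl : l ∈ H K 1) (l0 : l ≠ 0) (hq : q ∈ N K)
    (hq' : q' ∈ N K) (rel : IsRelPrime q q') (hκ : κ ∈ H K 2) (hp : hat κ = p) (p0 : p ≠ 0) (lp : eval p l = 0)
    (qp : eval p q = 0) (qp' : eval p q' = 0) (kp : eval p κ = 4 * p 0 * p 1 * p 2) (hκ' : κ' ∈ KK l)
    (hne : ∀ r : K, hat κ' ≠ r • p) (hnil : l * κ' * κ' ∈ span K {q, q', κ} * cubics K)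
    (hwp : eval p w ≠ 0) (hwκ : w * κ' ∈ span K {q, q', κ} * cubics K)
    (h2 : (2 : K) ≠ 0) (ni : p 0 = 0) (nj : p 1 ≠ 0) (nk : p 2 ≠ 0) :
    l * κ' ∈ span K {q, q'} * H K 1 := by
  obtain ⟨hκ2, hdot⟩ := (mem_KK hl).1 hκ'
  set u := lc l with hu
  set h := hat κ' with hh
  have hlu : l = lin u := (lin_lc hl).symm
  have hκe : κ' = sq (dg κ') + cr h := (sq_add_cr hκ2).symm
  set r : Fin 3 → K := ![p 0, -p 1, p 2] with hr
  have hs : ∀ d : Fin 3 → K, eval r (sq d) = eval p (sq d) := by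
    intro d
    rw [geo_esq, geo_esq]
    simp [hr]
  have hds : ∀ d : Fin 3 → K, eval r (pderiv 0 (sq d)) = 0 := by
    intro d
    rw [geo_dsq]
    simp [hr, ni]
  have e1 : ∀ ν ∈ span K {q, q', κ}, eval r ν = 0 := by
    refine geo_ev ?_ ?_ ?_
    · rw [← geo_N hq, hs, geo_N hq, qp]
    · rw [← geo_N hq', hs, geo_N hq', qp']
    · rw [← sq_add_cr hκ, map_add, hs, geo_esqp hκ hp kp, hp, geo_ecr]
      simp [hr, ni]
  have e2 : ∀ ν ∈ span K {q, q', κ}, eval r (pderiv 0 ν) = 0 := by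
    refine geo_dv ?_ ?_ ?_
    · rw [← geo_N hq, hds]
    · rw [← geo_N hq', hds]
    · rw [← sq_add_cr hκ, map_add, map_add, hds, hp, geo_dcr0]
      simp [hr]
      try ring
  have e3 : ∀ ν ∈ span K {q, q', κ}, eval p ν = 0 := geo_ev qp qp' (by rw [kp, ni]; ring)
  have k1 : eval r κ' = 0 := by
    by_contra hk
    have f1 := geo_ind e1 hnil
    have f2 := geo_indd e1 e2 hnil
    rw [map_mul, map_mul] at f1
    have f3 : eval r l = 0 := by
      rcases mul_eq_zero.1 f1 with f | f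
      · rcases mul_eq_zero.1 f with f | f
        · exact f
        · exact absurd f hk
      · exact absurd f hk
    rw [pderiv_mul, pderiv_mul, map_add, map_mul, map_add, map_mul, map_mul, map_mul, map_mul, f3] at f2
    have f4 : eval r (pderiv 0 l) * eval r κ' * eval r κ' = 0 := by linear_combination f2
    have f5 : eval r (pderiv 0 l) = 0 := by
      rcases mul_eq_zero.1 f4 with f | f
      · rcases mul_eq_zero.1 f with f | f
        · exact f
        · exact absurd f hk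
      · exact absurd f hk
    rw [hlu, geo_dlin] at f5
    rw [hlu, eval_lin, dot] at f3 lp
    simp [hr, ni] at f3
    rw [ni] at lp
    have f6 : u 2 = 0 := by
      have : 2 * p 2 * u 2 = 0 := by linear_combination f3 + lp
      exact (mul_eq_zero.1 this).resolve_left (mul_ne_zero h2 nk)
    have f7 : u 1 = 0 := by
      have : p 1 * u 1 = 0 := by linear_combination lp - p 2 * f6
      exact (mul_eq_zero.1 this).resolve_left nj
    apply l0
    rw [hlu, lin_eq_zero]
    funext a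
    fin_cases a
    · first | exact f5 | exact f6 | exact f7
    · first | exact f5 | exact f6 | exact f7
    · first | exact f5 | exact f6 | exact f7
  have k2 : eval p κ' = 0 := by
    have f1 := geo_ind e3 hwκ
    rw [map_mul] at f1
    exact (mul_eq_zero.1 f1).resolve_left hwp
  have g1 : eval p (sq (dg κ')) + h 0 * (p 1 * p 2) = 0 := by
    rw [hκe, map_add, geo_ecr, ni] at k2
    linear_combination k2
  have g2 : eval p (sq (dg κ')) - h 0 * (p 1 * p 2) = 0 := by
    rw [hκe, map_add, hs, geo_ecr] at k1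
    simp [hr, ni] at k1
    linear_combination k1
  have hi : h 0 = 0 := by
    have : 2 * (p 1 * p 2) * h 0 = 0 := by linear_combination g1 - g2
    exact (mul_eq_zero.1 this).resolve_left (mul_ne_zero h2 (mul_ne_zero nj nk))
  have hn : eval p (sq (dg κ')) = 0 := by
    rw [hi] at g1
    linear_combination g1
  have hne' : h 1 * p 2 - h 2 * p 1 ≠ 0 := by
    intro h0
    obtain ⟨c, hc⟩ := geo_par (p := p) (h := h) p0
      (by first | linear_combination h0 | (rw [hi, ni]; ring))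
      (by first | linear_combination h0 | (rw [hi, ni]; ring))
      (by first | linear_combination h0 | (rw [hi, ni]; ring))
    exact hne c hc
  have d1 : u 1 * h 1 + u 2 * h 2 = 0 := by
    have := hdot
    rw [dot, hi] at this
    linear_combination this
  have d2 : u 1 * p 1 + u 2 * p 2 = 0 := by
    have := lp
    rw [hlu, eval_lin, dot, ni] at this
    linear_combination this
  have uj : u 1 = 0 := by
    have : u 1 * (h 1 * p 2 - h 2 * p 1) = 0 := by linear_combination p 2 * d1 - h 2 * d2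
    exact (mul_eq_zero.1 this).resolve_right hne'
  have uk : u 2 = 0 := by
    have : u 2 * (h 1 * p 2 - h 2 * p 1) = 0 := by linear_combination h 1 * d2 - p 1 * d1
    exact (mul_eq_zero.1 this).resolve_right hne'
  have hX : (X 0 ^ 2 : Pol K) ∈ span K {q, q'} := by
    refine geo_memP hq hq' rel p0 qp qp' (subset_span (by simp)) ?_
    rw [map_pow, eval_X, ni]
    ring
  have hsq : sq (dg κ') ∈ span K {q, q'} := geo_memP hq hq' rel p0 qp qp' (sq_mem_N _) hn
  have hfin : l * κ' = sq (dg κ') * l + X 0 ^ 2 * lin ![0, u 0 * h 2, u 0 * h 1] := by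
    have e : l = C (u 0) * X 0 := by
      rw [hlu, lin, uj, uk, C_0]
      ring
    have e' : cr h = X 0 * (C (h 1) * X 2 + C (h 2) * X 1) := by
      rw [cr, hi, C_0]
      ring
    have e'' : lin ![0, u 0 * h 2, u 0 * h 1] = C (u 0) * (C (h 1) * X 2 + C (h 2) * X 1) := by
      simp only [lin, Matrix.cons_val_zero, Matrix.cons_val_one, Matrix.cons_val_two, Matrix.head_cons,
        Matrix.tail_cons, C_mul, C_0]
      ring
    calc l * κ' = l * (sq (dg κ') + cr h) := by rw [← hκe]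
      _ = sq (dg κ') * l + X 0 ^ 2 * lin ![0, u 0 * h 2, u 0 * h 1] := by
        rw [e', e'']
        rw [e]
        ring
  rw [hfin]
  exact add_mem (mul_mem_mul hsq hl) (mul_mem_mul hX (lin_mem _))

private theorem geo_B1 {l q q' κ κ' w : Pol K} {p : Fin 3 → K} (hl : l ∈ H K 1) (l0 : l ≠ 0) (hq : q ∈ N K)
    (hq' : q' ∈ N K) (rel : IsRelPrime q q') (hκ : κ ∈ H K 2) (hp : hat κ = p) (p0 : p ≠ 0) (lp : eval p l = 0)
    (qp : eval p q = 0) (qp' : eval p q' = 0) (kp : eval p κ = 4 * p 0 * p 1 * p 2) (hκ' : κ' ∈ KK l)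
    (hne : ∀ r : K, hat κ' ≠ r • p) (hnil : l * κ' * κ' ∈ span K {q, q', κ} * cubics K)
    (hwp : eval p w ≠ 0) (hwκ : w * κ' ∈ span K {q, q', κ} * cubics K)
    (h2 : (2 : K) ≠ 0) (ni : p 1 = 0) (nj : p 0 ≠ 0) (nk : p 2 ≠ 0) :
    l * κ' ∈ span K {q, q'} * H K 1 := by
  obtain ⟨hκ2, hdot⟩ := (mem_KK hl).1 hκ'
  set u := lc l with hu
  set h := hat κ' with hh
  have hlu : l = lin u := (lin_lc hl).symm
  have hκe : κ' = sq (dg κ') + cr h := (sq_add_cr hκ2).symm
  set r : Fin 3 → K := ![-p 0, p 1, p 2] with hr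
  have hs : ∀ d : Fin 3 → K, eval r (sq d) = eval p (sq d) := by
    intro d
    rw [geo_esq, geo_esq]
    simp [hr]
  have hds : ∀ d : Fin 3 → K, eval r (pderiv 1 (sq d)) = 0 := by
    intro d
    rw [geo_dsq]
    simp [hr, ni]
  have e1 : ∀ ν ∈ span K {q, q', κ}, eval r ν = 0 := by
    refine geo_ev ?_ ?_ ?_
    · rw [← geo_N hq, hs, geo_N hq, qp]
    · rw [← geo_N hq', hs, geo_N hq', qp']
    · rw [← sq_add_cr hκ, map_add, hs, geo_esqp hκ hp kp, hp, geo_ecr]
      simp [hr, ni]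
  have e2 : ∀ ν ∈ span K {q, q', κ}, eval r (pderiv 1 ν) = 0 := by
    refine geo_dv ?_ ?_ ?_
    · rw [← geo_N hq, hds]
    · rw [← geo_N hq', hds]
    · rw [← sq_add_cr hκ, map_add, map_add, hds, hp, geo_dcr1]
      simp [hr]
      try ring
  have e3 : ∀ ν ∈ span K {q, q', κ}, eval p ν = 0 := geo_ev qp qp' (by rw [kp, ni]; ring)
  have k1 : eval r κ' = 0 := by
    by_contra hk
    have f1 := geo_ind e1 hnil
    have f2 := geo_indd e1 e2 hnil
    rw [map_mul, map_mul] at f1
    have f3 : eval r l = 0 := by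
      rcases mul_eq_zero.1 f1 with f | f
      · rcases mul_eq_zero.1 f with f | f
        · exact f
        · exact absurd f hk
      · exact absurd f hk
    rw [pderiv_mul, pderiv_mul, map_add, map_mul, map_add, map_mul, map_mul, map_mul, map_mul, f3] at f2
    have f4 : eval r (pderiv 1 l) * eval r κ' * eval r κ' = 0 := by linear_combination f2
    have f5 : eval r (pderiv 1 l) = 0 := by
      rcases mul_eq_zero.1 f4 with f | f
      · rcases mul_eq_zero.1 f with f | f
        · exact f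
        · exact absurd f hk
      · exact absurd f hk
    rw [hlu, geo_dlin] at f5
    rw [hlu, eval_lin, dot] at f3 lp
    simp [hr, ni] at f3
    rw [ni] at lp
    have f6 : u 2 = 0 := by
      have : 2 * p 2 * u 2 = 0 := by linear_combination f3 + lp
      exact (mul_eq_zero.1 this).resolve_left (mul_ne_zero h2 nk)
    have f7 : u 0 = 0 := by
      have : p 0 * u 0 = 0 := by linear_combination lp - p 2 * f6
      exact (mul_eq_zero.1 this).resolve_left nj
    apply l0
    rw [hlu, lin_eq_zero]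
    funext a
    fin_cases a
    · first | exact f5 | exact f6 | exact f7
    · first | exact f5 | exact f6 | exact f7
    · first | exact f5 | exact f6 | exact f7
  have k2 : eval p κ' = 0 := by
    have f1 := geo_ind e3 hwκ
    rw [map_mul] at f1
    exact (mul_eq_zero.1 f1).resolve_left hwp
  have g1 : eval p (sq (dg κ')) + h 1 * (p 0 * p 2) = 0 := by
    rw [hκe, map_add, geo_ecr, ni] at k2
    linear_combination k2
  have g2 : eval p (sq (dg κ')) - h 1 * (p 0 * p 2) = 0 := by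
    rw [hκe, map_add, hs, geo_ecr] at k1
    simp [hr, ni] at k1
    linear_combination k1
  have hi : h 1 = 0 := by
    have : 2 * (p 0 * p 2) * h 1 = 0 := by linear_combination g1 - g2
    exact (mul_eq_zero.1 this).resolve_left (mul_ne_zero h2 (mul_ne_zero nj nk))
  have hn : eval p (sq (dg κ')) = 0 := by
    rw [hi] at g1
    linear_combination g1
  have hne' : h 0 * p 2 - h 2 * p 0 ≠ 0 := by
    intro h0
    obtain ⟨c, hc⟩ := geo_par (p := p) (h := h) p0
      (by first | linear_combination h0 | (rw [hi, ni]; ring))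
      (by first | linear_combination h0 | (rw [hi, ni]; ring))
      (by first | linear_combination h0 | (rw [hi, ni]; ring))
    exact hne c hc
  have d1 : u 0 * h 0 + u 2 * h 2 = 0 := by
    have := hdot
    rw [dot, hi] at this
    linear_combination this
  have d2 : u 0 * p 0 + u 2 * p 2 = 0 := by
    have := lp
    rw [hlu, eval_lin, dot, ni] at this
    linear_combination this
  have uj : u 0 = 0 := by
    have : u 0 * (h 0 * p 2 - h 2 * p 0) = 0 := by linear_combination p 2 * d1 - h 2 * d2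
    exact (mul_eq_zero.1 this).resolve_right hne'
  have uk : u 2 = 0 := by
    have : u 2 * (h 0 * p 2 - h 2 * p 0) = 0 := by linear_combination h 0 * d2 - p 0 * d1
    exact (mul_eq_zero.1 this).resolve_right hne'
  have hX : (X 1 ^ 2 : Pol K) ∈ span K {q, q'} := by
    refine geo_memP hq hq' rel p0 qp qp' (subset_span (by simp)) ?_
    rw [map_pow, eval_X, ni]
    ring
  have hsq : sq (dg κ') ∈ span K {q, q'} := geo_memP hq hq' rel p0 qp qp' (sq_mem_N _) hn
  have hfin : l * κ' = sq (dg κ') * l + X 1 ^ 2 * lin ![u 1 * h 2, 0, u 1 * h 0] := by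
    have e : l = C (u 1) * X 1 := by
      rw [hlu, lin, uj, uk, C_0]
      ring
    have e' : cr h = X 1 * (C (h 0) * X 2 + C (h 2) * X 0) := by
      rw [cr, hi, C_0]
      ring
    have e'' : lin ![u 1 * h 2, 0, u 1 * h 0] = C (u 1) * (C (h 0) * X 2 + C (h 2) * X 0) := by
      simp only [lin, Matrix.cons_val_zero, Matrix.cons_val_one, Matrix.cons_val_two, Matrix.head_cons,
        Matrix.tail_cons, C_mul, C_0]
      ring
    calc l * κ' = l * (sq (dg κ') + cr h) := by rw [← hκe]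
      _ = sq (dg κ') * l + X 1 ^ 2 * lin ![u 1 * h 2, 0, u 1 * h 0] := by
        rw [e', e'']
        rw [e]
        ring
  rw [hfin]
  exact add_mem (mul_mem_mul hsq hl) (mul_mem_mul hX (lin_mem _))

private theorem geo_B2 {l q q' κ κ' w : Pol K} {p : Fin 3 → K} (hl : l ∈ H K 1) (l0 : l ≠ 0) (hq : q ∈ N K)
    (hq' : q' ∈ N K) (rel : IsRelPrime q q') (hκ : κ ∈ H K 2) (hp : hat κ = p) (p0 : p ≠ 0) (lp : eval p l = 0)
    (qp : eval p q = 0) (qp' : eval p q' = 0) (kp : eval p κ = 4 * p 0 * p 1 * p 2) (hκ' : κ' ∈ KK l)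
    (hne : ∀ r : K, hat κ' ≠ r • p) (hnil : l * κ' * κ' ∈ span K {q, q', κ} * cubics K)
    (hwp : eval p w ≠ 0) (hwκ : w * κ' ∈ span K {q, q', κ} * cubics K)
    (h2 : (2 : K) ≠ 0) (ni : p 2 = 0) (nj : p 0 ≠ 0) (nk : p 1 ≠ 0) :
    l * κ' ∈ span K {q, q'} * H K 1 := by
  obtain ⟨hκ2, hdot⟩ := (mem_KK hl).1 hκ'
  set u := lc l with hu
  set h := hat κ' with hh
  have hlu : l = lin u := (lin_lc hl).symm
  have hκe : κ' = sq (dg κ') + cr h := (sq_add_cr hκ2).symm
  set r : Fin 3 → K := ![-p 0, p 1, p 2] with hr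
  have hs : ∀ d : Fin 3 → K, eval r (sq d) = eval p (sq d) := by
    intro d
    rw [geo_esq, geo_esq]
    simp [hr]
  have hds : ∀ d : Fin 3 → K, eval r (pderiv 2 (sq d)) = 0 := by
    intro d
    rw [geo_dsq]
    simp [hr, ni]
  have e1 : ∀ ν ∈ span K {q, q', κ}, eval r ν = 0 := by
    refine geo_ev ?_ ?_ ?_
    · rw [← geo_N hq, hs, geo_N hq, qp]
    · rw [← geo_N hq', hs, geo_N hq', qp']
    · rw [← sq_add_cr hκ, map_add, hs, geo_esqp hκ hp kp, hp, geo_ecr]
      simp [hr, ni]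
  have e2 : ∀ ν ∈ span K {q, q', κ}, eval r (pderiv 2 ν) = 0 := by
    refine geo_dv ?_ ?_ ?_
    · rw [← geo_N hq, hds]
    · rw [← geo_N hq', hds]
    · rw [← sq_add_cr hκ, map_add, map_add, hds, hp, geo_dcr2]
      simp [hr]
      try ring
  have e3 : ∀ ν ∈ span K {q, q', κ}, eval p ν = 0 := geo_ev qp qp' (by rw [kp, ni]; ring)
  have k1 : eval r κ' = 0 := by
    by_contra hk
    have f1 := geo_ind e1 hnil
    have f2 := geo_indd e1 e2 hnil
    rw [map_mul, map_mul] at f1
    have f3 : eval r l = 0 := by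
      rcases mul_eq_zero.1 f1 with f | f
      · rcases mul_eq_zero.1 f with f | f
        · exact f
        · exact absurd f hk
      · exact absurd f hk
    rw [pderiv_mul, pderiv_mul, map_add, map_mul, map_add, map_mul, map_mul, map_mul, map_mul, f3] at f2
    have f4 : eval r (pderiv 2 l) * eval r κ' * eval r κ' = 0 := by linear_combination f2
    have f5 : eval r (pderiv 2 l) = 0 := by
      rcases mul_eq_zero.1 f4 with f | f
      · rcases mul_eq_zero.1 f with f | f
        · exact f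
        · exact absurd f hk
      · exact absurd f hk
    rw [hlu, geo_dlin] at f5
    rw [hlu, eval_lin, dot] at f3 lp
    simp [hr, ni] at f3
    rw [ni] at lp
    have f6 : u 1 = 0 := by
      have : 2 * p 1 * u 1 = 0 := by linear_combination f3 + lp
      exact (mul_eq_zero.1 this).resolve_left (mul_ne_zero h2 nk)
    have f7 : u 0 = 0 := by
      have : p 0 * u 0 = 0 := by linear_combination lp - p 1 * f6
      exact (mul_eq_zero.1 this).resolve_left nj
    apply l0
    rw [hlu, lin_eq_zero]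
    funext a
    fin_cases a
    · first | exact f5 | exact f6 | exact f7
    · first | exact f5 | exact f6 | exact f7
    · first | exact f5 | exact f6 | exact f7
  have k2 : eval p κ' = 0 := by
    have f1 := geo_ind e3 hwκ
    rw [map_mul] at f1
    exact (mul_eq_zero.1 f1).resolve_left hwp
  have g1 : eval p (sq (dg κ')) + h 2 * (p 0 * p 1) = 0 := by
    rw [hκe, map_add, geo_ecr, ni] at k2
    linear_combination k2
  have g2 : eval p (sq (dg κ')) - h 2 * (p 0 * p 1) = 0 := by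
    rw [hκe, map_add, hs, geo_ecr] at k1
    simp [hr, ni] at k1
    linear_combination k1
  have hi : h 2 = 0 := by
    have : 2 * (p 0 * p 1) * h 2 = 0 := by linear_combination g1 - g2
    exact (mul_eq_zero.1 this).resolve_left (mul_ne_zero h2 (mul_ne_zero nj nk))
  have hn : eval p (sq (dg κ')) = 0 := by
    rw [hi] at g1
    linear_combination g1
  have hne' : h 0 * p 1 - h 1 * p 0 ≠ 0 := by
    intro h0
    obtain ⟨c, hc⟩ := geo_par (p := p) (h := h) p0
      (by first | linear_combination h0 | (rw [hi, ni]; ring))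
      (by first | linear_combination h0 | (rw [hi, ni]; ring))
      (by first | linear_combination h0 | (rw [hi, ni]; ring))
    exact hne c hc
  have d1 : u 0 * h 0 + u 1 * h 1 = 0 := by
    have := hdot
    rw [dot, hi] at this
    linear_combination this
  have d2 : u 0 * p 0 + u 1 * p 1 = 0 := by
    have := lp
    rw [hlu, eval_lin, dot, ni] at this
    linear_combination this
  have uj : u 0 = 0 := by
    have : u 0 * (h 0 * p 1 - h 1 * p 0) = 0 := by linear_combination p 1 * d1 - h 1 * d2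
    exact (mul_eq_zero.1 this).resolve_right hne'
  have uk : u 1 = 0 := by
    have : u 1 * (h 0 * p 1 - h 1 * p 0) = 0 := by linear_combination h 0 * d2 - p 0 * d1
    exact (mul_eq_zero.1 this).resolve_right hne'
  have hX : (X 2 ^ 2 : Pol K) ∈ span K {q, q'} := by
    refine geo_memP hq hq' rel p0 qp qp' (subset_span (by simp)) ?_
    rw [map_pow, eval_X, ni]
    ring
  have hsq : sq (dg κ') ∈ span K {q, q'} := geo_memP hq hq' rel p0 qp qp' (sq_mem_N _) hn
  have hfin : l * κ' = sq (dg κ') * l + X 2 ^ 2 * lin ![u 2 * h 1, u 2 * h 0, 0] := by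
    have e : l = C (u 2) * X 2 := by
      rw [hlu, lin, uj, uk, C_0]
      ring
    have e' : cr h = X 2 * (C (h 0) * X 1 + C (h 1) * X 0) := by
      rw [cr, hi, C_0]
      ring
    have e'' : lin ![u 2 * h 1, u 2 * h 0, 0] = C (u 2) * (C (h 0) * X 1 + C (h 1) * X 0) := by
      simp only [lin, Matrix.cons_val_zero, Matrix.cons_val_one, Matrix.cons_val_two, Matrix.head_cons,
        Matrix.tail_cons, C_mul, C_0]
      ring
    calc l * κ' = l * (sq (dg κ') + cr h) := by rw [← hκe]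
      _ = sq (dg κ') * l + X 2 ^ 2 * lin ![u 2 * h 1, u 2 * h 0, 0] := by
        rw [e', e'']
        rw [e]
        ring
  rw [hfin]
  exact add_mem (mul_mem_mul hsq hl) (mul_mem_mul hX (lin_mem _))

theorem geo {l q q' κ κ' : Pol K} {p : Fin 3 → K} (hl : l ∈ H K 1) (l0 : l ≠ 0) (hq : q ∈ N K) (hq' : q' ∈ N K)
    (rel : IsRelPrime q q') (hκ : κ ∈ H K 2) (hp : hat κ = p) (p0 : p ≠ 0) (lp : eval p l = 0)
    (qp : eval p q = 0) (qp' : eval p q' = 0) (kp : eval p κ = 4 * p 0 * p 1 * p 2) (hκ' : κ' ∈ KK l)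
    (hne : ∀ r : K, hat κ' ≠ r • p) (hnil : l * κ' * κ' ∈ span K {q, q', κ} * cubics K) {w : Pol K}
    (hw : w ∈ cubics K) (hwp : eval p w ≠ 0) (hwκ : w * κ' ∈ span K {q, q', κ} * cubics K) :
    l * κ' ∈ span K {q, q', κ} * H K 1 := by
  have hκ2 : κ' ∈ H K 2 := KK_le l hκ'
  have hPΦ : span K {q, q'} * H K 1 ≤ span K {q, q', κ} * H K 1 := mul_le_mul_left (span_mono (by
    rintro _ (rfl | rfl)
    · left; rfl
    · right; left; rfl)) _
  have hκe : sq (dg κ) + cr p = κ := by rw [← hp]; exact sq_add_cr hκ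
  have hκe' : sq (dg κ') + cr (hat κ') = κ' := sq_add_cr hκ2
  -- the derivatives at `p`, if `2 * p i = 0`
  have hds : ∀ i, 2 * p i = 0 → ∀ d : Fin 3 → K, eval p (pderiv i (sq d)) = 0 := by
    intro i hi d
    rw [geo_dsq, ← mul_assoc, hi, zero_mul]
  have hsing : eval p κ = 0 → ∀ i, 2 * p i = 0 → eval p (pderiv i (cr p)) = 0 →
      eval p (pderiv i (cr (hat κ'))) = 0 := by
    intro h0 i hi hc
    have h1 : eval p (pderiv i κ') = 0 := by
      refine geo_sing qp qp' h0 ?_ ?_ ?_ hwp hwκ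
      · rw [← geo_N hq, hds i hi]
      · rw [← geo_N hq', hds i hi]
      · rw [← hκe, map_add, map_add, hds i hi, hc, add_zero]
    rw [← hκe', map_add, map_add, hds i hi, zero_add] at h1
    exact h1
  have hnpar : ∀ P : Prop, (hat κ' 1 * p 2 = hat κ' 2 * p 1) → (hat κ' 0 * p 2 = hat κ' 2 * p 0) →
      (hat κ' 0 * p 1 = hat κ' 1 * p 0) → P := by
    intro P h0 h1 h3
    obtain ⟨c, hc⟩ := geo_par p0 h0 h1 h3
    exact absurd hc (hne c)
  by_cases h2 : (2 : K) = 0
  · -- case A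
    have h4 : eval p κ = 0 := by
      rw [kp]
      linear_combination (2 * p 0 * p 1 * p 2) * h2
    have s0 := hsing h4 0 (by rw [h2, zero_mul]) (by rw [geo_dcr0]; linear_combination (p 1 * p 2) * h2)
    have s1 := hsing h4 1 (by rw [h2, zero_mul]) (by rw [geo_dcr1]; linear_combination (p 0 * p 2) * h2)
    have s2 := hsing h4 2 (by rw [h2, zero_mul]) (by rw [geo_dcr2]; linear_combination (p 0 * p 1) * h2)
    rw [geo_dcr0] at s0
    rw [geo_dcr1] at s1
    rw [geo_dcr2] at s2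
    refine hnpar _ ?_ ?_ ?_
    · linear_combination s0 - (hat κ' 2 * p 1) * h2
    · linear_combination s1 - (hat κ' 2 * p 0) * h2
    · linear_combination s2 - (hat κ' 1 * p 0) * h2
  have hz : ∀ i, p i = 0 → 2 * p i = 0 := fun i hi => by rw [hi, mul_zero]
  by_cases n0 : p 0 = 0
  · have h4 : eval p κ = 0 := by rw [kp, n0]; ring
    by_cases n1 : p 1 = 0
    · have s0 := hsing h4 0 (hz 0 n0) (by rw [geo_dcr0, n1]; ring)
      have s1 := hsing h4 1 (hz 1 n1) (by rw [geo_dcr1, n0]; ring)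
      rw [geo_dcr0, n1] at s0
      rw [geo_dcr1, n0] at s1
      refine hnpar _ ?_ ?_ ?_
      · rw [n1]
        linear_combination s0
      · rw [n0]
        linear_combination s1
      · rw [n0, n1]
        ring
    by_cases n2 : p 2 = 0
    · have s0 := hsing h4 0 (hz 0 n0) (by rw [geo_dcr0, n2]; ring)
      have s2 := hsing h4 2 (hz 2 n2) (by rw [geo_dcr2, n0]; ring)
      rw [geo_dcr0, n2] at s0
      rw [geo_dcr2, n0] at s2
      refine hnpar _ ?_ ?_ ?_
      · rw [n2]
        linear_combination -s0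
      · rw [n0, n2]
        ring
      · rw [n0]
        linear_combination s2
    exact hPΦ (geo_B0 hl l0 hq hq' rel hκ hp p0 lp qp qp' kp hκ' hne hnil hwp hwκ h2 n0 n1 n2)
  by_cases n1 : p 1 = 0
  · have h4 : eval p κ = 0 := by rw [kp, n1]; ring
    by_cases n2 : p 2 = 0
    · have s1 := hsing h4 1 (hz 1 n1) (by rw [geo_dcr1, n2]; ring)
      have s2 := hsing h4 2 (hz 2 n2) (by rw [geo_dcr2, n1]; ring)
      rw [geo_dcr1, n2] at s1
      rw [geo_dcr2, n1] at s2
      refine hnpar _ ?_ ?_ ?_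
      · rw [n1, n2]
        ring
      · rw [n2]
        linear_combination -s1
      · rw [n1]
        linear_combination -s2
    exact hPΦ (geo_B1 hl l0 hq hq' rel hκ hp p0 lp qp qp' kp hκ' hne hnil hwp hwκ h2 n1 n0 n2)
  by_cases n2 : p 2 = 0
  · exact hPΦ (geo_B2 hl l0 hq hq' rel hκ hp p0 lp qp qp' kp hκ' hne hnil hwp hwκ h2 n2 n0 n1)
  exact geo_C hl hq hq' rel hκ hp qp qp' kp hκ2 hnil h2 n0 n1 n2

end Pool.Agent.BR
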