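import Pool.Agent.Work.MP_be705b_al.I_Con

set_option autoImplicit false
set_option linter.unusedSectionVars false
set_option linter.unusedVariables false

/-!
# MP_be705b_al, type I: module I_TAlg

Pure algebra for the line lemma.  `l, m ∈ H 1` vanish at `p`, `l ∤ m` (so they are independent and span `Λ_p`), `q ∈ N` vanishes at `p`, `l ∤ q`.  `U = mulS l (KK l) ⊔ span {q m}`.
Choose `x₀ ∈ H 1` with `x₀(p) ≠ 0`: `l, m, x₀` is a basis of `H 1`, every `f ∈ H (d+1)` with `f(p) = 0` is `l a + m b` (`a, b ∈ H d`).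
`H 3 = W + mulS l (H 2)` (`mulS l (H 2)` is not contained in `W`), `KK l * W = H 5`, `KK l * H 6 = H 8`.  So `U * W = mulS l (H 5) ⊔ mulS (q m) (H 3)`, `U * H 6 = mulS l (H 8) ⊔ mulS (q m) (H 6)`.
`q ≡ m n` mod `l` with `n ∈ H 1` (`q = l a + m b`, `b = n`), `n` not divisible by `l` (since `l ∤ q`).
Case `n(p) = 0`: `n ≡ α m` mod `l`, `α ≠ 0`, `q m ≡ α m^3`.  `u(p) = 0`: `u ≡ m b` mod `l`, `u^3 ≡ m^3 b^3`, so the first alternative.
Case `n(p) ≠ 0`: let `p' ≠ 0` with `l(p') = n(p') = 0` (`l, n` independent).  `m(p') ≠ 0` (else `p'` is a multiple of `p` and `n(p) = 0`), `p, p'` independent.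
 * elements of `U` vanish at `p'`: `q(p') = m(p') n(p') = 0`.  (They vanish at `p` too.)
 * `u(p) = u(p') = 0`: `u ≡ m b`, `b(p') = 0`, `b ≡ n b'` mod `l` [forms vanishing at `p'` are in `(l, n)`], so `u ≡ q b'`; `u'(p) = 0`: `u' ≡ m b''`; `u u' ≡ (q m) b' b''` mod `l`: in `U * W`.
 * `w x ∈ U * W`, `x(p) ≠ 0`, `x(p') ≠ 0`: `w x ≡ q m s ≡ m^2 n s` mod `l`.  `w(p) = 0`, `w ≡ m w₁`, cancel `m` mod `l` (`l` prime, `l ∤ m`): `w₁ x ≡ m n s`, `w₁(p) = 0`, `w₁ ≡ m w₂`, `w₂ x ≡ n s`,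
   `w₂(p') = 0`, `w₂ ∈ H 1`, `w₂ ≡ γ n`; so `w ≡ γ m^2 n ≡ γ q m` mod `l`, `w - γ q m ∈ W` is divisible by `l`: in `mulS l (KK l)`.
-/

namespace Pool.Agent.BR

open MvPolynomial Submodule Module

variable {K : Type*} [Field K]

/-- linear independence of `l` and `m` -/
theorem tl_li {l m : Pol K} (l0 : l ≠ 0) (lm : ¬ l ∣ m) : LinearIndependent K ![l, m] := by
  rw [LinearIndependent.pair_iff]
  intro x y hxy
  have hy : y = 0 := by
    by_contra hy
    apply lm
    refine ⟨C (-(y⁻¹ * x)), ?_⟩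
    have h1 : m = y⁻¹ • (y • m) := by rw [smul_smul, inv_mul_cancel₀ hy, one_smul]
    have h2 : y • m = -(x • l) := by linear_combination hxy
    rw [h1, h2, smul_neg, smul_smul, smul_eq_C_mul, C_neg]
    ring
  subst hy
  refine ⟨?_, rfl⟩
  rw [zero_smul, add_zero] at hxy
  exact (smul_eq_zero.1 hxy).resolve_right l0

/-- forms vanishing at the common zero of two independent linear forms -/
theorem tl_van_aux {l m x : Pol K} {p : Fin 3 → K} (hl : l ∈ H K 1) (hm : m ∈ H K 1) (hx : x ∈ H K 1)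
    (hli : LinearIndependent K ![l, m]) (lp : eval p l = 0) (mp : eval p m = 0) (xp : eval p x ≠ 0) (d : ℕ) :
    H K (d + 1) ≤ mulS l (H K d) ⊔ mulS m (H K d) ⊔ span K {x ^ (d + 1)} := by
  have h1 : H K 1 ≤ span K {l, m, x} := by
    have hli3 : LinearIndependent K ![l, m, x] := by
      rw [Fintype.linearIndependent_iff]
      intro g hg
      rw [Fin.sum_univ_three] at hg
      simp only [Matrix.cons_val_zero, Matrix.cons_val_one, Matrix.cons_val] at hg
      have h2 := congrArg (eval p) hg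
      simp only [map_add, smul_eval, lp, mp, mul_zero, zero_add, map_zero] at h2
      have h3 : g 2 = 0 := (mul_eq_zero.1 h2).resolve_right xp
      rw [h3, zero_smul, add_zero] at hg
      have h4 := (LinearIndependent.pair_iff.1 hli) _ _ hg
      intro i
      fin_cases i
      · exact h4.1
      · exact h4.2
      · exact h3
    have h5 : span K {l, m, x} ≤ H K 1 := by
      rw [span_le]
      rintro _ (rfl | rfl | rfl)
      · exact hl
      · exact hm
      · exact hx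
    have h6 : finrank K ↥(span K ({l, m, x} : Set (Pol K))) = 3 := by
      have h7 := finrank_span_eq_card hli3
      have h8 : Set.range ![l, m, x] = {l, m, x} := by
        rw [Matrix.range_cons, Matrix.range_cons, Matrix.range_cons, Matrix.range_empty, Set.union_empty]
        rfl
      rw [h8] at h7
      simpa using h7
    exact (Submodule.eq_of_le_of_finrank_le h5 (by rw [finrank_H1, h6])).ge
  have h2 : ∀ g ∈ H K 1, ∃ α β γ : K, g = C α * l + C β * m + C γ * x := by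
    intro g hg
    obtain ⟨α, z, hz, rfl⟩ := mem_span_insert.1 (h1 hg)
    obtain ⟨β, z', hz', rfl⟩ := mem_span_insert.1 hz
    obtain ⟨γ, rfl⟩ := mem_span_singleton.1 hz'
    exact ⟨α, β, γ, by simp only [smul_eq_C_mul]; ring⟩
  induction d with
  | zero =>
    intro g hg
    obtain ⟨α, β, γ, rfl⟩ := h2 g hg
    refine add_mem (mem_sup_left (add_mem (mem_sup_left ?_) (mem_sup_right ?_))) (mem_sup_right ?_)
    · rw [mul_comm]; exact mul_mem_mulS (mem_H0.2 ⟨α, rfl⟩)
    · rw [mul_comm]; exact mul_mem_mulS (mem_H0.2 ⟨β, rfl⟩)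
    · rw [zero_add, pow_one, ← smul_eq_C_mul]
      exact smul_mem _ _ (mem_span_singleton_self _)
  | succ d ih =>
    have e1 : H K (d + 1 + 1) = H K 1 * H K (d + 1) := by
      rw [H_mul, add_comm 1 (d + 1)]
    rw [e1, mul_le]
    intro g hg f hf
    obtain ⟨α, β, γ, rfl⟩ := h2 g hg
    obtain ⟨y, hy, z, hz, e2⟩ := mem_sup.1 (ih hf)
    obtain ⟨y1, hy1, y2, hy2, e3⟩ := mem_sup.1 hy
    obtain ⟨a, ha, rfl⟩ := mem_mulS.1 hy1
    obtain ⟨b, hb, rfl⟩ := mem_mulS.1 hy2
    obtain ⟨c, rfl⟩ := mem_span_singleton.1 hz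
    have hC : ∀ (k : K) {e : ℕ} {f : Pol K}, f ∈ H K e → C k * f ∈ H K e := by
      intro k e f hf
      rw [← smul_eq_C_mul]
      exact smul_mem _ _ hf
    have hxa : x * a ∈ H K (d + 1) := by
      have := mul_mem_H hx ha
      rwa [add_comm 1 d] at this
    have hxb : x * b ∈ H K (d + 1) := by
      have := mul_mem_H hx hb
      rwa [add_comm 1 d] at this
    have e4 : (C α * l + C β * m + C γ * x) * f = l * (C α * f + C γ * (x * a)) +
        m * (C β * f + C γ * (x * b)) + (γ * c) • x ^ (d + 1 + 1) := by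
      have e5 : x * f = l * (x * a) + m * (x * b) + C c * x ^ (d + 1 + 1) := by
        rw [← e2, ← e3, smul_eq_C_mul, pow_succ x (d + 1)]
        ring
      rw [smul_eq_C_mul, C_mul]
      linear_combination (C γ) * e5
    rw [e4]
    exact add_mem (mem_sup_left (add_mem (mem_sup_left (mul_mem_mulS (add_mem (hC _ hf) (hC _ hxa))))
      (mem_sup_right (mul_mem_mulS (add_mem (hC _ hf) (hC _ hxb))))))
      (mem_sup_right (smul_mem _ _ (mem_span_singleton_self _)))

theorem tl_van {l m : Pol K} {p : Fin 3 → K} (hl : l ∈ H K 1) (hm : m ∈ H K 1)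
    (hli : LinearIndependent K ![l, m]) (p0 : p ≠ 0) (lp : eval p l = 0) (mp : eval p m = 0) (d : ℕ)
    {f : Pol K} (hf : f ∈ H K (d + 1)) (fp : eval p f = 0) :
    ∃ a ∈ H K d, ∃ b ∈ H K d, f = l * a + m * b := by
  obtain ⟨x, hx, xp⟩ := exists_eval_ne p0 1
  obtain ⟨y, hy, z, hz, e2⟩ := mem_sup.1 (tl_van_aux hl hm hx hli lp mp xp d hf)
  obtain ⟨y1, hy1, y2, hy2, e3⟩ := mem_sup.1 hy
  obtain ⟨a, ha, rfl⟩ := mem_mulS.1 hy1
  obtain ⟨b, hb, rfl⟩ := mem_mulS.1 hy2
  obtain ⟨c, rfl⟩ := mem_span_singleton.1 hz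
  have h1 : eval p f = c * eval p x ^ (d + 1) := by
    rw [← e2, ← e3, map_add, map_add, map_mul, map_mul, lp, mp, smul_eval, map_pow]
    ring
  rw [fp] at h1
  have hc : c = 0 := (mul_eq_zero.1 h1.symm).resolve_right (pow_ne_zero _ xp)
  refine ⟨a, ha, b, hb, ?_⟩
  rw [← e2, ← e3, hc, zero_smul, add_zero]

/-- `H 3` is the sum of `cubics` and `l * H 2` -/
theorem tl_H3 {l : Pol K} (hl : l ∈ H K 1) (l0 : l ≠ 0) : H K 3 ≤ cubics K ⊔ mulS l (H K 2) := by
  obtain ⟨κ, hκ, hne⟩ : ∃ κ ∈ H K 2, cf 1 1 1 (l * κ) ≠ 0 := by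
    by_contra hcon
    push Not at hcon
    apply l0
    rw [← lin_lc hl, lin_eq_zero]
    have h1 : ∀ u : Fin 3 → K, dot (lc l) u = 0 := by
      intro u
      have h2 := hcon _ (cr_mem u)
      rw [← lin_lc hl, cf111_lin_mul, (cf_cr u).2] at h2
      exact h2
    ext i
    fin_cases i
    · have := h1 ![1, 0, 0]; simpa [dot] using this
    · have := h1 ![0, 1, 0]; simpa [dot] using this
    · have := h1 ![0, 0, 1]; simpa [dot] using this
  intro f hf
  have hlk : l * κ ∈ H K 3 := by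
    have := mul_mem_H hl hκ
    rwa [show 1 + 2 = 3 by norm_num] at this
  have e1 : f = (f - (cf 1 1 1 f / cf 1 1 1 (l * κ)) • (l * κ)) + l * ((cf 1 1 1 f / cf 1 1 1 (l * κ)) • κ) := by
    rw [mul_smul_comm]
    ring
  rw [e1]
  refine add_mem (mem_sup_left ?_) (mem_sup_right (mul_mem_mulS (smul_mem _ _ hκ)))
  rw [mem_cubics]
  refine ⟨sub_mem hf (smul_mem _ _ hlk), ?_⟩
  rw [map_sub, map_smul, smul_eq_mul, div_mul_cancel₀ _ hne, sub_self]

theorem tl_KK_mul {l : Pol K} (hl : l ∈ H K 1) (l0 : l ≠ 0) : KK l * cubics K = H K 5 := by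
  have h1 : ∃ κ ∈ KK l, κ ∉ N K := by
    by_contra hcon
    push Not at hcon
    have h2 : KK l = N K := le_antisymm hcon (N_le_KK hl)
    have h3 := finrank_KK1 hl l0
    rw [h2, finrank_N] at h3
    omega
  obtain ⟨κ, hκ, h0⟩ := h1
  exact mul_cubics_eq (N_le_KK hl) (KK_le l) hκ h0

theorem tl_KK_mul6 {l : Pol K} (hl : l ∈ H K 1) (l0 : l ≠ 0) : KK l * H K 6 = H K 8 := by
  have h1 : H K 6 = cubics K * H K 3 := by rw [cubics_mul_H]
  rw [h1, ← mul_assoc, tl_KK_mul hl l0, H_mul]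

section

variable {l q m : Pol K}

theorem tl_qm (hq : q ∈ N K) (hm : m ∈ H K 1) : q * m ∈ cubics K := by
  rw [← N_mul_H1]
  exact mul_mem_mul hq hm

theorem tl_UW (hl : l ∈ H K 1) (l0 : l ≠ 0) : (mulS l (KK l) ⊔ span K {q * m}) * cubics K =
    mulS l (H K 5) ⊔ mulS (q * m) (cubics K) := by
  rw [Submodule.sup_mul, mulS_mul, tl_KK_mul hl l0, span_mul_eq']

theorem tl_UH (hl : l ∈ H K 1) (l0 : l ≠ 0) : (mulS l (KK l) ⊔ span K {q * m}) * H K 6 =
    mulS l (H K 8) ⊔ mulS (q * m) (H K 6) := by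
  rw [Submodule.sup_mul, mulS_mul, tl_KK_mul6 hl l0, span_mul_eq']

theorem tl_mem_UW (hl : l ∈ H K 1) (l0 : l ≠ 0) (hq : q ∈ N K) (hm : m ∈ H K 1) {x s : Pol K}
    (hx : x ∈ H K 6) (hs : s ∈ H K 3) (hd : l ∣ x - q * m * s) :
    x ∈ (mulS l (KK l) ⊔ span K {q * m}) * cubics K := by
  have hqm : q * m ∈ H K 3 := cubics_le (tl_qm hq hm)
  obtain ⟨w, hw, z, hz, e1⟩ := mem_sup.1 (tl_H3 hl l0 hs)
  obtain ⟨κ, hκ, rfl⟩ := mem_mulS.1 hz
  rw [tl_UW hl l0]
  have h1 : x - q * m * s ∈ mulS l (H K 5) := by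
    refine mem_mulS_of_dvd (a := 1) (b := 5) hl l0 (sub_mem hx ?_) hd
    have := mul_mem_H hqm hs
    exact this
  have e2 : x = (x - q * m * s) + l * (q * m * κ) + q * m * w := by
    rw [← e1]
    ring
  rw [e2]
  refine add_mem (mem_sup_left (add_mem h1 (mul_mem_mulS ?_))) (mem_sup_right (mul_mem_mulS hw))
  have := mul_mem_H hqm hκ
  exact this

theorem tl_mem_UH (hl : l ∈ H K 1) (l0 : l ≠ 0) (hq : q ∈ N K) (hm : m ∈ H K 1) {x s : Pol K}
    (hx : x ∈ H K 9) (hs : s ∈ H K 6) (hd : l ∣ x - q * m * s) :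
    x ∈ (mulS l (KK l) ⊔ span K {q * m}) * H K 6 := by
  have hqm : q * m ∈ H K 3 := cubics_le (tl_qm hq hm)
  rw [tl_UH hl l0]
  have h1 : x - q * m * s ∈ mulS l (H K 8) := by
    refine mem_mulS_of_dvd (a := 1) (b := 8) hl l0 (sub_mem hx ?_) hd
    have := mul_mem_H hqm hs
    exact this
  have e2 : x = (x - q * m * s) + q * m * s := by ring
  rw [e2]
  exact add_mem (mem_sup_left h1) (mem_sup_right (mul_mem_mulS hs))

theorem tl_of_UW (hl : l ∈ H K 1) (l0 : l ≠ 0) {x : Pol K}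
    (hx : x ∈ (mulS l (KK l) ⊔ span K {q * m}) * cubics K) :
    ∃ r, ∃ s, x = l * r + q * m * s := by
  rw [tl_UW hl l0] at hx
  obtain ⟨y, hy, z, hz, rfl⟩ := mem_sup.1 hx
  obtain ⟨r, -, rfl⟩ := mem_mulS.1 hy
  obtain ⟨s, -, rfl⟩ := mem_mulS.1 hz
  exact ⟨r, s, rfl⟩

theorem tl_mem_U (hl : l ∈ H K 1) (l0 : l ≠ 0) (hq : q ∈ N K) (hm : m ∈ H K 1) {w : Pol K} (γ : K)
    (hw : w ∈ cubics K) (hd : l ∣ w - C γ * (q * m)) : w ∈ mulS l (KK l) ⊔ span K {q * m} := by
  have hqm : q * m ∈ cubics K := tl_qm hq hm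
  have h1 : w - C γ * (q * m) ∈ cubics K := by
    rw [← smul_eq_C_mul]
    exact sub_mem hw (smul_mem _ _ hqm)
  obtain ⟨κ, hκ, e1⟩ := exists_quot (a := 1) (b := 2) hl l0 (cubics_le h1) hd
  have h2 : κ ∈ KK l := (mem_KK' hl).2 ⟨hκ, by rw [← e1]; exact h1⟩
  have e2 : w = l * κ + γ • (q * m) := by
    rw [← e1, smul_eq_C_mul]
    ring
  rw [e2]
  exact add_mem (mem_sup_left (mul_mem_mulS h2)) (mem_sup_right (smul_mem _ _ (mem_span_singleton_self _)))

end

theorem tline_alg {l q m : Pol K} {p : Fin 3 → K} (hl : l ∈ H K 1) (l0 : l ≠ 0) (hq : q ∈ N K) (hm : m ∈ H K 1)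
    (lq : ¬ l ∣ q) (lm : ¬ l ∣ m) (p0 : p ≠ 0) (lp : eval p l = 0) (qp : eval p q = 0) (mp : eval p m = 0) :
    (∀ u ∈ cubics K, eval p u = 0 → u * u * u ∈ (mulS l (KK l) ⊔ span K {q * m}) * H K 6) ∨
    ∃ p' : Fin 3 → K, LinearIndependent K ![p, p'] ∧
      (∀ w ∈ mulS l (KK l) ⊔ span K {q * m}, eval p' w = 0) ∧
      (∀ u ∈ cubics K, ∀ u' ∈ cubics K, eval p u = 0 → eval p' u = 0 → eval p u' = 0 →
        u * u' ∈ (mulS l (KK l) ⊔ span K {q * m}) * cubics K) ∧
      (∀ w ∈ cubics K, ∀ x ∈ cubics K, eval p x ≠ 0 → eval p' x ≠ 0 →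
        w * x ∈ (mulS l (KK l) ⊔ span K {q * m}) * cubics K → w ∈ mulS l (KK l) ⊔ span K {q * m}) := by
  have hpr : Prime l := prime_lin hl l0
  have hlm : LinearIndependent K ![l, m] := tl_li l0 lm
  obtain ⟨a, ha, n, hn, eq⟩ := tl_van hl hm hlm p0 lp mp 1 (N_le hq) qp
  have ln : ¬ l ∣ n := by
    intro hd
    apply lq
    rw [eq]
    exact dvd_add (dvd_mul_right _ _) (hd.mul_left _)
  have hC : ∀ {e : ℕ} (k : K) {f : Pol K}, f ∈ H K e → C k * f ∈ H K e := by
    intro e k f hf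
    rw [← smul_eq_C_mul]
    exact smul_mem _ _ hf
  by_cases np : eval p n = 0
  · left
    obtain ⟨α, hα, β, hβ, en⟩ := tl_van hl hm hlm p0 lp mp 0 hn np
    obtain ⟨β, rfl⟩ := mem_H0.1 hβ
    have hβ0 : β ≠ 0 := by
      rintro rfl
      apply ln
      rw [en, map_zero, mul_zero, add_zero]
      exact dvd_mul_right _ _
    intro u hu up
    obtain ⟨a', ha', b', hb', eu⟩ := tl_van hl hm hlm p0 lp mp 2 (cubics_le hu) up
    have hu3 : u * u * u ∈ H K 9 := by
      have := mul_mem_H (mul_mem_H (cubics_le hu) (cubics_le hu)) (cubics_le hu)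
      exact this
    have hs : C β⁻¹ * (b' * b' * b') ∈ H K 6 := by
      refine hC _ ?_
      have := mul_mem_H (mul_mem_H hb' hb') hb'
      exact this
    refine tl_mem_UH hl l0 hq hm hu3 hs ?_
    have hββ : (C β : Pol K) * C β⁻¹ = 1 := by
      rw [← C_mul, mul_inv_cancel₀ hβ0, C_1]
    refine ⟨l ^ 2 * a' ^ 3 + 3 * l * a' ^ 2 * m * b' + 3 * a' * m ^ 2 * b' ^ 2 -
      (a + m * α) * m * (C β⁻¹ * (b' * b' * b')), ?_⟩
    rw [eq, en, eu]
    linear_combination (- m ^ 3 * b' ^ 3) * hββ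
  · right
    have hln : LinearIndependent K ![l, n] := tl_li l0 ln
    have hv := lc_li hl hn hln
    set p' := cross (lc l) (lc n) with hp'
    have p0' : p' ≠ 0 := cross_ne hv
    have lp' : eval p' l = 0 := by
      rw [← lin_lc hl, eval_lin, hp', dot_cross_left]
    have np' : eval p' n = 0 := by
      rw [← lin_lc hn, eval_lin, hp', dot_cross_right]
    have mp' : eval p' m ≠ 0 := by
      intro mp'
      have hv' := lc_li hl hm hlm
      have d1 : dot (lc l) p = 0 := by rw [← eval_lin, lin_lc hl, lp]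
      have d2 : dot (lc m) p = 0 := by rw [← eval_lin, lin_lc hm, mp]
      have d3 : dot (lc l) p' = 0 := by rw [← eval_lin, lin_lc hl, lp']
      have d4 : dot (lc m) p' = 0 := by rw [← eval_lin, lin_lc hm, mp']
      obtain ⟨c, hc⟩ := eq_smul_cross hv' d1 d2
      obtain ⟨c', hc'⟩ := eq_smul_cross hv' d3 d4
      have hc0 : c' ≠ 0 := by
        rintro rfl
        rw [zero_smul] at hc'
        exact p0' hc'
      apply np
      have e1 : p = (c * c'⁻¹) • p' := by
        rw [hc', smul_smul, mul_assoc, inv_mul_cancel₀ hc0, mul_one, ← hc]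
      have e2 : eval p n = (c * c'⁻¹) * eval p' n := by
        rw [← lin_lc hn, eval_lin, eval_lin, e1]
        simp only [dot, Pi.smul_apply, smul_eq_mul]
        ring
      rw [e2, np', mul_zero]
    have hmlin : ∀ x y : K, eval (x • p + y • p') m = x * eval p m + y * eval p' m := by
      intro x y
      rw [← lin_lc hm, eval_lin, eval_lin, eval_lin]
      simp only [dot, Pi.add_apply, Pi.smul_apply, smul_eq_mul]
      ring
    have hpp : LinearIndependent K ![p, p'] := by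
      rw [LinearIndependent.pair_iff]
      intro x y hxy
      have h1 := hmlin x y
      rw [hxy, mp, mul_zero, zero_add] at h1
      have h2 : eval (0 : Fin 3 → K) m = 0 := by
        rw [← lin_lc hm, eval_lin]
        simp [dot]
      rw [h2] at h1
      have hy : y = 0 := (mul_eq_zero.1 h1.symm).resolve_right mp'
      subst hy
      rw [zero_smul, add_zero] at hxy
      exact ⟨(smul_eq_zero.1 hxy).resolve_right p0, rfl⟩
    refine ⟨p', hpp, ?_, ?_, ?_⟩
    · intro w hw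
      obtain ⟨y, hy, z, hz, rfl⟩ := mem_sup.1 hw
      obtain ⟨κ, -, rfl⟩ := mem_mulS.1 hy
      obtain ⟨c, rfl⟩ := mem_span_singleton.1 hz
      rw [map_add, map_mul, lp', smul_eval, map_mul, eq, map_add, map_mul, map_mul, lp', np']
      ring
    · intro u hu u' hu' up up' u'p
      obtain ⟨a1, ha1, b1, hb1, eu⟩ := tl_van hl hm hlm p0 lp mp 2 (cubics_le hu) up
      have hb1p : eval p' b1 = 0 := by
        have h1 := up'
        rw [eu, map_add, map_mul, map_mul, lp', zero_mul, zero_add] at h1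
        exact (mul_eq_zero.1 h1).resolve_left mp'
      obtain ⟨a2, ha2, b2, hb2, eb1⟩ := tl_van hl hn hln p0' lp' np' 1 hb1 hb1p
      obtain ⟨a3, ha3, b3, hb3, eu'⟩ := tl_van hl hm hlm p0 lp mp 2 (cubics_le hu') u'p
      have hx : u * u' ∈ H K 6 := by
        have := mul_mem_H (cubics_le hu) (cubics_le hu')
        exact this
      have hs : b2 * b3 ∈ H K 3 := by
        have := mul_mem_H hb2 hb3
        exact this
      refine tl_mem_UW hl l0 hq hm hx hs ?_
      refine ⟨a1 * (l * a3 + m * b3) + m * b1 * a3 + m * a2 * m * b3 - a * m * (b2 * b3), ?_⟩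
      rw [eq, eu, eu', eb1]
      ring
    · intro w hw x hx xp xp' hwx
      obtain ⟨r, s, e1⟩ := tl_of_UW hl l0 hwx
      have wp : eval p w = 0 := by
        have h1 := congrArg (eval p) e1
        rw [map_mul, map_add, map_mul, map_mul, map_mul, lp, qp] at h1
        have h2 : eval p w * eval p x = 0 := by rw [h1]; ring
        exact (mul_eq_zero.1 h2).resolve_right xp
      obtain ⟨a1, ha1, b1, hb1, ew⟩ := tl_van hl hm hlm p0 lp mp 2 (cubics_le hw) wp
      have d1 : l ∣ b1 * x - m * n * s := by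
        have h1 : l ∣ m * (b1 * x - m * n * s) := by
          refine ⟨r + a * m * s - a1 * x, ?_⟩
          rw [ew, eq] at e1
          linear_combination e1
        exact (hpr.dvd_or_dvd h1).resolve_left lm
      have hb1p : eval p b1 = 0 := by
        obtain ⟨g, hg⟩ := d1
        have h1 := congrArg (eval p) hg
        rw [map_sub, map_mul, map_mul, map_mul, map_mul, lp, mp] at h1
        have h2 : eval p b1 * eval p x = 0 := by linear_combination h1
        exact (mul_eq_zero.1 h2).resolve_right xp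
      obtain ⟨a2, ha2, b2, hb2, eb1⟩ := tl_van hl hm hlm p0 lp mp 1 hb1 hb1p
      have d2 : l ∣ b2 * x - n * s := by
        have h1 : l ∣ m * (b2 * x - n * s) := by
          obtain ⟨g, hg⟩ := d1
          refine ⟨g - a2 * x, ?_⟩
          rw [eb1] at hg
          linear_combination hg
        exact (hpr.dvd_or_dvd h1).resolve_left lm
      have hb2p : eval p' b2 = 0 := by
        obtain ⟨g, hg⟩ := d2
        have h1 := congrArg (eval p') hg
        rw [map_sub, map_mul, map_mul, map_mul, lp', np'] at h1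
        have h2 : eval p' b2 * eval p' x = 0 := by linear_combination h1
        exact (mul_eq_zero.1 h2).resolve_right xp'
      obtain ⟨a3, ha3, b3, hb3, eb2⟩ := tl_van hl hn hln p0' lp' np' 0 hb2 hb2p
      obtain ⟨γ, rfl⟩ := mem_H0.1 hb3
      refine tl_mem_U hl l0 hq hm γ hw ?_
      refine ⟨a1 + m * a2 + m * m * a3 - C γ * a * m, ?_⟩
      rw [ew, eq, eb1, eb2]
      ring

/-- dimensions -/
theorem tline_dim {l q m : Pol K} (hl : l ∈ H K 1) (l0 : l ≠ 0) (hq : q ∈ N K) (hm : m ∈ H K 1)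
    (lq : ¬ l ∣ q) (lm : ¬ l ∣ m) :
    finrank K ↥(mulS l (KK l) ⊔ span K {q * m}) = 6 ∧
    finrank K ↥((mulS l (KK l) ⊔ span K {q * m}) * cubics K) = 25 ∧
    finrank K ↥((mulS l (KK l) ⊔ span K {q * m}) * H K 6) = 52 := by
  have hpr : Prime l := prime_lin hl l0
  have q0 : q ≠ 0 := by
    rintro rfl
    exact lq (dvd_zero _)
  have m0 : m ≠ 0 := by
    rintro rfl
    exact lm (dvd_zero _)
  have qm0 : q * m ≠ 0 := mul_ne_zero q0 m0
  have lqm : ¬ l ∣ q * m := by
    intro h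
    exact (hpr.dvd_or_dvd h).elim lq lm
  have hqm : q * m ∈ H K 3 := cubics_le (tl_qm hq hm)
  have hfin : ∀ {M : Submodule K (Pol K)} (d : ℕ), M ≤ H K d → Module.Finite K ↥M := by
    intro M d h
    exact Submodule.finiteDimensional_of_le h
  refine ⟨?_, ?_, ?_⟩
  · have hle : mulS l (KK l) ≤ H K 3 := by
      refine (mulS_mono (KK_le l)).trans ?_
      exact mulS_H_le (d := 1) (e := 2) hl
    have i1 : Module.Finite K ↥(mulS l (KK l)) := hfin 3 hle
    have h1 := finrank_sup_add_finrank_inf_eq (mulS l (KK l)) (span K {q * m})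
    have h2 : mulS l (KK l) ⊓ span K {q * m} = ⊥ := by
      rw [eq_bot_iff]
      rintro x ⟨hx1, hx2⟩
      obtain ⟨c, rfl⟩ := mem_span_singleton.1 hx2
      by_cases hc : c = 0
      · rw [hc, zero_smul]
        exact zero_mem _
      · exfalso
        apply lqm
        obtain ⟨κ, -, hκ⟩ := mem_mulS.1 hx1
        refine ⟨C c⁻¹ * κ, ?_⟩
        have h3 : (C c⁻¹ : Pol K) * C c = 1 := by
          rw [← C_mul, inv_mul_cancel₀ hc, C_1]
        rw [smul_eq_C_mul] at hκ
        linear_combination (C c⁻¹) * (-hκ) - (q * m) * h3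
    rw [h2, finrank_bot, finrank_mulS l0, finrank_KK1 hl l0, finrank_span_singleton qm0] at h1
    omega
  · rw [tl_UW hl l0]
    have i1 : Module.Finite K ↥(mulS l (H K 5)) := hfin 6 (mulS_H_le (d := 1) (e := 5) hl)
    have i2 : Module.Finite K ↥(mulS (q * m) (cubics K)) :=
      hfin 6 ((mulS_mono cubics_le).trans (mulS_H_le (d := 3) (e := 3) hqm))
    have h1 := finrank_sup_add_finrank_inf_eq (mulS l (H K 5)) (mulS (q * m) (cubics K))
    have h2 : mulS l (H K 5) ⊓ mulS (q * m) (cubics K) = mulS (q * m) (mulS l (KK l)) := by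
      apply le_antisymm
      · rintro x ⟨hx1, hx2⟩
        obtain ⟨g, hg, e1⟩ := mem_mulS.1 hx1
        obtain ⟨w, hw, rfl⟩ := mem_mulS.1 hx2
        have h3 : l ∣ w := (hpr.dvd_or_dvd (⟨g, e1.symm⟩ : l ∣ q * m * w)).resolve_left lqm
        obtain ⟨κ, hκ, e2⟩ := exists_quot (a := 1) (b := 2) hl l0 (cubics_le hw) h3
        refine mul_mem_mulS ?_
        rw [e2]
        exact mul_mem_mulS ((mem_KK' hl).2 ⟨hκ, by rw [← e2]; exact hw⟩)
      · intro x hx
        obtain ⟨y, hy, rfl⟩ := mem_mulS.1 hx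
        obtain ⟨κ, hκ, rfl⟩ := mem_mulS.1 hy
        refine ⟨?_, mul_mem_mulS (mul_KK_mem hl hκ)⟩
        have e3 : q * m * (l * κ) = l * (q * m * κ) := by ring
        rw [SetLike.mem_coe, e3]
        refine mul_mem_mulS ?_
        exact mul_mem_H hqm (KK_le l hκ)
    rw [h2, finrank_mulS qm0, finrank_mulS l0, finrank_KK1 hl l0, finrank_mulS l0, finrank_H5,
      finrank_mulS qm0, finrank_cubics] at h1
    omega
  · rw [tl_UH hl l0]
    have i1 : Module.Finite K ↥(mulS l (H K 8)) := hfin 9 (mulS_H_le (d := 1) (e := 8) hl)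
    have i2 : Module.Finite K ↥(mulS (q * m) (H K 6)) := hfin 9 (mulS_H_le (d := 3) (e := 6) hqm)
    have h1 := finrank_sup_add_finrank_inf_eq (mulS l (H K 8)) (mulS (q * m) (H K 6))
    have h2 : mulS l (H K 8) ⊓ mulS (q * m) (H K 6) = mulS (q * m) (mulS l (H K 5)) := by
      apply le_antisymm
      · rintro x ⟨hx1, hx2⟩
        obtain ⟨g, hg, e1⟩ := mem_mulS.1 hx1
        obtain ⟨w, hw, rfl⟩ := mem_mulS.1 hx2
        have h3 : l ∣ w := (hpr.dvd_or_dvd (⟨g, e1.symm⟩ : l ∣ q * m * w)).resolve_left lqm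
        exact mul_mem_mulS (mem_mulS_of_dvd (a := 1) (b := 5) hl l0 hw h3)
      · intro x hx
        obtain ⟨y, hy, rfl⟩ := mem_mulS.1 hx
        refine ⟨?_, mul_mem_mulS (mulS_H_le (d := 1) (e := 5) hl hy)⟩
        obtain ⟨κ, hκ, rfl⟩ := mem_mulS.1 hy
        have e3 : q * m * (l * κ) = l * (q * m * κ) := by ring
        rw [SetLike.mem_coe, e3]
        refine mul_mem_mulS ?_
        exact mul_mem_H hqm hκ
    rw [h2, finrank_mulS qm0, finrank_mulS l0, finrank_H5, finrank_mulS l0, finrank_H8,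
      finrank_mulS qm0, finrank_H6] at h1
    omega

end Pool.Agent.BR
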