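import Pool.Agent.Work.MP_be705b_al.I_TAlg
import Pool.Agent.Work.MP_be705b_al.I_CStar

set_option autoImplicit false
set_option linter.unusedSectionVars false
set_option linter.unusedVariables false

/-!
# MP_be705b_al, type I: module I_TLine

The line lemma.  `U = mulS l (KK l) ⊔ span {q m} ∈ LL`, `out U = {c, x, y}`; `cl 2 = 28 - 25 = 3`, `cl 3 = 55 - 52 = 3` (`tline_dim`, `Fl.cl2`, `Fl.cl3`).  `c` is a loop (`IsC.loop`).
First alternative of `tline_alg`: `x, y` are no loops (`IsC.isIn` gives `u` with initial variable `x`, `u(p) = 0`; `Fl.g2_cube`); then the counts give `c ~ x`, `c ~ y` (3 edges, 3 triangles).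
Second alternative: `p'`, let `c'` with `IsC t p' c'` (`exists_isC`, `p' ≠ 0`); `c' ∈ out U`.
 * `c' = c`: `x, y` are no loops: if `x < c`, then `t x` vanishes at `p` and `p'`, `t x * t x ∈ U * W`, `Fl.g2` (`IsIn (t x) x`).  If `x > c`: `U' = U ⊔ V (c+1) ∈ LL` (`Fl.llSupV`), `x ∈ out U'`
   (`inn_sup_V`), and `U' * W = H 6`: `U' ∋ t c`, `{w ∈ W | w * t c ∈ U * W} ≤ U` (third property), so `dim (U * W + (t c) W) ≥ 25 + 9 - 6 = 28`; so `t x * t x ∈ U' * W`, `Fl.g2`.  Then as before.
 * `c' ≠ c`: say `c' = x` (or `y`).  `y`: `isIn2` gives `u` with initial variable `y`, `u(p) = u(p') = 0`: `u * u ∈ U * W`: `y` no loop; `u'` with initial variable `c'`, `u'(p) = 0` (`IsC.isIn` with `v = c'`):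
   `u * u' ∈ U * W`: `y ≁ c'`.  `c, c'` loops.  Counts (3 edges, 3 triangles): `c ≁ c'` (else 4 triangles) and `c ~ y`.
Graph part: `cl3_bits` + `decide`.
-/

namespace Pool.Agent.BR

open MvPolynomial Submodule Module

variable {K : Type*} [Field K]

variable {t : Fin 9 → Pol K}

theorem graphT {c x y : Fin 9} (h1 : c ≠ x) (h2 : c ≠ y) (h3 : x ≠ y) (hc : Adj K t c c)
    (c2 : cl K t 2 {c, x, y} = 3) (c3 : cl K t 3 {c, x, y} = 3) (hx : ¬ Adj K t x x) (hy : ¬ Adj K t y y) :
    Adj K t c x ∧ Adj K t c y ∧ ¬ Adj K t x y := by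
  rw [cl3_bits h1 h2 h3] at c2 c3
  rw [← adjB_true, ← adjB_true, ← adjB_false]
  rw [← adjB_true] at hc
  rw [← adjB_false] at hx hy
  rw [hc, hx, hy] at c2 c3
  generalize adjB K t c x = x1 at *
  generalize adjB K t c y = x2 at *
  generalize adjB K t x y = x3 at *
  clear hc hx hy
  revert x1 x2 x3
  decide

theorem graphT' {c x y : Fin 9} (h1 : c ≠ x) (h2 : c ≠ y) (h3 : x ≠ y) (hc : Adj K t c c)
    (c2 : cl K t 2 {c, x, y} = 3) (c3 : cl K t 3 {c, x, y} = 3) (hx : Adj K t x x) (hy : ¬ Adj K t y y)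
    (hxy : ¬ Adj K t x y) : ¬ Adj K t c x ∧ Adj K t c y := by
  rw [cl3_bits h1 h2 h3] at c2 c3
  rw [← adjB_false, ← adjB_true]
  rw [← adjB_true] at hc hx
  rw [← adjB_false] at hy hxy
  rw [hc, hx, hy, hxy] at c2 c3
  generalize adjB K t c x = x1 at *
  generalize adjB K t c y = x2 at *
  clear hc hx hy hxy
  revert x1 x2
  decide

theorem tline (h : Fl t) {l q m : Pol K} {p : Fin 3 → K} (hl : l ∈ H K 1) (l0 : l ≠ 0) (hq : q ∈ N K)
    (hm : m ∈ H K 1) (lq : ¬ l ∣ q) (lm : ¬ l ∣ m) (p0 : p ≠ 0) (lp : eval p l = 0) (qp : eval p q = 0)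
    (mp : eval p m = 0) (hLL : LL K t (mulS l (KK l) ⊔ span K {q * m})) {c x y : Fin 9} (hc : IsC t p c)
    (ho : out K t (mulS l (KK l) ⊔ span K {q * m}) = {c, x, y}) (h1 : c ≠ x) (h2 : c ≠ y) (h3 : x ≠ y) :
    (¬ Adj K t x x ∧ ¬ Adj K t y y ∧ Adj K t c x ∧ Adj K t c y) ∨
    (Adj K t x x ∧ ¬ Adj K t y y ∧ ¬ Adj K t c x ∧ Adj K t c y ∧ ¬ Adj K t x y) ∨
    (Adj K t y y ∧ ¬ Adj K t x x ∧ ¬ Adj K t c y ∧ Adj K t c x ∧ ¬ Adj K t x y) := by
  have hU : mulS l (KK l) ⊔ span K {q * m} ≤ cubics K := by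
    refine sup_le ?_ ?_
    · intro w hw
      obtain ⟨κ, hκ, rfl⟩ := mem_mulS.1 hw
      exact mul_KK_mem hl hκ
    · rw [span_singleton_le_iff_mem]
      exact tl_qm hq hm
  obtain ⟨d1, d2, d3⟩ := tline_dim hl l0 hq hm lq lm
  have halg := tline_alg hl l0 hq hm lq lm p0 lp qp mp
  generalize mulS l (KK l) ⊔ span K {q * m} = U at *
  have c2 : cl K t 2 {c, x, y} = 3 := by
    have := h.cl2 hU hLL
    rw [ho] at this
    omega
  have c3 : cl K t 3 {c, x, y} = 3 := by
    have := h.cl3 hU hLL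
    rw [ho] at this
    omega
  have hcc : Adj K t c c := hc.loop h
  have xo : x ∈ out K t U := by rw [ho]; simp
  have yo : y ∈ out K t U := by rw [ho]; simp
  have hin : ∀ z : Fin 9, IsIn K t (t z) z := fun z =>
    ⟨t_mem (Nat.lt_succ_self _), t_notMem h.li z⟩
  have left : ¬ Adj K t x x → ¬ Adj K t y y →
      (¬ Adj K t x x ∧ ¬ Adj K t y y ∧ Adj K t c x ∧ Adj K t c y) := by
    intro hx hy
    obtain ⟨e1, e2, -⟩ := graphT h1 h2 h3 hcc c2 c3 hx hy
    exact ⟨hx, hy, e1, e2⟩
  rcases halg with halg | ⟨p', hpp, hv, hmul, hthird⟩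
  · left
    have key : ∀ z : Fin 9, z ≠ c → z ∈ out K t U → ¬ Adj K t z z := by
      intro z hz hzo
      obtain ⟨u, hu, hui, up⟩ := hc.isIn h hz
      exact h.g2_cube hU hLL hui hzo (halg u hu up)
    exact left (key x h1.symm xo) (key y h2.symm yo)
  · have p0' : p' ≠ 0 := hpp.ne_zero 1
    obtain ⟨c', hc'⟩ := exists_isC h p0'
    have hc'o := hc'.mem_out hv
    rw [ho, Finset.mem_insert, Finset.mem_insert, Finset.mem_singleton] at hc'o
    rcases hc'o with rfl | rfl | rfl
    · left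
      have key : ∀ z : Fin 9, z ≠ c' → z ∈ out K t U → ¬ Adj K t z z := by
        intro z hz hzo
        rcases lt_or_gt_of_ne hz with hlt | hlt
        · exact h.g2 hU hLL (hin z) (hin z) hzo hzo
            (hmul _ (h.mem z) _ (h.mem z) (hc.2 z hlt) (hc'.2 z hlt) (hc.2 z hlt))
        · have hU' : U ⊔ V K t ((c' : ℕ) + 1) ≤ cubics K := sup_le hU (h.V_le _)
          have hL' := h.llSupV hU hLL ((c' : ℕ) + 1)
          have zo' : z ∈ out K t (U ⊔ V K t ((c' : ℕ) + 1)) := by
            rw [← notMem_inn, inn_sup_V h.li]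
            rintro (h5 | h5)
            · exact notMem_inn.2 hzo h5
            · have : (c' : ℕ) < z := hlt
              omega
          have htop : H K 6 ≤ (U ⊔ V K t ((c' : ℕ) + 1)) * cubics K := by
            have e1 : U * cubics K ⊔ mulS (t c') (cubics K) ≤ (U ⊔ V K t ((c' : ℕ) + 1)) * cubics K := by
              refine sup_le (mul_le_mul_left le_sup_left _) ?_
              intro w hw
              obtain ⟨v, hv, rfl⟩ := mem_mulS.1 hw
              exact mul_mem_mul (mem_sup_right (t_mem (Nat.lt_succ_self _))) hv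
            refine le_trans ?_ e1
            have f1 : U * cubics K ≤ H K 6 := (mul_le_mul' (hU.trans cubics_le) cubics_le).trans (H_mul_le 3 3)
            have f2 : mulS (t c') (cubics K) ≤ H K 6 :=
              (mulS_mono cubics_le).trans (mulS_H_le (d := 3) (e := 3) (h.mem_H c'))
            have i1 : Module.Finite K ↥(U * cubics K) := Submodule.finiteDimensional_of_le f1
            have i2 : Module.Finite K ↥(mulS (t c') (cubics K)) := Submodule.finiteDimensional_of_le f2
            have e2 := finrank_sup_add_finrank_inf_eq (U * cubics K) (mulS (t c') (cubics K))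
            have i3 : Module.Finite K ↥(mulS (t c') U) :=
              Submodule.finiteDimensional_of_le ((mulS_mono hU).trans f2)
            have e3 : U * cubics K ⊓ mulS (t c') (cubics K) ≤ mulS (t c') U := by
              rintro w ⟨hw1, hw2⟩
              obtain ⟨v, hv, rfl⟩ := mem_mulS.1 hw2
              refine mul_mem_mulS (hthird v hv _ (h.mem c') hc.1 hc'.1 ?_)
              rw [mul_comm v (t c')]
              exact hw1
            have e4 := Submodule.finrank_mono e3
            rw [finrank_mulS (h.ne c'), d1] at e4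
            rw [d2, finrank_mulS (h.ne c'), finrank_cubics] at e2
            refine (Submodule.eq_of_le_of_finrank_le (sup_le f1 f2) ?_).ge
            rw [finrank_H6]
            omega
          refine h.g2 hU' hL' (hin z) (hin z) zo' zo' (htop ?_)
          exact mul_mem_H (h.mem_H z) (h.mem_H z)
      exact left (key x h1.symm xo) (key y h2.symm yo)
    · right; left
      obtain ⟨u, hu, hui, up, up'⟩ := isIn2 h hc hc' h1 h2.symm h3.symm
      obtain ⟨w, hw, hwi, wp⟩ := hc.isIn h h1.symm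
      have hyy : ¬ Adj K t y y := h.g2 hU hLL hui hui yo yo (hmul _ hu _ hu up up' up)
      have hyx : ¬ Adj K t y c' := h.g2 hU hLL hui hwi yo xo (hmul _ hu _ hw up up' wp)
      have hxy : ¬ Adj K t c' y := fun hh => hyx (adj_symm hh)
      have hxx : Adj K t c' c' := hc'.loop h
      obtain ⟨g1, g2⟩ := graphT' h1 h2 h3 hcc c2 c3 hxx hyy hxy
      exact ⟨hxx, hyy, g1, g2, hxy⟩
    · right; right
      obtain ⟨u, hu, hui, up, up'⟩ := isIn2 h hc hc' h2 h1.symm h3
      obtain ⟨w, hw, hwi, wp⟩ := hc.isIn h h2.symm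
      have hxx : ¬ Adj K t x x := h.g2 hU hLL hui hui xo xo (hmul _ hu _ hu up up' up)
      have hxy : ¬ Adj K t x c' := h.g2 hU hLL hui hwi xo yo (hmul _ hu _ hw up up' wp)
      have hyx : ¬ Adj K t c' x := fun hh => hxy (adj_symm hh)
      have hyy : Adj K t c' c' := hc'.loop h
      have e : ({c, x, c'} : Finset (Fin 9)) = {c, c', x} := by
        ext i
        simp only [Finset.mem_insert, Finset.mem_singleton]
        tauto
      rw [e] at c2 c3
      obtain ⟨g1, g2⟩ := graphT' h2 h1 h3.symm hcc c2 c3 hyy hxx hyx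
      exact ⟨hyy, hxx, g1, g2, hxy⟩

end Pool.Agent.BR
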