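import Pool.Agent.Work.MP_be705b_al.I_Final
import Pool.Agent.Work.MP_be705b_al.II.Fin
import Pool.Agent.Work.MP_be705b_al.Change

set_option autoImplicit false

/-!
# MP_be705b_al: no quadratic Gröbner basis for reverse lexicographic orders, in any linear coordinates
-/

namespace Pool.Agent.BR

open MvPolynomial

variable {K : Type*} [Field K]

/-- there is no flag of the type considered -/
theorem no_fl {t : Fin 9 → Pol K} (h : Fl t) : False := by
  rcases v2 h with ⟨l, q, q', h1⟩ | ⟨a, b, m, h2⟩
  · exact no_T1 h1
  · exact h2.false

/-- no quadratic Gröbner basis, for linearly independent linear forms `t i` of the pinched Veronese ring -/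
theorem not_quadraticGB {t : Fin 9 → Pol K} (hli : LinearIndependent K t) (ht : ∀ i, t i ∈ cubics K) :
    ¬ QuadraticGB (RingHom.ker (aeval (R := K) t)) :=
  fun hQ => no_fl (fl_of_quadraticGB hli ht hQ)

/-- no quadratic Gröbner basis, in the coordinates given by an invertible matrix -/
theorem not_quadraticGB_change {A B : Matrix (Fin 9) (Fin 9) K} (hAB : A * B = 1) (hBA : B * A = 1) :
    ¬ QuadraticGB ((pvIdeal K).map (change B)) := by
  rw [map_change hAB hBA]
  exact not_quadraticGB (newForms_li hBA) (newForms_mem A)

end Pool.Agent.BR
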