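import Pool.Agent.Work.MP_be705b_al.Fl

set_option autoImplicit false
set_option linter.unusedSectionVars false
set_option linter.unusedVariables false

/-!
# MP_be705b_al: the classification of the first two coordinates

* type I: `t 0 = l * q`, `t 1 = l * q'` with coprime `q, q'` in `N`, `l` does not divide `q`;
  `A 1 = q * H 1`, the vertex `1` is a loop.
* type II: `t 0 = a * a * m`, `t 1 = a * b * m`, `a, b` independent; `A 1 = a * FF a b`, the vertex `1` is no loop.
-/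

namespace Pool.Agent.BR

open MvPolynomial Submodule Module

variable {K : Type*} [Field K]

/-- type I -/
structure T1 (t : Fin 9 → Pol K) (l q q' : Pol K) : Prop where
  fl : Fl t
  hl : l ∈ H K 1
  hq : q ∈ N K
  hq' : q' ∈ N K
  rel : IsRelPrime q q'
  ndvd : ¬ l ∣ q
  t0 : t 0 = l * q
  t1 : t 1 = l * q'

/-- type II -/
structure T2 (t : Fin 9 → Pol K) (a b m : Pol K) : Prop where
  fl : Fl t
  ha : a ∈ H K 1
  hb : b ∈ H K 1
  hm : m ∈ H K 1
  m0 : m ≠ 0
  li : LinearIndependent K ![a, b]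
  t0 : t 0 = a * a * m
  t1 : t 1 = a * b * m
  t2 : b * b * m ∈ cubics K

/-! ### counting lemma -/

theorem cl3_le_two {t : Fin 9 → Pol K} {X : Finset (Fin 9)} (h : cl K t 2 X ≤ 2) : cl K t 3 X ≤ 2 := by
  classical
  have h1 : ∀ S' ⊆ X, cl K t 2 S' ≤ S'.card := by
    intro S' hS'
    rcases Nat.lt_or_ge S'.card 2 with hc | hc
    · have : S'.card = 0 ∨ S'.card = 1 := by omega
      rcases this with h0 | h0
      · rw [Finset.card_eq_zero.1 h0, cl_empty]
        exact Nat.zero_le _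
      · obtain ⟨v, rfl⟩ := Finset.card_eq_one.1 h0
        rw [cl_erase 1 (Finset.mem_singleton_self v), cl_one, Finset.erase_singleton, cl_empty, add_zero]
        exact Finset.card_le_card (Finset.filter_subset _ _)
    · exact (cl_mono 2 hS').trans (h.trans hc)
  rw [cl_succ] at h ⊢
  refine le_trans ?_ h
  refine Finset.sum_le_sum fun v _ => ?_
  rw [cl_one]
  exact h1 _ (Finset.filter_subset _ _)

/-! ### `V 1` and `A 1` -/

theorem V_one (t : Fin 9 → Pol K) : V K t 1 = span K {t 0} := by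
  have h := V_succ (K := K) (t := t) 0
  simp only [Fin.val_zero, V_zero, bot_sup_eq, zero_add] at h
  exact h

theorem V_two (t : Fin 9 → Pol K) : V K t 2 = span K {t 0, t 1} := by
  have h := V_succ (K := K) (t := t) 1
  have e : ((1 : Fin 9) : ℕ) = 1 := rfl
  rw [e, V_one, ← span_union] at h
  rw [show (2 : ℕ) = 1 + 1 by rfl, h]
  congr 1

theorem span_mul_eq' (w : Pol K) (X : Submodule K (Pol K)) : span K {w} * X = mulS w X := by
  rw [span_mul_eq, mulS]
  congr 1
  ext x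
  simp [mul_comm]

theorem mem_A1 {t : Fin 9 → Pol K} (h : Fl t) {w : Pol K} :
    w ∈ A K t 1 ↔ w ∈ cubics K ∧ ∃ w' ∈ cubics K, t 0 * w' = w * t 1 := by
  rw [h.mem_A]
  have e : ((1 : Fin 9) : ℕ) = 1 := rfl
  rw [e, V_one, span_mul_eq', mem_mulS]

theorem col_V1 {t : Fin 9 → Pol K} (h : Fl t) {a a' : Pol K} (ha : a ∈ H K 6) (ha' : a' ∈ H K 6)
    (hat : t 0 * a' = a * t 1) : a ∈ A K t 1 * cubics K := by
  refine h.colA2 1 ha ?_
  have e : ((1 : Fin 9) : ℕ) = 1 := rfl
  rw [e, V_one, span_mul_eq', mem_mulS]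
  exact ⟨a', ha', hat⟩

/-! ### the cubic `x y z` and linear algebra of linear forms -/

theorem xyz_mem : (X 0 ^ 1 * X 1 ^ 1 * X 2 ^ 1 : Pol K) ∈ H K 3 := mono_mem' (by norm_num)

theorem xyz_notMem : (X 0 ^ 1 * X 1 ^ 1 * X 2 ^ 1 : Pol K) ∉ cubics K := by
  intro h
  have := (mem_cubics.1 h).2
  rw [cf_mono] at this
  simp at this

/-- a proper subspace of the space of linear forms vanishes at a point -/
theorem exists_point {M : Submodule K (Pol K)} (hM : M ≤ H K 1) (hne : M ≠ H K 1) :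
    ∃ p : Fin 3 → K, p ≠ 0 ∧ ∀ ν ∈ M, eval p ν = 0 := by
  have hlt : M < H K 1 := lt_of_le_of_ne hM hne
  have h1 : finrank K ↥M < 3 := by
    have := Submodule.finrank_lt_finrank_of_lt hlt
    rwa [finrank_H1] at this
  -- the coefficient vectors
  set L : (Fin 3 → K) →ₗ[K] Pol K :=
    { toFun := lin, map_add' := lin_add, map_smul' := fun k u => by rw [lin_smul, smul_eq_C_mul]; rfl } with hL
  have hLinj : Function.Injective L := fun u v huv => lin_inj huv
  set M' : Submodule K (Fin 3 → K) := M.comap L with hM'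
  have h2 : M'.map L = M := by
    apply le_antisymm
    · exact Submodule.map_comap_le _ _
    · intro ν hν
      refine mem_map.2 ⟨lc ν, ?_, lin_lc (hM hν)⟩
      show lin (lc ν) ∈ M
      rwa [lin_lc (hM hν)]
  have h3 : finrank K ↥M' < 3 := by
    rw [← h2] at h1
    rwa [← LinearEquiv.finrank_eq (equivMapOfInjective L hLinj M')] at h1
  have h4 : M' ≠ ⊤ := by
    intro h
    rw [h, finrank_top] at h3
    simp at h3
  obtain ⟨f, hf0, hf⟩ := Submodule.exists_le_ker_of_lt_top M' (lt_top_iff_ne_top.2 h4)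
  refine ⟨fun i => f (Pi.single i 1), ?_, ?_⟩
  · intro h
    apply hf0
    refine LinearMap.pi_ext' fun i => LinearMap.ext_ring ?_
    exact congrFun h i
  · intro ν hν
    have h5 : lc ν ∈ M' := by
      show lin (lc ν) ∈ M
      rwa [lin_lc (hM hν)]
    have h6 := hf h5
    rw [LinearMap.mem_ker] at h6
    rw [← lin_lc (hM hν), eval_lin]
    have h7 : lc ν = ∑ i, lc ν i • (Pi.single i 1 : Fin 3 → K) := by
      rw [Fin.sum_univ_three]
      ext i
      fin_cases i <;> simp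
    rw [h7, map_sum, Fin.sum_univ_three] at h6
    simp only [map_smul, smul_eq_mul] at h6
    simp only [dot]
    linear_combination h6

theorem H1_of_mul {M : Submodule K (Pol K)} (hM : M ≤ H K 1) {d : ℕ} {U : Submodule K (Pol K)}
    (hU : U ≤ H K d) (h : H K (1 + d) ≤ M * U) : M = H K 1 := by
  by_contra hne
  obtain ⟨p, hp, hv⟩ := exists_point hM hne
  obtain ⟨f, hf, hfp⟩ := exists_eval_ne hp (1 + d)
  have h1 : M * U ≤ IP p (1 + d) := by
    refine le_trans ?_ (IP_mul_le p 1 d)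
    refine mul_le_mul' ?_ hU
    intro ν hν
    exact mem_IP.2 ⟨hM hν, hv ν hν⟩
  exact hfp (mem_IP.1 (h1 (h hf))).2

theorem mem_N_of_mul {q : Pol K} (hq : q ∈ H K 2) (h : ∀ ν ∈ H K 1, q * ν ∈ cubics K) : q ∈ N K := by
  rw [mem_N]
  refine ⟨hq, ?_⟩
  have h1 : ∀ u : Fin 3 → K, dot u (hat q) = 0 := by
    intro u
    have h2 := (mem_cubics.1 (h _ (lin_mem u))).2
    rwa [mul_comm, cf111_lin_mul] at h2
  ext i
  fin_cases i
  · simpa [dot] using h1 ![1, 0, 0]
  · simpa [dot] using h1 ![0, 1, 0]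
  · simpa [dot] using h1 ![0, 0, 1]

/-! ### type I -/

theorem A1_type1 {t : Fin 9 → Pol K} (h : Fl t) {l q q' : Pol K} (hl : l ∈ H K 1) (hq : q ∈ H K 2)
    (hq' : q' ∈ H K 2) (hrel : IsRelPrime q q') (h0 : t 0 = l * q) (h1 : t 1 = l * q') :
    q ∈ N K ∧ q' ∈ N K ∧ A K t 1 = mulS q (H K 1) := by
  have hl0 : l ≠ 0 := by
    rintro rfl
    exact h.ne 0 (by rw [h0, zero_mul])
  have hq0 : q ≠ 0 := by
    rintro rfl
    exact h.ne 0 (by rw [h0, mul_zero])
  have hq0' : q' ≠ 0 := by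
    rintro rfl
    exact h.ne 1 (by rw [h1, mul_zero])
  set M : Submodule K (Pol K) := H K 1 ⊓ (cubics K).comap (LinearMap.mulLeft K q) ⊓
    (cubics K).comap (LinearMap.mulLeft K q') with hM
  have memM : ∀ ν, ν ∈ M ↔ (ν ∈ H K 1 ∧ q * ν ∈ cubics K) ∧ q' * ν ∈ cubics K := by
    intro ν
    simp [hM]
  have hMH : M ≤ H K 1 := fun ν hν => ((memM ν).1 hν).1.1
  have hA : A K t 1 = mulS q M := by
    ext w
    rw [mem_A1 h, mem_mulS]
    constructor
    · rintro ⟨hw, w', hw', he⟩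
      rw [h0, h1] at he
      have he' : q * w' = q' * w := by
        apply mul_left_cancel₀ hl0
        linear_combination he
      obtain ⟨s, e1, e2⟩ := rel_syz hrel hq0' he'
      have hs : s ∈ H K 1 := by
        refine quot_mem (a := 2) (b := 1) hq hq0 ?_
        rw [← e2]
        exact cubics_le hw
      refine ⟨s, (memM s).2 ⟨⟨hs, ?_⟩, ?_⟩, e2.symm⟩
      · rwa [← e2]
      · rwa [← e1]
    · rintro ⟨ν, hν, rfl⟩
      obtain ⟨⟨h2, h3⟩, h4⟩ := (memM ν).1 hν
      refine ⟨h3, q' * ν, h4, ?_⟩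
      rw [h0, h1]
      ring
  have hM1 : M = H K 1 := by
    refine H1_of_mul hMH (d := 3) cubics_le ?_
    intro s hs
    have e1 : q * s ∈ A K t 1 * cubics K := by
      refine col_V1 h (a' := q' * s) (mul_mem_H hq hs) (mul_mem_H hq' hs) ?_
      rw [h0, h1]
      ring
    rw [hA, mulS_mul] at e1
    exact (mul_mem_mulS_iff hq0).1 e1
  refine ⟨?_, ?_, by rw [hA, hM1]⟩
  · refine mem_N_of_mul hq fun ν hν => ?_
    rw [← hM1] at hν
    exact ((memM ν).1 hν).1.2
  · refine mem_N_of_mul hq' fun ν hν => ?_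
    rw [← hM1] at hν
    exact ((memM ν).1 hν).2

theorem exists_not_dvd {l : Pol K} (hl : l ∈ H K 1) (h0 : l ≠ 0) (d : ℕ) :
    ∃ f ∈ H K d, f ≠ 0 ∧ ¬ l ∣ f := by
  -- some variable is not divisible by `l`
  have h1 : ∃ i : Fin 3, ¬ l ∣ X i := by
    by_contra hcon
    push Not at hcon
    have hX : ∀ i : Fin 3, (X i : Pol K) ∈ H K 1 := fun i => isHomogeneous_X K i
    obtain ⟨c, hc⟩ := dvd_lin hl (hX 0) h0 (hcon 0)
    obtain ⟨c', hc'⟩ := dvd_lin hl (hX 1) h0 (hcon 1)
    have h2 : C c' * (X 0 : Pol K) = C c * X 1 := by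
      rw [hc, hc']
      ring
    have h3 := congrArg (cf (K := K) 1 0 0) h2
    have a0 : cf 1 0 0 (X 0 : Pol K) = 1 := by
      have h := cf_mono (K := K) 1 0 0 1 0 0
      simpa using h
    have a1 : cf 1 0 0 (X 1 : Pol K) = 0 := by
      have h := cf_mono (K := K) 1 0 0 0 1 0
      simpa using h
    rw [cf_C_mul, cf_C_mul, a0, a1, mul_one, mul_zero] at h3
    rw [h3, map_zero, zero_mul] at hc'
    exact X_ne_zero (R := K) (1 : Fin 3) hc'
  obtain ⟨i, hi⟩ := h1
  refine ⟨X i ^ d, isHomogeneous_X_pow _ _, pow_ne_zero _ (X_ne_zero i), fun hd => hi ?_⟩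
  exact (prime_lin hl h0).dvd_of_dvd_pow hd

theorem type1_ndvd {t : Fin 9 → Pol K} (h : Fl t) {l q q' : Pol K} (hl : l ∈ H K 1) (hq : q ∈ H K 2)
    (hq' : q' ∈ H K 2) (hrel : IsRelPrime q q') (h0 : t 0 = l * q) (h1 : t 1 = l * q') :
    Adj K t 1 1 ∧ ¬ l ∣ q := by
  have hl0 : l ≠ 0 := by
    rintro rfl
    exact h.ne 0 (by rw [h0, zero_mul])
  have hq0 : q ≠ 0 := by
    rintro rfl
    exact h.ne 0 (by rw [h0, mul_zero])
  obtain ⟨-, -, hA⟩ := A1_type1 h hl hq hq' hrel h0 h1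
  have hloop : Adj K t 1 1 := by
    rw [h.loop_iff, hA, mem_mulS]
    rintro ⟨ν, hν, he⟩
    have h2 : q ∣ q' * l := ⟨ν, by rw [he, h1]; ring⟩
    exact hl0 (eq_zero_of_dvd hq hl (dvd_of_rel hrel h2) (by norm_num))
  refine ⟨hloop, ?_⟩
  intro hd
  obtain ⟨q1, hq1, rfl⟩ := exists_quot (a := 1) (b := 1) hl hl0 hq hd
  obtain ⟨f, hf, hf0, hfd⟩ := exists_not_dvd hl hl0 5
  have hV : V K t ((1 : Fin 9) : ℕ) ≤ A K t 1 := V_le_A 1
  have e1 : q1 * f ∈ (V K t ((1 : Fin 9) : ℕ) ⊔ A K t 1) * cubics K := by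
    refine h.nzd2 (h.V_le _) (h.llV _) le_rfl (t_notMem h.li 1) hloop (mul_mem_H hq1 hf) ?_
    rw [sup_eq_right.2 hV, hA, mulS_mul, mem_mulS, H_mul]
    refine ⟨f * q', ?_, ?_⟩
    · have h5 : f * q' ∈ H K (5 + 2) := mul_mem_H hf hq'
      exact h5
    · rw [h1]
      ring
  rw [sup_eq_right.2 hV, hA, mulS_mul, mem_mulS] at e1
  obtain ⟨s, hs, he⟩ := e1
  have hq10 : q1 ≠ 0 := right_ne_zero_of_mul hq0
  apply hfd
  refine ⟨s, ?_⟩
  apply mul_left_cancel₀ hq10
  linear_combination -he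

/-! ### type II -/

/-- the cross product -/
def cross (u v : Fin 3 → K) : Fin 3 → K :=
  ![u 1 * v 2 - u 2 * v 1, u 2 * v 0 - u 0 * v 2, u 0 * v 1 - u 1 * v 0]

theorem dot_cross_left (u v : Fin 3 → K) : dot u (cross u v) = 0 := by
  simp [dot, cross]
  ring

theorem dot_cross_right (u v : Fin 3 → K) : dot v (cross u v) = 0 := by
  simp [dot, cross]
  ring

theorem lc_li {a b : Pol K} (ha : a ∈ H K 1) (hb : b ∈ H K 1) (h : LinearIndependent K ![a, b]) :
    LinearIndependent K ![lc a, lc b] := by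
  rw [LinearIndependent.pair_iff] at h ⊢
  intro x y hxy
  refine h x y ?_
  rw [← lin_lc ha, ← lin_lc hb, smul_eq_C_mul, smul_eq_C_mul, ← lin_smul, ← lin_smul, ← lin_add, hxy,
    lin_eq_zero]

theorem cross_ne {u v : Fin 3 → K} (h : LinearIndependent K ![u, v]) : cross u v ≠ 0 := by
  intro h0
  have e0 := congrFun h0 0
  have e1 := congrFun h0 1
  have e2 := congrFun h0 2
  simp only [cross, Pi.zero_apply, Matrix.cons_val_zero, Matrix.cons_val_one, Matrix.cons_val] at e0 e1 e2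
  have hu : u ≠ 0 := h.ne_zero 0
  obtain ⟨i, hi⟩ : ∃ i, u i ≠ 0 := by
    by_contra hcon
    push Not at hcon
    exact hu (funext hcon)
  rw [LinearIndependent.pair_iff] at h
  have h2 : v i • u + (-(u i)) • v = 0 := by
    ext k
    simp only [Pi.add_apply, Pi.smul_apply, smul_eq_mul, Pi.zero_apply]
    fin_cases i <;> fin_cases k <;> simp only [Fin.mk_zero, Fin.mk_one, Fin.reduceFinMk] <;>
      first
        | ring1
        | linear_combination e0
        | linear_combination e1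
        | linear_combination e2
        | linear_combination -e0
        | linear_combination -e1
        | linear_combination -e2
  have h3 := (h _ _ h2).2
  exact hi (neg_eq_zero.1 h3)

/-- vectors orthogonal to `u` and `v` are multiples of the cross product -/
theorem eq_smul_cross {u v w : Fin 3 → K} (h : LinearIndependent K ![u, v]) (h1 : dot u w = 0)
    (h2 : dot v w = 0) : ∃ c : K, w = c • cross u v := by
  have hc := cross_ne h
  obtain ⟨i, hi⟩ : ∃ i, cross u v i ≠ 0 := by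
    by_contra hcon
    push Not at hcon
    exact hc (funext hcon)
  refine ⟨w i / cross u v i, ?_⟩
  ext k
  simp only [Pi.smul_apply, smul_eq_mul]
  rw [div_mul_eq_mul_div, eq_div_iff hi]
  simp only [dot] at h1 h2
  fin_cases i <;> fin_cases k <;>
    simp only [cross, Fin.mk_zero, Fin.mk_one, Fin.reduceFinMk, Fin.isValue, Matrix.cons_val_zero, Matrix.cons_val_one,
      Matrix.cons_val] <;>
    first
      | ring1
      | linear_combination (u 2) * h2 - (v 2) * h1
      | linear_combination (v 2) * h1 - (u 2) * h2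
      | linear_combination (u 1) * h2 - (v 1) * h1
      | linear_combination (v 1) * h1 - (u 1) * h2
      | linear_combination (u 0) * h2 - (v 0) * h1
      | linear_combination (v 0) * h1 - (u 0) * h2

theorem mem_FF {a b κ : Pol K} (ha : a ∈ H K 1) (hb : b ∈ H K 1) :
    κ ∈ FF a b ↔ κ ∈ H K 2 ∧ a * κ ∈ cubics K ∧ b * κ ∈ cubics K := by
  rw [FF, mem_inf, mem_KK' ha, mem_KK' hb]
  tauto

theorem FF_eq {a b : Pol K} (ha : a ∈ H K 1) (hb : b ∈ H K 1) (h : LinearIndependent K ![a, b]) :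
    FF a b = N K ⊔ span K {cr (cross (lc a) (lc b))} := by
  apply le_antisymm
  · intro κ hκ
    obtain ⟨h1, h2⟩ := mem_inf.1 hκ
    rw [mem_KK ha] at h1
    rw [mem_KK hb] at h2
    obtain ⟨c, hc⟩ := eq_smul_cross (lc_li ha hb h) h1.2 h2.2
    rw [← sq_add_cr h1.1, hc]
    refine add_mem (mem_sup_left (sq_mem_N _)) (mem_sup_right (mem_span_singleton.2 ⟨c, ?_⟩))
    simp only [cr, Pi.smul_apply, smul_eq_mul, map_mul, smul_eq_C_mul]
    ring
  · refine sup_le (le_inf (N_le_KK ha) (N_le_KK hb)) ?_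
    rw [span_singleton_le_iff_mem, FF, mem_inf, mem_KK ha, mem_KK hb, (cf_cr _).2]
    exact ⟨⟨cr_mem _, dot_cross_left _ _⟩, cr_mem _, dot_cross_right _ _⟩

theorem finrank_N : finrank K ↥(N K) = 3 := by
  have h1 : N K = span K ((fun p : ℕ × ℕ × ℕ => (X 0 ^ p.1 * X 1 ^ p.2.1 * X 2 ^ p.2.2 : Pol K)) ''
      ({(2, 0, 0), (0, 2, 0), (0, 0, 2)} : Finset (ℕ × ℕ × ℕ))) := by
    rw [N]
    congr 1
    ext f
    simp only [Set.mem_insert_iff, Set.mem_singleton_iff, Finset.coe_insert, Finset.coe_singleton,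
      Set.image_insert_eq, Set.image_singleton]
    simp
  rw [h1, finrank_span_mono]
  rfl

theorem finrank_FF {a b : Pol K} (ha : a ∈ H K 1) (hb : b ∈ H K 1) (h : LinearIndependent K ![a, b]) :
    finrank K ↥(FF a b) = 4 := by
  rw [FF_eq ha hb h]
  have hne : cr (cross (lc a) (lc b)) ∉ N K := by
    intro hmem
    have := hat_of_N hmem
    rw [(cf_cr _).2] at this
    exact cross_ne (lc_li ha hb h) this
  have : Module.Finite K ↥(N K) := Submodule.finiteDimensional_of_le N_le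
  have h1 := finrank_sup_add_finrank_inf_eq (N K) (span K {cr (cross (lc a) (lc b))})
  have h2 : N K ⊓ span K {cr (cross (lc a) (lc b))} = ⊥ := by
    rw [eq_bot_iff]
    rintro x ⟨hx1, hx2⟩
    obtain ⟨c, rfl⟩ := mem_span_singleton.1 hx2
    by_cases hc : c = 0
    · rw [hc, zero_smul]
      exact zero_mem _
    · exfalso
      apply hne
      have := smul_mem _ c⁻¹ hx1
      rwa [smul_smul, inv_mul_cancel₀ hc, one_smul] at this
  have h3 : cr (cross (lc a) (lc b)) ≠ 0 := by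
    intro h0
    exact hne (by rw [h0]; exact zero_mem _)
  rw [h2, finrank_bot, finrank_N, finrank_span_singleton h3] at h1
  omega

theorem FF_mul {a b : Pol K} (ha : a ∈ H K 1) (hb : b ∈ H K 1) (h : LinearIndependent K ![a, b]) :
    FF a b * cubics K = H K 5 := by
  refine mul_cubics_eq (κ := cr (cross (lc a) (lc b))) ?_ ?_ ?_ ?_
  · rw [FF_eq ha hb h]
    exact le_sup_left
  · exact inf_le_left.trans (KK_le a)
  · rw [FF_eq ha hb h]
    exact mem_sup_right (mem_span_singleton_self _)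
  · intro hmem
    have := hat_of_N hmem
    rw [(cf_cr _).2] at this
    exact cross_ne (lc_li ha hb h) this

theorem li_of_rel {a b : Pol K} (ha : a ∈ H K 1) (hb : b ∈ H K 1) (ha0 : a ≠ 0) (hb0 : b ≠ 0)
    (h : IsRelPrime a b) : LinearIndependent K ![a, b] := by
  rw [LinearIndependent.pair_iff]
  intro x y hxy
  have hx : x = 0 := by
    by_contra hx
    have h1 : b ∣ a := by
      refine ⟨C (-(y / x)), ?_⟩
      have h2 : a = (-(y / x)) • b := by
        have h3 : x • a = -(y • b) := eq_neg_of_add_eq_zero_left hxy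
        rw [← one_smul K a, ← inv_mul_cancel₀ hx, mul_smul, h3, smul_neg, smul_smul, neg_smul,
          div_eq_inv_mul]
      rw [mul_comm, ← smul_eq_C_mul]
      exact h2
    exact not_isUnit hb hb0 (h h1 dvd_rfl)
  subst hx
  rw [zero_smul, zero_add] at hxy
  exact ⟨rfl, (smul_eq_zero.1 hxy).resolve_right hb0⟩

theorem A1_type2 {t : Fin 9 → Pol K} (h : Fl t) {g a b : Pol K} (hg : g ∈ H K 2) (ha : a ∈ H K 1)
    (hb : b ∈ H K 1) (hli : LinearIndependent K ![a, b]) (h0 : t 0 = g * a) (h1 : t 1 = g * b) :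
    A K t 1 = mulS a (FF a b) := by
  have hg0 : g ≠ 0 := by
    rintro rfl
    exact h.ne 0 (by rw [h0, zero_mul])
  have ha0 : a ≠ 0 := hli.ne_zero 0
  have hb0 : b ≠ 0 := hli.ne_zero 1
  have hrel := relPrime_lin_lin ha hb hli
  ext w
  rw [mem_A1 h, mem_mulS]
  constructor
  · rintro ⟨hw, w', hw', he⟩
    rw [h0, h1] at he
    have he' : a * w' = b * w := by
      apply mul_left_cancel₀ hg0
      linear_combination he
    obtain ⟨s, e1, e2⟩ := rel_syz hrel hb0 he'
    have hs : s ∈ H K 2 := by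
      refine quot_mem (a := 1) (b := 2) ha ha0 ?_
      rw [← e2]
      exact cubics_le hw
    refine ⟨s, (mem_FF ha hb).2 ⟨hs, ?_, ?_⟩, e2.symm⟩
    · rwa [← e2]
    · rwa [← e1]
  · rintro ⟨κ, hκ, rfl⟩
    obtain ⟨h2, h3, h4⟩ := (mem_FF ha hb).1 hκ
    refine ⟨h3, b * κ, h4, ?_⟩
    rw [h0, h1]
    ring

theorem type2_noloop {t : Fin 9 → Pol K} (h : Fl t) {g a b : Pol K} (hg : g ∈ H K 2) (ha : a ∈ H K 1)
    (hb : b ∈ H K 1) (hli : LinearIndependent K ![a, b]) (h0 : t 0 = g * a) (h1 : t 1 = g * b) :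
    ¬ Adj K t 1 1 := by
  intro hloop
  have hA := A1_type2 h hg ha hb hli h0 h1
  have ha0 : a ≠ 0 := hli.ne_zero 0
  have e1 := h.cl1 (h.A_le 1) (h.llA 1)
  have e2 := h.cl2 (h.A_le 1) (h.llA 1)
  have e3 := h.cl3 (h.A_le 1) (h.llA 1)
  have f1 : finrank K ↥(A K t 1) = 4 := by rw [hA, finrank_mulS ha0, finrank_FF ha hb hli]
  have f2 : finrank K ↥(A K t 1 * cubics K) = 21 := by
    rw [hA, mulS_mul, FF_mul ha hb hli, finrank_mulS ha0, finrank_H5]
  have f3 : finrank K ↥(A K t 1 * H K 6) = 45 := by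
    have : A K t 1 * H K 6 = mulS a (H K 8) := by
      rw [hA, mulS_mul, ← cubics_mul_cubics, ← mul_assoc, FF_mul ha hb hli, H_mul_cubics]
    rw [this, finrank_mulS ha0, finrank_H8]
  rw [f1] at e1
  rw [f2] at e2
  rw [f3] at e3
  set S := out K t (A K t 1) with hS
  have hS1 : (1 : Fin 9) ∈ S := by
    rw [hS, h.outA, mem_nb]
    refine ⟨?_, hloop⟩
    rw [← notMem_inn, inn_V h.li]
    exact lt_irrefl _
  have hnb : nb K t 1 S = S := by
    ext u
    rw [mem_nb, hS, h.outA, mem_nb]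
    tauto
  have g2 : cl K t 2 S = cl K t 1 (nb K t 1 S) + cl K t 2 (S.erase 1) := cl_erase 1 hS1
  have g3 : cl K t 3 S = cl K t 2 (nb K t 1 S) + cl K t 3 (S.erase 1) := cl_erase 2 hS1
  rw [hnb, cl_one] at g2
  rw [hnb] at g3
  have := cl3_le_two (t := t) (X := S.erase 1) (by omega)
  omega

/-- the classification of `V 2` -/
theorem v2 {t : Fin 9 → Pol K} (h : Fl t) :
    (∃ l q q', T1 t l q q') ∨ ∃ a b m, T2 t a b m := by
  obtain ⟨k, d, f, g, hk, -, hd, hd0, hf, hg, e0, e1, hrel⟩ := exists_gcd (h.mem_H 0) (h.mem_H 1) (h.ne 0) (h.ne 1)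
  have hf0 : f ≠ 0 := by
    rintro rfl
    exact h.ne 0 (by rw [e0, mul_zero])
  have hg0 : g ≠ 0 := by
    rintro rfl
    exact h.ne 1 (by rw [e1, mul_zero])
  have hk4 : k = 0 ∨ k = 1 ∨ k = 2 ∨ k = 3 := by omega
  rcases hk4 with rfl | rfl | rfl | rfl
  · -- coprime
    exfalso
    obtain ⟨c, rfl⟩ := mem_H0.1 hd
    have hc : c ≠ 0 := by
      rintro rfl
      exact hd0 (map_zero _)
    have hf3 : f ∈ H K 3 := hf
    have hg3 : g ∈ H K 3 := hg
    have h1 : f * (X 0 ^ 1 * X 1 ^ 1 * X 2 ^ 1) ∈ A K t 1 * cubics K := by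
      refine col_V1 h (a' := g * (X 0 ^ 1 * X 1 ^ 1 * X 2 ^ 1)) (mul_mem_H hf3 xyz_mem)
        (mul_mem_H hg3 xyz_mem) ?_
      rw [e0, e1]
      ring
    have h2 : A K t 1 ≤ mulS f (H K 0) := by
      intro w hw
      obtain ⟨hw1, w', hw', he⟩ := (mem_A1 h).1 hw
      rw [e0, e1] at he
      have he' : f * w' = g * w := by
        apply mul_left_cancel₀ hd0
        linear_combination he
      obtain ⟨s, e3, e4⟩ := rel_syz hrel hg0 he'
      refine mem_mulS.2 ⟨s, quot_mem (a := 3) (b := 0) hf3 hf0 ?_, e4.symm⟩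
      rw [← e4]
      exact cubics_le hw1
    have h3 : A K t 1 * cubics K ≤ mulS f (cubics K) := by
      refine (mul_le_mul_left h2 _).trans ?_
      rw [mulS_mul]
      refine mulS_mono ?_
      rw [mul_le]
      intro m hm w hw
      obtain ⟨c', rfl⟩ := mem_H0.1 hm
      rw [← smul_eq_C_mul]
      exact smul_mem _ _ hw
    exact xyz_notMem ((mul_mem_mulS_iff hf0).1 (h3 h1))
  · -- type I
    left
    have hf2 : f ∈ H K 2 := hf
    have hg2 : g ∈ H K 2 := hg
    obtain ⟨h1, h2, -⟩ := A1_type1 h hd hf2 hg2 hrel e0 e1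
    exact ⟨d, f, g, h, hd, h1, h2, hrel, (type1_ndvd h hd hf2 hg2 hrel e0 e1).2, e0, e1⟩
  · -- type II
    right
    have hf1 : f ∈ H K 1 := hf
    have hg1 : g ∈ H K 1 := hg
    have hli := li_of_rel hf1 hg1 hf0 hg0 hrel
    have hA := A1_type2 h hd hf1 hg1 hli e0 e1
    have hno := type2_noloop h hd hf1 hg1 hli e0 e1
    rw [h.loop_iff, not_not, hA, mem_mulS] at hno
    obtain ⟨κ, hκ, he⟩ := hno
    rw [e1] at he
    have h2 : f ∣ g * d := ⟨κ, by rw [he]; ring⟩
    obtain ⟨m, hm, hdm⟩ := exists_quot (a := 1) (b := 1) hf1 hf0 hd (dvd_of_rel hrel h2)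
    have hm0 : m ≠ 0 := by
      rintro rfl
      rw [mul_zero] at hdm
      exact hd0 hdm
    have h3 : κ = m * g := by
      apply mul_left_cancel₀ hf0
      rw [he, hdm]
      ring
    refine ⟨f, g, m, h, hf1, hg1, hm, hm0, hli, ?_, ?_, ?_⟩
    · rw [e0, hdm]
      ring
    · rw [e1, hdm]
      ring
    · have h4 := ((mem_FF hf1 hg1).1 hκ).2.2
      rw [h3] at h4
      have h5 : g * g * m = g * (m * g) := by ring
      rwa [h5]
  · -- dependent
    exfalso
    have hf' : f ∈ H K 0 := hf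
    have hg' : g ∈ H K 0 := hg
    obtain ⟨c, rfl⟩ := mem_H0.1 hf'
    obtain ⟨c', rfl⟩ := mem_H0.1 hg'
    have hc : c ≠ 0 := by
      rintro rfl
      exact hf0 (map_zero _)
    apply t_notMem h.li (1 : Fin 9)
    have e : ((1 : Fin 9) : ℕ) = 1 := rfl
    rw [e, V_one, mem_span_singleton]
    refine ⟨c' / c, ?_⟩
    rw [e0, e1, smul_eq_C_mul]
    have h5 : (C (c' / c) * C c : Pol K) = C c' := by
      rw [← map_mul, div_mul_cancel₀ _ hc]
    linear_combination d * h5

namespace T1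

variable {t : Fin 9 → Pol K} {l q q' : Pol K} (h : T1 t l q q')

include h

theorem A1 : A K t 1 = mulS q (H K 1) :=
  (A1_type1 h.fl h.hl (N_le h.hq) (N_le h.hq') h.rel h.t0 h.t1).2.2

theorem loop : Adj K t 1 1 :=
  (type1_ndvd h.fl h.hl (N_le h.hq) (N_le h.hq') h.rel h.t0 h.t1).1

theorem l0 : l ≠ 0 := by
  rintro rfl
  exact h.fl.ne 0 (by rw [h.t0, zero_mul])

theorem q0 : q ≠ 0 := by
  rintro rfl
  exact h.fl.ne 0 (by rw [h.t0, mul_zero])

theorem q0' : q' ≠ 0 := by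
  rintro rfl
  exact h.fl.ne 1 (by rw [h.t1, mul_zero])

theorem V2 : V K t 2 = mulS l (span K {q, q'}) := by
  rw [V_two, mulS, Submodule.map_span, Set.image_pair, h.t0, h.t1]
  rfl

end T1

namespace T2

variable {t : Fin 9 → Pol K} {a b m : Pol K} (h : T2 t a b m)

include h

theorem A1 : A K t 1 = mulS a (FF a b) :=
  A1_type2 (g := a * m) h.fl (mul_mem_H h.ha h.hm) h.ha h.hb h.li (by rw [h.t0]; ring) (by rw [h.t1]; ring)

theorem noloop : ¬ Adj K t 1 1 :=
  type2_noloop (g := a * m) h.fl (mul_mem_H h.ha h.hm) h.ha h.hb h.li (by rw [h.t0]; ring) (by rw [h.t1]; ring)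

theorem a0 : a ≠ 0 := h.li.ne_zero 0

theorem b0 : b ≠ 0 := h.li.ne_zero 1

theorem V2 : V K t 2 = mulS (a * m) (span K {a, b}) := by
  rw [V_two, mulS, Submodule.map_span, Set.image_pair, h.t0, h.t1]
  congr 2
  · show _ = a * m * a
    ring
  · show ({a * b * m} : Set (Pol K)) = {a * m * b}
    congr 1
    ring

end T2

end Pool.Agent.BR
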